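import Pool.Agent.Lib.MP_788af2_nt.AS.Defs

/-!
From odd degrees to all degrees.
-/

set_option linter.unusedSectionVars false

namespace Pool.Agent.Lib.MP_788af2_nt.AS

open Polynomial WeierstrassCurve Pool.Agent.Lib.MP_a3f657_nt.Two

variable {k : Type} [Field k] [Finite k] [CharP k 2]

lemma exists_box (N : ℕ) : ∃ A : Finset k[X], A.Nonempty ∧ ∀ a, a ∈ A ↔ a.natDegree ≤ N := by
  have h : {a : k[X] | a.natDegree ≤ N}.Finite := by
    refine (finite_degree_lt (k := k) ((N + 1 : ℕ) : WithBot ℕ)).subset fun a ha => ?_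
    exact lt_of_le_of_lt (degree_le_of_natDegree_le ha) (by exact_mod_cast Nat.lt_succ_self N)
  exact ⟨h.toFinset, ⟨0, by simp⟩, fun a => by simp⟩

namespace AllDegAux

/-- The polynomials of degree at most `N`. -/
noncomputable def box (k : Type) [Field k] [Finite k] [CharP k 2] (N : ℕ) : Finset k[X] :=
  (exists_box N).choose

lemma mem_box {N : ℕ} {a : k[X]} : a ∈ box k N ↔ a.natDegree ≤ N := (exists_box N).choose_spec.2 a

lemma box_pos (N : ℕ) : 1 ≤ (box k N).card := (exists_box N).choose_spec.1.card_pos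

lemma sum_succ [Fintype k] (N : ℕ) (g : k → k[X]) (hg : ∀ x, (g x).natDegree ≤ N + 1)
    (hb : Function.Bijective fun x => (g x).coeff (N + 1)) (ψ : k[X] → ℝ) :
    ∑ a ∈ box k (N + 1), ψ a = ∑ x : k, ∑ a ∈ box k N, ψ (a + g x) := by
  rw [← Finset.sum_product' (f := fun x a => ψ (a + g x))]
  symm
  refine Finset.sum_bij (fun p _ => p.2 + g p.1) ?_ ?_ ?_ (fun _ _ => rfl)
  · rintro ⟨x, a⟩ hp
    rw [Finset.mem_product, mem_box] at hp
    rw [mem_box]
    exact natDegree_add_le_of_degree_le (hp.2.trans (Nat.le_succ N)) (hg x)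
  · rintro ⟨x, a⟩ hp ⟨y, b⟩ hq e
    rw [Finset.mem_product, mem_box] at hp hq
    have e' : a + g x = b + g y := e
    have h1 : a.coeff (N + 1) = 0 := coeff_eq_zero_of_natDegree_lt (Nat.lt_succ_of_le hp.2)
    have h2 : b.coeff (N + 1) = 0 := coeff_eq_zero_of_natDegree_lt (Nat.lt_succ_of_le hq.2)
    have h3 := congrArg (fun f : k[X] => f.coeff (N + 1)) e'
    simp only [coeff_add, h1, h2, zero_add] at h3
    obtain rfl : x = y := hb.1 h3
    rw [add_right_cancel e']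
  · intro a ha
    rw [mem_box] at ha
    obtain ⟨x, hx⟩ := hb.2 (a.coeff (N + 1))
    refine ⟨(x, a - g x), ?_, sub_add_cancel _ _⟩
    rw [Finset.mem_product, mem_box]
    refine ⟨Finset.mem_univ _, ?_⟩
    rw [natDegree_le_iff_coeff_eq_zero]
    intro n hn
    rw [coeff_sub]
    rcases Nat.lt_or_ge (N + 1) n with h | h
    · rw [coeff_eq_zero_of_natDegree_lt (lt_of_le_of_lt ha h),
        coeff_eq_zero_of_natDegree_lt (lt_of_le_of_lt (hg x) h), sub_zero]
    · obtain rfl : n = N + 1 := by omega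
      exact sub_eq_zero.2 hx.symm

lemma card_succ [Fintype k] (N : ℕ) :
    ((box k (N + 1)).card : ℝ) = Fintype.card k * (box k N).card := by
  have := sum_succ (k := k) N (fun x => monomial (N + 1) x) (fun x => natDegree_monomial_le x)
    (by simpa using Function.bijective_id) fun _ => 1
  simpa using this

lemma sum_even [Fintype k] (n : ℕ) (ψ : k[X] → ℝ) (hψ : ∀ a z, ψ (a + z ^ 2 + z) = ψ a) :
    ∑ a ∈ box k (2 * n + 1 + 1), ψ a = Fintype.card k * ∑ a ∈ box k (2 * n + 1), ψ a := by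
  have e : ∀ x : k, (monomial (n + 1) x : k[X]) ^ 2 = monomial (2 * n + 1 + 1) (x ^ 2) := by
    intro x
    rw [monomial_pow]
    congr 2
    ring
  rw [sum_succ (k := k) (2 * n + 1) (fun x => monomial (n + 1) x ^ 2 + monomial (n + 1) x)]
  · simp only [← add_assoc, hψ]
    simp
  · intro x
    rw [e]
    exact natDegree_add_le_of_degree_le (natDegree_monomial_le _)
      ((natDegree_monomial_le _).trans (by omega))
  · have : (fun x : k => (monomial (n + 1) x ^ 2 + monomial (n + 1) x : k[X]).coeff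
        (2 * n + 1 + 1)) = fun x => x ^ 2 := by
      funext x
      rw [e, coeff_add, coeff_monomial_same, coeff_monomial_of_ne _ (by omega), add_zero]
    rw [this]
    exact Finite.injective_iff_bijective.1 fun x y h => sq_inj h

end AllDegAux

open AllDegAux in
theorem all_deg (φ : k[X] → ℝ) (hφ : ∀ a z, φ (a + z ^ 2 + z) = φ a) (c : ℝ) (M : ℕ)
    (h : ∀ e, M ≤ e → Odd e → ∀ A : Finset k[X], (∀ a, a ∈ A ↔ a.natDegree = e) →
      ∑ a ∈ A, φ a ≤ c * A.card) (ε : ℝ) (hε : 0 < ε) :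
    ∃ N₀ : ℕ, ∀ N, N₀ ≤ N → ∀ A : Finset k[X], (∀ a, a ∈ A ↔ a.natDegree ≤ N) →
      ∑ a ∈ A, φ a ≤ (c + ε) * A.card := by
  classical
  have := Fintype.ofFinite k
  have hq : (2 : ℝ) ≤ Fintype.card k := by exact_mod_cast Fintype.one_lt_card
  obtain ⟨U, hU⟩ : ∃ U : ℕ → ℝ, ∀ N, U N = ∑ a ∈ box k N, (φ a - c) := ⟨_, fun _ => rfl⟩
  obtain ⟨V, hV⟩ : ∃ V : ℕ → ℝ, ∀ N, V N = (box k N).card := ⟨_, fun _ => rfl⟩
  have hV1 : ∀ N, 1 ≤ V N := fun N => by rw [hV]; exact_mod_cast box_pos N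
  have s1 : ∀ n δ, U (2 * n + 1) ≤ δ * V (2 * n + 1) → U (2 * n + 1 + 1) ≤ δ * V (2 * n + 1 + 1) := by
    intro n δ H
    rw [hU, hV, card_succ, sum_even n (fun a => φ a - c) fun a z => by rw [hφ], ← hU, ← hV,
      mul_left_comm]
    exact mul_le_mul_of_nonneg_left H (by linarith)
  have s2 : ∀ N δ, 0 ≤ δ → M ≤ N + 1 → Odd (N + 1) → U N ≤ δ * V N →
      U (N + 1) ≤ δ / 2 * V (N + 1) := by
    intro N δ hδ hM ho H
    have hs : box k N ⊆ box k (N + 1) := fun a ha => mem_box.2 ((mem_box.1 ha).trans (Nat.le_succ N))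
    have h1 := h (N + 1) hM ho (box k (N + 1) \ box k N) fun a => by
      rw [Finset.mem_sdiff, mem_box, mem_box]; omega
    have h2 : U (N + 1) ≤ U N := by
      rw [hU, hU, ← Finset.sum_sdiff hs, Finset.sum_sub_distrib, Finset.sum_const, nsmul_eq_mul]
      linarith
    have h3 : V (N + 1) = Fintype.card k * V N := by rw [hV, hV, card_succ]
    have h4 : 2 * V N ≤ V (N + 1) := by
      rw [h3]
      exact mul_le_mul_of_nonneg_right hq (by linarith [hV1 N])
    nlinarith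
  obtain ⟨δ, hδ0, hδ⟩ : ∃ δ : ℝ, 0 ≤ δ ∧ U (2 * M + 1) ≤ δ * V (2 * M + 1) := by
    refine ⟨|U (2 * M + 1)|, abs_nonneg _, (le_abs_self _).trans ?_⟩
    exact le_mul_of_one_le_right (abs_nonneg _) (hV1 _)
  have s3 : ∀ j, U (2 * (M + j) + 1) ≤ δ * (1 / 2) ^ j * V (2 * (M + j) + 1) := by
    intro j
    induction j with
    | zero => simpa using hδ
    | succ j ih =>
      have := s2 (2 * (M + j) + 1 + 1) _ (by positivity) (by omega) ⟨M + j + 1, by ring⟩ (s1 _ _ ih)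
      rw [show 2 * (M + (j + 1)) + 1 = 2 * (M + j) + 1 + 1 + 1 by ring, pow_succ]
      linarith
  obtain ⟨j₀, hj₀⟩ := exists_pow_lt_of_lt_one (show 0 < ε / (δ + 1) by positivity)
    (show (1 / 2 : ℝ) < 1 by norm_num)
  have s4 : ∀ j, j₀ ≤ j → δ * (1 / 2) ^ j ≤ ε := by
    intro j hj
    have h1 : (1 / 2 : ℝ) ^ j ≤ (1 / 2) ^ j₀ := pow_le_pow_of_le_one (by norm_num) (by norm_num) hj
    have h2 : (1 / 2 : ℝ) ^ j * (δ + 1) ≤ ε := (le_div_iff₀ (by positivity)).1 (h1.trans hj₀.le)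
    have h3 : (0 : ℝ) ≤ (1 / 2) ^ j := by positivity
    linarith
  refine ⟨2 * (M + j₀) + 1, fun N hN A hA => ?_⟩
  obtain rfl : A = box k N := Finset.ext fun a => by rw [hA, mem_box]
  have s5 : U N ≤ ε * V N := by
    obtain ⟨j, hj, rfl | rfl⟩ : ∃ j, j₀ ≤ j ∧ (N = 2 * (M + j) + 1 ∨ N = 2 * (M + j) + 1 + 1) :=
      ⟨(N - 1) / 2 - M, by omega, by omega⟩
    · exact (s3 j).trans (mul_le_mul_of_nonneg_right (s4 j hj) (by linarith [hV1 (2 * (M + j) + 1)]))
    · exact (s1 _ _ (s3 j)).trans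
        (mul_le_mul_of_nonneg_right (s4 j hj) (by linarith [hV1 (2 * (M + j) + 1 + 1)]))
  rw [hU, hV, Finset.sum_sub_distrib, Finset.sum_const, nsmul_eq_mul] at s5
  linarith

end Pool.Agent.Lib.MP_788af2_nt.AS
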