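import Pool.Agent.Lib.MP_788af2_nt.AS.Defs

/-!
Ramsey theorem for hypergraphs.
-/

set_option linter.unusedSectionVars false

namespace Pool.Agent.Lib.MP_788af2_nt.AS

open Polynomial WeierstrassCurve Pool.Agent.Lib.MP_a3f657_nt.Two

/-- Ramsey theorem for subsets of one size `s`. -/
theorem ramsey_one (κ : Type) [Finite κ] (s : ℕ) : ∀ ρ : ℕ, ∃ N : ℕ, ∀ (α : Type) (B : Finset α)
    (col : Finset α → κ), N ≤ B.card → ∃ B' ⊆ B, B'.card = ρ ∧ ∃ k : κ,
      ∀ S ⊆ B', S.card = s → col S = k := by
  classical
  induction s with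
  | zero =>
    intro ρ
    refine ⟨ρ, fun α B col hB => ?_⟩
    obtain ⟨B', hB', hc⟩ := Finset.exists_subset_card_eq hB
    refine ⟨B', hB', hc, col ∅, fun S _ hS => ?_⟩
    rw [Finset.card_eq_zero.1 hS]
  | succ s ih =>
    have hend : ∀ r : ℕ, ∃ m : ℕ, ∀ (α : Type) (A : Finset α) (col : Finset α → κ),
        m ≤ A.card → ∃ B ⊆ A, B.card = r ∧ ∃ c : α → κ,
          ∀ S ⊆ B, S.card = s + 1 → ∃ x ∈ S, col S = c x := by
      intro r
      induction r with
      | zero =>
        refine ⟨0, fun α A col _ => ⟨∅, Finset.empty_subset _, rfl, fun _ => col ∅, ?_⟩⟩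
        intro S hS hc
        rw [Finset.subset_empty.1 hS] at hc
        simp at hc
      | succ r ihr =>
        obtain ⟨m, hm⟩ := ihr
        obtain ⟨N, hN⟩ := ih m
        refine ⟨N + 1, fun α A col hA => ?_⟩
        obtain ⟨x, hxA⟩ : A.Nonempty := Finset.card_pos.1 (by omega)
        have hc : N ≤ (A.erase x).card := by
          rw [Finset.card_erase_of_mem hxA]; omega
        obtain ⟨A', hA', hA'c, k, hk⟩ := hN α (A.erase x) (fun S => col (insert x S)) hc
        obtain ⟨B, hB, hBc, c, hcc⟩ := hm α A' col hA'c.ge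
        have hxB : x ∉ B := fun h => by
          have := hA' (hB h)
          simp at this
        refine ⟨insert x B, ?_, by rw [Finset.card_insert_of_notMem hxB, hBc],
          fun z => if z = x then k else c z, ?_⟩
        · intro z hz
          rcases Finset.mem_insert.1 hz with rfl | hz
          · exact hxA
          · exact Finset.mem_of_mem_erase (hA' (hB hz))
        · intro S hS hSc
          by_cases hxS : x ∈ S
          · refine ⟨x, hxS, ?_⟩
            have h1 : S.erase x ⊆ A' := by
              intro z hz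
              obtain ⟨hzx, hzS⟩ := Finset.mem_erase.1 hz
              rcases Finset.mem_insert.1 (hS hzS) with h | h
              · exact absurd h hzx
              · exact hB h
            have h2 : (S.erase x).card = s := by
              rw [Finset.card_erase_of_mem hxS]; omega
            have h3 := hk _ h1 h2
            simp only [Finset.insert_erase hxS] at h3
            simp only [if_true]
            exact h3
          · have h1 : S ⊆ B := by
              intro z hz
              rcases Finset.mem_insert.1 (hS hz) with h | h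
              · exact absurd (h ▸ hz) hxS
              · exact h
            obtain ⟨y, hyS, hy⟩ := hcc S h1 hSc
            refine ⟨y, hyS, ?_⟩
            have hyx : y ≠ x := fun h => hxS (h ▸ hyS)
            simp only [hyx, if_false]
            exact hy
    intro ρ
    have := Fintype.ofFinite κ
    obtain ⟨m, hm⟩ := hend (Fintype.card κ * ρ + 1)
    refine ⟨m, fun α A col hA => ?_⟩
    obtain ⟨B, hB, hBc, c, hcc⟩ := hm α A col hA
    have hc : (Finset.univ : Finset κ).card * ρ < B.card := by
      rw [hBc, Finset.card_univ]; omega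
    obtain ⟨k, -, hk⟩ := Finset.exists_lt_card_fiber_of_mul_lt_card_of_maps_to
      (s := B) (t := Finset.univ) (f := c) (fun _ _ => Finset.mem_univ _) hc
    obtain ⟨B', hB', hB'c⟩ := Finset.exists_subset_card_eq hk.le
    refine ⟨B', fun z hz => hB (Finset.mem_filter.1 (hB' hz)).1, hB'c, k, fun S hS hSc => ?_⟩
    obtain ⟨x, hxS, hx⟩ := hcc S (fun z hz => (Finset.mem_filter.1 (hB' (hS hz))).1) hSc
    rw [hx]
    exact (Finset.mem_filter.1 (hB' (hS hxS))).2

theorem ramsey (κ : Type) [Finite κ] (J ρ : ℕ) : ∃ N : ℕ, ∀ (α : Type) (B : Finset α)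
    (col : Finset α → κ), N ≤ B.card → ∃ B' ⊆ B, B'.card = ρ ∧
      ∀ S ⊆ B', ∀ S' ⊆ B', S.card = S'.card → S.card ≤ J → col S = col S' := by
  induction J with
  | zero =>
    refine ⟨ρ, fun α B col hB => ?_⟩
    obtain ⟨B', hB', hc⟩ := Finset.exists_subset_card_eq hB
    refine ⟨B', hB', hc, fun S _ S' _ h1 h2 => ?_⟩
    have h3 : S.card = 0 := by omega
    have h4 : S'.card = 0 := by omega
    rw [Finset.card_eq_zero.1 h3, Finset.card_eq_zero.1 h4]
  | succ J ih =>
    obtain ⟨N, hN⟩ := ih
    obtain ⟨M, hM⟩ := ramsey_one κ (J + 1) N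
    refine ⟨M, fun α B col hB => ?_⟩
    obtain ⟨A, hA, hAc, k, hk⟩ := hM α B col hB
    obtain ⟨B', hB', hB'c, h⟩ := hN α A col hAc.ge
    refine ⟨B', hB'.trans hA, hB'c, fun S hS S' hS' h1 h2 => ?_⟩
    by_cases h3 : S.card ≤ J
    · exact h S hS S' hS' h1 h3
    · rw [hk S (hS.trans hB') (by omega), hk S' (hS'.trans hB') (by omega)]

end Pool.Agent.Lib.MP_788af2_nt.AS
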