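import Pool.Agent.Lib.MP_788af2_nt.AS.SymCase
import Pool.Agent.Lib.MP_788af2_nt.AS.Ramsey

/-!
Anticoncentration on the cube.
-/

set_option linter.unusedSectionVars false

namespace Pool.Agent.Lib.MP_788af2_nt.AS

open Polynomial WeierstrassCurve Pool.Agent.Lib.MP_a3f657_nt.Two

theorem ac_pow {α : Type} [DecidableEq α] (A G : Finset α) (h : Disjoint A G) :
    ∀ f : Finset α → ℤ, ∑ S ∈ (A ∪ G).powerset, f S =
      ∑ S ∈ A.powerset, ∑ T ∈ G.powerset, f (S ∪ T) := by
  induction G using Finset.induction_on with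
  | empty => intro f; simp
  | insert a G ha ih =>
    intro f
    rw [Finset.disjoint_insert_right] at h
    have h1 : a ∉ A ∪ G := by simp [ha, h.1]
    rw [Finset.union_insert, Finset.sum_powerset_insert h1, ih h.2, ih h.2,
      ← Finset.sum_add_distrib]
    refine Finset.sum_congr rfl fun S _ => ?_
    rw [Finset.sum_powerset_insert ha]
    simp only [Finset.union_insert]

/-- The bound for all coefficient families that are symmetric at level `i` on `N` points. -/
def AcClaim (w J : ℕ) (η : ℝ) (i N : ℕ) : Prop :=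
  ∀ r ≤ w, ∀ (α : Type) [DecidableEq α] (B : Finset α), B.card = N →
    ∀ (c : ℕ → Finset α → ℤ) (N₀ : ℕ), (∀ j S, (2 : ℤ) ^ S.card ∣ c j S) →
    (∀ j ≤ r, ∀ S ⊆ B, ∀ S' ⊆ B, S.card = S'.card →
      (2 : ℤ) ^ min J (S.card + i) ∣ c j S - c j S') →
    Odd (c r ∅) → ((B.powerset.filter fun C => ∑ j ∈ Finset.range (r + 1),
      (∑ S ∈ C.powerset, c j S) * ((N₀ + C.card : ℕ) : ℤ) ^ j = 0).card : ℝ) ≤ η * 2 ^ N

theorem ac_step {w J : ℕ} {η : ℝ} {i i' N' : ℕ} (hi : i' ≤ i + 1) (h : AcClaim w J η i' N') :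
    ∃ N, AcClaim w J η i N := by
  have : NeZero (2 ^ J) := ⟨by positivity⟩
  obtain ⟨N, hN⟩ := ramsey (Fin (w + 1) → ZMod (2 ^ J)) J N'
  refine ⟨N, fun r hr α _ B hB c N₀ h1 h2 h3 => ?_⟩
  obtain ⟨B', hB', hc, hcol⟩ := hN α B (fun S j => ((c j S : ℤ) : ZMod (2 ^ J))) hB.ge
  have key : ∀ γ ∈ (B \ B').powerset, ((B'.powerset.filter fun C => ∑ j ∈ Finset.range (r + 1),
      (∑ S ∈ C.powerset, ∑ T ∈ γ.powerset, c j (S ∪ T)) *
        ((N₀ + γ.card + C.card : ℕ) : ℤ) ^ j = 0).card : ℝ) ≤ η * 2 ^ N' := by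
    intro γ hγ
    have hγ' := Finset.mem_powerset.1 hγ
    refine h r hr α B' hc (fun j S => ∑ T ∈ γ.powerset, c j (S ∪ T)) (N₀ + γ.card)
      (fun j S => Finset.dvd_sum fun T _ => (pow_dvd_pow 2
        (Finset.card_le_card Finset.subset_union_left)).trans (h1 j _)) ?_ ?_
    · intro j hj S hS S' hS' he
      rw [← Finset.sum_sub_distrib]
      refine Finset.dvd_sum fun T hT => ?_
      have hT' := (Finset.mem_powerset.1 hT).trans hγ'
      rcases T.eq_empty_or_nonempty with rfl | hne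
      · rw [Finset.union_empty, Finset.union_empty]
        refine (pow_dvd_pow 2 (min_le_left _ _)).trans ?_
        by_cases hJ : S.card ≤ J
        · have h4 := congrFun (hcol S hS S' hS' he hJ) ⟨j, by omega⟩
          have h5 := (ZMod.intCast_eq_intCast_iff_dvd_sub _ _ _).1 h4.symm
          exact_mod_cast h5
        · exact dvd_sub ((pow_dvd_pow 2 (by omega)).trans (h1 j S))
            ((pow_dvd_pow 2 (by omega)).trans (h1 j S'))
      · have hd : ∀ S ⊆ B', (S ∪ T).card = S.card + T.card := fun S hS =>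
          Finset.card_union_of_disjoint (Finset.disjoint_of_subset_left hS
            (Finset.disjoint_of_subset_right hT' Finset.disjoint_sdiff))
        have hs : ∀ S ⊆ B', S ∪ T ⊆ B := fun S hS =>
          Finset.union_subset (hS.trans hB') (hT'.trans Finset.sdiff_subset)
        have h4 := h2 j hj _ (hs S hS) _ (hs S' hS') (by rw [hd S hS, hd S' hS', he])
        rw [hd S hS] at h4
        have h5 := hne.card_pos
        exact (pow_dvd_pow 2 (by omega)).trans h4
    · simp only [Finset.empty_union]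
      rw [← Finset.add_sum_erase _ _ (Finset.empty_mem_powerset γ)]
      refine h3.add_even (Finset.even_sum _ fun T hT => ?_)
      have h4 := (Finset.nonempty_iff_ne_empty.2 (Finset.ne_of_mem_erase hT)).card_pos
      exact even_iff_two_dvd.2 ((dvd_pow_self 2 h4.ne').trans (h1 r T))
  have hm : ∀ C ∈ B.powerset.filter fun C => ∑ j ∈ Finset.range (r + 1),
      (∑ S ∈ C.powerset, c j S) * ((N₀ + C.card : ℕ) : ℤ) ^ j = 0,
      C \ B' ∈ (B \ B').powerset := fun C hC =>
    Finset.mem_powerset.2 (Finset.sdiff_subset_sdiff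
      (Finset.mem_powerset.1 (Finset.mem_filter.1 hC).1) Finset.Subset.rfl)
  rw [Finset.card_eq_sum_card_fiberwise hm, Nat.cast_sum]
  refine (Finset.sum_le_card_nsmul _ _ (η * 2 ^ N') fun γ hγ => le_trans ?_ (key γ hγ)).trans
    (le_of_eq ?_)
  · refine Nat.cast_le.2 (Finset.card_le_card_of_injOn (fun C => C ∩ B') (fun C hC => ?_)
      fun C hC C' hC' he => ?_)
    · obtain ⟨hC1, rfl⟩ := Finset.mem_filter.1 hC
      have h4 := (Finset.mem_filter.1 hC1).2
      have h5 : Disjoint (C ∩ B') (C \ B') := Finset.disjoint_of_subset_left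
        Finset.inter_subset_right Finset.disjoint_sdiff
      have h6 : C ∩ B' ∪ C \ B' = C := by rw [Finset.union_comm, Finset.sdiff_union_inter]
      refine Finset.mem_filter.2 ⟨Finset.mem_powerset.2 Finset.inter_subset_right, ?_⟩
      refine Eq.trans (Finset.sum_congr rfl fun j _ => ?_) h4
      rw [← ac_pow _ _ h5, h6, add_assoc, Finset.card_sdiff_add_card_inter]
    · rw [← Finset.sdiff_union_inter C B', ← Finset.sdiff_union_inter C' B',
        (Finset.mem_filter.1 hC).2, (Finset.mem_filter.1 hC').2]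
      exact congrArg _ he
  · rw [Finset.card_powerset, nsmul_eq_mul, ← hB, ← Finset.card_sdiff_add_card_eq_card hB', hc,
      pow_add]
    push_cast
    ring

theorem ac (w : ℕ) (η : ℝ) (hη : 0 < η) : ∃ R : ℕ, ∀ r ≤ w, ∀ lam : ℕ → Finset (Fin R) → ℤ,
    (∀ j, IsLam (lam j)) → Odd (lam r ∅) →
    ((Finset.univ.filter fun C : Finset (Fin R) =>
      ∑ j ∈ Finset.range (r + 1), lam j C * (C.card : ℤ) ^ j = 0).card : ℝ) ≤ η * 2 ^ R := by
  obtain ⟨ρ, J, h0⟩ := sym_case w η hη
  have key : ∀ k, ∃ N, AcClaim w J η (J - k) N := by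
    intro k
    induction k with
    | zero =>
      refine ⟨ρ, fun r hr α _ B hB c N₀ h1 h2 h3 => h0 r hr α B hB c N₀ h1 ?_ h3⟩
      intro j hj S hS S' hS' he
      simpa using h2 j hj S hS S' hS' he
    | succ k ih =>
      obtain ⟨N', h⟩ := ih
      exact ac_step (by omega) h
  obtain ⟨R, h⟩ := key J
  refine ⟨R, fun r hr lam h1 h2 => ?_⟩
  choose c hc using h1
  have h3 := h r hr (Fin R) Finset.univ (by simp) (fun j S => 2 ^ S.card * c j S) 0
    (fun j S => dvd_mul_right _ _) (fun j _ S _ S' _ he => by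
      refine (pow_dvd_pow 2 (show _ ≤ S.card by omega)).trans (dvd_sub (dvd_mul_right _ _) ?_)
      rw [he]
      exact dvd_mul_right _ _) (by simpa [hc] using h2)
  simpa only [Finset.powerset_univ, zero_add, hc] using h3

end Pool.Agent.Lib.MP_788af2_nt.AS
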