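import Pool.Agent.Lib.MP_788af2_nt.AS.Defs

/-!
Expansion of the determinant on the cube.
-/

set_option linter.unusedSectionVars false

namespace Pool.Agent.Lib.MP_788af2_nt.AS

open Polynomial WeierstrassCurve Pool.Agent.Lib.MP_a3f657_nt.Two

namespace DetP

lemma isLam_iff {R : ℕ} (f : Finset (Fin R) → ℤ) :
    IsLam f ↔ ∃ c : Finset (Fin R) → ℤ, ∀ C, f C = ∑ S, if S ⊆ C then 2 ^ S.card * c S else 0 := by
  have key : ∀ (c : Finset (Fin R) → ℤ) (C : Finset (Fin R)),
      ∑ S ∈ C.powerset, 2 ^ S.card * c S = ∑ S, if S ⊆ C then 2 ^ S.card * c S else 0 := by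
    intro c C
    rw [← Finset.sum_filter]
    refine Finset.sum_congr ?_ fun _ _ => rfl
    ext S
    simp
  simp only [IsLam, key]

lemma isLam_mul {R : ℕ} {f g : Finset (Fin R) → ℤ} (hf : IsLam f) (hg : IsLam g) :
    IsLam (f * g) := by
  rw [isLam_iff] at hf hg ⊢
  obtain ⟨c, hc⟩ := hf
  obtain ⟨d, hd⟩ := hg
  refine ⟨fun U => ∑ S, ∑ T, if S ∪ T = U then 2 ^ (S ∩ T).card * c S * d T else 0, fun C => ?_⟩
  have e1 : ∀ U : Finset (Fin R), (if U ⊆ C then 2 ^ U.card *
      (∑ S, ∑ T, if S ∪ T = U then (2 : ℤ) ^ (S ∩ T).card * c S * d T else 0) else 0) =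
      ∑ S, ∑ T, if S ∪ T = U then
        (if S ⊆ C then 2 ^ S.card * c S else 0) * (if T ⊆ C then 2 ^ T.card * d T else 0)
        else 0 := by
    intro U
    by_cases hU : U ⊆ C
    · rw [if_pos hU, Finset.mul_sum]
      refine Finset.sum_congr rfl fun S _ => ?_
      rw [Finset.mul_sum]
      refine Finset.sum_congr rfl fun T _ => ?_
      by_cases h : S ∪ T = U
      · subst h
        have h1 : S ⊆ C := Finset.subset_union_left.trans hU
        have h2 : T ⊆ C := Finset.subset_union_right.trans hU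
        rw [if_pos rfl, if_pos rfl, if_pos h1, if_pos h2]
        have h3 : (2 : ℤ) ^ (S ∪ T).card * 2 ^ (S ∩ T).card = 2 ^ S.card * 2 ^ T.card := by
          rw [← pow_add, ← pow_add, Finset.card_union_add_card_inter]
        linear_combination (c S * d T) * h3
      · rw [if_neg h, if_neg h, mul_zero]
    · rw [if_neg hU]
      symm
      refine Finset.sum_eq_zero fun S _ => Finset.sum_eq_zero fun T _ => ?_
      by_cases h : S ∪ T = U
      · subst h
        rw [if_pos rfl]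
        by_cases h1 : S ⊆ C
        · have h2 : ¬ T ⊆ C := fun h2 => hU (Finset.union_subset h1 h2)
          rw [if_neg h2, mul_zero]
        · rw [if_neg h1, zero_mul]
      · rw [if_neg h]
  simp only [e1]
  rw [Pi.mul_apply, hc, hd, Finset.sum_mul_sum, Finset.sum_comm (s := Finset.univ)
    (f := fun U S => ∑ T, if S ∪ T = U then
        (if S ⊆ C then (2 : ℤ) ^ S.card * c S else 0) * (if T ⊆ C then 2 ^ T.card * d T else 0)
        else 0)]
  refine Finset.sum_congr rfl fun S _ => ?_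
  rw [Finset.sum_comm]
  refine Finset.sum_congr rfl fun T _ => ?_
  rw [Finset.sum_ite_eq]
  simp

lemma isLam_const {R : ℕ} (a : ℤ) : IsLam (fun _ : Finset (Fin R) => a) := by
  refine ⟨fun S => if S = ∅ then a else 0, fun C => ?_⟩
  simp only [mul_ite, mul_zero]
  rw [Finset.sum_ite_eq']
  simp

/-- The subring of the functions `IsLam`. -/
def Lam (R : ℕ) : Subring (Finset (Fin R) → ℤ) where
  carrier := {f | IsLam f}
  mul_mem' := isLam_mul
  one_mem' := isLam_const 1
  zero_mem' := isLam_const 0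
  add_mem' := by
    rintro f g ⟨c, hc⟩ ⟨d, hd⟩
    refine ⟨fun S => c S + d S, fun C => ?_⟩
    simp only [Pi.add_apply, hc, hd, mul_add, Finset.sum_add_distrib]
  neg_mem' := by
    rintro f ⟨c, hc⟩
    refine ⟨fun S => -c S, fun C => ?_⟩
    simp only [Pi.neg_apply, hc, mul_neg, Finset.sum_neg_distrib]

lemma prod_top {A ι : Type} [CommRing A] (s : Finset ι) (f : ι → A[X]) (d : ι → ℕ)
    (h : ∀ i ∈ s, (f i).natDegree ≤ d i) :
    (∏ i ∈ s, f i).natDegree ≤ ∑ i ∈ s, d i ∧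
      (∏ i ∈ s, f i).coeff (∑ i ∈ s, d i) = ∏ i ∈ s, (f i).coeff (d i) := by
  classical
  induction s using Finset.induction_on with
  | empty => simp
  | insert a s ha ih =>
    obtain ⟨h1, h2⟩ := ih fun i hi => h i (by simp [hi])
    have h3 := h a (by simp)
    rw [Finset.prod_insert ha, Finset.sum_insert ha, Finset.prod_insert ha]
    exact ⟨natDegree_mul_le.trans (add_le_add h3 h1),
      by rw [coeff_mul_add_eq_of_natDegree_le h3 h1, h2]⟩

lemma det_top {A ι : Type} [CommRing A] [Fintype ι] [DecidableEq ι] (N : Matrix ι ι A[X])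
    (d : ι → ℕ) (h : ∀ i j, (N i j).natDegree ≤ d i) :
    N.det.natDegree ≤ ∑ i, d i ∧
      N.det.coeff (∑ i, d i) = (Matrix.of fun i j => (N i j).coeff (d i)).det := by
  rw [← Matrix.det_transpose N, ← Matrix.det_transpose (Matrix.of _), Matrix.det_apply,
    Matrix.det_apply]
  have key := fun σ : Equiv.Perm ι => prod_top Finset.univ (fun i => N i (σ i)) d fun i _ => h i _
  refine ⟨natDegree_sum_le_of_forall_le _ _ fun σ _ => ?_, ?_⟩
  · exact (natDegree_smul_le _ _).trans (key σ).1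
  · rw [finsetSum_coeff]
    refine Finset.sum_congr rfl fun σ _ => ?_
    rw [coeff_smul]
    congr 1
    exact (key σ).2

lemma sum_one {R : ℕ} (C : Finset (Fin R)) (m : ℤ) :
    ∑ S ∈ C.powerset, (2 : ℤ) ^ S.card * (if S.card = 1 then m else 0) = 2 * C.card * m := by
  have e1 : ∀ S : Finset (Fin R), (2 : ℤ) ^ S.card * (if S.card = 1 then m else 0) =
      if S.card = 1 then 2 * m else 0 := by
    intro S
    by_cases h : S.card = 1
    · simp [h]
    · simp [h]
  simp only [e1]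
  rw [← Finset.sum_filter, ← Finset.powersetCard_eq_filter, Finset.sum_const,
    Finset.card_powersetCard]
  simp
  ring

end DetP

theorem det_poly {R r₁ r₂ : ℕ}
    (α : Finset (Fin R) → Matrix (Fin r₁ ⊕ Fin r₂) (Fin r₁ ⊕ Fin r₂) ℤ)
    (Mh : Matrix (Fin r₁ ⊕ Fin r₂) (Fin r₁ ⊕ Fin r₂) ℤ) (h0 : ∀ i j, 2 ∣ α ∅ (Sum.inl i) j)
    (h1 : ∀ l i j, 2 ∣ α {l} (Sum.inl i) j - Mh (Sum.inl i) j)
    (h2 : ∀ S, 2 ≤ S.card → ∀ i j, 2 ∣ α S (Sum.inl i) j)
    (hd : Odd (Matrix.of fun i j => Sum.elim (fun _ => Mh i j) (fun _ => α ∅ i j) i).det) :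
    ∃ lam : ℕ → Finset (Fin R) → ℤ, (∀ j, IsLam (lam j)) ∧ Odd (lam r₁ ∅) ∧
      ∀ C : Finset (Fin R), (∑ S ∈ C.powerset, (2 : ℤ) ^ S.card • α S).det =
        2 ^ r₁ * ∑ j ∈ Finset.range (r₁ + 1), lam j C * (C.card : ℤ) ^ j := by
  have hdiv : ∀ S i j, ∃ c : ℤ,
      α S (Sum.inl i) j = 2 * c + if S.card = 1 then Mh (Sum.inl i) j else 0 := by
    intro S i j
    rcases Nat.lt_trichotomy S.card 1 with h | h | h
    · have hS : S = ∅ := Finset.card_eq_zero.1 (by omega)
      subst hS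
      obtain ⟨c, hc⟩ := h0 i j
      exact ⟨c, by simp [hc]⟩
    · obtain ⟨l, rfl⟩ := Finset.card_eq_one.1 h
      obtain ⟨c, hc⟩ := h1 l i j
      exact ⟨c, by rw [if_pos h]; linarith⟩
    · obtain ⟨c, hc⟩ := h2 S h i j
      exact ⟨c, by rw [if_neg (by omega)]; linarith⟩
  choose c hc using hdiv
  let a : Fin r₁ → Fin r₁ ⊕ Fin r₂ → DetP.Lam R := fun i j =>
    ⟨fun C => ∑ S ∈ C.powerset, 2 ^ S.card * c S i j, ⟨fun S => c S i j, fun _ => rfl⟩⟩
  let b : Fin r₂ → Fin r₁ ⊕ Fin r₂ → DetP.Lam R := fun i j =>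
    ⟨fun C => ∑ S ∈ C.powerset, 2 ^ S.card * α S (Sum.inr i) j,
      ⟨fun S => α S (Sum.inr i) j, fun _ => rfl⟩⟩
  let N : Matrix (Fin r₁ ⊕ Fin r₂) (Fin r₁ ⊕ Fin r₂) (DetP.Lam R)[X] := Matrix.of fun i j =>
    Sum.elim (fun i' => Polynomial.C ((Mh (Sum.inl i') j : ℤ) : DetP.Lam R) * X +
      Polynomial.C (a i' j)) (fun i' => Polynomial.C (b i' j)) i
  let d : Fin r₁ ⊕ Fin r₂ → ℕ := Sum.elim (fun _ => 1) fun _ => 0
  have hsum : ∑ i, d i = r₁ := by simp [d]
  have hdeg : ∀ i j, (N i j).natDegree ≤ d i := by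
    rintro (i | i) j
    · exact natDegree_linear_le
    · exact (natDegree_C _).le
  obtain ⟨k1, k2⟩ := DetP.det_top N d hdeg
  rw [hsum] at k1 k2
  let ev : Finset (Fin R) → DetP.Lam R →+* ℤ := fun C =>
    (Pi.evalRingHom (fun _ => ℤ) C).comp (DetP.Lam R).subtype
  have hev : ∀ C x, ev C x = x.1 C := fun _ _ => rfl
  refine ⟨fun j => (N.det.coeff j).1, fun j => (N.det.coeff j).2, ?_, fun C => ?_⟩
  · show Odd (ev ∅ (N.det.coeff r₁))
    rw [k2, RingHom.map_det]
    convert hd using 2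
    ext (i | i) j
    · simp only [N, d, RingHom.mapMatrix_apply, Matrix.map_apply, Matrix.of_apply, Sum.elim_inl,
        coeff_add, coeff_C_mul, coeff_X_one, mul_one, coeff_C_succ, add_zero,
        map_intCast (ev ∅), Int.cast_id]
    · simp only [N, d, RingHom.mapMatrix_apply, Matrix.map_apply, Matrix.of_apply, Sum.elim_inr,
        coeff_C_zero, hev, b]
      simp
  · have e1 : (∑ j ∈ Finset.range (r₁ + 1), (N.det.coeff j).1 C * (C.card : ℤ) ^ j) =
        eval₂RingHom (ev C) (C.card : ℤ) N.det := by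
      rw [coe_eval₂RingHom, eval₂_eq_sum_range' _ (Nat.lt_succ_of_le k1)]
      rfl
    rw [e1, RingHom.map_det]
    have e2 : (2 : ℤ) ^ r₁ =
        (Matrix.diagonal (Sum.elim (fun _ => 2) fun _ => 1 : Fin r₁ ⊕ Fin r₂ → ℤ)).det := by
      simp
    rw [e2, ← Matrix.det_mul]
    congr 1
    ext (i | i) j
    · have e3 := DetP.sum_one C (Mh (Sum.inl i) j)
      simp only [Matrix.sum_apply, Matrix.smul_apply, smul_eq_mul, hc, mul_add,
        Finset.sum_add_distrib, e3, Matrix.diagonal_mul]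
      simp only [N, RingHom.mapMatrix_apply, Matrix.map_apply, Matrix.of_apply, Sum.elim_inl,
        coe_eval₂RingHom, eval₂_add, eval₂_mul, eval₂_C, eval₂_X, map_intCast (ev C), Int.cast_id,
        hev C (a i j), a, mul_add, Finset.mul_sum]
      rw [add_comm]
      congr 1
      · ring
      · exact Finset.sum_congr rfl fun S _ => by ring
    · simp only [Matrix.sum_apply, Matrix.smul_apply, smul_eq_mul, Matrix.diagonal_mul, N,
        RingHom.mapMatrix_apply, Matrix.map_apply, Matrix.of_apply, Sum.elim_inr,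
        coe_eval₂RingHom, eval₂_C, hev, b, one_mul]

end Pool.Agent.Lib.MP_788af2_nt.AS
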