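import Pool.Agent.Lib.MP_788af2_nt.AS.Defs

/-!
Lifting the relations of a lattice to the integers.
-/

set_option linter.unusedSectionVars false

namespace Pool.Agent.Lib.MP_788af2_nt.AS

open Polynomial WeierstrassCurve Pool.Agent.Lib.MP_a3f657_nt.Two

open Matrix

variable {I : Type} [Fintype I] [DecidableEq I] {W : Type} [Fintype W] {M : Type} [AddCommGroup M]
  {s : G I → M →+ M} {ν : M →+ (W → ZMod 2)} {Bm : G I → Matrix W W (ZMod 2)}

private theorem lat_sg_add (x y : ZMod 2) : sg (x + y) = sg x * sg y := by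
  revert x y; decide

private theorem lat_sg_sq (x : ZMod 2) : sg x * sg x = 1 := by
  revert x; decide

private theorem lat_sg_cast (x : ZMod 2) : ((sg x : ℤ) : ZMod 2) = 1 := by
  revert x; decide

private theorem lat_sum_sg (g : G I) :
    ∑ ξ : G I, sg (ξ ⬝ᵥ g) = if g = 0 then (Fintype.card (G I) : ℤ) else 0 := by
  split_ifs with hg
  · subst hg
    simp [sg]
  · obtain ⟨i, hi⟩ : ∃ i, g i ≠ 0 := by
      by_contra hc
      push Not at hc
      exact hg (funext hc)
    have hi1 : g i = 1 := by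
      have : ∀ x : ZMod 2, x ≠ 0 → x = 1 := by decide
      exact this _ hi
    have h1 : ∑ ξ : G I, sg (ξ ⬝ᵥ g) = ∑ ξ : G I, sg ((ξ + Pi.single i 1) ⬝ᵥ g) :=
      (Equiv.sum_comp (Equiv.addRight (Pi.single i (1 : ZMod 2) : G I))
        (fun ξ : G I => sg (ξ ⬝ᵥ g))).symm
    have h2 : ∀ ξ : G I, sg ((ξ + Pi.single i 1) ⬝ᵥ g) = - sg (ξ ⬝ᵥ g) := by
      intro ξ
      rw [add_dotProduct, single_dotProduct, one_mul, hi1, lat_sg_add]
      have : sg 1 = -1 := by decide
      rw [this]; ring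
    simp only [h2, Finset.sum_neg_distrib] at h1
    linarith

private theorem Lat.tfZ (h : Lat s ν Bm) : Module.IsTorsionFree ℤ M := by
  refine Module.IsTorsionFree.of_smul_eq_zero ?_
  intro r m hrm
  by_cases hr : r = 0
  · exact Or.inl hr
  · right
    refine h.tf r.natAbs m (by omega) ?_
    rcases Int.natAbs_eq r with h1 | h1
    · rw [← natCast_zsmul, ← h1, hrm]
    · have : ((r.natAbs : ℕ) : ℤ) = -r := by omega
      rw [← natCast_zsmul, this, neg_smul, hrm, neg_zero]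

private theorem Lat.half (h : Lat s ν Bm) (ξ : G I) (m' : M) (hm : m' + m' ∈ eig s ξ) :
    m' ∈ eig s ξ := by
  intro g
  have h1 : s g (m' + m') = sg (ξ ⬝ᵥ g) • (m' + m') := hm g
  have h2 : (2 : ℕ) • (s g m' - sg (ξ ⬝ᵥ g) • m') = 0 := by
    rw [map_add, smul_add] at h1
    rw [two_nsmul]
    have : s g m' - sg (ξ ⬝ᵥ g) • m' + (s g m' - sg (ξ ⬝ᵥ g) • m') =
      (s g m' + s g m') - (sg (ξ ⬝ᵥ g) • m' + sg (ξ ⬝ᵥ g) • m') := by abel
    rw [this, h1, sub_self]
  exact sub_eq_zero.mp (h.tf 2 _ (by norm_num) h2)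

theorem Lat.weak (h : Lat s ν Bm) (ξ : G I) :
    (nsmulAddMonoidHom (α := eig s ξ) 2).range.FiniteIndex := by
  let f : eig s ξ →+ (W → ZMod 2) := ν.comp (eig s ξ).subtype
  have hk : f.ker ≤ (nsmulAddMonoidHom (α := eig s ξ) 2).range := by
    intro m hm
    have hm0 : ν (m : M) = 0 := hm
    obtain ⟨m', hm'⟩ := h.inj (m : M) (fun g => by
      rw [m.2 g, map_zsmul, hm0, smul_zero])
    have hmem : m' ∈ eig s ξ := h.half ξ m' (hm' ▸ m.2)
    refine ⟨⟨m', hmem⟩, ?_⟩
    apply Subtype.ext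
    simp only [nsmulAddMonoidHom_apply, two_nsmul, AddSubgroup.coe_add]
    exact hm'.symm
  exact AddSubgroup.finiteIndex_of_le hk

private theorem Lat.fin (h : Lat s ν Bm) (hfg : ∀ ξ, (eig s ξ).FG) : Module.Finite ℤ M := by
  have hE : ∀ ξ, Module.Finite ℤ (eig s ξ) := fun ξ =>
    Module.Finite.iff_addGroup_fg.mpr ((AddGroup.fg_iff_addSubgroup_fg _).mpr (hfg ξ))
  have hmem : ∀ (ξ : G I) (m : M), ∑ g, sg (ξ ⬝ᵥ g) • s g m ∈ eig s ξ := by
    intro ξ m g0
    rw [map_sum, Finset.smul_sum]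
    rw [← Equiv.sum_comp (Equiv.addLeft g0) (fun g => sg (ξ ⬝ᵥ g0) • sg (ξ ⬝ᵥ g) • s g m)]
    refine Finset.sum_congr rfl fun g _ => ?_
    simp only [Equiv.coe_addLeft]
    rw [map_zsmul, h.s_add, dotProduct_add, lat_sg_add, smul_smul, ← mul_assoc, lat_sg_sq, one_mul]
  let e : M →+ ((ξ : G I) → eig s ξ) :=
    { toFun := fun m ξ => ⟨∑ g, sg (ξ ⬝ᵥ g) • s g m, hmem ξ m⟩
      map_zero' := by
        funext ξ
        apply Subtype.ext
        simp
      map_add' := by
        intro a b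
        funext ξ
        apply Subtype.ext
        simp [Finset.sum_add_distrib] }
  have hinj : Function.Injective e.toIntLinearMap := by
    rw [← LinearMap.ker_eq_bot, Submodule.eq_bot_iff]
    intro m hm
    have h0 : ∀ ξ : G I, ∑ g, sg (ξ ⬝ᵥ g) • s g m = 0 := fun ξ =>
      congrArg Subtype.val (congrFun (show e m = 0 from hm) ξ)
    have h1 : ∑ ξ : G I, ∑ g, sg (ξ ⬝ᵥ g) • s g m = (Fintype.card (G I)) • m := by
      rw [Finset.sum_comm]
      simp only [← Finset.sum_smul, lat_sum_sg, ite_smul, zero_smul, Finset.sum_ite_eq',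
        Finset.mem_univ, if_true, h.s_zero, natCast_zsmul]
    refine h.tf (Fintype.card (G I)) m Fintype.card_ne_zero ?_
    rw [← h1]
    exact Finset.sum_eq_zero fun ξ _ => h0 ξ
  exact Module.Finite.of_injective e.toIntLinearMap hinj

/-- Reduction modulo two of integer vectors. -/
private def redW (W : Type) : (W → ℤ) →ₗ[ℤ] (W → ZMod 2) :=
  LinearMap.pi fun i => (Int.castAddHom (ZMod 2)).toIntLinearMap.comp (LinearMap.proj i)

private theorem redW_apply {W : Type} (v : W → ℤ) (i : W) : redW W v i = (v i : ZMod 2) := rfl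

private theorem redW_surj (W : Type) : Function.Surjective (redW W) := by
  intro v
  choose w hw using fun i => ZMod.intCast_surjective (v i)
  exact ⟨w, funext hw⟩

private theorem lat_two_div {M : Type} [AddCommGroup M] [Module.Finite ℤ M]
    [Module.IsTorsionFree ℤ M] (K : Set M) (hK : ∀ m ∈ K, ∃ m' ∈ K, m = m' + m') :
    ∀ m ∈ K, m = 0 := by
  let b := Module.Free.chooseBasis ℤ M
  have key : ∀ n : ℕ, ∀ m ∈ K, ∀ i, (2 : ℤ) ^ n ∣ b.repr m i := by
    intro n
    induction n with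
    | zero => intro m _ i; simp
    | succ n ih =>
      intro m hm i
      obtain ⟨m', hm', rfl⟩ := hK m hm
      obtain ⟨c, hc⟩ := ih m' hm' i
      refine ⟨c, ?_⟩
      rw [map_add, Finsupp.add_apply, hc]
      ring
  intro m hm
  rw [← b.repr.map_eq_zero_iff]
  ext i
  have h1 := key (b.repr m i).natAbs m hm i
  refine Int.eq_zero_of_abs_lt_dvd h1 ?_
  have h2 : (b.repr m i).natAbs < 2 ^ (b.repr m i).natAbs := Nat.lt_two_pow_self
  rw [Int.abs_eq_natAbs]
  exact_mod_cast h2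

/-- The saturation of a submodule. -/
private def satN {F : Type} [AddCommGroup F] (N : Submodule ℤ F) : Submodule ℤ F where
  carrier := {φ | ∃ n : ℤ, n ≠ 0 ∧ n • φ ∈ N}
  zero_mem' := ⟨1, one_ne_zero, by simp⟩
  add_mem' := by
    rintro a b ⟨n, hn, ha⟩ ⟨k, hk, hb⟩
    refine ⟨n * k, mul_ne_zero hn hk, ?_⟩
    rw [smul_add]
    refine N.add_mem ?_ ?_
    · rw [mul_comm, mul_smul]; exact N.smul_mem _ ha
    · rw [mul_smul]; exact N.smul_mem _ hb
  smul_mem' := by
    rintro c a ⟨n, hn, ha⟩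
    refine ⟨n, hn, ?_⟩
    rw [smul_comm]
    exact N.smul_mem _ ha

private theorem lat_lift_fun {F V : Type} [AddCommGroup F] [Module.Finite ℤ F]
    (N : Submodule ℤ F) (h2 : ∀ φ, φ + φ ∈ N → φ ∈ N) (β : F →ₗ[ℤ] (V → ZMod 2))
    (hβ : ∀ φ ∈ N, β φ = 0) :
    ∃ γ : F →ₗ[ℤ] (V → ℤ), (∀ φ ∈ N, γ φ = 0) ∧ ∀ φ, redW V (γ φ) = β φ := by
  have hodd : ∀ (k : ℕ) (n : ℤ), n.natAbs = k → n ≠ 0 → ∀ φ, n • φ ∈ N → β φ = 0 := by
    intro k
    induction k using Nat.strong_induction_on with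
    | _ k ih =>
      intro n hk hn φ hφ
      rcases Int.even_or_odd' n with ⟨c, hc | hc⟩
      · have hc0 : c ≠ 0 := by rintro rfl; exact hn (by simpa using hc)
        refine ih c.natAbs (by omega) c rfl hc0 φ (h2 _ ?_)
        rw [← add_smul, ← two_mul, ← hc]
        exact hφ
      · have h1 := hβ _ hφ
        rw [map_smul, hc] at h1
        funext j
        have h3 := congrFun h1 j
        simp only [Pi.smul_apply, zsmul_eq_mul, Pi.zero_apply] at h3
        have h4 : ((2 * c + 1 : ℤ) : ZMod 2) = 1 := by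
          push_cast
          have : (2 : ZMod 2) = 0 := by decide
          rw [this, zero_mul, zero_add]
        rw [h4, one_mul] at h3
        exact h3
  have hle : satN N ≤ LinearMap.ker β := by
    rintro φ ⟨n, hn, hφ⟩
    exact hodd _ n rfl hn φ hφ
  have htf : Module.IsTorsionFree ℤ (F ⧸ satN N) := by
    refine Module.IsTorsionFree.of_smul_eq_zero ?_
    intro r x hrx
    by_cases hr : r = 0
    · exact Or.inl hr
    · right
      obtain ⟨φ, rfl⟩ := Submodule.Quotient.mk_surjective _ x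
      rw [← Submodule.Quotient.mk_smul, Submodule.Quotient.mk_eq_zero] at hrx
      obtain ⟨n, hn, hφ⟩ := hrx
      rw [Submodule.Quotient.mk_eq_zero]
      exact ⟨n * r, mul_ne_zero hn hr, by rw [mul_smul]; exact hφ⟩
  obtain ⟨γ, hγ⟩ := Module.projective_lifting_property (redW V) ((satN N).liftQ β hle)
    (redW_surj V)
  refine ⟨γ.comp (satN N).mkQ, fun φ hφ => ?_, fun φ => ?_⟩
  · have : (satN N).mkQ φ = 0 := by
      rw [Submodule.mkQ_apply, Submodule.Quotient.mk_eq_zero]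
      exact ⟨1, one_ne_zero, by simpa using hφ⟩
    rw [LinearMap.comp_apply, this, map_zero]
  · have := LinearMap.congr_fun hγ ((satN N).mkQ φ)
    simpa using this

theorem Lat.lift2 (h : Lat s ν Bm) (hfg : ∀ ξ, (eig s ξ).FG) :
    ∃ A : G I → Matrix W W ℤ, (∀ g, (A g).map (Int.cast : ℤ → ZMod 2) = Bm g) ∧
      ∀ (ξ : G I) (J : Type) [Fintype J] [DecidableEq J] (P P' : Matrix W J ℤ),
        (Pᵀ * (∑ g, sg (ξ ⬝ᵥ g) • A g) * P').det ≠ 0 →
        Module.finrank ℤ (eig s ξ) + Fintype.card J ≤ Fintype.card W := by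
  classical
  have hfin := h.fin hfg
  have htf := h.tfZ
  obtain ⟨lam, hlam⟩ := Module.projective_lifting_property (redW W) ν.toIntLinearMap
    (redW_surj W)
  have hlam' : ∀ m i, ((lam m i : ℤ) : ZMod 2) = ν m i := fun m i =>
    congrFun (LinearMap.congr_fun hlam m) i
  let La : M →ₗ[ℤ] (G I × W → ℤ) :=
    LinearMap.pi fun p => (LinearMap.proj p.2).comp (lam.comp (s p.1).toIntLinearMap)
  have hLa : ∀ m p, La m p = lam (s p.1 m) p.2 := fun m p => rfl
  have hhalf : ∀ m φ, La m = φ + φ → ∃ m', m = m' + m' ∧ La m' = φ := by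
    intro m φ hm
    obtain ⟨m', hm'⟩ := h.inj m (fun g => funext fun i => by
      rw [← hlam', ← hLa m (g, i), hm, Pi.add_apply, Int.cast_add]
      exact CharTwo.add_self_eq_zero _)
    refine ⟨m', hm', ?_⟩
    rw [hm', map_add] at hm
    funext p
    have := congrFun hm p
    simp only [Pi.add_apply] at this
    linarith
  let β : (G I × W → ℤ) →ₗ[ℤ] (W → ZMod 2) :=
    LinearMap.pi fun j => ∑ p : G I × W,
      (LinearMap.toSpanSingleton ℤ (ZMod 2) (Bm p.1 p.2 j)).comp (LinearMap.proj p)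
  have hβ : ∀ φ j, β φ j = ∑ p : G I × W, (φ p : ZMod 2) * Bm p.1 p.2 j := by
    intro φ j
    simp [β, LinearMap.sum_apply]
  obtain ⟨γ, hγ0, hγ⟩ := lat_lift_fun (LinearMap.range La) (by
      rintro φ ⟨m, hm⟩
      obtain ⟨m', -, h2⟩ := hhalf m φ hm
      exact ⟨m', h2⟩) β (by
      rintro φ ⟨m, rfl⟩
      funext j
      rw [hβ, Fintype.sum_prod_type]
      simp only [hLa, hlam']
      exact h.rel m j)
  let A : G I → Matrix W W ℤ := fun g => Matrix.of fun i j => γ (Pi.single (g, i) 1) j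
  have hγA : ∀ φ j, γ φ j = ∑ p : G I × W, φ p * A p.1 p.2 j := by
    intro φ j
    conv_lhs => rw [← Finset.univ_sum_single φ, map_sum, Finset.sum_apply]
    refine Finset.sum_congr rfl fun p _ => ?_
    have : (Pi.single p (φ p) : G I × W → ℤ) = φ p • (Pi.single p 1 : G I × W → ℤ) := by
      rw [← Pi.single_smul, smul_eq_mul, mul_one]
    rw [this, map_smul, Pi.smul_apply, smul_eq_mul]
    rfl
  refine ⟨A, fun g => ?_, fun ξ J _ _ P P' hdet => ?_⟩
  · ext i j
    have h1 := congrFun (hγ (Pi.single (g, i) 1)) j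
    rw [redW_apply, hβ, Finset.sum_eq_single (g, i)] at h1
    · simpa [A] using h1
    · intro p _ hp
      simp [Pi.single_eq_of_ne hp]
    · simp
  · have hker : ∀ m, La m = 0 → m = 0 := by
      intro m hm
      refine lat_two_div {m | La m = 0} (fun m hm => ?_) m hm
      obtain ⟨m', h1, h2⟩ := hhalf m 0 (by rw [add_zero]; exact hm)
      exact ⟨m', h2, h1⟩
    have hvec : ∀ m ∈ eig s ξ, lam m ᵥ* (∑ g, sg (ξ ⬝ᵥ g) • A g) = 0 := by
      intro m hm
      funext j
      have h1 := congrFun (hγ0 (La m) ⟨m, rfl⟩) j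
      rw [hγA, Fintype.sum_prod_type] at h1
      rw [Pi.zero_apply] at h1 ⊢
      rw [← h1, Finset.sum_comm]
      simp only [vecMul, dotProduct, Matrix.sum_apply, Matrix.smul_apply, Finset.mul_sum,
        smul_eq_mul]
      refine Finset.sum_congr rfl fun i _ => Finset.sum_congr rfl fun g _ => ?_
      rw [hLa, hm g, map_zsmul, Pi.smul_apply, smul_eq_mul]
      simp only [dotProduct]
      ring
    have hE : Module.Finite ℤ (eig s ξ) :=
      Module.Finite.iff_addGroup_fg.mpr ((AddGroup.fg_iff_addSubgroup_fg _).mpr (hfg ξ))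
    have hEtf : Module.IsTorsionFree ℤ (eig s ξ) :=
      Function.Injective.moduleIsTorsionFree (Subtype.val : eig s ξ → M) Subtype.val_injective
        (fun _ _ => rfl)
    let Ψ : (eig s ξ × (J → ℤ)) →ₗ[ℤ] (W → ℤ) :=
      LinearMap.coprod (lam.comp (eig s ξ).subtype.toIntLinearMap) (Matrix.mulVecLin P)
    have hΨ : Function.Injective Ψ := by
      rw [← LinearMap.ker_eq_bot, Submodule.eq_bot_iff]
      rintro ⟨m, c⟩ hmc
      have h1 : lam (m : M) + P *ᵥ c = 0 := hmc
      have h2 : c ᵥ* (Pᵀ * (∑ g, sg (ξ ⬝ᵥ g) • A g) * P') = 0 := by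
        rw [← vecMul_vecMul, ← vecMul_vecMul, vecMul_transpose, eq_neg_of_add_eq_zero_right h1,
          neg_vecMul, hvec m m.2, neg_zero, zero_vecMul]
      have hc : c = 0 := Matrix.eq_zero_of_vecMul_eq_zero hdet h2
      rw [hc, mulVec_zero, add_zero] at h1
      have hm : (m : M) = 0 := by
        refine hker _ (funext fun p => ?_)
        rw [hLa, m.2 p.1, map_zsmul, h1, smul_zero]
        rfl
      rw [Prod.mk_eq_zero]
      exact ⟨Subtype.ext hm, hc⟩
    have h3 := LinearMap.finrank_le_finrank_of_injective hΨ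
    rw [Module.finrank_prod, Module.finrank_fintype_fun_eq_card,
      Module.finrank_fintype_fun_eq_card] at h3
    exact h3

theorem Lat.lift (h : Lat s ν Bm) (hfg : ∀ ξ, (eig s ξ).FG) :
    ∃ A : G I → Matrix W W ℤ, (∀ g, (A g).map (Int.cast : ℤ → ZMod 2) = Bm g) ∧
      ∀ (ξ : G I) (J : Type) [Fintype J] [DecidableEq J] (P : Matrix W J ℤ),
        (Pᵀ * (∑ g, sg (ξ ⬝ᵥ g) • A g) * P).det ≠ 0 →
        Module.finrank ℤ (eig s ξ) + Fintype.card J ≤ Fintype.card W := by
  obtain ⟨A, h1, h2⟩ := h.lift2 hfg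
  exact ⟨A, h1, fun ξ J _ _ P => h2 ξ J P P⟩

theorem Lat.rank_le (h : Lat s ν Bm) (hfg : ∀ ξ, (eig s ξ).FG) (ξ : G I) :
    Module.finrank ℤ (eig s ξ) ≤ Fintype.card W := by
  obtain ⟨A, -, hA⟩ := h.lift hfg
  simpa using hA ξ Empty 0 (by simp)

end Pool.Agent.Lib.MP_788af2_nt.AS
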