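import Pool.Agent.Lib.MP_788af2_nt.AS.Adapt
import Pool.Agent.Lib.MP_788af2_nt.AS.DetPoly
import Pool.Agent.Lib.MP_788af2_nt.AS.AC
import Pool.Agent.Lib.MP_788af2_nt.AS.Lattice

/-!
Most eigen-lattices have minimal rank.
-/

set_option linter.unusedSectionVars false

namespace Pool.Agent.Lib.MP_788af2_nt.AS

open Polynomial WeierstrassCurve Pool.Agent.Lib.MP_a3f657_nt.Two

open Matrix

private lemma sg_add_Alg (x y : ZMod 2) : sg (x + y) = sg x * sg y := by
  revert x y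
  unfold sg
  decide

private lemma sg_eq_Alg (x : ZMod 2) : sg x = 1 + -2 * (x.val : ℤ) := by
  revert x
  unfold sg
  decide

private lemma cast_sg_Alg (x : ZMod 2) : ((sg x : ℤ) : ZMod 2) = 1 := by
  revert x
  unfold sg
  decide

private lemma sg_sum_Alg {α : Type} (C : Finset α) (x : α → ZMod 2) :
    sg (∑ l ∈ C, x l) = ∑ S ∈ C.powerset, (-2) ^ S.card * ∏ l ∈ S, ((x l).val : ℤ) := by
  classical
  have h : sg (∑ l ∈ C, x l) = ∏ l ∈ C, (1 + -2 * ((x l).val : ℤ)) := by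
    induction C using Finset.induction_on with
    | empty => simp [sg]
    | insert a s ha ih => rw [Finset.sum_insert ha, Finset.prod_insert ha, sg_add_Alg, ih, sg_eq_Alg]
  rw [h, Finset.prod_one_add]
  refine Finset.sum_congr rfl fun S _ => ?_
  rw [Finset.prod_mul_distrib, Finset.prod_const]

/-- The coefficients of the expansion on the cube. -/
private def al_Alg {I W J : Type} [Fintype I] [DecidableEq I] [Fintype W] {R : ℕ}
    (A : G I → Matrix W W ℤ) (P : Matrix W J ℤ) (ξ : Fin R → G I) (ξ₀ : G I)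
    (S : Finset (Fin R)) : Matrix J J ℤ :=
  Pᵀ * (∑ g, ((-1) ^ S.card * sg (ξ₀ ⬝ᵥ g) * ∏ l ∈ S, ((ξ l ⬝ᵥ g).val : ℤ)) • A g) * P

private lemma sum_al_Alg {I W J : Type} [Fintype I] [DecidableEq I] [Fintype W] {R : ℕ}
    (A : G I → Matrix W W ℤ) (P : Matrix W J ℤ) (ξ : Fin R → G I) (ξ₀ : G I)
    (C : Finset (Fin R)) : ∑ S ∈ C.powerset, (2 : ℤ) ^ S.card • al_Alg A P ξ ξ₀ S =
      Pᵀ * (∑ g, sg ((ξ₀ + ∑ l ∈ C, ξ l) ⬝ᵥ g) • A g) * P := by
  have h : ∀ g : G I, sg ((ξ₀ + ∑ l ∈ C, ξ l) ⬝ᵥ g) = ∑ S ∈ C.powerset, (2 : ℤ) ^ S.card *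
      ((-1) ^ S.card * sg (ξ₀ ⬝ᵥ g) * ∏ l ∈ S, ((ξ l ⬝ᵥ g).val : ℤ)) := by
    intro g
    rw [add_dotProduct, sum_dotProduct, sg_add_Alg, sg_sum_Alg, Finset.mul_sum]
    refine Finset.sum_congr rfl fun S _ => ?_
    rw [neg_pow]
    ring
  simp only [h, Finset.sum_smul, mul_smul ((2 : ℤ) ^ _)]
  rw [Finset.sum_comm, Matrix.mul_sum, Matrix.sum_mul]
  refine Finset.sum_congr rfl fun S _ => ?_
  rw [← Finset.smul_sum, Matrix.mul_smul, Matrix.smul_mul, al_Alg]

private lemma map_al_Alg {I W J : Type} [Fintype I] [DecidableEq I] [Fintype W] {R : ℕ}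
    {A : G I → Matrix W W ℤ} {Bm : G I → Matrix W W (ZMod 2)}
    (hA : ∀ g, (A g).map (Int.cast : ℤ → ZMod 2) = Bm g) (P : Matrix W J (ZMod 2))
    (ξ : Fin R → G I) (ξ₀ : G I) (S : Finset (Fin R)) (i j : J) :
    ((al_Alg A (P.map fun x => (x.val : ℤ)) ξ ξ₀ S i j : ℤ) : ZMod 2) =
      (Pᵀ * (∑ g, (∏ l ∈ S, ξ l ⬝ᵥ g) • Bm g) * P) i j := by
  have h1 : (-1 : ZMod 2) = 1 := by decide
  simp only [al_Alg, Matrix.mul_apply, Matrix.sum_apply, Matrix.smul_apply, transpose_apply,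
    map_apply, smul_eq_mul, ← hA]
  push_cast
  simp only [cast_sg_Alg, h1, one_pow, one_mul, ZMod.natCast_val, ZMod.cast_id', id_eq]

private lemma count_Alg {A : Type} [AddCommGroup A] [Fintype A] {β : Type} [Fintype β]
    (p : A → Prop) [DecidablePred p] (v : β → A) (c : ℝ)
    (h : ∀ a, ((Finset.univ.filter fun b => p (a + v b)).card : ℝ) ≤ c) :
    ((Finset.univ.filter p).card : ℝ) * Fintype.card β ≤ Fintype.card A * c := by
  have h1 : ∀ b, (Finset.univ.filter fun a => p (a + v b)).card = (Finset.univ.filter p).card :=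
    fun b => Finset.card_equiv (Equiv.addRight (v b)) (by simp)
  have h2 : ∑ a, (Finset.univ.filter fun b => p (a + v b)).card =
      ∑ b, (Finset.univ.filter fun a => p (a + v b)).card := by
    simp only [Finset.card_filter]
    exact Finset.sum_comm
  simp only [h1, Finset.sum_const, Finset.card_univ, smul_eq_mul] at h2
  have h3 := Finset.sum_le_sum fun a (_ : a ∈ (Finset.univ : Finset A)) => h a
  rw [← Nat.cast_sum, h2, Finset.sum_const, Finset.card_univ, nsmul_eq_mul, Nat.cast_mul,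
    mul_comm] at h3
  exact h3

theorem alg (w : ℕ) (η : ℝ) (hη : 0 < η) : ∃ R : ℕ, ∀ (I : Type) [Fintype I] [DecidableEq I]
    (W : Type) [Fintype W], Fintype.card W ≤ w → ∀ (M : Type) [AddCommGroup M]
    (s : G I → M →+ M) (ν : M →+ (W → ZMod 2)) (Bm : G I → Matrix W W (ZMod 2)), Lat s ν Bm →
    (∀ ξ, (eig s ξ).FG) → Alt (∑ g, Bm g) → ∀ Mt : Matrix W W (ZMod 2), Alt Mt →
    Small (∑ g, Bm g) Mt → ∀ ξ : Fin R → G I, Pat Bm Mt ξ →
    ((Finset.univ.filter fun ξ₀ : G I =>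
      Fintype.card W % 2 < Module.finrank ℤ (eig s ξ₀)).card : ℝ) ≤ η * Fintype.card (G I) := by
  obtain ⟨R, hR⟩ := ac w η hη
  refine ⟨R, fun I _ _ W _ hw M _ s ν Bm hL hfg h0 Mt h1 hS ξ hP => ?_⟩
  classical
  obtain ⟨A, hA, hlift⟩ := hL.lift hfg
  obtain ⟨r₁, r₂, P, hc, hr, hP0, hdet⟩ := adapt h0 h1 hS
  have key := count_Alg (fun ξ₀ : G I => Fintype.card W % 2 < Module.finrank ℤ (eig s ξ₀))
    (fun C : Finset (Fin R) => ∑ l ∈ C, ξ l) (η * 2 ^ R) fun ξ₀ => by
      have hm := map_al_Alg hA P ξ ξ₀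
      obtain ⟨lam, hl, ho, hd⟩ := det_poly (al_Alg A (P.map fun x => (x.val : ℤ)) ξ ξ₀)
        ((Pᵀ * Mt * P).map fun x => (x.val : ℤ))
        (fun i j => (ZMod.intCast_zmod_eq_zero_iff_dvd _ 2).1 (by
          rw [hm]
          simpa using hP0 i j))
        (fun l i j => (ZMod.intCast_zmod_eq_zero_iff_dvd _ 2).1 (by
          rw [Int.cast_sub, hm]
          simp [hP.1 l]))
        (fun S hS i j => (ZMod.intCast_zmod_eq_zero_iff_dvd _ 2).1 (by
          rw [hm, hP.2 S hS]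
          simp))
        (by
          rw [← Int.not_even_iff_odd, even_iff_two_dvd]
          intro h2
          refine hdet (Eq.trans ?_ ((ZMod.intCast_zmod_eq_zero_iff_dvd _ 2).2 h2))
          rw [Int.cast_det]
          congr 1
          ext i j
          rcases i with i | i
          · simp
          · simp only [map_apply, of_apply, Sum.elim_inr, hm]
            simp)
      refine le_trans ?_ (hR r₁ (hr.trans hw) lam hl ho)
      refine Nat.cast_le.2 (Finset.card_le_card fun C hC => ?_)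
      simp only [Finset.mem_filter, Finset.mem_univ, true_and] at hC ⊢
      by_contra hne
      have h3 := hlift (ξ₀ + ∑ l ∈ C, ξ l) _ (P.map fun x => (x.val : ℤ)) (by
        rw [← sum_al_Alg, hd]
        exact mul_ne_zero (pow_ne_zero _ two_ne_zero) hne)
      simp only [Fintype.card_sum, Fintype.card_fin] at h3
      omega
  rw [Fintype.card_finset, Fintype.card_fin, Nat.cast_pow, Nat.cast_ofNat, ← mul_assoc,
    mul_comm _ η] at key
  exact le_of_mul_le_mul_right key (by positivity)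

end Pool.Agent.Lib.MP_788af2_nt.AS
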