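import Pool.Agent.Lib.MP_788af2_nt.AS.Defs

/-!
The final averaging and the choice of the parameters.
-/

set_option linter.unusedSectionVars false

namespace Pool.Agent.Lib.MP_788af2_nt.AS

open Polynomial WeierstrassCurve Pool.Agent.Lib.MP_a3f657_nt.Two

open scoped Classical

private lemma count_exc {α X : Type} [Fintype X] [Nonempty X] (A : Finset α) (sh : X → α → α)
    (h1 : ∀ ξ, ∀ a ∈ A, sh ξ a ∈ A) (h2 : ∀ ξ, ∀ a ∈ A, sh ξ (sh ξ a) = a) (rk par : α → ℕ)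
    (η : ℝ) (hη : 0 ≤ η) (hpar : ∀ ξ, ∀ a ∈ A, par (sh ξ a) = par a) (good : α → Prop)
    (hgood : ∀ a ∈ A, good a → ((Finset.univ.filter fun ξ => par a % 2 < rk (sh ξ a)).card : ℝ) ≤
      η * Fintype.card X)
    (hbad : ((A.filter fun a => ¬ good a).card : ℝ) ≤ η * A.card) :
    ((A.filter fun a => par a % 2 < rk a).card : ℝ) ≤ 2 * η * A.card := by
  have hX : (0 : ℝ) < Fintype.card X := by exact_mod_cast Fintype.card_pos
  have e1 : ∀ ξ, (A.filter fun a => par a % 2 < rk a).card =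
      (A.filter fun a => par a % 2 < rk (sh ξ a)).card := fun ξ => by
    refine Finset.card_bij' (fun a _ => sh ξ a) (fun a _ => sh ξ a) ?_ ?_ ?_ ?_
    · intro a ha
      rw [Finset.mem_filter] at ha ⊢
      exact ⟨h1 ξ a ha.1, by rw [hpar ξ a ha.1, h2 ξ a ha.1]; exact ha.2⟩
    · intro a ha
      rw [Finset.mem_filter] at ha ⊢
      exact ⟨h1 ξ a ha.1, by rw [hpar ξ a ha.1]; exact ha.2⟩
    · intro a ha
      exact h2 ξ a (Finset.mem_filter.1 ha).1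
    · intro a ha
      exact h2 ξ a (Finset.mem_filter.1 ha).1
  have e2 : ((A.filter fun a => par a % 2 < rk a).card : ℝ) * Fintype.card X =
      ∑ a ∈ A, ((Finset.univ.filter fun ξ => par a % 2 < rk (sh ξ a)).card : ℝ) := by
    have : ∑ ξ : X, ((A.filter fun a => par a % 2 < rk (sh ξ a)).card : ℝ) =
        ∑ a ∈ A, ((Finset.univ.filter fun ξ => par a % 2 < rk (sh ξ a)).card : ℝ) := by
      simp only [Finset.card_filter]
      push_cast
      exact Finset.sum_comm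
    rw [← this]
    simp only [← e1]
    rw [Finset.sum_const, Finset.card_univ, nsmul_eq_mul, mul_comm]
  have e3 : ∑ a ∈ A, ((Finset.univ.filter fun ξ => par a % 2 < rk (sh ξ a)).card : ℝ) ≤
      ∑ a ∈ A, (η * Fintype.card X + if ¬ good a then (Fintype.card X : ℝ) else 0) := by
    refine Finset.sum_le_sum fun a ha => ?_
    by_cases hg : good a
    · simpa [hg] using hgood a ha hg
    · have : ((Finset.univ.filter fun ξ => par a % 2 < rk (sh ξ a)).card : ℝ) ≤ Fintype.card X := by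
        exact_mod_cast Finset.card_le_univ _
      have h0 : 0 ≤ η * Fintype.card X := by positivity
      simp only [hg, not_false_eq_true, if_true]
      linarith
  rw [Finset.sum_add_distrib, Finset.sum_const, ← Finset.sum_filter, Finset.sum_const,
    nsmul_eq_mul, nsmul_eq_mul] at e3
  have e4 := mul_le_mul_of_nonneg_right hbad hX.le
  refine le_of_mul_le_mul_right ?_ hX
  rw [e2]
  linarith

/-- The final averaging. -/
theorem final_count {α X : Type} [Fintype X] [Nonempty X] (A : Finset α) (sh : X → α → α)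
    (h1 : ∀ ξ, ∀ a ∈ A, sh ξ a ∈ A) (h2 : ∀ ξ, ∀ a ∈ A, sh ξ (sh ξ a) = a) (rk par : α → ℕ)
    (n m : ℕ) (hm : 1 ≤ m) (η : ℝ) (hη : 0 ≤ η) (hpar : ∀ ξ, ∀ a ∈ A, par (sh ξ a) = par a)
    (hrk : ∀ a ∈ A, rk a ≤ n) (good : α → Prop)
    (hgood : ∀ a ∈ A, good a → ((Finset.univ.filter fun ξ => par a % 2 < rk (sh ξ a)).card : ℝ) ≤
      η * Fintype.card X)
    (hbad : ((A.filter fun a => ¬ good a).card : ℝ) ≤ η * A.card)
    (hhalf : 2 * (A.filter fun a => Odd (par a)).card = A.card) :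
    ∑ a ∈ A, (rk a : ℝ) ^ m ≤ (1 / 2 + 2 * η * n ^ m) * A.card := by
  have hE := count_exc A sh h1 h2 rk par η hη hpar good hgood hbad
  have hn : (0 : ℝ) ≤ (n : ℝ) ^ m := by positivity
  have e1 : ∑ a ∈ A, (rk a : ℝ) ^ m ≤ ∑ a ∈ A, ((if Odd (par a) then (1 : ℝ) else 0) +
      if par a % 2 < rk a then (n : ℝ) ^ m else 0) := by
    refine Finset.sum_le_sum fun a ha => ?_
    by_cases hc : par a % 2 < rk a
    · have : (rk a : ℝ) ^ m ≤ (n : ℝ) ^ m :=
        pow_le_pow_left₀ (by positivity) (by exact_mod_cast hrk a ha) m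
      rw [if_pos hc]
      split_ifs <;> linarith
    · rw [if_neg hc, add_zero]
      by_cases ho : Odd (par a)
      · rw [if_pos ho]
        have : rk a ≤ 1 := by omega
        exact pow_le_one₀ (by positivity) (by exact_mod_cast this)
      · rw [if_neg ho]
        have : rk a = 0 := by
          rw [Nat.odd_iff] at ho
          omega
        rw [this, Nat.cast_zero, zero_pow (by omega)]
  rw [Finset.sum_add_distrib, ← Finset.sum_filter, ← Finset.sum_filter, Finset.sum_const,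
    Finset.sum_const, nsmul_eq_mul, nsmul_eq_mul] at e1
  have e2 : 2 * ((A.filter fun a => Odd (par a)).card : ℝ) = A.card := by exact_mod_cast hhalf
  have e3 := mul_le_mul_of_nonneg_right hE hn
  linarith

/-- The choice of the Frobenius power and of the size of the tower. -/
theorem params (n Q c₀ : ℕ) : ∃ M : ℕ, ∀ e, M ≤ e → ∀ n₀, 1 ≤ n₀ → n₀ ≤ n → ∃ i c : ℕ, c₀ ≤ c ∧
    2 ^ i * n₀ + n + 8 * (Q * c) + 4 ≤ e ∧ 2 * n + 16 * (Q * c) + 4 ≤ e ∧
    e ≤ 2 * (2 ^ i * n₀) + c := by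
  obtain ⟨c₁, hc₁⟩ : ∃ c₁, c₁ = c₀ + n + 8 * (Q * c₀) + 4 := ⟨_, rfl⟩
  have hQ : Q * c₀ ≤ Q * c₁ := Nat.mul_le_mul_left _ (by omega)
  refine ⟨2 * n + 16 * (Q * c₁) + 8, fun e he n₀ h1 h2 => ?_⟩
  obtain ⟨K, hK⟩ : ∃ K, K + n + 8 * (Q * c₀) + 4 = e := ⟨e - (n + 8 * (Q * c₀) + 4), by omega⟩
  have h3 : n₀ ≤ K := by omega
  have h4 : K / n₀ ≠ 0 := (Nat.div_pos h3 h1).ne'
  have h5 : 2 ^ Nat.log 2 (K / n₀) * n₀ ≤ K :=
    (Nat.le_div_iff_mul_le h1).1 (Nat.pow_log_le_self 2 h4)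
  have h6 : K < 2 ^ (Nat.log 2 (K / n₀) + 1) * n₀ :=
    (Nat.div_lt_iff_lt_mul h1).1 (Nat.lt_pow_succ_log_self (by norm_num) _)
  rw [pow_succ, mul_right_comm] at h6
  by_cases hc : e ≤ 2 * (2 ^ Nat.log 2 (K / n₀) * n₀) + c₀
  · exact ⟨_, c₀, le_rfl, by omega, by omega, hc⟩
  · exact ⟨Nat.log 2 (K / n₀), c₁, by omega, by omega, by omega, by omega⟩

/-- The exponents of the generators of the tower. -/
lemma exists_exp {R : ℕ} (D : Fin R → ℕ) (n : ℕ) : ∃ Q c₀ : ℕ, 1 ≤ c₀ ∧ ∀ c, c₀ ≤ c →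
    ∃ cc : Fin R → ℕ, (∀ m, c ≤ cc m) ∧ Function.Injective (fun i : Ix D => cc i.1 + i.2) ∧
    ∀ n₀ ≤ n, (∑ i : Ix D, (((n₀ + (cc i.1 + i.2) : ℕ) : ℝ) + 1 / 2) ≤ (Q * c : ℕ)) ∧
      ∀ m, (n₀ : ℝ) + D m + 8 * (∑ i ∈ Finset.univ.filter fun i : Ix D => i.1 < m,
        (((n₀ + (cc i.1 + i.2) : ℕ) : ℝ) + 1 / 2)) + 4 ≤ cc m := by
  obtain ⟨N, hN⟩ : ∃ N, N = Fintype.card (Ix D) := ⟨_, rfl⟩
  have hD : ∀ m, D m ≤ N := fun m => by
    rw [hN, Fintype.card_sigma]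
    simpa using Finset.single_le_sum (f := D) (fun i _ => Nat.zero_le _) (Finset.mem_univ m)
  obtain ⟨K, hK⟩ : ∃ K, K = 16 * N + 1 := ⟨_, rfl⟩
  have hK1 : 1 ≤ K := by omega
  refine ⟨2 * N * K ^ R, n + N + 5, by omega, fun c hc => ?_⟩
  have hle : ∀ j : ℕ, c ≤ K ^ j * c := fun j => Nat.le_mul_of_pos_left _ (pow_pos hK1 j)
  have hmono : ∀ j j' : ℕ, j ≤ j' → K ^ j * c ≤ K ^ j' * c := fun j j' h =>
    Nat.mul_le_mul_right _ (Nat.pow_le_pow_right hK1 h)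
  have hstep : ∀ j : ℕ, K ^ (j + 1) * c = 16 * (N * (K ^ j * c)) + K ^ j * c := fun j => by
    rw [pow_succ, hK]; ring
  have hlt : ∀ i i' : Ix D, i.1 < i'.1 →
      K ^ (i.1.1 + 1) * c + i.2 < K ^ (i'.1.1 + 1) * c + i'.2 := fun i i' h => by
    have a1 := hmono (i.1.1 + 1 + 1) (i'.1.1 + 1) (by have : i.1.1 < i'.1.1 := h; omega)
    have a2 := hstep (i.1.1 + 1)
    have a3 : N ≤ N * (K ^ (i.1.1 + 1) * c) :=
      Nat.le_mul_of_pos_right _ (by have := hle (i.1.1 + 1); omega)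
    have a4 := hD i.1
    have a5 := i.2.2
    omega
  have hsum : ∀ n₀ ≤ n, ∀ (s : Finset (Ix D)) (j : ℕ), (∀ i ∈ s, i.1.1 < j) →
      ∑ i ∈ s, (((n₀ + (K ^ (i.1.1 + 1) * c + i.2) : ℕ) : ℝ) + 1 / 2) ≤
        ((2 * (N * (K ^ j * c)) : ℕ) : ℝ) := by
    intro n₀ h0 s j hs
    refine (Finset.sum_le_card_nsmul _ _ (((2 * (K ^ j * c) : ℕ) : ℝ)) fun i hi => ?_).trans ?_
    · have a1 := hmono (i.1.1 + 1) j (hs i hi)
      have a2 := hle j
      have a4 := hD i.1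
      have a5 := i.2.2
      have a6 : n₀ + (K ^ (i.1.1 + 1) * c + i.2) + 1 ≤ 2 * (K ^ j * c) := by omega
      have a7 : ((n₀ + (K ^ (i.1.1 + 1) * c + i.2) : ℕ) : ℝ) + 1 ≤ ((2 * (K ^ j * c) : ℕ) : ℝ) := by
        exact_mod_cast a6
      linarith
    · rw [nsmul_eq_mul, ← Nat.cast_mul, Nat.cast_le]
      have : s.card ≤ N := hN ▸ Finset.card_le_univ s
      calc s.card * (2 * (K ^ j * c)) ≤ N * (2 * (K ^ j * c)) := Nat.mul_le_mul_right _ this
        _ = _ := by ring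
  refine ⟨fun m => K ^ (m.1 + 1) * c, fun m => hle _, ?_, fun n₀ h0 => ⟨?_, fun m => ?_⟩⟩
  · intro i i' h
    simp only at h
    rcases lt_trichotomy i.1 i'.1 with h1 | h1 | h1
    · exact absurd h (hlt i i' h1).ne
    · obtain ⟨m, a⟩ := i
      obtain ⟨m', a'⟩ := i'
      obtain rfl : m = m' := h1
      obtain rfl : a = a' := Fin.ext (by simpa using h)
      rfl
    · exact absurd h (hlt i' i h1).ne'
  · refine (hsum n₀ h0 Finset.univ R fun i _ => i.1.2).trans (le_of_eq ?_)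
    congr 1
    ring
  · have a1 := hsum n₀ h0 (Finset.univ.filter fun i : Ix D => i.1 < m) m.1
      fun i hi => (Finset.mem_filter.1 hi).2
    have a2 : n₀ + D m + 8 * (2 * (N * (K ^ m.1 * c))) + 4 ≤ K ^ (m.1 + 1) * c := by
      have b1 := hstep m.1
      have b2 := hle m.1
      have b3 := hD m
      omega
    have a3 : (n₀ : ℝ) + D m + 8 * ((2 * (N * (K ^ m.1 * c)) : ℕ) : ℝ) + 4 ≤
        ((K ^ (m.1 + 1) * c : ℕ) : ℝ) := by exact_mod_cast a2
    linarith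

end Pool.Agent.Lib.MP_788af2_nt.AS
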