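import Pool.Agent.Lib.MP_788af2_nt.AS.Defs

/-!
The split primes.
-/

set_option linter.unusedSectionVars false

namespace Pool.Agent.Lib.MP_788af2_nt.AS

open Polynomial WeierstrassCurve Pool.Agent.Lib.MP_a3f657_nt.Two

open scoped Classical

variable {k : Type} [Field k] [Finite k] [CharP k 2] {a b : k[X]}

lemma mem_Spl (hb : b ≠ 0) {q : k[X]} :
    q ∈ Spl b a ↔ Irreducible q ∧ q.Monic ∧ q ∣ b ∧ ∃ z, q ∣ a + z ^ 2 + z := by
  unfold Spl
  rw [Finset.mem_filter, Multiset.mem_toFinset, Polynomial.mem_normalizedFactors_iff hb]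
  simp only [and_assoc]

private lemma spl_cop {q q' : k[X]} (h1 : Irreducible q) (h2 : q.Monic) (h3 : Irreducible q')
    (h4 : q'.Monic) (hne : q ≠ q') : IsCoprime q q' := by
  rw [h1.coprime_iff_not_dvd]
  intro hd
  exact hne (eq_of_monic_of_associated h2 h4 (h1.associated_of_dvd h3 hd))

private lemma spl_congr {q z z' : k[X]} (h : q ∣ z - z') (h' : q ∣ a + z' ^ 2 + z') :
    q ∣ a + z ^ 2 + z := by
  have e : a + z ^ 2 + z = (a + z' ^ 2 + z') + (z - z') * (z + z' + 1) := by ring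
  rw [e]
  exact dvd_add h' (h.mul_right _)

private lemma spl_crt (S : Finset k[X]) (hc : ∀ x ∈ S, ∀ y ∈ S, x ≠ y → IsCoprime x y)
    (hz : ∀ q ∈ S, ∃ z, q ∣ a + z ^ 2 + z) : ∃ z, (∏ q ∈ S, q) ∣ a + z ^ 2 + z := by
  induction S using Finset.induction_on with
  | empty => exact ⟨0, by simp⟩
  | insert q S hq ih =>
    obtain ⟨z2, h2⟩ := ih (fun x hx y hy => hc x (by simp [hx]) y (by simp [hy]))
      (fun x hx => hz x (by simp [hx]))
    obtain ⟨z1, h1⟩ := hz q (by simp)
    have hcop : IsCoprime q (∏ q ∈ S, q) :=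
      IsCoprime.prod_right fun x hx => hc q (by simp) x (by simp [hx]) (by rintro rfl; exact hq hx)
    obtain ⟨u, v, huv⟩ := id hcop
    rw [Finset.prod_insert hq]
    refine ⟨z1 * (v * ∏ q ∈ S, q) + z2 * (u * q), hcop.mul_dvd (spl_congr ?_ h1) (spl_congr ?_ h2)⟩
    · exact ⟨(z2 - z1) * u, by linear_combination z1 * huv⟩
    · exact ⟨(z1 - z2) * v, by linear_combination z2 * huv⟩

private lemma spl_pair (hb : b ≠ 0) (a : k[X]) :
    ∀ x ∈ Spl b a, ∀ y ∈ Spl b a, x ≠ y → IsCoprime x y := fun _ hx _ hy hne =>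
  spl_cop ((mem_Spl hb).1 hx).1 ((mem_Spl hb).1 hx).2.1 ((mem_Spl hb).1 hy).1
    ((mem_Spl hb).1 hy).2.1 hne

lemma adm_spl (hb : b ≠ 0) (a : k[X]) : Adm b (∏ q ∈ Spl b a, q) a := by
  refine ⟨?_, ?_, ?_, ?_⟩
  · exact Finset.prod_dvd_of_coprime (fun x hx y hy hne => spl_pair hb a x hx y hy hne)
      fun q hq => ((mem_Spl hb).1 hq).2.2.1
  · exact separable_prod' (f := fun q => q) (spl_pair hb a)
      fun q hq => PerfectField.separable_of_irreducible ((mem_Spl hb).1 hq).1
  · exact spl_crt _ (spl_pair hb a) fun q hq => ((mem_Spl hb).1 hq).2.2.2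
  · intro q hq hqb hn z hz
    have has : Associated (normalize q) q := normalize_associated q
    have hmem : normalize q ∈ Spl b a :=
      (mem_Spl hb).2 ⟨has.symm.irreducible hq, monic_normalize hq.ne_zero, has.dvd.trans hqb,
        z, has.dvd.trans hz⟩
    exact hn (has.symm.dvd.trans (Finset.dvd_prod_of_mem (fun q => q) hmem))

lemma card_Spl_le (hb : b ≠ 0) (a : k[X]) : (Spl b a).card ≤ b.natDegree := by
  refine le_trans ?_ (natDegree_le_of_dvd (adm_spl hb a).dvd hb)
  rw [natDegree_prod_of_monic _ _ fun q hq => ((mem_Spl hb).1 hq).2.1, Finset.card_eq_sum_ones]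
  exact Finset.sum_le_sum fun q hq => ((mem_Spl hb).1 hq).1.natDegree_pos

private lemma spl_shift {q y z : k[X]} (h : q ∣ y) :
    q ∣ a + y + z ^ 2 + z ↔ q ∣ a + z ^ 2 + z := by
  have e : a + y + z ^ 2 + z = y + (a + z ^ 2 + z) := by ring
  rw [e, dvd_add_right h]

lemma Spl_add (a : k[X]) {y : k[X]} (h : b ∣ y) : Spl b (a + y) = Spl b a := by
  unfold Spl
  refine Finset.filter_congr fun q hq => ?_
  have hq' : q ∣ y := (UniqueFactorizationMonoid.dvd_of_mem_normalizedFactors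
    (Multiset.mem_toFinset.1 hq)).trans h
  exact exists_congr fun z => spl_shift hq'

lemma Adm.add {bs y : k[X]} (hA : Adm b bs a) (h : b ∣ y) : Adm b bs (a + y) := by
  refine ⟨hA.dvd, hA.cop, ?_, fun q hq hqb hn z hz => ?_⟩
  · obtain ⟨z, hz⟩ := hA.spl
    exact ⟨z, (spl_shift (hA.dvd.trans h)).2 hz⟩
  · exact hA.non q hq hqb hn z ((spl_shift (hqb.trans h)).1 hz)

lemma exists_fam (e : ℕ) : ∃ A : Finset k[X], A.Nonempty ∧ ∀ a, a ∈ A ↔ a.natDegree = e := by
  have hfin : Finite (degreeLT k (e + 1)) := Finite.of_equiv _ (degreeLTEquiv k (e + 1)).symm.toEquiv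
  have h1 : ((degreeLT k (e + 1) : Submodule k k[X]) : Set k[X]).Finite := hfin
  have h2 : {a : k[X] | a.natDegree = e}.Finite := by
    refine h1.subset fun a ha => ?_
    have ha' : a.natDegree = e := ha
    rw [SetLike.mem_coe, mem_degreeLT]
    refine lt_of_le_of_lt degree_le_natDegree ?_
    rw [ha']
    exact_mod_cast Nat.lt_succ_self e
  exact ⟨h2.toFinset, ⟨X ^ e, by simp⟩, fun a => by simp⟩

/-- In a finite field of characteristic two the image of `wp` has index two. -/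
private lemma spl_field (F : Type) [Field F] [Finite F] [CharP F 2] :
    ∃ c : F, ∀ x : F, (∃ z, x + c + z ^ 2 + z = 0) ↔ ¬ ∃ z, x + z ^ 2 + z = 0 := by
  let f : F →+ F := AddMonoidHom.mk' wp wp_add
  have e1 : Nat.card f.ker = 2 := by
    have : (f.ker : Set F) = {0, 1} := by
      ext x
      simp only [SetLike.mem_coe, AddMonoidHom.mem_ker, Set.mem_insert_iff, Set.mem_singleton_iff]
      exact wp_eq_zero
    have h2 : Nat.card f.ker = (f.ker : Set F).ncard := rfl
    rw [h2, this, Set.ncard_pair zero_ne_one]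
  have e2 : f.range.index = 2 := by rw [AddSubgroup.index_range, e1]
  have hm : ∀ x : F, (∃ z, x + z ^ 2 + z = 0) ↔ x ∈ f.range := by
    intro x
    refine exists_congr fun z => ?_
    change _ ↔ z ^ 2 + z = x
    constructor <;> intro h <;> grind
  obtain ⟨c, hc⟩ : ∃ c, c ∉ f.range := by
    by_contra h
    push Not at h
    have : f.range = ⊤ := (AddSubgroup.eq_top_iff' _).2 h
    rw [this, AddSubgroup.index_top] at e2
    omega
  refine ⟨c, fun x => ?_⟩
  rw [hm, hm, AddSubgroup.add_mem_iff_of_index_two e2]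
  exact ⟨fun h hx => hc (h.1 hx), fun h => ⟨fun hx => absurd hx h, fun hx => absurd hx hc⟩⟩

private lemma spl_flip {q : k[X]} (hq : Irreducible q) :
    ∃ c : k[X], ∀ a : k[X], (∃ z, q ∣ a + c + z ^ 2 + z) ↔ ¬ ∃ z, q ∣ a + z ^ 2 + z := by
  have : Fact (Irreducible q) := ⟨hq⟩
  have : Module.Finite k (AdjoinRoot q) := (AdjoinRoot.powerBasis hq.ne_zero).finite
  have : Finite (AdjoinRoot q) := Module.finite_of_finite k
  have : CharP (AdjoinRoot q) 2 :=
    charP_of_injective_algebraMap (algebraMap k (AdjoinRoot q)).injective 2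
  obtain ⟨c, hc⟩ := spl_field (AdjoinRoot q)
  obtain ⟨c, rfl⟩ := AdjoinRoot.mk_surjective c
  have hm : ∀ a : k[X], (∃ z, q ∣ a + z ^ 2 + z) ↔ ∃ z, AdjoinRoot.mk q a + z ^ 2 + z = 0 := by
    intro a
    constructor
    · rintro ⟨z, hz⟩
      refine ⟨AdjoinRoot.mk q z, ?_⟩
      rw [← AdjoinRoot.mk_eq_zero] at hz
      simpa using hz
    · rintro ⟨z, hz⟩
      obtain ⟨z, rfl⟩ := AdjoinRoot.mk_surjective z
      refine ⟨z, ?_⟩
      rw [← AdjoinRoot.mk_eq_zero]
      simpa using hz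
  refine ⟨c, fun a => ?_⟩
  rw [hm, hm, map_add]
  exact hc _

/-- A shift of small degree that changes the parity of the number of split primes. -/
private lemma spl_inv (hb : 0 < b.natDegree) :
    ∃ y : k[X], y.degree < b.degree ∧
      ∀ a : k[X], Odd (Spl b (a + y)).card ↔ ¬ Odd (Spl b a).card := by
  have hb0 : b ≠ 0 := by rintro rfl; simp at hb
  obtain ⟨q0, hm0, hi0, hd0⟩ := exists_monic_irreducible_factor b
    (not_isUnit_of_natDegree_pos b hb)
  obtain ⟨c, hc⟩ := spl_flip hi0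
  have hall : ∀ q, q ∈ Spl b 0 ↔ Irreducible q ∧ q.Monic ∧ q ∣ b := by
    intro q
    rw [mem_Spl hb0]
    exact ⟨fun h => ⟨h.1, h.2.1, h.2.2.1⟩, fun h => ⟨h.1, h.2.1, h.2.2, 0, by simp⟩⟩
  have hcop : IsCoprime q0 (∏ q ∈ (Spl b 0).erase q0, q) :=
    IsCoprime.prod_right fun x hx => by
      obtain ⟨h1, h2⟩ := Finset.mem_erase.1 hx
      exact spl_cop hi0 hm0 ((hall x).1 h2).1 ((hall x).1 h2).2.1 h1.symm
  obtain ⟨u, v, huv⟩ := hcop
  set P := ∏ q ∈ (Spl b 0).erase q0, q with hP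
  have hmod : b ∣ (c * (v * P)) % b - c * (v * P) :=
    ⟨-(c * (v * P) / b), by linear_combination EuclideanDomain.mod_add_div (c * (v * P)) b⟩
  set y := (c * (v * P)) % b with hy
  have h0 : q0 ∣ y - c := by
    have e : y - c = (y - c * (v * P)) + q0 * (-(c * u)) := by linear_combination c * huv
    rw [e]
    exact dvd_add (hd0.trans hmod) (dvd_mul_right _ _)
  have h1 : ∀ q, Irreducible q → q.Monic → q ∣ b → q ≠ q0 → q ∣ y := by
    intro q h1 h2 h3 h4
    have e : y = (y - c * (v * P)) + P * (c * v) := by ring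
    rw [e]
    exact dvd_add (h3.trans hmod) ((Finset.dvd_prod_of_mem (fun q => q)
      (Finset.mem_erase.2 ⟨h4, (hall q).2 ⟨h1, h2, h3⟩⟩)).mul_right _)
  refine ⟨y, degree_mod_lt _ hb0, fun a => ?_⟩
  have hq0 : q0 ∈ Spl b (a + y) ↔ q0 ∉ Spl b a := by
    rw [mem_Spl hb0, mem_Spl hb0]
    have : (∃ z, q0 ∣ a + y + z ^ 2 + z) ↔ ∃ z, q0 ∣ a + c + z ^ 2 + z := by
      refine exists_congr fun z => ?_
      have e : a + y = a + c + (y - c) := by ring
      rw [e]
      exact spl_shift h0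
    rw [this, hc]
    exact ⟨fun h h' => h.2.2.2 h'.2.2.2, fun h => ⟨hi0, hm0, hd0, fun h' => h ⟨hi0, hm0, hd0, h'⟩⟩⟩
  have her : (Spl b (a + y)).erase q0 = (Spl b a).erase q0 := by
    ext q
    rw [Finset.mem_erase, Finset.mem_erase, mem_Spl hb0, mem_Spl hb0]
    refine and_congr_right fun h4 => and_congr_right fun h1' => and_congr_right fun h2 =>
      and_congr_right fun h3 => exists_congr fun z => spl_shift (h1 q h1' h2 h3 h4)
  by_cases hin : q0 ∈ Spl b a
  · have hn : q0 ∉ Spl b (a + y) := fun h => hq0.1 h hin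
    rw [Finset.erase_eq_of_notMem hn] at her
    rw [← Finset.card_erase_add_one hin, ← her, Nat.odd_add_one, not_not]
  · rw [Finset.erase_eq_of_notMem hin] at her
    rw [← Finset.card_erase_add_one (hq0.2 hin), her, Nat.odd_add_one]

theorem half_odd (hb : 0 < b.natDegree) {e : ℕ} (he : b.natDegree ≤ e) (A : Finset k[X])
    (hA : ∀ a, a ∈ A ↔ a.natDegree = e) :
    2 * (A.filter fun a => Odd (Spl b a).card).card = A.card := by
  obtain ⟨y, hy, hflip⟩ := spl_inv hb
  have hb0 : b ≠ 0 := by rintro rfl; simp at hb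
  have hyy : ∀ a : k[X], a + y + y = a := fun a => by
    rw [add_assoc, CharTwo.add_self_eq_zero, add_zero]
  have hmem : ∀ a ∈ A, a + y ∈ A := by
    intro a ha
    rw [hA] at ha ⊢
    have ha0 : a ≠ 0 := by
      rintro rfl
      rw [natDegree_zero] at ha
      omega
    rw [natDegree_add_eq_left_of_degree_lt, ha]
    refine hy.trans_le ?_
    rw [degree_eq_natDegree hb0, degree_eq_natDegree ha0, ha]
    exact_mod_cast he
  have hcard : (A.filter fun a => Odd (Spl b a).card).card =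
      (A.filter fun a => ¬ Odd (Spl b a).card).card := by
    refine Finset.card_nbij' (fun a => a + y) (fun a => a + y) ?_ ?_ (fun a _ => hyy a)
      (fun a _ => hyy a)
    · intro a ha
      rw [Finset.mem_coe, Finset.mem_filter] at ha ⊢
      exact ⟨hmem a ha.1, fun h => (hflip a).1 h ha.2⟩
    · intro a ha
      rw [Finset.mem_coe, Finset.mem_filter] at ha ⊢
      exact ⟨hmem a ha.1, (hflip a).2 ha.2⟩
  have := Finset.card_filter_add_card_filter_not (s := A) fun a => Odd (Spl b a).card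
  omega

end Pool.Agent.Lib.MP_788af2_nt.AS
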