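import Pool.Agent.Lib.MP_788af2_nt.AS.Loc2
import Pool.Agent.Lib.MP_788af2_nt.AS.Spl

/-!
The pairing is equidistributed as the twist varies.
-/

set_option linter.unusedSectionVars false

namespace Pool.Agent.Lib.MP_788af2_nt.AS

open Polynomial WeierstrassCurve Pool.Agent.Lib.MP_a3f657_nt.Two

section flipAux

variable {k : Type} [Field k] [Finite k] [CharP k 2]

/-- The residue at infinity of a quotient of degree minus one. -/
lemma flip_resInf {u v : k[X]} (hu : u ≠ 0) (hv : v ≠ 0) (h : u.natDegree + 1 = v.natDegree) :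
    resInf (ι u / ι v) = u.leadingCoeff / v.leadingCoeff := by
  have hl : v.leadingCoeff ≠ 0 := leadingCoeff_ne_zero.2 hv
  have hc : u.leadingCoeff / v.leadingCoeff ≠ 0 := div_ne_zero (leadingCoeff_ne_zero.2 hu) hl
  rw [resInf_apply, pol_eq (a := C (u.leadingCoeff / v.leadingCoeff)), coeff_C_zero]
  have h0 := ι_ne hv
  have e : RatFunc.X * (ι u / ι v) - ι (C (u.leadingCoeff / v.leadingCoeff)) =
      ι (X * u - C (u.leadingCoeff / v.leadingCoeff) * v) / ι v := by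
    generalize C (u.leadingCoeff / v.leadingCoeff) = z
    simp only [ι, map_mul, map_sub, RatFunc.algebraMap_X] at h0 ⊢
    field_simp
  rw [e]
  refine Fil.div (a := 1 - v.natDegree) (ι_mem_none'.2 ?_) (by rw [ord_none hv]; omega)
  have h1 : X * u ≠ 0 := mul_ne_zero X_ne_zero hu
  have h2 : (X * u).degree = (v.natDegree : WithBot ℕ) := by
    rw [degree_eq_natDegree h1, natDegree_X_mul hu, h]
  have := degree_sub_lt_left (p := X * u) (q := C (u.leadingCoeff / v.leadingCoeff) * v)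
    (by rw [h2, degree_C_mul hc, degree_eq_natDegree hv]) h1
    (by rw [leadingCoeff_mul, leadingCoeff_mul, leadingCoeff_X, leadingCoeff_C]; field_simp)
  rwa [h2] at this

/-- The derivative of a polynomial of odd degree. -/
lemma flip_deriv {a : k[X]} {e : ℕ} (he : Odd e) (ha : a.natDegree = e) :
    ∃ al : k[X], al ≠ 0 ∧ derivative a = al ^ 2 ∧ 2 * al.natDegree + 1 = e ∧
      al.leadingCoeff ^ 2 = a.leadingCoeff := by
  obtain ⟨r, hr⟩ := he
  have h0 : a ≠ 0 := by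
    rintro rfl
    rw [natDegree_zero] at ha
    omega
  have h1 : (derivative a).coeff (2 * r) = a.leadingCoeff := by
    rw [coeff_derivative, leadingCoeff, ha, hr]
    push_cast
    rw [show (2 : k) = 0 from CharTwo.two_eq_zero]
    ring
  have h2 : (derivative a).natDegree = 2 * r :=
    natDegree_eq_of_le_of_coeff_ne_zero ((natDegree_derivative_le a).trans (by omega))
      (h1 ▸ leadingCoeff_ne_zero.2 h0)
  have h3 : (derivative a).leadingCoeff = a.leadingCoeff := by rw [leadingCoeff, h2, h1]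
  obtain ⟨g, h, e1⟩ := exists_parts a
  have h4 : derivative a = h ^ 2 := by
    rw [e1]
    simp only [derivative_add, derivative_mul, derivative_X, derivative_sq]
    have : (C 2 : k[X]) = 0 := by rw [CharTwo.two_eq_zero, map_zero]
    simp [this]
  rw [h4] at h2 h3
  rw [natDegree_pow] at h2
  rw [leadingCoeff_pow] at h3
  refine ⟨h, ?_, h4, by omega, h3⟩
  rintro rfl
  exact leadingCoeff_ne_zero.2 h0 (by rw [← h3]; simp)

lemma flip_add_deg {a y : k[X]} (h : y.natDegree < a.natDegree) :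
    (a + y).natDegree = a.natDegree ∧ (a + y).leadingCoeff = a.leadingCoeff :=
  ⟨natDegree_add_eq_left_of_natDegree_lt h, by
    rw [add_comm]; exact leadingCoeff_add_of_degree_lt (degree_lt_degree h)⟩

lemma flip_sg (x t : ZMod 2) (ht : t ≠ 0) : sg x + sg (x + t) = 0 := by
  revert x t
  decide

end flipAux

namespace Tw

variable {k : Type} [Field k] [Finite k] [CharP k 2] {I : Type} [Fintype I] [DecidableEq I]
  {β : I → k[X]} {L : Type} [Field L] [CharP L 2] (T : Tw β L)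

/-- The change of the weighted pairing as a residue of a rational function. -/
lemma flip_step {a b bs s μ h al al' : k[X]} {e : ℕ} (hP : Par β b s e) (ha : a.natDegree = e)
    (hA : Adm b bs a) (hμ : b ∣ μ) (h1 : 2 * μ.natDegree + 1 < e)
    (h2 : μ.natDegree + s.natDegree + 2 ≤ e) {W : Type} [Fintype W] {ft : W → L}
    (hft : ∀ q, ft q ∈ T.Wl bs) (w : G I → W × W → ZMod 2)
    (hH : T.P.c1 (T.H ft w) = T.p h / T.p bs) (hal : derivative a = al ^ 2)
    (hal' : derivative (a + X * μ ^ 2) = al' ^ 2) :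
    ∑ g, ∑ q, w g q * T.Bm (a + X * μ ^ 2) s ft g q.1 q.2 =
      ∑ g, ∑ q, w g q * T.Bm a s ft g q.1 q.2 + res none (ι (s * μ * h) / ι (al * al' * bs)) := by
  set Y : L := T.p s * T.p μ / (T.p al * T.p al') with hY
  have hfix : ∀ g, T.σ g (Y ^ 2) = Y ^ 2 := fun g => by
    simp only [hY, map_pow, map_div₀, map_mul, T.σ_p]
  have e1 : ∀ g (q : W × W), w g q * T.Bm (a + X * μ ^ 2) s ft g q.1 q.2 =
      w g q * T.Bm a s ft g q.1 q.2 + T.R (zc L (w g q) * (Y ^ 2 * (T.σ g (ft q.1) * ft q.2))) := by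
    intro g q
    rw [Bm, Bm, Matrix.of_apply, Matrix.of_apply,
      T.B_pert hP ha hA hμ h1 h2 (T.Wl_σ g (hft q.1)) (hft q.2), mul_add, T.R_zc_mul, hal, hal']
    simp only [hY, map_pow, div_pow, mul_pow]
  simp only [e1, Finset.sum_add_distrib, ← T.R_sum]
  congr 1
  rw [← T.R_c1]
  refine T.R_eq ?_
  have e2 : T.tr (∑ g, ∑ q, zc L (w g q) * (Y ^ 2 * (T.σ g (ft q.1) * ft q.2))) =
      Y ^ 2 * T.H ft w := by
    simp only [T.tr_sum, H, Finset.mul_sum]
    refine Finset.sum_congr rfl fun g _ => Finset.sum_congr rfl fun q _ => ?_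
    rw [T.tr_fix_mul (fun g' => T.σ_zc g' _), T.tr_fix_mul hfix]
    ring
  rw [T.tr_c1, e2, PB.c1_sq_mul, hH, map_div₀, ← p_eq, ← p_eq, hY]
  simp only [map_mul]
  rw [div_mul_div_comm, sub_self]
  exact zero_mem _

theorem flip {b s : k[X]} {e : ℕ} (hP : Par β b s e) (S : Finset k[X]) {W : Type} [Fintype W]
    {ft : W → L} (hft : ∀ q, ft q ∈ T.Wl (∏ q ∈ S, q)) {c : ℕ} (hc : 1 ≤ c)
    (h3 : e ≤ 2 * s.natDegree + c) (w : G I → W × W → ZMod 2)
    (hw : T.P.c1 (T.H ft w) ∉ T.d.Le (((c : ℝ) - 2) / 2)) (A : Finset k[X])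
    (hA : ∀ a, a ∈ A ↔ a.natDegree = e ∧ Spl b a = S) :
    ∑ a ∈ A, sg (∑ g, ∑ q, w g q * T.Bm a s ft g q.1 q.2) = 0 := by
  rcases A.eq_empty_or_nonempty with rfl | ⟨a₀, ha₀⟩
  · simp
  have hb := hP.b_ne
  have hadm : ∀ a ∈ A, Adm b (∏ q ∈ S, q) a := fun a ha => by
    rw [← ((hA a).1 ha).2]
    exact adm_spl hb a
  set bs := ∏ q ∈ S, q with hbs
  have hbs0 : bs ≠ 0 := ne_zero_of_dvd_ne_zero hb (hadm a₀ ha₀).dvd
  have hs0 : s ≠ 0 := by
    obtain ⟨j, rfl⟩ := hP.pow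
    exact pow_ne_zero _ hb
  have hp := T.p_ne hbs0
  obtain ⟨a0, ha0⟩ := T.H_poly hft w
  obtain ⟨g0, h, rfl⟩ := exists_parts a0
  have hH : T.P.c1 (T.H ft w) = T.p h / T.p bs := by
    rw [eq_div_iff hp, mul_comm, ← PB.c1_sq_mul, ha0, T.c1_p]
  have hfix : T.H ft w ∈ T.Fx ∅ := T.mem_Fx_empty.2 fun g => by
    have := congrArg (T.σ g) ha0
    rw [map_mul, map_pow, T.σ_p, T.σ_p, ← ha0] at this
    exact mul_left_cancel₀ (pow_ne_zero 2 hp) this
  have hle : T.P.c1 (T.H ft w) ∈ T.d.Le (2 * gam β Finset.univ) :=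
    T.c1_le hfix (T.H_le hft w) (by rw [show gam β ∅ = 0 from Finset.sum_empty]; linarith)
  obtain ⟨hne, hlt⟩ := DF.not_mem_Le.1 hw
  have hh0 : h ≠ 0 := by
    rintro rfl
    exact hne (by rw [hH, map_zero, zero_div])
  rw [DF.mem_Le_iff hne] at hle
  rw [hH, DF.deg_div (T.p_ne hh0) hp, T.deg_p hh0, T.deg_p hbs0] at hle hlt
  have hγ := gam_nonneg β Finset.univ
  have i1 : c + 2 * bs.natDegree < 2 * h.natDegree + 2 := by
    have : (c : ℝ) + 2 * bs.natDegree < 2 * h.natDegree + 2 := by linarith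
    exact_mod_cast this
  have i2 : s.natDegree + b.natDegree + h.natDegree + 2 ≤ e + bs.natDegree := by
    have := hP.le1
    have : (s.natDegree : ℝ) + b.natDegree + h.natDegree + 2 ≤ e + bs.natDegree := by linarith
    exact_mod_cast this
  obtain ⟨j, hj⟩ := Nat.exists_eq_add_of_le i2
  obtain ⟨c0, hc0⟩ := tr_ne (k := k)
  have hc1 : c0 ≠ 0 := by
    rintro rfl
    exact hc0 (map_zero _)
  have l1 := leadingCoeff_ne_zero.2 hb
  have l2 := leadingCoeff_ne_zero.2 hbs0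
  have l3 := leadingCoeff_ne_zero.2 hs0
  have l4 := leadingCoeff_ne_zero.2 hh0
  set κ : k → k := fun l =>
    c0 * l * bs.leadingCoeff / (s.leadingCoeff * b.leadingCoeff * h.leadingCoeff) with hκ
  set μ : k → k[X] := fun l => C (κ l) * X ^ j * b with hμ
  have hne0 : ∀ a ∈ A, a.leadingCoeff ≠ 0 := fun a ha => by
    obtain ⟨al, u1, -, -, u2⟩ := flip_deriv hP.odd ((hA a).1 ha).1
    rw [← u2]
    exact pow_ne_zero _ (leadingCoeff_ne_zero.2 u1)
  have hμ1 : ∀ l, l ≠ 0 → μ l ≠ 0 ∧ (μ l).natDegree = j + b.natDegree ∧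
      (μ l).leadingCoeff = κ l * b.leadingCoeff := fun l hl => by
    have k0 : κ l ≠ 0 := by simp only [hκ]; positivity
    have k1 : C (κ l) * X ^ j ≠ 0 := mul_ne_zero (C_ne_zero.2 k0) (pow_ne_zero _ X_ne_zero)
    refine ⟨mul_ne_zero k1 hb, ?_, ?_⟩
    · rw [hμ, natDegree_mul k1 hb, natDegree_C_mul_X_pow _ _ k0]
    · rw [hμ, leadingCoeff_mul, leadingCoeff_C_mul_X_pow]
  have hdeg : ∀ a ∈ A, (X * μ a.leadingCoeff ^ 2).natDegree < a.natDegree := fun a ha => by
    obtain ⟨u1, u2, -⟩ := hμ1 _ (hne0 a ha)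
    rw [natDegree_X_mul (pow_ne_zero _ u1), natDegree_pow, u2, ((hA a).1 ha).1]
    omega
  have hdvd : ∀ l, b ∣ μ l := fun l => dvd_mul_left _ _
  refine Finset.sum_involution (fun a _ => a + X * μ a.leadingCoeff ^ 2) (fun a ha => ?_)
    (fun a ha _ => ?_) (fun a ha => ?_) (fun a ha => ?_)
  · obtain ⟨u1, u2, u3⟩ := hμ1 _ (hne0 a ha)
    have hae := ((hA a).1 ha).1
    obtain ⟨v1, v2⟩ := flip_add_deg (hdeg a ha)
    obtain ⟨al, x1, x2, x3, x4⟩ := flip_deriv hP.odd hae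
    obtain ⟨al', y1, y2, y3, y4⟩ := flip_deriv hP.odd (v1.trans hae)
    rw [T.flip_step hP hae (hadm a ha) (hdvd _) (by omega) (by omega) hft w hH x2 y2]
    refine flip_sg _ _ ?_
    have z1 : al'.leadingCoeff = al.leadingCoeff := sq_inj (by rw [y4, v2, x4])
    have z2 := hne0 a ha
    rw [res_none, flip_resInf (mul_ne_zero (mul_ne_zero hs0 u1) hh0)
      (mul_ne_zero (mul_ne_zero x1 y1) hbs0) (by
        rw [natDegree_mul (mul_ne_zero hs0 u1) hh0, natDegree_mul hs0 u1,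
          natDegree_mul (mul_ne_zero x1 y1) hbs0, natDegree_mul x1 y1]
        omega)]
    convert hc0 using 2
    simp only [leadingCoeff_mul, u3, z1, ← sq, x4, hκ]
    field_simp
  · obtain ⟨u1, -, -⟩ := hμ1 _ (hne0 a ha)
    exact fun e => mul_ne_zero X_ne_zero (pow_ne_zero 2 u1) (by simpa using e)
  · refine (hA _).2 ⟨(flip_add_deg (hdeg a ha)).1.trans ((hA a).1 ha).1, ?_⟩
    rw [Spl_add a (dvd_mul_of_dvd_right (dvd_pow (hdvd _) two_ne_zero) _), ((hA a).1 ha).2]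
  · simp only [(flip_add_deg (hdeg a ha)).2]
    rw [add_assoc, CharTwo.add_self_eq_zero, add_zero]

end Tw

end Pool.Agent.Lib.MP_788af2_nt.AS
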