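import Pool.Agent.Lib.MP_788af2_nt.AS.Defs

/-!
Greedy construction of a cube with a prescribed pattern.
-/

set_option linter.unusedSectionVars false

namespace Pool.Agent.Lib.MP_788af2_nt.AS

open Polynomial WeierstrassCurve Pool.Agent.Lib.MP_a3f657_nt.Two

open scoped Classical

lemma gr_sg_add_one (t : ZMod 2) : sg (t + 1) = -sg t := by revert t; decide

lemma gr_sg_le (t : ZMod 2) : sg t ≤ 1 := by revert t; decide

lemma gr_sg_zero : sg 0 = 1 := rfl

lemma gr_self {ι : Type} (y : ι → ZMod 2) : y + y = 0 := funext fun i => z2_add_self (y i)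

/-- Character sums over a finite subgroup. -/
lemma gr_char {I : Type} (X : Finset (G I)) (hX : ∀ x ∈ X, ∀ y ∈ X, x + y ∈ X)
    (f : G I → ZMod 2) (hf : ∀ x y, f (x + y) = f x + f y) :
    ∑ x ∈ X, sg (f x) = if ∀ x ∈ X, f x = 0 then (X.card : ℤ) else 0 := by
  split_ifs with h
  · rw [Finset.sum_congr rfl fun x hx => by rw [h x hx, gr_sg_zero]]
    simp
  · push Not at h
    obtain ⟨x0, hx0, h1⟩ := h
    have h2 : f x0 = 1 := (z2_cases _).resolve_left h1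
    have h3 : ∀ x : G I, x + x0 + x0 = x := fun x => by rw [add_assoc, gr_self, add_zero]
    have h4 : ∑ x ∈ X, sg (f (x + x0)) = ∑ x ∈ X, sg (f x) :=
      Finset.sum_nbij' (fun x => x + x0) (fun x => x + x0) (fun x hx => hX x hx x0 hx0)
        (fun x hx => hX x hx x0 hx0) (fun x _ => h3 x) (fun x _ => h3 x) fun _ _ => rfl
    simp only [hf, h2, gr_sg_add_one, Finset.sum_neg_distrib] at h4
    omega

lemma gr_count {I α : Type} (X E : Finset (G I)) (hX : ∀ x ∈ X, ∀ y ∈ X, x + y ∈ X)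
    (A B : Finset α) (f : α → G I → ZMod 2) (hf : ∀ a x y, f a (x + y) = f a x + f a y)
    (hE : ∀ x ∈ X, x ∉ E → ∑ a ∈ A, sg (f a x) = 0) (hBA : B ⊆ A)
    (hB : ∀ a ∈ B, ∀ x ∈ X, f a x = 0) : B.card * X.card ≤ E.card * A.card := by
  have h1 : ((B.card * X.card : ℕ) : ℤ) ≤ ∑ a ∈ A, ∑ x ∈ X, sg (f a x) := by
    calc ((B.card * X.card : ℕ) : ℤ) = ∑ a ∈ B, ∑ x ∈ X, sg (f a x) := by
          rw [Finset.sum_congr rfl fun a ha => by rw [gr_char X hX (f a) (hf a), if_pos (hB a ha)]]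
          simp
      _ ≤ _ := Finset.sum_le_sum_of_subset_of_nonneg hBA fun a _ _ => by
          rw [gr_char X hX (f a) (hf a)]
          split_ifs <;> simp
  have h2 : ∑ x ∈ X, ∑ a ∈ A, sg (f a x) ≤ ((E.card * A.card : ℕ) : ℤ) := by
    calc ∑ x ∈ X, ∑ a ∈ A, sg (f a x) = ∑ x ∈ X ∩ E, ∑ a ∈ A, sg (f a x) :=
          (Finset.sum_subset Finset.inter_subset_left fun x hx hn =>
            hE x hx fun h => hn (Finset.mem_inter.2 ⟨hx, h⟩)).symm
      _ ≤ ∑ _x ∈ X ∩ E, (A.card : ℤ) := Finset.sum_le_sum fun x _ =>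
          (Finset.sum_le_sum fun a _ => gr_sg_le (f a x)).trans (by simp)
      _ ≤ _ := by
          rw [Finset.sum_const, nsmul_eq_mul]
          push_cast
          gcongr
          exact Finset.inter_subset_right
  rw [Finset.sum_comm] at h1
  exact_mod_cast h1.trans h2

lemma gr_index {I κ : Type} [Fintype κ] (Y X : Finset (G I)) (hY : ∀ x ∈ Y, ∀ y ∈ Y, x + y ∈ Y)
    (ψ : G I → κ → ZMod 2) (hψ : ∀ x y, ψ (x + y) = ψ x + ψ y)
    (hX : ∀ x ∈ Y, ψ x = 0 → x ∈ X) : Y.card ≤ X.card * 2 ^ Fintype.card κ := by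
  refine (Finset.card_le_mul_card_image (f := ψ) Y X.card fun b hb => ?_).trans ?_
  · obtain ⟨y0, hy0, rfl⟩ := Finset.mem_image.1 hb
    refine Finset.card_le_card_of_injOn (fun y => y + y0) (fun y hy => ?_)
      fun y _ y' _ h => add_right_cancel h
    obtain ⟨h1, h2⟩ := Finset.mem_filter.1 (Finset.mem_coe.1 hy)
    exact Finset.mem_coe.2 (hX _ (hY y h1 y0 hy0) (by rw [hψ, h2, gr_self]))
  · refine Nat.mul_le_mul_left _ ((Finset.card_le_univ _).trans ?_)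
    rw [Fintype.card_fun, ZMod.card]

lemma gr_solve {I ι : Type} [Fintype ι] (X : Finset (G I)) (h0 : 0 ∈ X)
    (hX : ∀ x ∈ X, ∀ y ∈ X, x + y ∈ X) (φ : G I → ι → ZMod 2)
    (hφ : ∀ x y, φ (x + y) = φ x + φ y) (τ : ι → ZMod 2)
    (h : ∀ lam : ι → ZMod 2, (∀ x ∈ X, ∑ i, φ x i * lam i = 0) → ∑ i, τ i * lam i = 0) :
    ∃ x ∈ X, φ x = τ := by
  by_contra hn
  have hφ0 : φ 0 = 0 := by
    have := hφ 0 0
    rw [add_zero, gr_self] at this
    exact this
  let U : AddSubgroup (ι → ZMod 2) :=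
    { carrier := {y | ∃ x ∈ X, φ x = y}
      zero_mem' := ⟨0, h0, hφ0⟩
      add_mem' := by
        rintro _ _ ⟨x, hx, rfl⟩ ⟨y, hy, rfl⟩
        exact ⟨x + y, hX x hx y hy, hφ x y⟩
      neg_mem' := by
        rintro _ ⟨x, hx, rfl⟩
        exact ⟨x, hx, eq_neg_of_add_eq_zero_left (gr_self _)⟩ }
  obtain ⟨χ, h1, h2⟩ := exists_sep_hom gr_self U (v := τ) hn
  have h3 : ∀ y : ι → ZMod 2, χ y = ∑ i, y i * χ (Pi.single i 1) := fun y => by
    conv_lhs => rw [← Finset.univ_sum_single y, map_sum]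
    refine Finset.sum_congr rfl fun i _ => ?_
    rcases z2_cases (y i) with e | e <;> simp [e]
  refine h1 ?_
  rw [h3]
  exact h _ fun x hx => by rw [← h3]; exact h2 _ ⟨x, hx, rfl⟩

section

variable {R : ℕ} {D : Fin R → ℕ}

lemma gr_mem_Blk {m : Fin R} {ξ : G (Ix D)} :
    ξ ∈ Blk D m ↔ ∀ i : Ix D, i.1 ≠ m → ξ i = 0 := by simp [Blk]

lemma gr_Blk_add {m : Fin R} : ∀ x ∈ Blk D m, ∀ y ∈ Blk D m, x + y ∈ Blk D m := by
  intro x hx y hy
  rw [gr_mem_Blk] at hx hy ⊢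
  intro i hi
  rw [Pi.add_apply, hx i hi, hy i hi, add_zero]

lemma gr_card_Blk (m : Fin R) : 2 ^ D m ≤ (Blk D m).card := by
  have h : (Finset.univ : Finset (Fin (D m) → ZMod 2)).card = 2 ^ D m := by
    rw [Finset.card_univ, Fintype.card_fun, ZMod.card, Fintype.card_fin]
  rw [← h]
  refine Finset.card_le_card_of_injOn
    (fun h (i : Ix D) => if hi : i.1 = m then h (Fin.cast (by rw [hi]) i.2) else 0)
    (fun h _ => Finset.mem_coe.2 (gr_mem_Blk.2 fun i hi => dif_neg hi)) fun h _ h' _ e => ?_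
  funext j
  simpa using congrFun e ⟨m, j⟩

lemma gr_card_Meas {Y : Type} [Fintype Y] (m : Fin R) [Fintype {w : G (Ix D) → Y // Meas m w}] :
    Fintype.card {w : G (Ix D) → Y // Meas m w} ≤
      Fintype.card Y ^ 2 ^ ∑ j ∈ Finset.univ.filter (· < m), D j := by
  have h1 : Fintype.card {i : Ix D // i.1 < m} = ∑ j ∈ Finset.univ.filter (· < m), D j := by
    rw [Fintype.card_subtype]
    have : (Finset.univ.filter fun i : Ix D => i.1 < m) =
        (Finset.univ.filter (· < m)).sigma fun j => (Finset.univ : Finset (Fin (D j))) := by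
      ext i
      simp
    rw [this, Finset.card_sigma]
    simp
  have h2 : Fintype.card (({i : Ix D // i.1 < m} → ZMod 2) → Y) =
      Fintype.card Y ^ 2 ^ ∑ j ∈ Finset.univ.filter (· < m), D j := by
    rw [Fintype.card_fun, Fintype.card_fun, ZMod.card, h1]
  rw [← h2]
  refine Fintype.card_le_of_injective
    (fun w h => w.1 fun i => if hi : i.1 < m then h ⟨i, hi⟩ else 0) fun w w' e => ?_
  refine Subtype.ext (funext fun g => ?_)
  have h3 := congrFun e fun i => g i.1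
  have h4 : ∀ i : Ix D, i.1 < m → g i = if _ : i.1 < m then g i else 0 := fun i hi => by
    rw [dif_pos hi]
  exact (w.2 _ _ h4).trans (h3.trans (w'.2 _ _ h4).symm)

/-- The blocks before `n`. -/
def grB (R n : ℕ) : Finset (Fin R) := Finset.univ.filter fun l => l.val < n

lemma gr_mem_B {n : ℕ} {l : Fin R} : l ∈ grB R n ↔ l.val < n := by simp [grB]

lemma gr_B_succ {n : ℕ} (h : n < R) : grB R (n + 1) = insert ⟨n, h⟩ (grB R n) := by
  ext l
  simp only [gr_mem_B, Finset.mem_insert, Fin.ext_iff]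
  omega

lemma gr_not_mem_B {n : ℕ} (h : n < R) : (⟨n, h⟩ : Fin R) ∉ grB R n := by simp [gr_mem_B]

variable {Q : Type} [Fintype Q] {V : Type} [CommRing V] [CharP V 2]

/-- The first order term of a weight. -/
def grO (Hh : G (Ix D) → Q → V) (w : G (Ix D) → Q → ZMod 2) : V :=
  ∑ g, ∑ q, zc V (w g q) * Hh g q

lemma grO_add (Hh : G (Ix D) → Q → V) (w w' : G (Ix D) → Q → ZMod 2) :
    grO Hh (w + w') = grO Hh w + grO Hh w' := by
  simp only [grO, Pi.add_apply, map_add, add_mul, Finset.sum_add_distrib]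

/-- The product of a character and a weight. -/
def grM (ξ : G (Ix D)) (w : G (Ix D) → Q → ZMod 2) : G (Ix D) → Q → ZMod 2 :=
  fun g q => (ξ ⬝ᵥ g) * w g q

lemma grM_add (x y : G (Ix D)) (w : G (Ix D) → Q → ZMod 2) :
    grM (x + y) w = grM x w + grM y w := by
  funext g q
  simp only [grM, Pi.add_apply, add_dotProduct, add_mul]

/-- The admissible vectors of the block `m`. -/
noncomputable def grX (Hh : G (Ix D) → Q → V) (ν : (G (Ix D) → Q → ZMod 2) → V →+ ZMod 2)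
    (m : Fin R) : Finset (G (Ix D)) :=
  (Blk D m).filter fun ξ => ∀ w' w'' : G (Ix D) → Q → ZMod 2, Meas m w' → Meas m w'' →
    ν w' (grO Hh (grM ξ w'')) = 0

variable {Hh : G (Ix D) → Q → V} {ν : (G (Ix D) → Q → ZMod 2) → V →+ ZMod 2}

lemma gr_mem_X {m : Fin R} {ξ : G (Ix D)} : ξ ∈ grX Hh ν m ↔ ξ ∈ Blk D m ∧
    ∀ w' w'' : G (Ix D) → Q → ZMod 2, Meas m w' → Meas m w'' →
      ν w' (grO Hh (grM ξ w'')) = 0 := by simp [grX]

lemma gr_X_add {m : Fin R} : ∀ x ∈ grX Hh ν m, ∀ y ∈ grX Hh ν m, x + y ∈ grX Hh ν m := by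
  intro x hx y hy
  rw [gr_mem_X] at hx hy ⊢
  refine ⟨gr_Blk_add x hx.1 y hy.1, fun w' w'' h1 h2 => ?_⟩
  rw [grM_add, grO_add, map_add, hx.2 w' w'' h1 h2, hy.2 w' w'' h1 h2, add_zero]

lemma gr_X_zero {m : Fin R} : 0 ∈ grX Hh ν m :=
  gr_mem_X.2 ⟨gr_mem_Blk.2 fun _ _ => rfl, fun w' w'' _ _ => by simp [grO, grM]⟩

lemma gr_card_X (m : Fin R) {L : ℕ} [Fintype {w : G (Ix D) → Q → ZMod 2 // Meas m w}]
    (hL : Fintype.card {w : G (Ix D) → Q → ZMod 2 // Meas m w} ≤ L) :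
    2 ^ D m ≤ (grX Hh ν m).card * 2 ^ (L * L) := by
  refine (gr_card_Blk m).trans ((gr_index (Blk D m) (grX Hh ν m) gr_Blk_add
    (fun ξ (p : {w : G (Ix D) → Q → ZMod 2 // Meas m w} × {w : G (Ix D) → Q → ZMod 2 // Meas m w}) =>
      ν p.1.1 (grO Hh (grM ξ p.2.1))) (fun x y => ?_) fun x hx h => ?_).trans ?_)
  · funext p
    rw [Pi.add_apply, grM_add, grO_add, map_add]
  · exact gr_mem_X.2 ⟨hx, fun w' w'' h1 h2 => congrFun h (⟨w', h1⟩, ⟨w'', h2⟩)⟩
  · refine Nat.mul_le_mul_left _ (Nat.pow_le_pow_right two_pos ?_)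
    rw [Fintype.card_prod]
    exact Nat.mul_le_mul hL hL

/-- The weight with coefficients `lam` on the cube spanned by the first `n` vectors. -/
def grW (ξ : Fin R → G (Ix D)) (n : ℕ) (lam : Finset (Fin R) → Q → ZMod 2) :
    G (Ix D) → Q → ZMod 2 :=
  fun g q => ∑ S ∈ (grB R n).powerset, (∏ l ∈ S, ξ l ⬝ᵥ g) * lam S q

lemma gr_W_meas {ξ : Fin R → G (Ix D)} (m : Fin R)
    (hξ : ∀ l : Fin R, l.val < m.val → ξ l ∈ grX Hh ν l) (lam : Finset (Fin R) → Q → ZMod 2) :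
    Meas m (grW ξ m.val lam) := by
  intro g g' h
  funext q
  refine Finset.sum_congr rfl fun S hS => ?_
  congr 1
  refine Finset.prod_congr rfl fun l hl => Finset.sum_congr rfl fun i _ => ?_
  have h1 : l.val < m.val := gr_mem_B.1 (Finset.mem_powerset.1 hS hl)
  by_cases hi : i.1 = l
  · rw [h i (by rw [hi]; exact h1)]
  · rw [gr_mem_Blk.1 (gr_mem_X.1 (hξ l h1)).1 i hi, zero_mul, zero_mul]

lemma gr_W_succ (ξ : Fin R → G (Ix D)) {n : ℕ} (h : n < R) (lam : Finset (Fin R) → Q → ZMod 2) :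
    grW ξ (n + 1) lam =
      grW ξ n lam + grM (ξ ⟨n, h⟩) (grW ξ n fun S => lam (insert ⟨n, h⟩ S)) := by
  funext g q
  simp only [grW, grM, Pi.add_apply]
  rw [gr_B_succ h, Finset.sum_powerset_insert (gr_not_mem_B h), Finset.mul_sum]
  congr 1
  refine Finset.sum_congr rfl fun S hS => ?_
  rw [Finset.prod_insert fun hn => gr_not_mem_B h (Finset.mem_powerset.1 hS hn), mul_assoc]

lemma gr_W_ne (hν : ∀ w, grO Hh w ≠ 0 → ν w (grO Hh w) ≠ 0) {ξ : Fin R → G (Ix D)} (n : ℕ) :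
    n ≤ R → (∀ l : Fin R, l.val < n → ξ l ∈ grX Hh ν l) →
      ∀ lam : Finset (Fin R) → Q → ZMod 2, grO Hh (fun _ => lam ∅) ≠ 0 →
        grO Hh (grW ξ n lam) ≠ 0 := by
  induction n with
  | zero =>
    intro _ _ lam h
    have : grW ξ 0 lam = fun _ => lam ∅ := by
      funext g q
      simp [grW, grB]
    rwa [this]
  | succ n ih =>
    intro hn hξ lam h h0
    have hξ' : ∀ l : Fin R, l.val < n → ξ l ∈ grX Hh ν l := fun l hl => hξ l (by omega)
    have h1 := hν _ (ih (by omega) hξ' lam h)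
    have h2 := (gr_mem_X.1 (hξ ⟨n, hn⟩ (Nat.lt_succ_self n))).2 _ _
      (gr_W_meas ⟨n, hn⟩ hξ' lam) (gr_W_meas ⟨n, hn⟩ hξ' fun S => lam (insert ⟨n, hn⟩ S))
    rw [gr_W_succ ξ hn, grO_add] at h0
    have h3 := congrArg (ν (grW ξ n lam)) h0
    rw [map_add, map_zero, h2, add_zero] at h3
    exact h1 h3

lemma gr_mu_const (μ : V →+ ZMod 2) (c : Q → ZMod 2) :
    μ (grO Hh fun _ => c) = ∑ q, μ (∑ g, Hh g q) * c q := by
  rw [grO, Finset.sum_comm, map_sum]
  refine Finset.sum_congr rfl fun q _ => ?_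
  rw [← Finset.mul_sum]
  rcases z2_cases (c q) with e | e <;> simp [e]

lemma gr_step (hν : ∀ w, grO Hh w ≠ 0 → ν w (grO Hh w) ≠ 0) (b : G (Ix D) → Q → ZMod 2)
    (μ : V →+ ZMod 2) (m : Fin R)
    (hb : ∀ w, Meas m w → grO Hh w ≠ 0 →
      ¬ ∀ x ∈ grX Hh ν m, ∑ g, ∑ q, (x ⬝ᵥ g) * w g q * b g q = 0)
    {ξ : Fin R → G (Ix D)} (hξ : ∀ l : Fin R, l.val < m.val → ξ l ∈ grX Hh ν l) :
    ∃ x ∈ grX Hh ν m, ∀ S ⊆ grB R m.val, ∀ q, ∑ g, (x ⬝ᵥ g) * (∏ l ∈ S, ξ l ⬝ᵥ g) * b g q =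
      if S = ∅ then μ (∑ g, Hh g q) else 0 := by
  obtain ⟨x, hx, h⟩ := gr_solve (grX Hh ν m) gr_X_zero gr_X_add
    (fun x (i : Finset (Fin R) × Q) => if i.1 ∈ (grB R m.val).powerset then
      ∑ g, (x ⬝ᵥ g) * (∏ l ∈ i.1, ξ l ⬝ᵥ g) * b g i.2 else 0)
    (fun x y => by
      funext i
      simp only [Pi.add_apply, add_dotProduct, add_mul, Finset.sum_add_distrib]
      split_ifs <;> simp)
    (fun i => if i.1 = ∅ then μ (∑ g, Hh g i.2) else 0) (fun lam hl => by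
      by_contra hne
      have h1 : μ (grO Hh fun _ q => lam (∅, q)) ≠ 0 := by
        rw [gr_mu_const]
        intro h2
        apply hne
        rw [Fintype.sum_prod_type, Finset.sum_eq_single ∅ (fun S _ hS => by simp [hS]) (by simp)]
        simpa using h2
      have h2 : grO Hh (fun _ q => lam (∅, q)) ≠ 0 := fun e => h1 (by rw [e, map_zero])
      refine hb _ (gr_W_meas m hξ fun S q => lam (S, q))
        (gr_W_ne hν m.val m.2.le hξ (fun S q => lam (S, q)) h2) fun x hx => ?_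
      rw [← hl x hx, Fintype.sum_prod_type,
        ← Finset.sum_subset (Finset.subset_univ (grB R m.val).powerset)
          (fun S _ hS => by simp only [if_neg hS, zero_mul, Finset.sum_const_zero])]
      simp only [grW, Finset.mul_sum, Finset.sum_mul]
      rw [Finset.sum_comm]
      conv_rhs => rw [Finset.sum_comm]
      refine Finset.sum_congr rfl fun q _ => ?_
      rw [Finset.sum_comm]
      refine Finset.sum_congr rfl fun S hS => ?_
      rw [if_pos hS, Finset.sum_mul]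
      exact Finset.sum_congr rfl fun g _ => by ring)
  refine ⟨x, hx, fun S hS q => ?_⟩
  have := congrFun h (S, q)
  rwa [if_pos (Finset.mem_powerset.2 hS)] at this

lemma gr_build (hν : ∀ w, grO Hh w ≠ 0 → ν w (grO Hh w) ≠ 0) (b : G (Ix D) → Q → ZMod 2)
    (μ : V →+ ZMod 2)
    (hb : ∀ (m : Fin R) w, Meas m w → grO Hh w ≠ 0 →
      ¬ ∀ x ∈ grX Hh ν m, ∑ g, ∑ q, (x ⬝ᵥ g) * w g q * b g q = 0) (n : ℕ) :
    n ≤ R → ∃ ξ : Fin R → G (Ix D), (∀ l : Fin R, l.val < n → ξ l ∈ grX Hh ν l) ∧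
      ∀ S ⊆ grB R n, S.Nonempty → ∀ q, ∑ g, (∏ l ∈ S, ξ l ⬝ᵥ g) * b g q =
        if S.card = 1 then μ (∑ g, Hh g q) else 0 := by
  induction n with
  | zero =>
    refine fun _ => ⟨0, fun l hl => absurd hl (Nat.not_lt_zero _), fun S hS hne => ?_⟩
    obtain ⟨l, hl⟩ := hne
    exact absurd (gr_mem_B.1 (hS hl)) (Nat.not_lt_zero _)
  | succ n ih =>
    intro hn
    obtain ⟨ξ, hξ, hS⟩ := ih (by omega)
    obtain ⟨x, hx, h⟩ := gr_step hν b μ ⟨n, hn⟩ (hb _) hξ
    have hu : ∀ S : Finset (Fin R), (⟨n, hn⟩ : Fin R) ∉ S → ∀ g,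
        ∏ l ∈ S, Function.update ξ ⟨n, hn⟩ x l ⬝ᵥ g = ∏ l ∈ S, ξ l ⬝ᵥ g := fun S hn' g =>
      Finset.prod_congr rfl fun l hl => by
        rw [Function.update_of_ne (ne_of_mem_of_not_mem hl hn')]
    refine ⟨Function.update ξ ⟨n, hn⟩ x, fun l hl => ?_, fun S hS' hne q => ?_⟩
    · by_cases e : l = ⟨n, hn⟩
      · subst e
        rwa [Function.update_self]
      · rw [Function.update_of_ne e]
        exact hξ l (by rw [Fin.ext_iff] at e; simp only at e; omega)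
    · rw [gr_B_succ hn] at hS'
      by_cases hm : (⟨n, hn⟩ : Fin R) ∈ S
      · obtain ⟨S', hn', rfl⟩ : ∃ S', (⟨n, hn⟩ : Fin R) ∉ S' ∧ S = insert ⟨n, hn⟩ S' :=
          ⟨S.erase _, Finset.notMem_erase _ _, (Finset.insert_erase hm).symm⟩
        have h1 : S' ⊆ grB R n := (Finset.subset_insert_iff_of_notMem hn').1
          ((Finset.subset_insert _ _).trans hS')
        simp only [Finset.prod_insert hn', Function.update_self, hu S' hn']
        rw [h S' h1 q, Finset.card_insert_of_notMem hn']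
        simp only [Nat.add_eq_right, Finset.card_eq_zero]
      · simp only [hu S hm]
        exact hS S ((Finset.subset_insert_iff_of_notMem hm).1 hS') hne q

end

lemma gr_exists (c ε : ℝ) (hε : 0 < ε) : ∃ n : ℕ, c ≤ ε * 2 ^ (n / 2) := by
  obtain ⟨k, hk⟩ := pow_unbounded_of_one_lt (c / ε) (one_lt_two (α := ℝ))
  refine ⟨2 * k, ?_⟩
  rw [Nat.mul_div_cancel_left _ two_pos, mul_comm]
  exact ((div_lt_iff₀ hε).1 hk).le

lemma gr_arith {b x e a p h c : ℕ} (hp : 0 < p) (h1 : e * h ≤ p) (h2 : b * x ≤ e * a)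
    (h3 : p ≤ x * c) : b * h ≤ c * a := by
  refine Nat.le_of_mul_le_mul_right ?_ hp
  calc b * h * p ≤ b * h * (x * c) := Nat.mul_le_mul_left _ h3
    _ = b * x * (h * c) := by ring
    _ ≤ e * a * (h * c) := Nat.mul_le_mul_right _ h2
    _ = e * h * (c * a) := by ring
    _ ≤ p * (c * a) := Nat.mul_le_mul_right _ h1
    _ = _ := by ring

theorem greedy (N R : ℕ) (η : ℝ) (hη : 0 < η) : ∃ D : Fin R → ℕ, ∀ (W : Type) [Fintype W],
    Fintype.card W ≤ N → ∀ (V : Type) [CommRing V] [CharP V 2] (α : Type) (A : Finset α)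
    (Hh : G (Ix D) → W × W → V) (Bm : α → G (Ix D) → Matrix W W (ZMod 2)),
    (∀ (m : Fin R) (w : G (Ix D) → W × W → ZMod 2), Meas m w →
      ∑ g, ∑ q, zc V (w g q) * Hh g q ≠ 0 →
      ((Blk D m).filter fun ξ => ∑ a ∈ A, sg (∑ g, ∑ q, (ξ ⬝ᵥ g) * w g q * Bm a g q.1 q.2) ≠
        0).card * 2 ^ (D m / 2) ≤ 2 ^ D m) →
    ((A.filter fun a => ¬ ∀ μ : V →+ ZMod 2, ∃ ξ : Fin R → G (Ix D),
      Pat (Bm a) (Matrix.of fun q q' => μ (∑ g, Hh g (q, q'))) ξ).card : ℝ) ≤ η * A.card := by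
  obtain ⟨L, hLd⟩ : ∃ L : ℕ → ℕ, ∀ s, L s = (2 ^ (N * N)) ^ 2 ^ s := ⟨_, fun _ => rfl⟩
  have hε : 0 < η / (R + 1) := by positivity
  choose f hf using fun s : ℕ => gr_exists ((L s : ℝ) * 2 ^ (L s * L s)) _ hε
  obtain ⟨s, hs⟩ : ∃ s : ℕ → ℕ, ∀ n, ∑ j ∈ Finset.range n, f (s j) = s n := by
    refine ⟨fun n => Nat.rec 0 (fun _ t => t + f t) n, fun n => ?_⟩
    induction n with
    | zero => rfl
    | succ n ih => rw [Finset.sum_range_succ, ih]
  obtain ⟨D, hD⟩ : ∃ D : Fin R → ℕ, ∀ m, D m = f (s m.val) := ⟨_, fun _ => rfl⟩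
  refine ⟨D, fun W _ hW V _ _ α A Hh Bm hyp => ?_⟩
  have hL : ∀ m : Fin R,
      Fintype.card {w : G (Ix D) → W × W → ZMod 2 // Meas m w} ≤ L (s m.val) := fun m => by
    refine (gr_card_Meas m).trans ?_
    have h1 : ∑ j ∈ Finset.univ.filter (· < m), D j ≤ s m.val := by
      rw [← hs]
      simp only [hD]
      refine (Finset.sum_map (Finset.univ.filter (· < m)) Fin.valEmbedding
        fun j => f (s j)).symm.le.trans (Finset.sum_le_sum_of_subset fun j hj => ?_)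
      obtain ⟨l, hl, rfl⟩ := Finset.mem_map.1 hj
      exact Finset.mem_range.2 (Finset.mem_filter.1 hl).2
    have h2 : Fintype.card (W × W → ZMod 2) ≤ 2 ^ (N * N) := by
      rw [Fintype.card_fun, ZMod.card, Fintype.card_prod]
      exact Nat.pow_le_pow_right two_pos (Nat.mul_le_mul hW hW)
    rw [hLd]
    exact (Nat.pow_le_pow_left h2 _).trans
      (Nat.pow_le_pow_right (by positivity) (Nat.pow_le_pow_right two_pos h1))
  have hν : ∀ w : G (Ix D) → W × W → ZMod 2, ∃ χ : V →+ ZMod 2,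
      grO Hh w ≠ 0 → χ (grO Hh w) ≠ 0 := fun w => by
    by_cases h : grO Hh w = 0
    · exact ⟨0, fun h' => absurd h h'⟩
    · obtain ⟨χ, h1, -⟩ := exists_sep_hom (fun x : V => CharTwo.add_self_eq_zero x) ⊥
        (v := grO Hh w) h
      exact ⟨χ, fun _ => h1⟩
  choose ν hν using hν
  obtain ⟨bad, hb⟩ : ∃ bad : Fin R → (G (Ix D) → W × W → ZMod 2) → Finset α, ∀ m w a,
      a ∈ bad m w ↔ a ∈ A ∧ grO Hh w ≠ 0 ∧
        ∀ x ∈ grX Hh ν m, ∑ g, ∑ q, (x ⬝ᵥ g) * w g q * Bm a g q.1 q.2 = 0 :=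
    ⟨fun m w => A.filter fun a => grO Hh w ≠ 0 ∧
      ∀ x ∈ grX Hh ν m, ∑ g, ∑ q, (x ⬝ᵥ g) * w g q * Bm a g q.1 q.2 = 0,
      fun _ _ _ => Finset.mem_filter⟩
  have hbad : ∀ (m : Fin R) (w : {w : G (Ix D) → W × W → ZMod 2 // Meas m w}),
      (bad m w.1).card * 2 ^ (D m / 2) ≤ 2 ^ (L (s m.val) * L (s m.val)) * A.card := by
    intro m w
    by_cases h : grO Hh w.1 = 0
    · have : bad m w.1 = ∅ := Finset.eq_empty_of_forall_notMem fun a h' => ((hb _ _ a).1 h').2.1 h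
      simp [this]
    have h1 := hyp m w.1 w.2 h
    have h2 := gr_count (grX Hh ν m) _ gr_X_add A (bad m w.1)
      (fun a x => ∑ g, ∑ q, (x ⬝ᵥ g) * w.1 g q * Bm a g q.1 q.2)
      (fun a x y => by simp only [add_dotProduct, add_mul, Finset.sum_add_distrib])
      (fun x hx hn => by
        by_contra h3
        exact hn (show x ∈ (Blk D m).filter fun ξ =>
          ∑ a ∈ A, sg (∑ g, ∑ q, (ξ ⬝ᵥ g) * w.1 g q * Bm a g q.1 q.2) ≠ 0 from
          Finset.mem_filter.2 ⟨(gr_mem_X.1 hx).1, h3⟩))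
      (fun a ha => ((hb _ _ a).1 ha).1) fun a ha => ((hb _ _ a).1 ha).2.2
    have h3 := gr_card_X (Hh := Hh) (ν := ν) m (hL m)
    exact gr_arith (Nat.two_pow_pos _) h1 h2 h3
  have hsum : ∀ m : Fin R, ((∑ w : {w : G (Ix D) → W × W → ZMod 2 // Meas m w},
      (bad m w.1).card : ℕ) : ℝ) ≤ η / (R + 1) * A.card := by
    intro m
    have h1 : (∑ w : {w : G (Ix D) → W × W → ZMod 2 // Meas m w}, (bad m w.1).card) *
        2 ^ (D m / 2) ≤ L (s m.val) * 2 ^ (L (s m.val) * L (s m.val)) * A.card := by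
      rw [Finset.sum_mul]
      refine (Finset.sum_le_sum fun w _ => hbad m w).trans ?_
      rw [Finset.sum_const, smul_eq_mul, mul_assoc]
      exact Nat.mul_le_mul_right _ (hL m)
    have h2 := hf (s m.val)
    rw [← hD] at h2
    have h3 : (0 : ℝ) < 2 ^ (D m / 2) := by positivity
    refine le_of_mul_le_mul_right ?_ h3
    calc _ ≤ ((L (s m.val) * 2 ^ (L (s m.val) * L (s m.val)) * A.card : ℕ) : ℝ) := by
          exact_mod_cast h1
      _ ≤ η / (R + 1) * 2 ^ (D m / 2) * A.card := by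
          push_cast
          gcongr
      _ = _ := by ring
  have hsub : (A.filter fun a => ¬ ∀ μ : V →+ ZMod 2, ∃ ξ : Fin R → G (Ix D),
      Pat (Bm a) (Matrix.of fun q q' => μ (∑ g, Hh g (q, q'))) ξ) ⊆
      Finset.univ.biUnion fun m : Fin R => Finset.univ.biUnion
        fun w : {w : G (Ix D) → W × W → ZMod 2 // Meas m w} => bad m w.1 := by
    intro a ha
    obtain ⟨haA, ha⟩ := Finset.mem_filter.1 ha
    by_contra hn
    refine ha fun μ => ?_
    obtain ⟨ξ, -, hξ⟩ := gr_build hν (fun g q => Bm a g q.1 q.2) μ (fun m w hw h0 h1 =>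
      hn (Finset.mem_biUnion.2 ⟨m, Finset.mem_univ _, Finset.mem_biUnion.2
        ⟨⟨w, hw⟩, Finset.mem_univ _, (hb _ _ a).2 ⟨haA, h0, h1⟩⟩⟩)) R le_rfl
    refine ⟨ξ, fun l => ?_, fun S hS => ?_⟩
    · ext q q'
      have := hξ {l} (fun j _ => gr_mem_B.2 j.2) (Finset.singleton_nonempty l) (q, q')
      simpa [Matrix.sum_apply] using this
    · ext q q'
      have := hξ S (fun j _ => gr_mem_B.2 j.2) (Finset.card_pos.1 (by omega)) (q, q')
      rw [if_neg (by omega)] at this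
      simpa [Matrix.sum_apply] using this
  calc _ ≤ ((∑ m : Fin R, ∑ w : {w : G (Ix D) → W × W → ZMod 2 // Meas m w},
        (bad m w.1).card : ℕ) : ℝ) := by
        exact_mod_cast (Finset.card_le_card hsub).trans (Finset.card_biUnion_le.trans
          (Finset.sum_le_sum fun m _ => Finset.card_biUnion_le))
    _ ≤ ∑ _m : Fin R, η / (R + 1) * A.card := by
        rw [Nat.cast_sum]
        exact Finset.sum_le_sum fun m _ => hsum m
    _ = R / (R + 1) * (η * A.card) := by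
        rw [Finset.sum_const, Finset.card_univ, Fintype.card_fin, nsmul_eq_mul]
        ring
    _ ≤ _ := mul_le_of_le_one_left (by positivity) ((div_le_one (by positivity)).2 (by linarith))

end Pool.Agent.Lib.MP_788af2_nt.AS
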