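import Pool.Agent.Lib.MP_788af2_nt.AS.Int

/-!
The logarithmic forms with simple poles form a free module.
-/

set_option linter.unusedSectionVars false

namespace Pool.Agent.Lib.MP_788af2_nt.AS

open Polynomial WeierstrassCurve Pool.Agent.Lib.MP_a3f657_nt.Two

namespace Tw

variable {k : Type} [Field k] [Finite k] [CharP k 2] {I : Type} [Fintype I] [DecidableEq I]
  {β : I → k[X]} {L : Type} [Field L] [CharP L 2] (T : Tw β L)

lemma lg_cof (S : Finset k[X]) (hS : ∀ q ∈ S, Irreducible q ∧ q.Monic) :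
    ∃ r : S → k[X], (∀ q, q.1 * r q = ∏ q ∈ S, q) ∧ (∀ q, ¬ q.1 ∣ derivative q.1 * r q) ∧
      ∀ q q' : S, q ≠ q' → q.1 ∣ r q' := by
  classical
  refine ⟨fun q => ∏ q' ∈ S.erase q.1, q', fun q => Finset.mul_prod_erase S (fun q => q) q.2,
    fun q h => ?_, fun q q' h => ?_⟩
  · have hq := (hS _ q.2).1
    rcases hq.prime.dvd_or_dvd h with h | h
    · exact hq.not_isUnit
        (IsCoprime.isUnit_of_dvd' (PerfectField.separable_of_irreducible hq) dvd_rfl h)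
    · obtain ⟨q', h1, h2⟩ := (Prime.dvd_finsetProd_iff hq.prime _).1 h
      have h3 := hS _ (Finset.mem_of_mem_erase h1)
      exact Finset.ne_of_mem_erase h1
        (eq_of_monic_of_associated (hS _ q.2).2 h3.2 (hq.associated_of_dvd h3.1 h2)).symm
  · exact Finset.dvd_prod_of_mem (fun q => q)
      (Finset.mem_erase.2 ⟨fun e => h (Subtype.ext e), q.2⟩)

lemma lg_dvd (S : Finset k[X]) (hS : ∀ q ∈ S, Irreducible q ∧ q.Monic) {a : k[X]}
    (h : ∀ q ∈ S, q ∣ a) : ∏ q ∈ S, q ∣ a := by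
  refine Finset.prod_dvd_of_coprime (fun q hq q' hq' hne => ?_) h
  have h1 := hS q hq
  have h2 := hS q' hq'
  exact h1.1.coprime_iff_not_dvd.2 fun e =>
    hne (eq_of_monic_of_associated h1.2 h2.2 (h1.1.associated_of_dvd h2.1 e))

lemma lg_p_zc (u : ZMod 2) : T.p (zc k[X] u) = zc L u := by
  rcases z2_cases u with rfl | rfl <;> simp

lemma lg_log (q : k[X]) :
    T.P.c1 (T.p (derivative q) / T.p q) = T.p (derivative q) / T.p q := by
  rw [← T.D_p]
  exact T.c1_dlog _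

/-- The idempotent modulo `b`. -/
noncomputable def lgE : L := ∏ i, (T.θ i + 1)

lemma lgE_eq : T.lgE = ∏ i, (T.θ i + zc L ((0 : G I) i) + 1) := by simp [lgE]

lemma lgE_O : T.lgE ∈ T.O := prod_mem fun i _ => add_mem (T.θ_mem_O i) (one_mem _)

lemma lgE_tr : T.tr T.lgE = 1 := by
  rw [lgE_eq]
  exact T.tr_prod 0

lemma lgE_tr_mul {y : L} (h : ∀ g, T.σ g y = y) : T.tr (T.lgE * y) = y := by
  rw [mul_comm, T.tr_fix_mul h, lgE_tr, mul_one]

lemma lgE_idem {b : k[X]} (hb : ∀ i, b ∣ β i) : ∃ o ∈ T.O, T.lgE = T.lgE ^ 2 + T.p b * o := by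
  unfold lgE
  induction (Finset.univ : Finset I) using Finset.induction_on with
  | empty => exact ⟨0, zero_mem _, by simp⟩
  | insert i s hi ih =>
    obtain ⟨o, ho, e⟩ := ih
    obtain ⟨c, hc⟩ := hb i
    have h1 : T.θ i ^ 2 + T.θ i = T.p b * T.p (X * b * c ^ 2) := by
      have := T.θ_wp i
      rw [← p_eq, hc, wp] at this
      rw [this, ← map_mul]
      congr 1
      ring
    have h2 : ∏ i ∈ s, (T.θ i + 1) ∈ T.O :=
      prod_mem fun i _ => add_mem (T.θ_mem_O i) (one_mem _)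
    refine ⟨(T.θ i + 1) * o + T.p (X * b * c ^ 2) * (∏ i ∈ s, (T.θ i + 1)) ^ 2,
      add_mem (mul_mem (add_mem (T.θ_mem_O i) (one_mem _)) ho)
        (mul_mem (T.p_mem_O _) (pow_mem h2 2)), ?_⟩
    rw [Finset.prod_insert hi]
    generalize ∏ i ∈ s, (T.θ i + 1) = E at e ⊢
    generalize T.p (X * b * c ^ 2) = y at h1 ⊢
    grind

/-- The basic logarithmic form above `q`. -/
lemma lg_ft {b : k[X]} (hb : ∀ i, b ∣ β i) {q : k[X]} (hq0 : q ≠ 0) (hq : q ∣ b) :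
    ∃ f, T.P.c1 f = f ∧ ∃ z ∈ T.O, f = T.lgE * (T.p (derivative q) / T.p q) + z := by
  obtain ⟨o, ho, e⟩ := T.lgE_idem hb
  obtain ⟨c, rfl⟩ := hq
  have h0 := T.p_ne hq0
  have h1 : T.lgE * (T.p (derivative q) / T.p q) =
      T.lgE ^ 2 * (T.p (derivative q) / T.p q) + T.p c * o * T.p (derivative q) := by
    conv_lhs => rw [e]
    rw [map_mul]
    field_simp
  have h2 : T.P.c1 (T.lgE * (T.p (derivative q) / T.p q)) =
      T.lgE * (T.p (derivative q) / T.p q) + T.P.c1 (T.p c * o * T.p (derivative q)) := by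
    conv_lhs => rw [h1]
    rw [PB.c1_add, PB.c1_sq_mul, lg_log]
  obtain ⟨z, hz, h3⟩ := T.exists_c1_inv
    (T.c1_O (mul_mem (mul_mem (T.p_mem_O c) ho) (T.p_mem_O (derivative q))))
  refine ⟨_, ?_, z, hz, rfl⟩
  rw [PB.c1_add, h2, ← h3]
  grind

/-- The residue polynomial. -/
noncomputable def lgC (bs : k[X]) (f : L) : k[X] :=
  Function.invFun T.p (T.tr (T.lgE * (T.p bs * f)))

lemma lgC_spec {bs : k[X]} {f : L} (hf : f ∈ T.Wl bs) :
    T.p (T.lgC bs f) = T.tr (T.lgE * (T.p bs * f)) := by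
  obtain ⟨a, ha⟩ := T.tr_O (mul_mem T.lgE_O hf.2)
  exact Function.invFun_eq ⟨a, ha.symm⟩

lemma lgC_add {bs : k[X]} {f f' : L} (hf : f ∈ T.Wl bs) (hf' : f' ∈ T.Wl bs) :
    T.lgC bs (f + f') = T.lgC bs f + T.lgC bs f' := by
  apply T.p_inj
  rw [map_add, T.lgC_spec (T.Wl_add hf hf'), T.lgC_spec hf, T.lgC_spec hf', ← tr_add, mul_add,
    mul_add]

lemma lgC_mod {b bs : k[X]} (hb : ∀ i, b ∣ β i) (hbs : bs ∣ b) {f : L} (hf : f ∈ T.Wl bs) :
    ∃ o ∈ T.O, T.lgE * (T.p bs * f) = T.lgE * T.p (T.lgC bs f) + T.p bs * o := by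
  obtain ⟨a, o, ho, e⟩ := T.mod_O hb 0 hf.2
  rw [← lgE_eq] at e
  obtain ⟨c, rfl⟩ := hbs
  obtain ⟨a', ha'⟩ := T.tr_O ho
  have h1 := congrArg T.tr e
  rw [mul_add, tr_add, ← T.lgC_spec hf, T.lgE_tr_mul (fun g => T.σ_p g a),
    T.tr_fix_mul (fun g => T.σ_p g _), ha'] at h1
  refine ⟨T.p c * (o + T.lgE * T.p a'), mul_mem (T.p_mem_O c)
    (add_mem ho (mul_mem T.lgE_O (T.p_mem_O a'))), ?_⟩
  rw [map_mul] at e h1
  grind

lemma lgC_dvd {b bs : k[X]} (hb : ∀ i, b ∣ β i) (hbs : bs ∣ b) {f : L} (hf : f ∈ T.Wl bs) :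
    bs ∣ T.lgC bs f * (T.lgC bs f + derivative bs) := by
  obtain ⟨o, ho, e⟩ := T.lgC_mod hb hbs hf
  have h1 : T.P.D (T.p bs * f) = T.p bs * f ^ 2 + f * T.p (derivative bs) := by
    rw [PB.D_mul, D_p, PB.D, hf.1]
  have h2 : T.lgE * T.p (T.lgC bs f * (T.lgC bs f + derivative bs)) =
      T.p bs * (T.lgE * T.P.D (T.p bs * f) +
        o * (T.p bs * f + T.p (T.lgC bs f) + T.p (derivative bs))) := by
    rw [map_mul, map_add, h1]
    grind
  obtain ⟨a, ha⟩ := T.tr_O (add_mem (mul_mem T.lgE_O (T.D_O hf.2))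
    (mul_mem ho (add_mem (add_mem hf.2 (T.p_mem_O (T.lgC bs f))) (T.p_mem_O (derivative bs)))))
  have h3 := congrArg T.tr h2
  rw [T.lgE_tr_mul (fun g => T.σ_p g _), T.tr_fix_mul (fun g => T.σ_p g _), ha, ← map_mul] at h3
  exact ⟨a, T.p_inj h3⟩

lemma lg_comb_mul {S : Finset k[X]} (hS : ∀ q ∈ S, Irreducible q ∧ q.Monic) {r : S → k[X]}
    (hr : ∀ q, q.1 * r q = ∏ q ∈ S, q) (u : S → ZMod 2) :
    T.p (∏ q ∈ S, q) * ∑ q, zc L (u q) * (T.p (derivative q.1) / T.p q.1) =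
      T.p (∑ q, zc k[X] (u q) * (derivative q.1 * r q)) := by
  rw [Finset.mul_sum, map_sum]
  refine Finset.sum_congr rfl fun q _ => ?_
  have h0 := T.p_ne (hS _ q.2).1.ne_zero
  rw [← hr q, map_mul, map_mul, map_mul, lg_p_zc]
  field_simp

lemma lg_comb_dvd {S : Finset k[X]} {r : S → k[X]} (hr : ∀ q q' : S, q ≠ q' → q.1 ∣ r q')
    (u : S → ZMod 2) (q : S) :
    q.1 ∣ ∑ q, zc k[X] (u q) * (derivative q.1 * r q) + zc k[X] (u q) * (derivative q.1 * r q) := by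
  classical
  rw [← Finset.add_sum_erase _ _ (Finset.mem_univ q), add_right_comm, CharTwo.add_self_eq_zero,
    zero_add]
  exact Finset.dvd_sum fun q' h =>
    ((hr q q' (Finset.ne_of_mem_erase h).symm).mul_left _).mul_left _

lemma lg_comb_ne {S : Finset k[X]} (hS : ∀ q ∈ S, Irreducible q ∧ q.Monic) {u : S → ZMod 2}
    (hu : u ≠ 0) : ∑ q, zc L (u q) * (T.p (derivative q.1) / T.p q.1) ≠ 0 := by
  obtain ⟨r, h1, h2, h3⟩ := lg_cof S hS
  intro h
  have h4 := T.lg_comb_mul hS h1 u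
  rw [h, mul_zero, ← map_zero T.p] at h4
  obtain ⟨q, hq⟩ := Function.ne_iff.1 hu
  have h5 := lg_comb_dvd h3 u q
  rw [← T.p_inj h4, (z2_cases (u q)).resolve_left hq, map_one, one_mul, zero_add] at h5
  exact h2 q h5

lemma lg_comb_log {S : Finset k[X]} (u : S → ZMod 2) :
    T.P.c1 (∑ q, zc L (u q) * (T.p (derivative q.1) / T.p q.1)) =
      ∑ q, zc L (u q) * (T.p (derivative q.1) / T.p q.1) := by
  rw [c1_sum]
  exact Finset.sum_congr rfl fun q _ => by rw [c1_zc_mul, lg_log]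

theorem exists_logB {b : k[X]} (hb : ∀ i, b ∣ β i) (S : Finset k[X])
    (hS : ∀ q ∈ S, Irreducible q ∧ q.Monic ∧ q ∣ b) : ∃ ft ν, T.LogB S ft ν := by
  classical
  have hS' : ∀ q ∈ S, Irreducible q ∧ q.Monic := fun q hq => ⟨(hS q hq).1, (hS q hq).2.1⟩
  obtain ⟨r, hr1, hr2, hr3⟩ := lg_cof S hS'
  have hbs : ∏ q ∈ S, q ∣ b := lg_dvd S hS' fun q hq => (hS q hq).2.2
  have hbs0 : T.p (∏ q ∈ S, q) ≠ 0 :=
    T.p_ne (Finset.prod_ne_zero_iff.2 fun q hq => (hS q hq).1.ne_zero)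
  choose ft hft z hz hfz using fun q : S => T.lg_ft hb (hS _ q.2).1.ne_zero (hS _ q.2).2.2
  have hfix : ∀ (q : S) (g : G I),
      T.σ g (T.p (derivative q.1) / T.p q.1) = T.p (derivative q.1) / T.p q.1 := fun q g => by
    rw [map_div₀, σ_p, σ_p]
  have hmem : ∀ q, ft q ∈ T.Wl (∏ q ∈ S, q) := fun q => by
    refine ⟨hft q, ?_⟩
    have h0 := T.p_ne (hS _ q.2).1.ne_zero
    have e : T.p (∏ q ∈ S, q) * ft q =
        T.lgE * T.p (derivative q.1 * r q) + T.p (∏ q ∈ S, q) * z q := by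
      rw [hfz q, ← hr1 q, map_mul, map_mul]
      field_simp
    rw [e]
    exact add_mem (mul_mem T.lgE_O (T.p_mem_O _)) (mul_mem (T.p_mem_O _) (hz q))
  have hor : ∀ f ∈ T.Wl (∏ q ∈ S, q), ∀ q : S, ¬ q.1 ∣ T.lgC (∏ q ∈ S, q) f →
      q.1 ∣ T.lgC (∏ q ∈ S, q) f + derivative q.1 * r q := fun f hf q hq => by
    have h1 := ((hS _ q.2).1.prime.dvd_or_dvd
      ((Dvd.intro _ (hr1 q)).trans (T.lgC_dvd hb hbs hf))).resolve_left hq
    have h2 : derivative (∏ q ∈ S, q) = derivative q.1 * r q + q.1 * derivative (r q) := by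
      rw [← hr1 q, derivative_mul]
    rw [h2, ← add_assoc] at h1
    exact (dvd_add_left (Dvd.intro _ rfl)).1 h1
  set ν : L → S → ZMod 2 := fun f q => if q.1 ∣ T.lgC (∏ q ∈ S, q) f then 0 else 1 with hν
  have key : ∀ f ∈ T.Wl (∏ q ∈ S, q), T.lgE * f + ∑ q, zc L (ν f q) * ft q ∈ T.O := by
    intro f hf
    obtain ⟨o, ho, e⟩ := T.lgC_mod hb hbs hf
    have h1 : ∏ q ∈ S, q ∣ T.lgC (∏ q ∈ S, q) f + ∑ q, zc k[X] (ν f q) * (derivative q.1 * r q) := by
      refine lg_dvd S hS' fun q hq => ?_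
      have h2 := lg_comb_dvd hr3 (ν f) ⟨q, hq⟩
      have h3 : q ∣ T.lgC (∏ q ∈ S, q) f + zc k[X] (ν f ⟨q, hq⟩) * (derivative q * r ⟨q, hq⟩) := by
        by_cases h : q ∣ T.lgC (∏ q ∈ S, q) f
        · have : ν f ⟨q, hq⟩ = 0 := if_pos h
          rw [this, map_zero, zero_mul, add_zero]
          exact h
        · have : ν f ⟨q, hq⟩ = 1 := if_neg h
          rw [this, map_one, one_mul]
          exact hor f hf ⟨q, hq⟩ h
      have h4 := dvd_add h3 h2
      convert h4 using 1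
      grind
    obtain ⟨a, ha⟩ := h1
    have h2 := congrArg T.p ha
    rw [map_add, ← T.lg_comb_mul hS' hr1, map_mul] at h2
    have h3 : ∑ q, zc L (ν f q) * ft q =
        T.lgE * ∑ q, zc L (ν f q) * (T.p (derivative q.1) / T.p q.1) + ∑ q, zc L (ν f q) * z q := by
      rw [Finset.mul_sum, ← Finset.sum_add_distrib]
      exact Finset.sum_congr rfl fun q _ => by rw [hfz q]; ring
    have h4 : T.lgE * f + ∑ q, zc L (ν f q) * ft q =
        o + T.lgE * T.p a + ∑ q, zc L (ν f q) * z q := by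
      rw [h3]
      apply mul_left_cancel₀ hbs0
      grind
    rw [h4]
    exact add_mem (add_mem ho (mul_mem T.lgE_O (T.p_mem_O a)))
      (sum_mem fun q _ => mul_mem (T.zc_mem_O _) (hz q))
  refine ⟨ft, ν, hmem, fun q => ?_, fun f hf f' hf' => ?_, fun f hf => ?_⟩
  · obtain ⟨a, ha⟩ := T.tr_O (hz q)
    have h1 : T.tr (ft q) = T.p (derivative q.1) / T.p q.1 + T.p a := by
      rw [hfz q, tr_add, T.lgE_tr_mul (hfix q), ha]
    have h2 := T.tr_c1 (ft q)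
    rw [hft q, h1, PB.c1_add, lg_log] at h2
    rw [h1, T.log_O (T.p_mem_O a) (add_left_cancel h2).symm, add_zero]
  · funext q
    have h1 := hor f hf q
    have h2 := hor f' hf' q
    simp only [hν, Pi.add_apply, T.lgC_add hf hf']
    by_cases h : q.1 ∣ T.lgC (∏ q ∈ S, q) f <;> by_cases h' : q.1 ∣ T.lgC (∏ q ∈ S, q) f'
    · rw [if_pos h, if_pos h', if_pos (dvd_add h h'), add_zero]
    · rw [if_pos h, if_neg h', if_neg fun e => h' ((dvd_add_right h).1 e), zero_add]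
    · rw [if_neg h, if_pos h', if_neg fun e => h ((dvd_add_left h').1 e), add_zero]
    · have h3 : q.1 ∣ T.lgC (∏ q ∈ S, q) f + T.lgC (∏ q ∈ S, q) f' := by
        have h4 := dvd_add (h1 h) (h2 h')
        convert h4 using 1
        grind
      rw [if_neg h, if_neg h', if_pos h3, z2_add_self]
  · have h1 : ∀ g : G I,
        T.σ g T.lgE * f + ∑ q, zc L (ν (T.σ g f) q) * T.σ g (ft q) ∈ T.O := fun g => by
      have := T.σ_O g (key _ (T.Wl_σ g hf))
      simpa only [map_add, map_mul, map_sum, σ_σ, σ_zc] using this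
    have h2 : f + ∑ g : G I, ∑ q, zc L (ν (T.σ g f) q) * T.σ g (ft q) ∈ T.O := by
      have h3 := sum_mem (S := T.O) (t := Finset.univ) fun g _ => h1 g
      rw [Finset.sum_add_distrib, ← Finset.sum_mul] at h3
      have h4 : ∑ g : G I, T.σ g T.lgE = 1 := T.lgE_tr
      rwa [h4, one_mul] at h3
    have h5 := T.Wl_add hf (T.Wl_sum Finset.univ fun (g : G I) _ => T.Wl_sum Finset.univ
      fun q _ => T.Wl_zc_mul (ν (T.σ g f) q) (T.Wl_σ g (hmem q)))
    exact CharTwo.add_eq_zero.1 (T.log_O h2 h5.1)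

lemma om_ne (S : Finset k[X]) (hS : ∀ q ∈ S, Irreducible q ∧ q.Monic) (u v : S → ZMod 2)
    (hu : u ≠ 0) (hv : v ≠ 0) (huv : u ≠ v) :
    ∑ q, ∑ q', zc L (u q * v q') *
      T.P.c1 (T.p (derivative q.1) / T.p q.1 * (T.p (derivative q'.1) / T.p q'.1)) ≠ 0 := by
  have h1 : ∑ q, ∑ q', zc L (u q * v q') *
      T.P.c1 (T.p (derivative q.1) / T.p q.1 * (T.p (derivative q'.1) / T.p q'.1)) =
      T.P.c1 ((∑ q, zc L (u q) * (T.p (derivative q.1) / T.p q.1)) *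
        ∑ q, zc L (v q) * (T.p (derivative q.1) / T.p q.1)) := by
    rw [Finset.sum_mul_sum, c1_sum]
    refine Finset.sum_congr rfl fun q _ => ?_
    rw [c1_sum]
    refine Finset.sum_congr rfl fun q' _ => ?_
    rw [← c1_zc_mul, map_mul]
    congr 1
    ring
  have huv' : u + v ≠ 0 := fun e => huv (funext fun q => CharTwo.add_eq_zero.1 (congrFun e q))
  have h2 := T.lg_comb_ne hS hu
  have h3 := T.lg_comb_ne hS hv
  have h4 := T.lg_comb_ne hS huv'
  simp only [Pi.add_apply, map_add, add_mul, Finset.sum_add_distrib] at h4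
  have h5 := T.lg_comb_log u
  have h6 := T.lg_comb_log v
  rw [h1]
  generalize ∑ q, zc L (u q) * (T.p (derivative q.1) / T.p q.1) = x at h2 h4 h5 ⊢
  generalize ∑ q, zc L (v q) * (T.p (derivative q.1) / T.p q.1) = y at h3 h4 h6 ⊢
  intro h
  have h7 := T.P.D_mul x y
  simp only [PB.D] at h7
  rw [h, h5, h6] at h7
  exact mul_ne_zero (mul_ne_zero h2 h3) h4 (by grind)

end Tw

end Pool.Agent.Lib.MP_788af2_nt.AS
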