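import Pool.Agent.Lib.MP_788af2_nt.AS.Basic

/-!
The ring of integers of the tower.
-/

set_option linter.unusedSectionVars false

namespace Pool.Agent.Lib.MP_788af2_nt.AS

open Polynomial WeierstrassCurve Pool.Agent.Lib.MP_a3f657_nt.Two

namespace Tw

variable {k : Type} [Field k] [Finite k] [CharP k 2] {I : Type} [Fintype I] [DecidableEq I]
  {β : I → k[X]} {L : Type} [Field L] [CharP L 2] (T : Tw β L)

variable {x y z f f' : L} {bs : k[X]}

private lemma int_cases (u : ZMod 2) : u = 0 ∨ u = 1 := by revert u; decide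

private lemma int_θ_sq (i : I) : T.θ i ^ 2 = T.θ i + T.p (X * β i ^ 2) := by
  have h : T.θ i ^ 2 + T.θ i = T.p (X * β i ^ 2) := T.θ_wp i
  grind

private lemma int_zc_range (u : ZMod 2) : zc L u ∈ T.p.range := by
  rcases int_cases u with rfl | rfl
  · rw [map_zero]; exact zero_mem _
  · rw [map_one]; exact one_mem _

lemma p_mem_O (a : k[X]) : T.p a ∈ T.O := Subring.subset_closure (Or.inl ⟨a, rfl⟩)

lemma θ_mem_O (i : I) : T.θ i ∈ T.O := Subring.subset_closure (Or.inr ⟨i, rfl⟩)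

lemma zc_mem_O (u : ZMod 2) : zc L u ∈ T.O := by
  obtain ⟨a, ha⟩ := T.int_zc_range u
  exact ha ▸ T.p_mem_O a

lemma σ_O (g : G I) (hx : x ∈ T.O) : T.σ g x ∈ T.O := by
  refine (Subring.closure_le (t := T.O.comap (T.σ g))).2 ?_ hx
  rintro _ (⟨a, rfl⟩ | ⟨i, rfl⟩)
  · change T.σ g _ ∈ T.O
    rw [σ_p]
    exact T.p_mem_O a
  · change T.σ g _ ∈ T.O
    rw [T.σ_θ]
    exact add_mem (T.θ_mem_O i) (T.zc_mem_O _)

private lemma int_c01 (hx : x ∈ T.O) : T.P.c0 x ∈ T.O ∧ T.P.c1 x ∈ T.O := by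
  have hb : T.P.b ∈ T.O := T.p_X ▸ T.p_mem_O X
  induction hx using Subring.closure_induction with
  | mem x hx =>
    rcases hx with ⟨a, rfl⟩ | ⟨i, rfl⟩
    · obtain ⟨g, h, rfl⟩ := exists_parts a
      rw [c0_p, c1_p]
      exact ⟨T.p_mem_O _, T.p_mem_O _⟩
    · rw [c0_θ, c1_θ]
      exact ⟨T.θ_mem_O _, T.p_mem_O _⟩
  | zero => simp
  | one => simp
  | add x y _ _ h1 h2 =>
    rw [PB.c0_add, PB.c1_add]
    exact ⟨add_mem h1.1 h2.1, add_mem h1.2 h2.2⟩
  | neg x _ h => rwa [CharTwo.neg_eq]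
  | mul x y _ _ h1 h2 =>
    rw [PB.c0_mul, PB.c1_mul]
    exact ⟨add_mem (mul_mem h1.1 h2.1) (mul_mem hb (mul_mem h1.2 h2.2)),
      add_mem (mul_mem h1.1 h2.2) (mul_mem h1.2 h2.1)⟩

lemma c0_O (hx : x ∈ T.O) : T.P.c0 x ∈ T.O := (T.int_c01 hx).1

lemma c1_O (hx : x ∈ T.O) : T.P.c1 x ∈ T.O := (T.int_c01 hx).2

lemma D_O (hx : x ∈ T.O) : T.P.D x ∈ T.O := pow_mem (T.c1_O hx) 2

private lemma int_tr_mon (U : Finset I) : T.tr (∏ i ∈ U, T.θ i) ∈ T.p.range := by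
  have h1 : ∀ g : G I, T.σ g (∏ i ∈ U, T.θ i) =
      ∏ i, (if i ∈ U then T.θ i + zc L (g i) else 1) := fun g => by
    rw [map_prod, Finset.prod_ite_mem, Finset.univ_inter]
    exact Finset.prod_congr rfl fun i _ => T.σ_θ g i
  have h2 := Finset.prod_univ_sum (fun _ : I => (Finset.univ : Finset (ZMod 2)))
    (fun i u => if i ∈ U then T.θ i + zc L u else 1)
  rw [Fintype.piFinset_univ] at h2
  rw [tr]
  simp only [h1]
  rw [← h2]
  refine prod_mem fun i _ => ?_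
  have h3 : ∀ F : ZMod 2 → L, ∑ u, F u = F 0 + F 1 := fun F => Fin.sum_univ_two F
  rw [h3]
  split_ifs
  · rw [map_zero, map_one, show T.θ i + 0 + (T.θ i + 1) = 1 by grind]
    exact one_mem _
  · exact add_mem (one_mem _) (one_mem _)

private lemma int_tr_mul (hy : y ∈ T.O) : ∀ x, (∀ U : Finset I,
    T.tr ((∏ i ∈ U, T.θ i) * x) ∈ T.p.range) →
      ∀ U : Finset I, T.tr ((∏ i ∈ U, T.θ i) * (y * x)) ∈ T.p.range := by
  induction hy using Subring.closure_induction with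
  | mem y hy =>
    intro x hx U
    rcases hy with ⟨a, rfl⟩ | ⟨j, rfl⟩
    · rw [mul_left_comm, T.tr_fix_mul (fun g => T.σ_p g a)]
      exact mul_mem ⟨a, rfl⟩ (hx U)
    · by_cases hj : j ∈ U
      · have e : (∏ i ∈ U, T.θ i) * (T.θ j * x) = (∏ i ∈ U, T.θ i) * x +
            T.p (X * β j ^ 2) * ((∏ i ∈ U.erase j, T.θ i) * x) := by
          rw [← Finset.mul_prod_erase U _ hj]
          linear_combination ((∏ i ∈ U.erase j, T.θ i) * x) * T.int_θ_sq j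
        rw [e, tr_add, T.tr_fix_mul (fun g => T.σ_p g _)]
        exact add_mem (hx U) (mul_mem ⟨_, rfl⟩ (hx _))
      · have := hx (insert j U)
        rw [Finset.prod_insert hj] at this
        rwa [show (∏ i ∈ U, T.θ i) * (T.θ j * x) = T.θ j * (∏ i ∈ U, T.θ i) * x by ring]
  | zero =>
    intro x _ U
    simp [tr]
  | one =>
    intro x hx U
    rw [one_mul]
    exact hx U
  | add y z _ _ h1 h2 =>
    intro x hx U
    rw [add_mul, mul_add, tr_add]
    exact add_mem (h1 x hx U) (h2 x hx U)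
  | neg y _ h => rwa [CharTwo.neg_eq]
  | mul y z _ _ h1 h2 =>
    intro x hx U
    rw [mul_assoc]
    exact h1 _ (h2 x hx) U

lemma tr_O (hx : x ∈ T.O) : ∃ a, T.tr x = T.p a := by
  obtain ⟨a, ha⟩ := T.int_tr_mul hx 1 (fun U => by rw [mul_one]; exact T.int_tr_mon U) ∅
  exact ⟨a, by simpa using ha.symm⟩

lemma fix_O (hx : x ∈ T.O) (h : ∀ g, T.σ g x = x) : ∃ a, x = T.p a := by
  obtain ⟨a, ha⟩ := T.tr_O (mul_mem hx (prod_mem (t := Finset.univ) fun i _ =>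
    add_mem (add_mem (T.θ_mem_O i) (T.zc_mem_O ((0 : G I) i))) (one_mem _)))
  rw [T.tr_fix_mul h, T.tr_prod, mul_one] at ha
  exact ⟨a, ha⟩

lemma R_O (hx : x ∈ T.O) : T.R x = 0 := by
  obtain ⟨a, ha⟩ := T.tr_O hx
  rw [T.R_eq (y := ι a) (by rw [ha, p_eq, sub_self]; exact zero_mem _), res_none, resInf_ι,
    map_zero]

private lemma int_norm (hx : x ∈ T.O) (h0 : x ≠ 0) :
    ∃ n, n ≠ 0 ∧ ∏ g : G I, T.σ g x = T.p n := by
  obtain ⟨n, hn⟩ := T.fix_O (x := ∏ g : G I, T.σ g x) (prod_mem fun g _ => T.σ_O g hx) fun h => by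
    rw [map_prod, ← Equiv.prod_comp (Equiv.addLeft h) fun g => T.σ g x]
    exact Finset.prod_congr rfl fun g _ => (T.σ_add h g x).symm
  refine ⟨n, ?_, hn⟩
  rintro rfl
  rw [map_zero, Finset.prod_eq_zero_iff] at hn
  obtain ⟨g, -, hg⟩ := hn
  exact h0 ((map_eq_zero _).1 hg)

private lemma int_O_le (hx : x ∈ T.O) : x ∈ T.Lg := by
  refine (Subring.closure_le (t := T.Lg.toSubring)).2 ?_ hx
  rintro _ (⟨a, rfl⟩ | ⟨i, rfl⟩)
  · exact Subfield.subset_closure (Or.inl ⟨_, rfl⟩)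
  · exact Subfield.subset_closure (Or.inr ⟨_, rfl⟩)

lemma mem_Lg : x ∈ T.Lg ↔ ∃ a, a ≠ 0 ∧ T.p a * x ∈ T.O := by
  refine ⟨fun hx => ?_, fun ⟨a, ha, h⟩ => ?_⟩
  · induction hx using Subfield.closure_induction with
    | mem x hx =>
      rcases hx with ⟨y, rfl⟩ | ⟨i, rfl⟩
      · refine ⟨y.denom, y.denom_ne_zero, ?_⟩
        have : ι y.denom * y = ι y.num := by
          have h1 := ι_ne y.denom_ne_zero
          conv_lhs => rw [← y.num_div_denom]
          simp only [RatFunc.num_div_denom]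
          exact (mul_comm _ _).trans ((eq_div_iff h1).1 y.num_div_denom.symm)
        rw [p_eq, ← map_mul, this]
        exact T.p_mem_O _
      · exact ⟨1, one_ne_zero, mul_mem (T.p_mem_O _) (T.θ_mem_O i)⟩
    | one => exact ⟨1, one_ne_zero, mul_mem (T.p_mem_O _) (one_mem _)⟩
    | add x y _ _ h1 h2 =>
      obtain ⟨a, ha, h1⟩ := h1
      obtain ⟨b, hb, h2⟩ := h2
      refine ⟨a * b, mul_ne_zero ha hb, ?_⟩
      rw [map_mul, show T.p a * T.p b * (x + y) = T.p b * (T.p a * x) + T.p a * (T.p b * y) by ring]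
      exact add_mem (mul_mem (T.p_mem_O _) h1) (mul_mem (T.p_mem_O _) h2)
    | neg x _ h => rwa [CharTwo.neg_eq]
    | inv x _ h =>
      obtain ⟨a, ha, h⟩ := h
      by_cases hx : x = 0
      · exact ⟨a, ha, by simp [hx]⟩
      obtain ⟨n, hn, e⟩ := T.int_norm h (mul_ne_zero (T.p_ne ha) hx)
      refine ⟨n, hn, ?_⟩
      rw [← e, ← Finset.mul_prod_erase _ _ (Finset.mem_univ (0 : G I)), T.σ_zero,
        mul_right_comm, mul_inv_cancel_right₀ hx]
      exact mul_mem (T.p_mem_O _) (prod_mem fun g _ => T.σ_O g h)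
    | mul x y _ _ h1 h2 =>
      obtain ⟨a, ha, h1⟩ := h1
      obtain ⟨b, hb, h2⟩ := h2
      refine ⟨a * b, mul_ne_zero ha hb, ?_⟩
      rw [map_mul, mul_mul_mul_comm]
      exact mul_mem h1 h2
  · have := div_mem (T.int_O_le h) (T.int_O_le (T.p_mem_O a))
    rwa [mul_div_cancel_left₀ _ (T.p_ne ha)] at this

lemma O_le_Lg (hx : x ∈ T.O) : x ∈ T.Lg := T.int_O_le hx

lemma e_mem_Lg (y : RatFunc k) : T.e y ∈ T.Lg := Subfield.subset_closure (Or.inl ⟨_, rfl⟩)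

lemma σ_Lg (g : G I) (hx : x ∈ T.Lg) : T.σ g x ∈ T.Lg := by
  obtain ⟨a, ha, h⟩ := T.mem_Lg.1 hx
  refine T.mem_Lg.2 ⟨a, ha, ?_⟩
  have := T.σ_O g h
  rwa [map_mul, σ_p] at this

lemma c0_Lg (hx : x ∈ T.Lg) : T.P.c0 x ∈ T.Lg := by
  obtain ⟨a, ha, h⟩ := T.mem_Lg.1 hx
  refine T.mem_Lg.2 ⟨a, ha, ?_⟩
  have := T.c0_O (mul_mem (T.p_mem_O a) h)
  rwa [← mul_assoc, ← sq, PB.c0_sq_mul] at this

lemma c1_Lg (hx : x ∈ T.Lg) : T.P.c1 x ∈ T.Lg := by
  obtain ⟨a, ha, h⟩ := T.mem_Lg.1 hx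
  refine T.mem_Lg.2 ⟨a, ha, ?_⟩
  have := T.c1_O (mul_mem (T.p_mem_O a) h)
  rwa [← mul_assoc, ← sq, PB.c1_sq_mul] at this

lemma fix_Lg (hx : x ∈ T.Lg) (h : ∀ g, T.σ g x = x) : ∃ y, x = T.e y := by
  obtain ⟨a, ha, h1⟩ := T.mem_Lg.1 hx
  obtain ⟨b, hb⟩ := T.fix_O h1 fun g => by rw [map_mul, σ_p, h]
  refine ⟨ι b / ι a, ?_⟩
  rw [map_div₀, ← p_eq, ← p_eq, ← hb, mul_div_cancel_left₀ _ (T.p_ne ha)]

lemma deg_O (hx : x ∈ T.O) (h0 : x ≠ 0) : 0 ≤ T.d.deg x := by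
  obtain ⟨n, hn, e⟩ := T.int_norm hx h0
  have h1 := DF.Le.prod (d := T.d) Finset.univ (f := fun g : G I => T.σ g x)
    (g := fun _ => T.d.deg x) fun g _ => T.σ_mem g (DF.mem_Le_deg x)
  rw [e, DF.mem_Le_iff (T.p_ne hn), T.deg_p hn, Finset.sum_const, nsmul_eq_mul] at h1
  have h2 : (0 : ℝ) < (Finset.univ : Finset (G I)).card :=
    Nat.cast_pos.2 (Finset.card_pos.2 Finset.univ_nonempty)
  exact le_of_mul_le_mul_left (by
    rw [mul_zero]
    exact (Nat.cast_nonneg _).trans h1) h2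

private lemma int_Fx_add {S : Finset I} (hx : x ∈ T.Fx S) (hy : y ∈ T.Fx S) : x + y ∈ T.Fx S :=
  fun g hg => by rw [map_add, hx g hg, hy g hg]

private lemma int_Fx_mul {S : Finset I} (hx : x ∈ T.Fx S) (hy : y ∈ T.Fx S) : x * y ∈ T.Fx S :=
  fun g hg => by rw [map_mul, hx g hg, hy g hg]

private lemma int_Fx_p (S : Finset I) (a : k[X]) : T.p a ∈ T.Fx S := fun g _ => T.σ_p g a

private lemma int_Fx_ins {S : Finset I} (j : I) (hx : x ∈ T.Fx S) : x ∈ T.Fx (insert j S) :=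
  fun g hg => hx g fun i hi => hg i (Finset.mem_insert_of_mem hi)

private lemma int_Fx_θ (S : Finset I) (j : I) : T.θ j ∈ T.Fx (insert j S) := fun g hg => by
  rw [T.σ_θ, hg j (Finset.mem_insert_self _ _), map_zero, add_zero]

include T in
private lemma int_deg_lt {g h : k[X]} (h0 : h ≠ 0) :
    h.natDegree < (g ^ 2 + X * h ^ 2).natDegree := by
  have h1 : derivative (g ^ 2 + X * h ^ 2) = h ^ 2 := T.p_inj (by
    rw [← D_p, PB.D, c1_p, map_pow])
  have h2 : (g ^ 2 + X * h ^ 2).natDegree ≠ 0 := fun e => by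
    rw [eq_C_of_natDegree_eq_zero e, derivative_C] at h1
    exact pow_ne_zero 2 h0 h1.symm
  have h3 := natDegree_derivative_lt h2
  rw [h1, natDegree_pow] at h3
  omega

private lemma int_c1_inv_p (a : k[X]) : ∃ b, T.p b + T.P.c1 (T.p b) = T.p a := by
  induction hn : a.natDegree using Nat.strong_induction_on generalizing a with
  | _ n ih =>
    obtain ⟨g, h, rfl⟩ := exists_parts a
    by_cases h0 : h = 0
    · refine ⟨g ^ 2 + X * h ^ 2, ?_⟩
      rw [c1_p, h0, map_zero, add_zero]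
    · obtain ⟨b, hb⟩ := ih _ (hn ▸ T.int_deg_lt h0) h rfl
      refine ⟨g ^ 2 + X * h ^ 2 + b, ?_⟩
      rw [map_add T.p _ b, PB.c1_add, c1_p]
      grind

private lemma int_c1_inv (S : Finset I) : ∀ x ∈ T.Fx S, x ∈ T.O →
    ∃ z ∈ T.O, z ∈ T.Fx S ∧ z + T.P.c1 z = x := by
  induction S using Finset.induction_on with
  | empty =>
    intro x hS hx
    obtain ⟨a, rfl⟩ := T.fix_O hx (T.mem_Fx_empty.1 hS)
    obtain ⟨b, hb⟩ := T.int_c1_inv_p a
    exact ⟨_, T.p_mem_O b, T.int_Fx_p _ b, hb⟩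
  | insert j S hj ih =>
    intro x hS hx
    obtain ⟨h1, h0⟩ := T.Fx_split hj hS
    have o1 := add_mem hx (T.σ_O (Pi.single j 1) hx)
    obtain ⟨z1, z1O, z1S, e1⟩ := ih _ h1 o1
    obtain ⟨z0, z0O, z0S, e0⟩ := ih _
      (T.int_Fx_add h0 (T.int_Fx_mul (T.int_Fx_p S (β j)) (T.c0_Fx z1S)))
      (add_mem (add_mem hx (mul_mem (T.θ_mem_O j) o1)) (mul_mem (T.p_mem_O _) (T.c0_O z1O)))
    refine ⟨z0 + T.θ j * z1, add_mem z0O (mul_mem (T.θ_mem_O j) z1O),
      T.int_Fx_add (T.int_Fx_ins j z0S) (T.int_Fx_mul (T.int_Fx_θ S j) (T.int_Fx_ins j z1S)), ?_⟩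
    rw [PB.c1_add, PB.c1_mul, c0_θ, c1_θ]
    rw [← e1] at e0
    grind

lemma exists_c1_inv (hx : x ∈ T.O) : ∃ z ∈ T.O, z + T.P.c1 z = x := by
  obtain ⟨z, h1, -, h2⟩ := T.int_c1_inv _ x (T.mem_Fx_univ x) hx
  exact ⟨z, h1, h2⟩

private lemma int_log (S : Finset I) : ∀ x ∈ T.Fx S, x ∈ T.O → T.P.c1 x = x → x = 0 := by
  induction S using Finset.induction_on with
  | empty =>
    intro x hS hx h
    obtain ⟨a, rfl⟩ := T.fix_O hx (T.mem_Fx_empty.1 hS)
    obtain ⟨g, b, rfl⟩ := exists_parts a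
    rw [c1_p] at h
    by_cases h0 : b = 0
    · rw [← h, h0, map_zero]
    · have := T.int_deg_lt (g := g) h0
      rw [← T.p_inj h] at this
      exact absurd this (lt_irrefl _)
  | insert j S hj ih =>
    intro x hS hx h
    obtain ⟨h1, h0⟩ := T.Fx_split hj hS
    have e1 := ih _ h1 (add_mem hx (T.σ_O (Pi.single j 1) hx)) (by rw [PB.c1_add, σ_c1, h])
    rw [e1, mul_zero, add_zero] at h0
    exact ih x h0 hx h

lemma log_O (hx : x ∈ T.O) (h : T.P.c1 x = x) : x = 0 := T.int_log _ x (T.mem_Fx_univ x) hx h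

private lemma int_wp_mem (hx : x ∈ T.O) : wp x ∈ T.O := add_mem (pow_mem hx 2) hx

private lemma int_of_wp (S : Finset I) : ∀ x ∈ T.Fx S, wp x ∈ T.O → x ∈ T.O := by
  induction S using Finset.induction_on with
  | empty =>
    intro x hS hx
    obtain ⟨y, hy⟩ := T.dense x (T.mem_Fx_empty.1 hS) (-1)
    have h1 : T.e (y - ι (pol y)) ∈ T.d.Le ((-1 : ℤ) : ℝ) := T.e_mem.2 (pol_spec y)
    have h2 : x + T.p (pol y) ∈ T.d.Le (-1) := by
      have := add_mem hy (DF.Le.mono (c := -1) h1 (by norm_num))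
      rwa [map_sub, ← p_eq, sub_add_sub_cancel, CharTwo.sub_eq_add] at this
    have h3 : wp (x + T.p (pol y)) ∈ T.O := by
      rw [wp_add]
      exact add_mem hx (T.int_wp_mem (T.p_mem_O _))
    have h4 : wp (x + T.p (pol y)) = 0 := by
      by_contra h0
      have h5 := (DF.mem_Le_iff h0).1 (DF.Le.wp_mem (c := -1) h2 (by norm_num) le_rfl)
      have h6 := T.deg_O h3 h0
      linarith
    have h5 : x + T.p (pol y) ∈ T.O := by
      rcases wp_eq_zero.1 h4 with e | e <;> rw [e]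
      exacts [zero_mem _, one_mem _]
    simpa using sub_mem h5 (T.p_mem_O (pol y))
  | insert j S hj ih =>
    intro x hS hx
    obtain ⟨h1, h0⟩ := T.Fx_split hj hS
    have o1 := ih _ h1 (by
      have := T.σ_O (Pi.single j 1) hx
      rw [wp, map_add, map_pow] at this
      rw [wp_add]
      exact add_mem hx this)
    have o2 := mul_mem (T.θ_mem_O j) o1
    have o0 := ih _ h0 (by
      rw [wp_add]
      exact add_mem hx (T.int_wp_mem o2))
    simpa using sub_mem o0 o2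

lemma of_wp_O (h : wp x ∈ T.O) : x ∈ T.O := T.int_of_wp _ x (T.mem_Fx_univ x) h

private lemma int_θ_int (i : I) : T.p.IsIntegralElem (T.θ i) := by
  refine ⟨X ^ 2 + (X + C (X * β i ^ 2)), monic_X_pow_add ?_, ?_⟩
  · rw [degree_X_add_C]
    exact_mod_cast one_lt_two
  · rw [eval₂_add, eval₂_add, eval₂_X_pow, eval₂_X, eval₂_C, T.int_θ_sq]
    exact CharTwo.add_self_eq_zero _

private lemma int_σ_int (g : G I) (h : T.p.IsIntegralElem x) : T.p.IsIntegralElem (T.σ g x) := by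
  have := h.map (T.σ g)
  rwa [show (T.σ g).comp T.p = T.p from RingHom.ext fun a => T.σ_p g a] at this

private lemma int_int (S : Finset I) : ∀ x ∈ T.Fx S, x ∈ T.Lg → T.p.IsIntegralElem x → x ∈ T.O := by
  induction S using Finset.induction_on with
  | empty =>
    intro x hS hx h
    obtain ⟨y, rfl⟩ := T.fix_Lg hx (T.mem_Fx_empty.1 hS)
    have h1 : IsIntegral k[X] y := RingHom.IsIntegralElem.of_map T.e.injective h
    obtain ⟨a, rfl⟩ := IsIntegrallyClosed.isIntegral_iff.1 h1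
    exact T.p_mem_O a
  | insert j S hj ih =>
    intro x hS hx h
    obtain ⟨h1, h0⟩ := T.Fx_split hj hS
    have l1 := add_mem hx (T.σ_Lg (Pi.single j 1) hx)
    have i1 := RingHom.IsIntegralElem.add _ h (T.int_σ_int (Pi.single j 1) h)
    have o2 := mul_mem (T.θ_mem_O j) (ih _ h1 l1 i1)
    have o0 := ih _ h0 (add_mem hx (T.O_le_Lg o2))
      (RingHom.IsIntegralElem.add _ h (RingHom.IsIntegralElem.mul _ (T.int_θ_int j) i1))
    simpa using sub_mem o0 o2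

lemma int_O (hx : x ∈ T.Lg) (h : T.p.IsIntegralElem x) : x ∈ T.O :=
  T.int_int _ x (T.mem_Fx_univ x) hx h

lemma O_int (hx : x ∈ T.O) : T.p.IsIntegralElem x := by
  induction hx using Subring.closure_induction with
  | mem x hx =>
    rcases hx with ⟨a, rfl⟩ | ⟨i, rfl⟩
    · exact T.p.isIntegralElem_map
    · exact T.int_θ_int i
  | zero => exact T.p.isIntegralElem_zero
  | one => exact T.p.isIntegralElem_one
  | add x y _ _ h1 h2 => exact RingHom.IsIntegralElem.add _ h1 h2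
  | neg x _ h => rwa [CharTwo.neg_eq]
  | mul x y _ _ h1 h2 => exact RingHom.IsIntegralElem.mul _ h1 h2

/-- On the component `θ i = g i` above `b`, every integer is congruent to a polynomial. -/
lemma mod_O {b : k[X]} (hb : ∀ i, b ∣ β i) (g : G I) (hx : x ∈ T.O) :
    ∃ a, ∃ o ∈ T.O, (∏ i, (T.θ i + zc L (g i) + 1)) * (x + T.p a) = T.p b * o := by
  induction hx using Subring.closure_induction with
  | mem x hx =>
    rcases hx with ⟨a, rfl⟩ | ⟨j, rfl⟩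
    · exact ⟨a, 0, zero_mem _, by rw [CharTwo.add_self_eq_zero, mul_zero, mul_zero]⟩
    · obtain ⟨a, ha⟩ := T.int_zc_range (g j)
      obtain ⟨c, hc⟩ := hb j
      refine ⟨a, T.p (X * β j * c) * ∏ i ∈ Finset.univ.erase j, (T.θ i + zc L (g i) + 1),
        mul_mem (T.p_mem_O _) (prod_mem fun i _ =>
          add_mem (add_mem (T.θ_mem_O i) (T.zc_mem_O _)) (one_mem _)), ?_⟩
      have e : (T.θ j + zc L (g j) + 1) * (T.θ j + zc L (g j)) = T.p b * T.p (X * β j * c) := by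
        have e1 : T.p b * T.p (X * β j * c) = T.p (X * β j ^ 2) := by
          rw [← map_mul]
          congr 1
          linear_combination (-X * β j) * hc
        have e2 := T.int_θ_sq j
        rw [e1]
        rcases int_cases (g j) with h | h <;> rw [h]
        · rw [map_zero]; grind
        · rw [map_one]; grind
      rw [← Finset.mul_prod_erase _ _ (Finset.mem_univ j), ha, mul_right_comm, e, mul_assoc]
  | zero => exact ⟨0, 0, zero_mem _, by simp⟩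
  | one => exact ⟨1, 0, zero_mem _, by rw [map_one, CharTwo.add_self_eq_zero, mul_zero, mul_zero]⟩
  | add x y _ _ h1 h2 =>
    obtain ⟨a, o, ho, e⟩ := h1
    obtain ⟨a', o', ho', e'⟩ := h2
    exact ⟨a + a', o + o', add_mem ho ho', by rw [map_add]; linear_combination e + e'⟩
  | neg x _ h => rwa [CharTwo.neg_eq]
  | mul x y _ hy h1 h2 =>
    obtain ⟨a, o, ho, e⟩ := h1
    obtain ⟨a', o', ho', e'⟩ := h2
    refine ⟨a * a', o * y + T.p a * o', add_mem (mul_mem ho hy) (mul_mem (T.p_mem_O a) ho'), ?_⟩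
    rw [map_mul]
    generalize (∏ i, (T.θ i + zc L (g i) + 1)) = ε at e e' ⊢
    grind

lemma Wl_zero (bs : k[X]) : (0 : L) ∈ T.Wl bs :=
  ⟨T.P.c1_zero, by rw [mul_zero]; exact zero_mem _⟩

lemma Wl_add (hf : f ∈ T.Wl bs) (hf' : f' ∈ T.Wl bs) : f + f' ∈ T.Wl bs :=
  ⟨by rw [PB.c1_add, hf.1, hf'.1], by rw [mul_add]; exact add_mem hf.2 hf'.2⟩

lemma Wl_σ (g : G I) (hf : f ∈ T.Wl bs) : T.σ g f ∈ T.Wl bs :=
  ⟨by rw [σ_c1, hf.1], by
    have := T.σ_O g hf.2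
    rwa [map_mul, σ_p] at this⟩

lemma Wl_zc_mul (u : ZMod 2) (hf : f ∈ T.Wl bs) : zc L u * f ∈ T.Wl bs :=
  ⟨by rw [c1_zc_mul, hf.1], by
    rw [mul_left_comm]
    exact mul_mem (T.zc_mem_O u) hf.2⟩

lemma Wl_sum {α : Type} (s : Finset α) {F : α → L} (h : ∀ i ∈ s, F i ∈ T.Wl bs) :
    ∑ i ∈ s, F i ∈ T.Wl bs :=
  Finset.sum_induction F (· ∈ T.Wl bs) (fun _ _ => T.Wl_add) (T.Wl_zero bs) h

lemma Wl_le (hf : f ∈ T.Wl bs) : f ∈ T.d.Le (2 * gam β Finset.univ) :=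
  T.log_le (T.mem_Fx_univ f) hf.1

lemma Wl_deg (hb : bs ≠ 0) (hf : f ∈ T.Wl bs) (h0 : f ≠ 0) : -(bs.natDegree : ℝ) ≤ T.d.deg f := by
  have := T.deg_O hf.2 (mul_ne_zero (T.p_ne hb) h0)
  rw [T.d.deg_mul (T.p_ne hb) h0, T.deg_p hb] at this
  linarith

/-- The first order pairing has denominator `bs ^ 2`. -/
lemma H_poly {W : Type} [Fintype W] {ft : W → L} (h : ∀ q, ft q ∈ T.Wl bs)
    (w : G I → W × W → ZMod 2) : ∃ a, T.p bs ^ 2 * T.H ft w = T.p a := by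
  have : T.p bs ^ 2 * T.H ft w ∈ T.p.range := by
    rw [H, Finset.mul_sum]
    refine sum_mem fun g _ => ?_
    rw [Finset.mul_sum]
    refine sum_mem fun q _ => ?_
    rw [mul_left_comm, ← T.tr_fix_mul (fun g => by rw [map_pow, σ_p]), sq, mul_mul_mul_comm]
    obtain ⟨a, ha⟩ := T.tr_O (mul_mem (T.Wl_σ g (h q.1)).2 (h q.2).2)
    exact mul_mem (T.int_zc_range _) ⟨a, ha.symm⟩
  obtain ⟨a, ha⟩ := this
  exact ⟨a, ha.symm⟩

lemma H_le {W : Type} [Fintype W] {ft : W → L} (h : ∀ q, ft q ∈ T.Wl bs)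
    (w : G I → W × W → ZMod 2) : T.H ft w ∈ T.d.Le (4 * gam β Finset.univ) :=
  sum_mem fun g _ => sum_mem fun q _ => T.zc_mul_mem _ (T.tr_mem
    (DF.Le.mul (T.σ_mem g (T.Wl_le (h q.1))) (T.Wl_le (h q.2)) (by linarith)))

end Tw

end Pool.Agent.Lib.MP_788af2_nt.AS
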