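import Pool.Agent.Lib.MP_788af2_nt.AS.CountOdd
import Pool.Agent.Lib.MP_788af2_nt.AS.Int

/-!
One more variable raises the degree of the first order pairing.
-/

set_option linter.unusedSectionVars false

namespace Pool.Agent.Lib.MP_788af2_nt.AS

open Polynomial WeierstrassCurve Pool.Agent.Lib.MP_a3f657_nt.Two

open scoped Classical

variable {k : Type} [Field k] [Finite k] [CharP k 2]

namespace StepAux

lemma map_zc {A B : Type} [Ring A] [Ring B] [CharP A 2] [CharP B 2] (f : A →+* B) (u : ZMod 2) :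
    f (zc A u) = zc B u :=
  congrArg (fun φ : ZMod 2 →+* B => φ u) (RingHom.ext_zmod (f.comp (zc A)) (zc B))

section tower

variable {I : Type} [Fintype I] [DecidableEq I]

/-- The vectors vanishing on `S`. -/
def Us (S : Finset I) : Finset (G I) := Finset.univ.filter fun g => ∀ i ∈ S, g i = 0

/-- The vectors vanishing outside `S`. -/
def Vs (S : Finset I) : Finset (G I) := Finset.univ.filter fun g => ∀ i, i ∉ S → g i = 0

lemma mem_Us {S : Finset I} {g : G I} : g ∈ Us S ↔ ∀ i ∈ S, g i = 0 := by simp [Us]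

lemma mem_Vs {S : Finset I} {g : G I} : g ∈ Vs S ↔ ∀ i, i ∉ S → g i = 0 := by simp [Vs]

lemma add_add_self (g h : G I) : g + (g + h) = h := by
  ext i
  simp only [Pi.add_apply]
  rw [← add_assoc, CharTwo.add_self_eq_zero, zero_add]

lemma sum_split {M : Type} [AddCommMonoid M] (S : Finset I) (F : G I → M) :
    ∑ g, F g = ∑ v ∈ Vs S, ∑ a ∈ Us S, F (v + a) := by
  rw [← Finset.sum_product' (f := fun v a => F (v + a))]
  symm
  refine Finset.sum_nbij' (fun p => p.1 + p.2)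
    (fun g => (fun i => if i ∈ S then g i else 0, fun i => if i ∈ S then 0 else g i))
    (fun _ _ => Finset.mem_univ _) ?_ ?_ ?_ (fun _ _ => rfl)
  · intro g _
    rw [Finset.mem_product, mem_Vs, mem_Us]
    exact ⟨fun i hi => if_neg hi, fun i hi => if_pos hi⟩
  · rintro ⟨v, a⟩ hp
    rw [Finset.mem_product, mem_Vs, mem_Us] at hp
    have h1 : ∀ i, i ∉ S → v i = 0 := hp.1
    have h2 : ∀ i ∈ S, a i = 0 := hp.2
    refine Prod.ext (funext fun i => ?_) (funext fun i => ?_)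
    · by_cases hi : i ∈ S
      · simp [hi, h2 i hi]
      · simp [hi, h1 i hi]
    · by_cases hi : i ∈ S
      · simp [hi, h2 i hi]
      · simp [hi, h1 i hi]
  · intro g _
    funext i
    by_cases hi : i ∈ S <;> simp [hi]

variable {β : I → k[X]} {L : Type} [Field L] [CharP L 2] (T : Tw β L)

/-- The trace along the vectors vanishing on `S`. -/
def trU (S : Finset I) (x : L) : L := ∑ a ∈ Us S, T.σ a x

lemma sum_inv (S : Finset I) (φ : G I → L) (hφ : ∀ v, ∀ a ∈ Us S, φ (v + a) = φ v) (x : L) :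
    ∑ g, φ g * T.σ g x = ∑ v ∈ Vs S, φ v * T.σ v (trU T S x) := by
  rw [sum_split S]
  refine Finset.sum_congr rfl fun v _ => ?_
  rw [trU, map_sum, Finset.mul_sum]
  exact Finset.sum_congr rfl fun a ha => by rw [hφ v a ha, T.σ_add]

lemma trU_Fx (S : Finset I) (x : L) : trU T S x ∈ T.Fx S := by
  intro g hg
  rw [trU, map_sum]
  refine Finset.sum_nbij' (fun a => g + a) (fun a => g + a) ?_ ?_ (fun a _ => add_add_self g a)
    (fun a _ => add_add_self g a) (fun a _ => (T.σ_add g a x).symm)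
  · intro a ha
    rw [mem_Us] at ha ⊢
    intro i hi
    simp [hg i hi, ha i hi]
  · intro a ha
    rw [mem_Us] at ha ⊢
    intro i hi
    simp [hg i hi, ha i hi]

lemma trU_c0 (S : Finset I) (x : L) : trU T S (T.P.c0 x) = T.P.c0 (trU T S x) := by
  rw [trU, trU, T.c0_sum]
  exact Finset.sum_congr rfl fun a _ => (T.σ_c0 a x).symm

lemma trU_c1 (S : Finset I) (x : L) : trU T S (T.P.c1 x) = T.P.c1 (trU T S x) := by
  rw [trU, trU, T.c1_sum]
  exact Finset.sum_congr rfl fun a _ => (T.σ_c1 a x).symm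

lemma trU_add (S : Finset I) (x y : L) : trU T S (x + y) = trU T S x + trU T S y := by
  simp only [trU, map_add, Finset.sum_add_distrib]

lemma trU_p_mul (S : Finset I) (a : k[X]) (x : L) : trU T S (T.p a * x) = T.p a * trU T S x := by
  simp only [trU, map_mul, T.σ_p, Finset.mul_sum]

/-- The weighted pairing of two elements. -/
noncomputable def pr (u : G I → ZMod 2) (x y : L) : L := ∑ g, zc L (u g) * T.tr (T.σ g x * y)

lemma pr_fix (u : G I → ZMod 2) (x y : L) (h : G I) : T.σ h (pr T u x y) = pr T u x y := by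
  simp only [pr, map_sum, map_mul, T.σ_zc, T.σ_tr]

lemma pr_add_left (u : G I → ZMod 2) (x x' y : L) :
    pr T u (x + x') y = pr T u x y + pr T u x' y := by
  simp only [pr, map_add, add_mul, T.tr_add, mul_add, Finset.sum_add_distrib]

lemma pr_add_right (u : G I → ZMod 2) (x y y' : L) :
    pr T u x (y + y') = pr T u x y + pr T u x y' := by
  simp only [pr, T.tr_add, mul_add, Finset.sum_add_distrib]

lemma pr_p_left (u : G I → ZMod 2) (a : k[X]) (x y : L) :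
    pr T u (T.p a * x) y = T.p a * pr T u x y := by
  rw [pr, pr, Finset.mul_sum]
  refine Finset.sum_congr rfl fun g _ => ?_
  rw [map_mul, T.σ_p, mul_assoc, T.tr_fix_mul fun g => T.σ_p g a]
  ring

lemma pr_p_right (u : G I → ZMod 2) (a : k[X]) (x y : L) :
    pr T u x (T.p a * y) = T.p a * pr T u x y := by
  rw [pr, pr, Finset.mul_sum]
  refine Finset.sum_congr rfl fun g _ => ?_
  rw [mul_left_comm (T.σ g x), T.tr_fix_mul fun g => T.σ_p g a]
  ring

lemma pr_c1 (u : G I → ZMod 2) {x y : L} (hx : T.P.c1 x = x) (hy : T.P.c1 y = y) :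
    T.P.c1 (pr T u x y) = pr T u (T.P.c0 x) y + pr T u x (T.P.c0 y) := by
  rw [pr, pr, pr, T.c1_sum, ← Finset.sum_add_distrib]
  refine Finset.sum_congr rfl fun g _ => ?_
  rw [T.c1_zc_mul, ← T.tr_c1, PB.c1_mul, T.σ_c0, T.σ_c1, hx, hy, T.tr_add, mul_add]

lemma pr_dot (u : G I → ZMod 2) (ξ : G I) (x y : L) :
    pr T (fun g => (ξ ⬝ᵥ g) * u g) x y =
      pr T u (comb T.θ ξ * x) y + pr T u x (comb T.θ ξ * y) := by
  rw [pr, pr, pr, ← Finset.sum_add_distrib]
  refine Finset.sum_congr rfl fun g _ => ?_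
  rw [← mul_add, ← T.tr_add, map_mul (T.σ g), T.σ_comb, map_mul (zc L), mul_comm (zc L (ξ ⬝ᵥ g)),
    mul_assoc, ← T.tr_fix_mul fun h => T.σ_zc h (ξ ⬝ᵥ g)]
  refine congrArg (fun z => zc L (u g) * T.tr z) ?_
  grind

lemma pr_mem (S : Finset I) {u : G I → ZMod 2} (hu : ∀ v, ∀ a ∈ Us S, u (v + a) = u v) {x y : L}
    {r r' : ℝ} (hx : trU T S x ∈ T.d.Le r) (hy : trU T S y ∈ T.d.Le r') :
    pr T u x y ∈ T.d.Le (r + r') := by
  obtain ⟨Y, hY⟩ : ∃ Y, Y = ∑ g, zc L (u g) * T.σ g x := ⟨_, rfl⟩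
  have h1 : Y = ∑ v ∈ Vs S, zc L (u v) * T.σ v (trU T S x) := by
    rw [hY]
    exact sum_inv T S (fun g => zc L (u g)) (fun v a ha => by rw [hu v a ha]) x
  have h2 : Y ∈ T.d.Le r := by
    rw [h1]
    exact sum_mem fun v _ => T.zc_mul_mem _ (T.σ_mem v hx)
  have h3 : ∀ a ∈ Us S, T.σ a Y = Y := by
    intro a ha
    rw [h1, map_sum]
    refine Finset.sum_congr rfl fun v _ => ?_
    rw [map_mul, T.σ_zc, ← T.σ_add, add_comm, T.σ_add, trU_Fx T S x a (mem_Us.1 ha)]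
  have h4 : pr T u x y = T.tr (Y * y) := by
    rw [hY, Finset.sum_mul, T.tr_sum, pr]
    refine Finset.sum_congr rfl fun g _ => ?_
    rw [mul_assoc, T.tr_fix_mul fun h => T.σ_zc h (u g)]
  have h5 : T.tr (Y * y) = ∑ v ∈ Vs S, T.σ v Y * T.σ v (trU T S y) := by
    rw [← sum_inv T S (fun g => T.σ g Y) (fun v a ha => by rw [T.σ_add, h3 a ha]) y, Tw.tr]
    exact Finset.sum_congr rfl fun g _ => map_mul _ _ _
  rw [h4, h5]
  exact sum_mem fun v _ => DF.Le.mul (T.σ_mem v h2) (T.σ_mem v hy) le_rfl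

lemma c0_comb (ξ : G I) : T.P.c0 (comb T.θ ξ) = comb T.θ ξ := by
  rw [comb, T.c0_sum]
  exact Finset.sum_congr rfl fun i _ => by rw [T.c0_zc_mul, T.c0_θ]

lemma c1_comb (ξ : G I) : T.P.c1 (comb T.θ ξ) = T.p (comb β ξ) := by
  rw [comb, comb, T.c1_sum, map_sum]
  exact Finset.sum_congr rfl fun i _ => by rw [T.c1_zc_mul, T.c1_θ, map_mul, map_zc]

lemma comb_mul (ξ : G I) {f : L} (hf : T.P.c1 f = f) :
    comb T.θ ξ * f = T.P.c1 (comb T.θ ξ * f) + T.p (comb β ξ) * T.P.c0 f := by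
  rw [PB.c1_mul, c0_comb, c1_comb, hf]
  grind

lemma trU_log (S : Finset I) {f : L} (hf : T.P.c1 f = f) : trU T S f ∈ T.d.Le (2 * gam β S) :=
  T.log_le (trU_Fx T S f) (by rw [← trU_c1, hf])

lemma trU_c1_comb (S : Finset I) (ξ : G I) {f : L} (hf : T.P.c1 f = f) {n : ℝ} (hn : 0 ≤ n)
    (hξ : T.p (comb β ξ) ∈ T.d.Le n) :
    trU T S (T.P.c1 (comb T.θ ξ * f)) ∈ T.d.Le (n / 2 + 2 * gam β S) := by
  have h1 : trU T S (comb T.θ ξ * f) + T.P.c1 (trU T S (comb T.θ ξ * f)) =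
      T.p (comb β ξ) * T.P.c0 (trU T S f) := by
    rw [← trU_c1, ← trU_add, ← trU_c0, ← trU_p_mul]
    refine congrArg (trU T S) ?_
    have := comb_mul T ξ hf
    grind
  have h2 : T.P.c0 (trU T S f) ∈ T.d.Le (2 * gam β S) :=
    T.c0_le (trU_Fx T S f) (trU_log T S hf) (by linarith)
  have h3 : trU T S (comb T.θ ξ * f) ∈ T.d.Le (n + 2 * gam β S) :=
    T.of_add_c1 (trU_Fx T S _) (by rw [h1]; exact DF.Le.mul hξ h2 le_rfl) (by linarith)
  rw [trU_c1]
  exact T.c1_le (trU_Fx T S _) h3 (by linarith)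

lemma pr_step (S : Finset I) {u : G I → ZMod 2} (hu : ∀ v, ∀ a ∈ Us S, u (v + a) = u v) (ξ : G I)
    {x y : L} (hx : T.P.c1 x = x) (hy : T.P.c1 y = y) {n : ℝ} (hn : 0 ≤ n)
    (hξ : T.p (comb β ξ) ∈ T.d.Le n) :
    T.P.c1 (pr T (fun g => (ξ ⬝ᵥ g) * u g) x y + T.p (comb β ξ) * T.P.c1 (pr T u x y)) ∈
      T.d.Le (n / 4 + 2 * gam β S) := by
  have h1 : pr T (fun g => (ξ ⬝ᵥ g) * u g) x y + T.p (comb β ξ) * T.P.c1 (pr T u x y) =
      pr T u (T.P.c1 (comb T.θ ξ * x)) y + pr T u x (T.P.c1 (comb T.θ ξ * y)) := by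
    have e1 : pr T u (comb T.θ ξ * x) y =
        pr T u (T.P.c1 (comb T.θ ξ * x)) y + T.p (comb β ξ) * pr T u (T.P.c0 x) y := by
      rw [← pr_p_left, ← pr_add_left, ← comb_mul T ξ hx]
    have e2 : pr T u x (comb T.θ ξ * y) =
        pr T u x (T.P.c1 (comb T.θ ξ * y)) + T.p (comb β ξ) * pr T u x (T.P.c0 y) := by
      rw [← pr_p_right, ← pr_add_right, ← comb_mul T ξ hy]
    rw [pr_dot, e1, e2, pr_c1 T u hx hy]
    grind
  rw [h1]
  have h2 := pr_mem T S hu (trU_c1_comb T S ξ hx hn hξ) (trU_log T S hy)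
  have h3 := pr_mem T S hu (trU_log T S hx) (trU_c1_comb T S ξ hy hn hξ)
  have h4 : gam β ∅ = 0 := by simp [gam]
  refine T.c1_le (S := ∅) (r := n / 2 + 4 * gam β S) (T.mem_Fx_empty.2 fun g => ?_)
    (add_mem (DF.Le.mono h2 (by linarith)) (DF.Le.mono h3 (by linarith))) (by linarith)
  rw [map_add, pr_fix, pr_fix]

lemma H_eq {W : Type} [Fintype W] (ft : W → L) (w : G I → W × W → ZMod 2) :
    T.H ft w = ∑ q, pr T (fun g => w g q) (ft q.1) (ft q.2) := by
  rw [Tw.H, Finset.sum_comm]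
  rfl

lemma H_step (S : Finset I) {W : Type} [Fintype W] {ft : W → L} (hft : ∀ q, T.P.c1 (ft q) = ft q)
    {w : G I → W × W → ZMod 2} (hw : ∀ v, ∀ a ∈ Us S, w (v + a) = w v) (ξ : G I) {n : ℝ}
    (hn : 0 ≤ n) (hξ : T.p (comb β ξ) ∈ T.d.Le n) :
    T.P.c1 (T.H ft fun g q => (ξ ⬝ᵥ g) * w g q) + T.P.c1 (T.p (comb β ξ) * T.P.c1 (T.H ft w)) ∈
      T.d.Le (n / 4 + 2 * gam β S) := by
  rw [← PB.c1_add, H_eq, H_eq, T.c1_sum, Finset.mul_sum, ← Finset.sum_add_distrib, T.c1_sum]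
  exact sum_mem fun q _ => pr_step T S (u := fun g => w g q) (fun v a ha => by rw [hw v a ha]) ξ
    (hft _) (hft _) hn hξ

end tower

lemma comb_blk {R : ℕ} {D c : Fin R → ℕ} (b : k[X]) {m : Fin R} {ξ : G (Ix D)} (hξ : ξ ∈ Blk D m) :
    comb (fun i : Ix D => b * X ^ (c i.1 + i.2)) ξ =
      b * comb (fun i : Fin (D m) => (X : k[X]) ^ (c m + i)) fun i => ξ ⟨m, i⟩ := by
  rw [comb, comb, Fintype.sum_sigma, Finset.sum_eq_single m, Finset.mul_sum]
  · exact Finset.sum_congr rfl fun i _ => by ring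
  · intro j _ hj
    refine Finset.sum_eq_zero fun i _ => ?_
    rw [(Finset.mem_filter.1 hξ).2 ⟨j, i⟩ hj, map_zero, zero_mul]
  · intro h
    exact absurd (Finset.mem_univ m) h

end StepAux

open StepAux in
theorem step {R : ℕ} {D c : Fin R → ℕ} {b bs : k[X]} (hb : b ≠ 0) (hbs : bs ∣ b) {L : Type}
    [Field L] [CharP L 2] (T : Tw (fun i : Ix D => b * X ^ (c i.1 + i.2)) L) {W : Type}
    [Fintype W] {ft : W → L} (hft : ∀ q, ft q ∈ T.Wl bs) (m : Fin R)
    (hc : (b.natDegree : ℝ) + D m + 8 * gam (fun i : Ix D => b * X ^ (c i.1 + i.2))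
      (Finset.univ.filter fun i => i.1 < m) + 4 ≤ c m)
    (w : G (Ix D) → W × W → ZMod 2) (hw : Meas m w) (h0 : T.P.c1 (T.H ft w) ≠ 0) :
    ((Blk D m).filter fun ξ => T.P.c1 (T.H ft fun g q => (ξ ⬝ᵥ g) * w g q) ∈
      T.d.Le (((c m : ℝ) - 2) / 2)).card * 2 ^ (D m / 2) ≤ 2 ^ D m := by
  obtain ⟨a, ha⟩ := T.H_poly hft w
  obtain ⟨b', hb'⟩ := hbs
  obtain ⟨g0, g, hg⟩ := exists_parts (b' ^ 2 * a)
  have e1 : T.p b * T.P.c1 (T.H ft w) = T.p g := by
    rw [← PB.c1_sq_mul, ← T.c1_p g0 g, ← hg, map_mul, map_pow, ← ha]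
    refine congrArg T.P.c1 ?_
    have : T.p b = T.p bs * T.p b' := by rw [← map_mul, ← hb']
    rw [this]
    ring
  have hg0 : g ≠ 0 := by
    rintro rfl
    rw [map_zero] at e1
    exact mul_ne_zero (T.p_ne hb) h0 e1
  have hγ := gam_nonneg (fun i : Ix D => b * X ^ (c i.1 + i.2))
    (Finset.univ.filter fun i => i.1 < m)
  refine le_trans (Nat.mul_le_mul_right _ ?_) (count_odd g hg0 (c m) (D m))
  refine Finset.card_le_card_of_injOn (fun ξ i => ξ ⟨m, i⟩) ?_ ?_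
  · intro ξ hξ
    rw [Finset.mem_coe, Finset.mem_filter] at hξ
    obtain ⟨hξ, hbad⟩ := hξ
    rw [Finset.mem_coe, Finset.mem_filter]
    refine ⟨Finset.mem_univ _, ?_⟩
    obtain ⟨γ, hγ'⟩ : ∃ γ, γ = comb (fun i : Fin (D m) => (X : k[X]) ^ (c m + i)) fun i => ξ ⟨m, i⟩ :=
      ⟨_, rfl⟩
    have e2 := comb_blk (c := c) b hξ
    rw [← hγ'] at e2
    have h1 : T.p γ ∈ T.d.Le (c m + D m) := by
      rw [hγ', comb, map_sum]
      refine sum_mem fun i _ => ?_
      rw [map_mul, map_zc]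
      refine T.zc_mul_mem _ (DF.Le.mono (T.p_mem _) ?_)
      rw [natDegree_X_pow]
      have : (i : ℝ) ≤ D m := by exact_mod_cast i.2.le
      push_cast
      linarith
    have h2 : T.p (comb (fun i : Ix D => b * X ^ (c i.1 + i.2)) ξ) ∈
        T.d.Le (b.natDegree + (c m + D m)) := by
      rw [e2, map_mul]
      exact DF.Le.mul (T.p_mem b) h1 le_rfl
    have h3 := H_step T (Finset.univ.filter fun i => i.1 < m) (fun q => (hft q).1) (w := w)
      (fun v a ha => hw _ _ fun i hi => by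
        rw [Pi.add_apply, mem_Us.1 ha i (by simpa using hi), add_zero]) ξ (by positivity) h2
    have h4 : T.P.c1 (T.p (γ * g)) ∈ T.d.Le (((c m : ℝ) - 2) / 2) := by
      have h5 := add_mem hbad (DF.Le.mono h3 (c := ((c m : ℝ) - 2) / 2) (by linarith))
      rw [← add_assoc, CharTwo.add_self_eq_zero, zero_add, e2, map_mul, mul_comm (T.p b),
        mul_assoc, e1, ← map_mul] at h5
      exact h5
    have h6 : T.p (derivative (γ * g)) ∈ T.d.Le ((c m : ℝ) - 2) := by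
      rw [← T.D_p, PB.D]
      exact DF.Le.sq h4 (by linarith)
    rw [← hγ']
    by_cases h7 : derivative (γ * g) = 0
    · rw [h7, degree_zero]
      exact WithBot.bot_lt_coe _
    rw [DF.mem_Le_iff (T.p_ne h7), T.deg_p h7] at h6
    rw [degree_eq_natDegree h7]
    have h8 : (derivative (γ * g)).natDegree + 2 ≤ c m := by exact_mod_cast (by linarith :
      ((derivative (γ * g)).natDegree : ℝ) + 2 ≤ c m)
    exact_mod_cast (by omega : (derivative (γ * g)).natDegree < c m - 1)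
  · intro ξ hξ ξ' hξ' e
    rw [Finset.mem_coe, Finset.mem_filter] at hξ hξ'
    funext ⟨j, i⟩
    by_cases hj : j = m
    · subst hj
      exact congrFun e i
    · rw [(Finset.mem_filter.1 hξ.1).2 ⟨j, i⟩ hj, (Finset.mem_filter.1 hξ'.1).2 ⟨j, i⟩ hj]

end Pool.Agent.Lib.MP_788af2_nt.AS
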