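import Pool.Agent.Lib.MP_788af2_nt.AS.Defs

/-!
Existence of the tower.
-/

set_option linter.unusedSectionVars false

namespace Pool.Agent.Lib.MP_788af2_nt.AS

open Polynomial WeierstrassCurve Pool.Agent.Lib.MP_a3f657_nt.Two

section loc

variable {F : Type} [NormedField F] [IsUltrametricDist F] [CharP F 2]

lemma twEx_hensel [CompleteSpace F] {x : F} (hx : ‖x‖ < 1) : ∃ u, ‖u‖ ≤ ‖x‖ ∧ wp u = x := by
  have hs : Summable fun j : ℕ => x ^ 2 ^ j :=
    (summable_geometric_of_lt_one (norm_nonneg x) hx).of_norm_bounded fun j => by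
      rw [norm_pow]
      exact pow_le_pow_of_le_one (norm_nonneg x) hx.le Nat.lt_two_pow_self.le
  refine ⟨∑' j : ℕ, x ^ 2 ^ j, IsUltrametricDist.norm_tsum_le_of_forall_le fun j => ?_, ?_⟩
  · rw [norm_pow]
    exact pow_le_of_le_one (norm_nonneg x) hx.le (pow_ne_zero j two_ne_zero)
  · have h1 := (hs.hasSum.map (frobenius F 2) (continuous_pow 2)).tsum_eq
    have h2 := hs.tsum_eq_zero_add
    simp only [Function.comp_def, frobenius_def, ← pow_mul, ← pow_succ] at h1
    rw [h1] at h2
    unfold wp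
    grind

variable {t : F} (ht : ‖t‖ = 2) (hv : ∀ z : F, z ≠ 0 → ∃ n : ℤ, ‖z‖ = 2 ^ n)

include ht hv

lemma twEx_par (g h : F) : ‖g ^ 2 + t * h ^ 2‖ = max (‖g‖ ^ 2) (2 * ‖h‖ ^ 2) := by
  by_cases hh : h = 0
  · simp [hh]
  by_cases hg : g = 0
  · simp [hg, ht]
  rw [IsUltrametricDist.norm_add_eq_max_of_norm_ne_norm, norm_mul, norm_pow, norm_pow, ht]
  obtain ⟨n, hn⟩ := hv g hg
  obtain ⟨m, hm⟩ := hv h hh
  rw [norm_mul, norm_pow, norm_pow, ht, hn, hm, sq, sq, ← zpow_add₀ two_ne_zero,
    ← zpow_add₀ two_ne_zero, ← zpow_one_add₀ two_ne_zero]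
  intro e
  have := zpow_right_injective₀ two_pos (by norm_num) e
  omega

lemma twEx_nas (z : F) {h : F} (hh : 1 ≤ ‖h‖) : wp z ≠ t * h ^ 2 := fun e => by
  have h1 : z = z ^ 2 + t * h ^ 2 := by unfold wp at e; grind
  have h2 := twEx_par ht hv z h
  rw [← h1] at h2
  have h3 := (le_max_left _ _).trans h2.ge
  have h4 := (le_max_right _ _).trans h2.ge
  have h5 : 2 ≤ ‖z‖ := by nlinarith
  nlinarith

lemma twEx_pb [CompleteSpace F] {s : Set F} (hd : Dense s)
    (hs : ∀ x ∈ s, ∃ g h : F, x = g ^ 2 + t * h ^ 2) : ∃ P : PB F, P.b = t := by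
  let Φ : F × F →+ F :=
    { toFun := fun p => p.1 ^ 2 + t * p.2 ^ 2
      map_zero' := by simp
      map_add' := fun p q => by simp only [Prod.fst_add, Prod.snd_add]; grind }
  have h1 : IsUniformInducing Φ := by
    refine Metric.isUniformInducing_iff.2 ⟨uniformContinuous_addMonoidHom_of_continuous
      (show Continuous fun p : F × F => p.1 ^ 2 + t * p.2 ^ 2 by fun_prop),
      fun δ hδ => ⟨δ ^ 2, by positivity, fun {a b} h => ?_⟩⟩
    rw [dist_eq_norm, ← map_sub] at h
    rw [dist_eq_norm, Prod.norm_def]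
    have h2 := max_lt_iff.1 ((twEx_par ht hv (a - b).1 (a - b).2).symm.trans_lt h)
    refine max_lt (lt_of_pow_lt_pow_left₀ 2 hδ.le h2.1) (lt_of_pow_lt_pow_left₀ 2 hδ.le ?_)
    nlinarith [h2.2, sq_nonneg ‖(a - b).2‖]
  refine ⟨⟨t, fun r hr => ?_, fun x => ?_⟩, rfl⟩
  · have h2 := twEx_par ht hv r 1
    rw [hr, one_pow, mul_one, two_K, norm_zero, norm_one] at h2
    have := h2 ▸ le_max_right (‖r‖ ^ 2) (2 * 1 ^ 2)
    norm_num at this
  · have h2 : closure s ⊆ Set.range Φ := h1.isComplete_range.isClosed.closure_subset_iff.2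
      fun y hy => by
        obtain ⟨g, h, e⟩ := hs y hy
        exact ⟨(g, h), e.symm⟩
    obtain ⟨p, hp⟩ := h2 (hd x)
    exact ⟨p.1, p.2, hp.symm⟩

end loc

lemma twEx_compl (k : Type) [Field k] : ∃ (F : Type) (_ : NontriviallyNormedField F)
    (_ : IsUltrametricDist F) (_ : CompleteSpace F) (e : RatFunc k →+* F),
    DenseRange e ∧ ∀ x, x ≠ 0 → ‖e x‖ = 2 ^ (-ord (val none) x) := by
  classical
  let f : RatFunc k → ℝ := fun x => if x = 0 then 0 else 2 ^ (-ord (val none) x)
  have f0 : ∀ x, 0 ≤ f x := fun x => by simp only [f]; split_ifs <;> positivity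
  have f1 : ∀ x y, f (x + y) ≤ max (f x) (f y) := fun x y => by
    by_cases hx : x = 0
    · simp [hx]
    by_cases hy : y = 0
    · simp [hy]
    by_cases h : x + y = 0
    · simp only [f, h, if_true]
      exact le_max_of_le_left (f0 x)
    have h1 := (mem_Fil_iff h).1 (add_mem (Fil.mono (mem_Fil_ord (w := val none) x)
      (min_le_left _ (ord (val none) y))) (Fil.mono (mem_Fil_ord y) (min_le_right _ _)))
    simp only [f, hx, hy, h, if_false]
    rcases min_le_iff.1 h1 with h2 | h2
    · exact le_max_of_le_left (zpow_le_zpow_right₀ one_le_two (by omega))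
    · exact le_max_of_le_right (zpow_le_zpow_right₀ one_le_two (by omega))
  let v : AbsoluteValue (RatFunc k) ℝ :=
    { toFun := f
      map_mul' := fun x y => by
        by_cases hx : x = 0
        · simp [f, hx]
        by_cases hy : y = 0
        · simp [f, hy]
        simp only [f, hx, hy, mul_ne_zero hx hy, if_false, ord_mul hx hy, neg_add,
          zpow_add₀ (two_ne_zero (α := ℝ))]
      nonneg' := f0
      eq_zero' := fun x => by
        by_cases hx : x = 0
        · simp [f, hx]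
        · simp [f, hx, zpow_ne_zero]
      add_le' := fun x y => (f1 x y).trans (max_le (by linarith [f0 y]) (by linarith [f0 x])) }
  let e : RatFunc k →+* v.Completion :=
    UniformSpace.Completion.coeRingHom.comp (WithAbs.equiv v).symm.toRingHom
  have he : ∀ x, x ≠ 0 → ‖e x‖ = 2 ^ (-ord (val none) x) := fun x hx =>
    (UniformSpace.Completion.norm_coe _).trans (if_neg hx)
  refine ⟨v.Completion, ⟨e RatFunc.X, ?_⟩,
    IsUltrametricDist.isUltrametricDist_of_forall_norm_add_le_max_norm fun x y => ?_,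
    inferInstance, e, UniformSpace.Completion.denseRange_coe.comp
      (WithAbs.equiv v).symm.surjective.denseRange (UniformSpace.Completion.continuous_coe _), he⟩
  · rw [he _ RatFunc.X_ne_zero, ord_X]
    norm_num
  · refine UniformSpace.Completion.induction_on₂ x y (isClosed_le (by fun_prop) (by fun_prop))
      fun a b => ?_
    rw [← UniformSpace.Completion.coe_add]
    simp only [UniformSpace.Completion.norm_coe]
    exact f1 a.ofAbs b.ofAbs

lemma twEx_norm (F L : Type) [NontriviallyNormedField F] [IsUltrametricDist F] [CompleteSpace F]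
    [Field L] [Algebra F L] [FiniteDimensional F L] [CharP L 2] :
    ∃ d : DF L, (∀ a, d.deg (algebraMap F L a) = Real.logb 2 ‖a‖) ∧
      (∀ (σ : L ≃ₐ[F] L) x, d.deg (σ x) = d.deg x) ∧
      ∀ (r : ℝ) (x : L), r < 0 → x ∈ d.Le r → ∃ u ∈ d.Le r, wp u = x := by
  let := spectralNorm.normedField F L
  have : IsUltrametricDist L :=
    IsUltrametricDist.isUltrametricDist_of_isNonarchimedean_norm isNonarchimedean_spectralNorm
  have : CompleteSpace L := spectralNorm.completeSpace F L
  refine ⟨⟨fun x => Real.logb 2 ‖x‖, fun hx hy => ?_, fun {x y} hx hy h => ?_⟩,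
    fun a => congrArg (Real.logb 2) (spectralNorm_extends a),
    fun σ x => congrArg (Real.logb 2) (spectralNorm_eq_of_equiv σ x).symm, fun r x hr hx => ?_⟩
  · rw [norm_mul, Real.logb_mul (norm_ne_zero_iff.2 hx) (norm_ne_zero_iff.2 hy)]
  · rcases le_max_iff.1 (IsUltrametricDist.norm_add_le_max x y) with h1 | h1
    · exact le_max_of_le_left (Real.logb_le_logb_of_le one_lt_two (norm_pos_iff.2 h) h1)
    · exact le_max_of_le_right (Real.logb_le_logb_of_le one_lt_two (norm_pos_iff.2 h) h1)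
  · by_cases h0 : x = 0
    · exact ⟨0, zero_mem _, by simp [h0]⟩
    have h1 : Real.logb 2 ‖x‖ ≤ r := hx.resolve_left h0
    obtain ⟨u, hu, e⟩ := twEx_hensel
      ((Real.logb_neg_iff one_lt_two (norm_pos_iff.2 h0)).1 (h1.trans_lt hr))
    refine ⟨u, ?_, e⟩
    by_cases h2 : u = 0
    · exact Or.inl h2
    · exact Or.inr ((Real.logb_le_logb_of_le one_lt_two (norm_pos_iff.2 h2) hu).trans h1)

lemma twEx_map_zc {A B : Type} [Ring A] [Ring B] [CharP A 2] [CharP B 2] (f : A →+* B)
    (a : ZMod 2) : f (zc A a) = zc B a := by rcases z2_cases a with rfl | rfl <;> simp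

lemma twEx_map_comb {A B I : Type} [Fintype I] [Ring A] [Ring B] [CharP A 2] [CharP B 2]
    (f : A →+* B) (y : I → A) (ξ : G I) : f (comb y ξ) = comb (fun i => f (y i)) ξ := by
  simp only [comb, map_sum, map_mul, twEx_map_zc]

lemma twEx_gal {F I : Type} [Field F] [CharP F 2] [Fintype I] [DecidableEq I] (y : I → F)
    (hy : ∀ ξ : G I, ξ ≠ 0 → ∀ z, wp z ≠ comb y ξ) :
    ∃ (L : Type) (_ : Field L) (_ : Algebra F L) (_ : CharP L 2) (_ : FiniteDimensional F L)
      (_ : IsGalois F L) (θ : I → L) (σ : G I → L ≃ₐ[F] L),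
      (∀ i, wp (θ i) = algebraMap F L (y i)) ∧ Function.Surjective σ ∧ σ 0 = 1 ∧
      (∀ g h, σ (g + h) = σ g * σ h) ∧ ∀ g i, σ g (θ i) = θ i + zc L (g i) := by
  classical
  let q : F → F[X] := fun a => X ^ 2 + X + C a
  have hq : ∀ a, (q a).degree = 2 := fun a => by simp only [q]; compute_degree!
  let p : F[X] := ∏ a ∈ Finset.univ.image y, q a
  have hp : p.Separable := by
    refine separable_prod' (fun a _ b _ hab => ⟨C (a - b)⁻¹, -C (a - b)⁻¹, ?_⟩)
      fun a _ => ?_
    · have h1 : (C (a - b)⁻¹ * (C a - C b) : F[X]) = 1 := by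
        rw [← C_sub, ← C_mul, inv_mul_cancel₀ (sub_ne_zero.2 hab), C_1]
      simp only [q]
      linear_combination h1
    · rw [separable_def, show derivative (q a) = 1 by simp [q, CharTwo.add_self_eq_zero]]
      exact isCoprime_one_right
  obtain ⟨L, _, _, _⟩ : ∃ (L : Type) (_ : Field L) (_ : Algebra F L), p.IsSplittingField F L :=
    ⟨p.SplittingField, _, _, inferInstance⟩
  have := IsSplittingField.finiteDimensional L p
  have : CharP L 2 := charP_of_injective_algebraMap (algebraMap F L).injective 2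
  have : IsGalois F L := IsGalois.of_separable_splitting_field hp
  have hr : ∀ a (x : L), aeval x (q a) = 0 ↔ wp x = algebraMap F L a := fun a x => by
    simp only [q, map_add, map_pow, aeval_X, aeval_C, wp]
    exact ⟨fun h => by grind, fun h => by grind⟩
  have hθ : ∀ i, ∃ x : L, wp x = algebraMap F L (y i) := fun i => by
    obtain ⟨x, hx⟩ := ((IsSplittingField.splits L p).of_dvd (Polynomial.map_ne_zero hp.ne_zero)
      (Polynomial.map_dvd _ (Finset.dvd_prod_of_mem q
        (Finset.mem_image_of_mem y (Finset.mem_univ i))))).exists_eval_eq_zero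
      (by rw [degree_map, hq]; simp)
    exact ⟨x, (hr _ x).1 (by rwa [eval_map_algebraMap] at hx)⟩
  choose θ hθ using hθ
  have h01 : ∀ i (x : L), wp x = algebraMap F L (y i) → x = θ i ∨ x = θ i + 1 := fun i x hx => by
    have : wp (x + θ i) = 0 := by rw [wp_add, hx, hθ, two_K]
    exact (wp_eq_zero.1 this).imp (fun h => by grind) fun h => by grind
  let φ : (L ≃ₐ[F] L) → G I := fun σ i => if σ (θ i) = θ i then 0 else 1
  have hφ : ∀ σ i, σ (θ i) = θ i + zc L (φ σ i) := fun σ i => by
    by_cases h : σ (θ i) = θ i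
    · simp [φ, h]
    · simpa [φ, h] using (h01 i (σ (θ i))
        (by rw [← σ.commutes, ← hθ]; simp [wp])).resolve_left h
  have hz : ∀ (σ : L ≃ₐ[F] L) a, σ (zc L a) = zc L a := fun σ => twEx_map_zc (σ : L →+* L)
  have inj : Function.Injective φ := fun σ τ h => by
    refine AlgEquiv.coe_toAlgHom_injective (AlgHom.ext_of_adjoin_eq_top
      (IsSplittingField.adjoin_rootSet L p) fun x hx => ?_)
    have h1 := (mem_rootSet'.1 hx).2
    rw [map_prod, Finset.prod_eq_zero_iff] at h1
    obtain ⟨a, ha, h1⟩ := h1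
    obtain ⟨i, -, rfl⟩ := Finset.mem_image.1 ha
    rcases h01 i x ((hr _ x).1 h1) with rfl | rfl <;> simp [hφ, h]
  have φ1 : φ 1 = 0 := funext fun i => by simp [φ]
  have φm : ∀ σ τ, φ (σ * τ) = φ σ + φ τ := fun σ τ => funext fun i => (zc L).injective (by
    have h1 := hφ (σ * τ) i
    rw [AlgEquiv.mul_apply, hφ τ, map_add, hφ σ, hz, add_assoc] at h1
    rw [Pi.add_apply, map_add, add_left_cancel h1])
  have h2 : ∀ g : G I, g + g = 0 := fun g => funext fun i => z2_add_self (g i)
  have surj : Function.Surjective φ := fun v => by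
    by_contra hv
    let U : AddSubgroup (G I) :=
      { carrier := Set.range φ
        zero_mem' := ⟨1, φ1⟩
        add_mem' := by rintro _ _ ⟨σ, rfl⟩ ⟨τ, rfl⟩; exact ⟨_, φm σ τ⟩
        neg_mem' := fun {g} hg => by rwa [neg_eq_of_add_eq_zero_left (h2 g)] }
    obtain ⟨χ, hχ, hU⟩ := exists_sep_hom h2 U hv
    let ξ : G I := fun i => χ (Pi.single i 1)
    have h3 : ∀ g : G I, χ g = ∑ i, ξ i * g i := fun g => by
      conv_lhs => rw [← Finset.univ_sum_single g, map_sum]
      exact Finset.sum_congr rfl fun i _ => by rcases z2_cases (g i) with h | h <;> simp [h, ξ]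
    obtain ⟨z, hz'⟩ := (IsGalois.mem_range_algebraMap_iff_fixed (F := F) (comb θ ξ)).2 fun σ => by
      have h4 := congrArg (zc L) ((h3 _).symm.trans (hU _ ⟨σ, rfl⟩))
      simp only [map_sum, map_mul, map_zero] at h4
      simp only [comb, map_sum, map_mul, hz, hφ, mul_add, Finset.sum_add_distrib, h4, add_zero]
    refine hy ξ (fun h => hχ (by simp [h3, h])) z ((algebraMap F L).injective ?_)
    rw [twEx_map_comb, show algebraMap F L (wp z) = wpH (comb θ ξ) by simp [wp, hz'], comb, comb,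
      map_sum]
    exact Finset.sum_congr rfl fun i _ => by rcases z2_cases (ξ i) with h | h <;> simp [h, hθ]
  refine ⟨L, inferInstance, inferInstance, inferInstance, inferInstance, inferInstance, θ,
    Function.surjInv surj, hθ, fun τ => ⟨φ τ, inj (Function.surjInv_eq surj _)⟩,
    inj (by rw [Function.surjInv_eq surj, φ1]),
    fun g h => inj (by simp only [φm, Function.surjInv_eq surj]), fun g i => ?_⟩
  rw [hφ, Function.surjInv_eq surj]

theorem exists_tw {k : Type} [Field k] [Finite k] [CharP k 2] {I : Type} [Fintype I]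
    [DecidableEq I] (β : I → k[X]) (h : ∀ ξ : G I, ξ ≠ 0 → comb β ξ ≠ 0) :
    ∃ (L : Type) (_ : Field L) (_ : CharP L 2), Nonempty (Tw β L) := by
  obtain ⟨F, _, _, _, e, hd, he⟩ := twEx_compl k
  have : CharP F 2 := charP_of_injective_ringHom e.injective 2
  have ht : ‖e RatFunc.X‖ = 2 := by rw [he _ RatFunc.X_ne_zero, ord_X]; norm_num
  have hv : ∀ z : F, z ≠ 0 → ∃ n : ℤ, ‖z‖ = 2 ^ n := fun z hz => by
    obtain ⟨y, hy⟩ := hd.exists_dist_lt z (norm_pos_iff.2 hz)
    rw [dist_eq_norm, CharTwo.sub_eq_add] at hy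
    have h1 := IsUltrametricDist.norm_eq_of_add_norm_lt_max (hy.trans_le (le_max_left _ _))
    exact ⟨_, h1.trans (he y fun h0 => hz (by simpa [h0] using h1))⟩
  obtain ⟨P, hP⟩ := twEx_pb ht hv hd (by
    rintro _ ⟨x, rfl⟩
    obtain ⟨g, g', rfl⟩ := (PX k).ex x
    exact ⟨e g, e g', by simp [PX]⟩)
  obtain ⟨L, _, _, _, _, _, θ, σ, hθ, hs, h0, hm, hσ⟩ :=
    twEx_gal (fun i => e (ι (X * β i ^ 2))) fun ξ hξ z hz => by
      refine twEx_nas ht hv z (h := e (ι (comb β ξ))) ?_ (hz.trans ?_)
      · rw [he _ (ι_ne (h ξ hξ)), ord_none (h ξ hξ)]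
        exact one_le_zpow₀ one_le_two (by omega)
      · have h1 := twEx_map_comb (e.comp (algebraMap k[X] (RatFunc k))) β ξ
        simp only [RingHom.comp_apply] at h1
        rw [ι, h1, comb, comb, CharTwo.sum_sq, Finset.mul_sum]
        exact Finset.sum_congr rfl fun i _ => by rcases z2_cases (ξ i) with h | h <;> simp [h]
  obtain ⟨Q, hQ⟩ := P.exists_sep L
  obtain ⟨d, d1, d2, d3⟩ := twEx_norm F L
  refine ⟨L, inferInstance, inferInstance, ⟨
    { e := (algebraMap F L).comp e
      P := Q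
      hP := by rw [hQ, hP]; rfl
      d := d
      d_e := fun x hx => ?_
      σ := fun g => (σ g : L →+* L)
      σ_zero := fun x => by simp [h0]
      σ_add := fun g g' x => by simp [hm]
      σ_e := fun g x => (σ g).commutes _
      σ_deg := fun g x => d2 _ x
      θ := θ
      θ_wp := hθ
      σ_θ := hσ
      dense := fun x hx r => ?_
      hensel := d3 }⟩⟩
  · rw [RingHom.comp_apply, d1, he x hx, ← Real.rpow_intCast, Real.logb_rpow two_pos (by norm_num),
      Int.cast_neg]
  · obtain ⟨a, rfl⟩ := (IsGalois.mem_range_algebraMap_iff_fixed (F := F) x).2 fun τ => by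
      obtain ⟨g, rfl⟩ := hs τ
      exact hx g
    obtain ⟨y, hy⟩ := hd.exists_dist_lt a (Real.rpow_pos_of_pos two_pos r)
    refine ⟨y, ?_⟩
    rw [RingHom.comp_apply, ← map_sub]
    by_cases h1 : a - e y = 0
    · simp [h1]
    · refine DF.mem_Le_of ?_
      rw [d1, Real.logb_le_iff_le_rpow one_lt_two (norm_pos_iff.2 h1), ← dist_eq_norm]
      exact hy.le

end Pool.Agent.Lib.MP_788af2_nt.AS
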