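import Pool.Agent.Lib.MP_788af2_nt.AS.Curve
import Pool.Agent.Lib.MP_788af2_nt.FF.Ht

/-!
The descent theorem.
-/

set_option linter.unusedSectionVars false

namespace Pool.Agent.Lib.MP_788af2_nt.AS

open Polynomial WeierstrassCurve Pool.Agent.Lib.MP_a3f657_nt.Two

lemma mw_num {k : Type} [Field k] (x : RatFunc k) : algebraMap k[X] (RatFunc k) x.num =
    algebraMap k[X] (RatFunc k) x.denom * x := by
  have h := RatFunc.num_div_denom x
  have h0 : algebraMap k[X] (RatFunc k) x.denom ≠ 0 := RatFunc.algebraMap_ne_zero x.denom_ne_zero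
  rw [div_eq_iff h0] at h
  rw [h, mul_comm]

/-- A root of a quadratic polynomial has height at most the degree of the coefficients. -/
lemma mw_root {k : Type} [Field k] {A B C : k[X]} {T : RatFunc k} {D : ℕ} (hA : A ≠ 0)
    (dA : A.natDegree ≤ D) (dB : B.natDegree ≤ D) (dC : C.natDegree ≤ D)
    (h : algebraMap k[X] (RatFunc k) A * T ^ 2 + algebraMap k[X] (RatFunc k) B * T +
      algebraMap k[X] (RatFunc k) C = 0) : FF.ht T ≤ D := by
  have inj := RatFunc.algebraMap_injective k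
  have hco := RatFunc.isCoprime_num_denom T
  have e : A * T.num ^ 2 + B * T.num * T.denom + C * T.denom ^ 2 = 0 := inj (by
    simp only [map_add, map_mul, map_pow, mw_num, map_zero]
    linear_combination (algebraMap k[X] (RatFunc k) T.denom) ^ 2 * h)
  have h1 : T.denom ∣ A := (hco.symm.pow_right (n := 2)).dvd_of_dvd_mul_right
    ⟨-(B * T.num + C * T.denom), by linear_combination e⟩
  refine max_le ?_ ((natDegree_le_of_dvd h1 hA).trans dA)
  by_cases hn : T.num = 0
  · simp [hn]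
  by_cases hC : C = 0
  · have e2 : A * T.num + B * T.denom = 0 :=
      mul_left_cancel₀ hn (by rw [hC] at e; linear_combination e)
    have hB : B ≠ 0 := by
      rintro rfl
      exact mul_ne_zero hA hn (by linear_combination e2)
    have h2 : T.num ∣ B := hco.dvd_of_dvd_mul_right ⟨-A, by linear_combination e2⟩
    exact (natDegree_le_of_dvd h2 hB).trans dB
  · have h2 : T.num ∣ C := (hco.pow_right (n := 2)).dvd_of_dvd_mul_right
      ⟨-(A * T.num + B * T.denom), by linear_combination e⟩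
    exact (natDegree_le_of_dvd h2 hC).trans dC

lemma mw_quad {F : Type} [Field F] [CharP F 2] {a s x y u v : F}
    (he : y ^ 2 + x * y = x ^ 3 + a * x ^ 2 + s ^ 2 * x)
    (he0 : v ^ 2 + u * v = u ^ 3 + a * u ^ 2 + s ^ 2 * u) (hx : x ≠ u) {T : F}
    (hT : T = ((y - v) / (x - u)) ^ 2 + (y - v) / (x - u) - a - x - u) :
    (x - u) ^ 2 * T ^ 2 + x * u * T + (x * u + s ^ 2) ^ 2 = 0 := by
  have h2 : (2 : F) = 0 := CharTwo.two_eq_zero
  have hD : x - u ≠ 0 := sub_ne_zero.2 hx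
  have h1 : T * (x - u) ^ 2 = (y - v) ^ 2 + (y - v) * (x - u) - (a + x + u) * (x - u) ^ 2 := by
    rw [hT]; field_simp; ring
  have h3 : T * (x - u) ^ 2 = (x * u + s ^ 2) * (x - u) + (y * u + v * x) := by
    linear_combination h1 + he + he0 +
      (u * s ^ 2 - y * v - y * u - x * v + x * u * a + x * u ^ 2) * h2
  refine mul_left_cancel₀ (pow_ne_zero 2 hD) ?_
  have h4 : (x - u) ^ 2 * ((x - u) ^ 2 * T ^ 2 + x * u * T + (x * u + s ^ 2) ^ 2) =
      (T * (x - u) ^ 2) ^ 2 + x * u * (T * (x - u) ^ 2) + (x * u + s ^ 2) ^ 2 * (x - u) ^ 2 := by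
    ring
  rw [h4, h3]
  linear_combination u ^ 2 * he + x ^ 2 * he0 + (u ^ 2 * s ^ 4 - y * u ^ 2 * s ^ 2 -
    2 * x * u * s ^ 4 - x * u * v * s ^ 2 + 2 * x * u ^ 3 * s ^ 2 + x * y * u * s ^ 2 +
    x * y * u * v - x * y * u ^ 3 + x ^ 2 * s ^ 4 + x ^ 2 * v * s ^ 2 + x ^ 2 * u * s ^ 2 -
    4 * x ^ 2 * u ^ 2 * s ^ 2 + x ^ 2 * u ^ 2 * a - x ^ 2 * u ^ 2 * v + x ^ 2 * u ^ 4 +
    x ^ 2 * y * u ^ 2 + 2 * x ^ 3 * u * s ^ 2 + x ^ 3 * u * v + x ^ 3 * u ^ 2 -
    2 * x ^ 3 * u ^ 3 + x ^ 4 * u ^ 2) * h2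

lemma mw_ht {k : Type} [Field k] (u r : RatFunc k) : ∃ K : ℕ, ∀ x T : RatFunc k, x ≠ u →
    (x - u) ^ 2 * T ^ 2 + x * u * T + (x * u + r) ^ 2 = 0 → FF.ht T ≤ 2 * FF.ht x + K := by
  obtain ⟨c, B1, B2, -, -, hc, h1, h2, -, -⟩ := FF.exists_common u r 0 0
  set K := max c.natDegree (max B1.natDegree B2.natDegree) with hK
  have k0 : c.natDegree ≤ K := le_max_left _ _
  have k1 : B1.natDegree ≤ K := (le_max_left _ _).trans (le_max_right _ _)
  have k1' : (-B1).natDegree ≤ K := by rwa [natDegree_neg]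
  have k2 : B2.natDegree ≤ K := (le_max_right _ _).trans (le_max_right _ _)
  refine ⟨2 * K, fun x T hx h => ?_⟩
  have hU : x.num.natDegree ≤ FF.ht x := le_max_left _ _
  have hS : x.denom.natDegree ≤ FF.ht x := le_max_right _ _
  have hc' : algebraMap k[X] (RatFunc k) c ≠ 0 := RatFunc.algebraMap_ne_zero hc
  have hd' : algebraMap k[X] (RatFunc k) x.denom ≠ 0 := RatFunc.algebraMap_ne_zero x.denom_ne_zero
  refine mw_root (A := (c * x.num + -B1 * x.denom) ^ 2) (B := (B1 * x.num) * (c * x.denom))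
    (C := (B1 * x.num + B2 * x.denom) ^ 2) (pow_ne_zero 2 fun e => ?_) ?_ ?_ ?_ ?_
  · have e1 := congrArg (algebraMap k[X] (RatFunc k)) e
    simp only [map_add, map_mul, map_neg, mw_num, h1, map_zero] at e1
    exact mul_ne_zero (mul_ne_zero hc' hd') (sub_ne_zero.2 hx) (by linear_combination e1)
  · have := FF.deg_lin c (-B1) x.num x.denom k0 k1' hU hS
    rw [natDegree_pow]
    omega
  · have a1 := natDegree_mul_le (p := B1 * x.num) (q := c * x.denom)
    have a2 := natDegree_mul_le (p := B1) (q := x.num)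
    have a3 := natDegree_mul_le (p := c) (q := x.denom)
    omega
  · have := FF.deg_lin B1 B2 x.num x.denom k1 k2 hU hS
    rw [natDegree_pow]
    omega
  · simp only [map_add, map_mul, map_neg, map_pow, mw_num, h1, h2]
    linear_combination (algebraMap k[X] (RatFunc k) c * algebraMap k[X] (RatFunc k) x.denom) ^ 2 * h

lemma mw_add {k : Type} [Field k] [CharP k 2] [DecidableEq (RatFunc k)] {a s : RatFunc k}
    (Q : (Ec a s).Point) : ∃ c : ℕ, ∀ P : (Ec a s).Point, FF.hP (P + Q) ≤ 2 * FF.hP P + c := by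
  have : CharP (RatFunc k) 2 := algebraMap k (RatFunc k) |>.charP_iff_charP 2 |>.1 inferInstance
  rcases Q with _ | ⟨u, v, hQ⟩
  · refine ⟨0, fun P => ?_⟩
    change FF.hP (P + 0) ≤ _
    rw [add_zero]
    omega
  obtain ⟨K, hK⟩ := mw_ht u (s ^ 2)
  refine ⟨K + FF.ht u + FF.hP (Affine.Point.some u v hQ + Affine.Point.some u v hQ), ?_⟩
  rintro (_ | ⟨x, y, hP⟩)
  · change FF.hP (0 + Affine.Point.some u v hQ) ≤ _
    rw [zero_add]
    change FF.ht u ≤ _
    omega
  by_cases hx : x = u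
  · subst hx
    by_cases hy : y = (Ec a s).negY x v
    · rw [Affine.Point.add_of_Y_eq rfl hy]
      exact Nat.zero_le _
    · obtain rfl : y = v := Affine.Y_eq_of_Y_ne hP.1 hQ.1 rfl hy
      omega
  · rw [Affine.Point.add_of_X_ne hx]
    have he := (Affine.equation_iff _ _).1 hP.1
    have he0 := (Affine.equation_iff _ _).1 hQ.1
    have h1 := hK x ((Ec a s).addX x u ((Ec a s).slope x u y v)) hx
      (mw_quad (a := a) (y := y) (v := v) (by simpa [Ec] using he) (by simpa [Ec] using he0) hx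
        (by rw [Affine.slope_of_X_ne hx, Affine.addX]; simp [Ec]))
    change FF.ht ((Ec a s).addX x u ((Ec a s).slope x u y v)) ≤ 2 * FF.ht x + _
    omega

theorem mw {k : Type} [Field k] [Finite k] [CharP k 2] [DecidableEq (RatFunc k)]
    {a s : RatFunc k} (hs : s ≠ 0)
    (h : (nsmulAddMonoidHom (α := (Ec a s).Point) 2).range.FiniteIndex) :
    AddGroup.FG (Ec a s).Point := by
  have : CharP (RatFunc k) 2 := algebraMap k (RatFunc k) |>.charP_iff_charP 2 |>.1 inferInstance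
  obtain ⟨K, hK⟩ := FF.hP_two (Ec a s) (Ec_Δ hs)
  choose c hc using mw_add (a := a) (s := s)
  have : Northcott fun P : (Ec a s).Point => (FF.hP P : ℝ) := ⟨fun b =>
    (FF.finite_hP (Ec a s) ⌊b⌋₊).subset fun P hP => Nat.le_floor hP⟩
  refine AddCommGroup.fg_of_descent (n := 2) (h := fun P : (Ec a s).Point => (FF.hP P : ℝ))
    (a := 2) (b := 4) (c₀ := K) (c := fun g => c (-g)) (by norm_num) (by norm_num) h
    (fun g x => ?_) (fun x => ?_)
  · have h1 := hc (-g) (g + x)
    rw [add_neg_cancel_comm] at h1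
    exact_mod_cast h1
  · have h1 := hK x
    rw [two_nsmul, sub_le_iff_le_add']
    exact_mod_cast h1

end Pool.Agent.Lib.MP_788af2_nt.AS
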