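import Pool.Agent.Lib.MP_788af2_nt.AS.TwistA
import Pool.Agent.Lib.MP_788af2_nt.AS.MW
import Pool.Agent.Lib.MP_788af2_nt.AS.Lattice

/-!
The eigen-lattices are the Mordell-Weil lattices of the twists.
-/

set_option linter.unusedSectionVars false

namespace Pool.Agent.Lib.MP_788af2_nt.AS

open Polynomial WeierstrassCurve Pool.Agent.Lib.MP_a3f657_nt.Two

/-- Comparison of a group with a subgroup of index at most two. -/
private lemma twistB_cmp {M E : Type} [AddCommGroup M] [AddCommGroup E] (ρ : M →+ E)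
    (hρ : Function.Injective ρ) (h2 : ∀ P, P + P ∈ ρ.range)
    (hor : ∀ P P', P ∉ ρ.range → P' ∉ ρ.range → P + P' ∈ ρ.range)
    (hw : (nsmulAddMonoidHom (α := M) 2).range.FiniteIndex)
    (hmw : (nsmulAddMonoidHom (α := E) 2).range.FiniteIndex → AddGroup.FG E) :
    AddGroup.FG M ∧ AddGroup.FG E ∧ Module.finrank ℤ E ≤ Module.finrank ℤ M := by
  have hi : ρ.range.index ≠ 0 := by
    by_cases hall : ∀ P, P ∈ ρ.range
    · have : ρ.range = ⊤ := eq_top_iff.2 fun P _ => hall P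
      rw [this, AddSubgroup.index_top]
      exact one_ne_zero
    · push Not at hall
      obtain ⟨P0, hP0⟩ := hall
      have : ρ.range.index = 2 := by
        rw [AddSubgroup.index_eq_two_iff]
        refine ⟨P0, fun P => ?_⟩
        by_cases hP : P ∈ ρ.range
        · refine Or.inr ⟨hP, fun h => hP0 ?_⟩
          simpa using sub_mem h hP
        · exact Or.inl ⟨hor P P0 hP hP0, hP⟩
      rw [this]
      exact two_ne_zero
  have hE : AddGroup.FG E := by
    apply hmw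
    have h1 : ((nsmulAddMonoidHom (α := M) 2).range.map ρ).FiniteIndex :=
      ⟨by rw [AddSubgroup.index_map_of_injective _ hρ]; exact mul_ne_zero hw.1 hi⟩
    refine AddSubgroup.finiteIndex_of_le (H := (nsmulAddMonoidHom (α := M) 2).range.map ρ) ?_
    rintro _ ⟨_, ⟨m, rfl⟩, rfl⟩
    exact ⟨ρ m, by simp⟩
  have hEf : Module.Finite ℤ E := Module.Finite.iff_addGroup_fg.2 hE
  have hMf : Module.Finite ℤ M := Module.Finite.of_injective ρ.toIntLinearMap hρ
  refine ⟨Module.Finite.iff_addGroup_fg.1 hMf, hE, ?_⟩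
  have h1 := Submodule.finrank_quotient_add_finrank (LinearMap.range ρ.toIntLinearMap)
  have h0 : Module.finrank ℤ (E ⧸ LinearMap.range ρ.toIntLinearMap) = 0 := by
    rw [Module.finrank_eq_zero_iff]
    intro x
    obtain ⟨P, rfl⟩ := Submodule.Quotient.mk_surjective _ x
    refine ⟨2, two_ne_zero, ?_⟩
    rw [← Submodule.Quotient.mk_smul, Submodule.Quotient.mk_eq_zero, two_smul]
    exact h2 P
  have h3 := LinearMap.finrank_range_le ρ.toIntLinearMap
  omega

private lemma twistB_cases (x : ZMod 2) : x = 0 ∨ x = 1 := by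
  revert x
  decide

namespace Tw

variable {k : Type} [Field k] [Finite k] [CharP k 2] {I : Type} [Fintype I] [DecidableEq I]
  {β : I → k[X]} {L : Type} [Field L] [CharP L 2] (T : Tw β L)

private lemma twistB_comb_mem (ξ : G I) : comb T.θ ξ ∈ T.Lg :=
  T.O_le_Lg (Subring.sum_mem _ fun i _ => mul_mem (T.zc_mem_O _) (T.θ_mem_O i))

/-- Coordinates of `sg u • Q`. -/
private lemma twistB_sg [DecidableEq L] {a s : L} (u : ZMod 2) (Q : (Ec a s).Point) :
    xc (sg u • Q) = xc Q ∧ yc (sg u • Q) = yc Q + zc L u * xc Q ∧ (Q ≠ 0 → sg u • Q ≠ 0) := by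
  rcases twistB_cases u with rfl | rfl
  · simp [sg]
  · have : sg 1 = -1 := by decide
    rw [this, neg_smul, one_smul, xc_neg, yc_neg, map_one, one_mul]
    exact ⟨rfl, rfl, neg_ne_zero.2⟩

theorem eig_cmp [DecidableEq L] [DecidableEq (RatFunc k)] {a b s : k[X]} {e : ℕ}
    (hP : Par β b s e) (ha : a.natDegree = e) {W : Type} [Fintype W]
    {νM : T.Mg hP ha →+ (W → ZMod 2)} {Bm : G I → Matrix W W (ZMod 2)}
    (h : Lat (T.sM hP ha) νM Bm) (ξ : G I) :
    (eig (T.sM hP ha) ξ).FG ∧ AddGroup.FG (Ec (ι (a + X * comb β ξ ^ 2)) (ι s)).Point ∧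
      Module.finrank ℤ (Ec (ι (a + X * comb β ξ ^ 2)) (ι s)).Point ≤
        Module.finrank ℤ (eig (T.sM hP ha) ξ) := by
  have : CharP (RatFunc k) 2 :=
    charP_of_injective_algebraMap (algebraMap k (RatFunc k)).injective 2
  have hs0 : s ≠ 0 := by
    obtain ⟨j, rfl⟩ := hP.pow
    exact pow_ne_zero _ hP.b_ne
  have hs : ι s ≠ 0 := ι_ne hs0
  have hwp := T.wp_comb ξ
  have ha' : T.e (ι (a + X * comb β ξ ^ 2)) = T.p a + wp (comb T.θ ξ) := by
    rw [hwp, ← p_eq, map_add]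
  obtain ⟨j, hj, hjc⟩ := exists_tmap T.e (Ec (ι (a + X * comb β ξ ^ 2)) (ι s)) (T.Cv a s)
    (comb T.θ ξ) 0 rfl rfl rfl rfl
    (by
      change T.p a = T.e (ι (a + X * comb β ξ ^ 2)) + wp (comb T.θ ξ)
      rw [ha', add_assoc, CharTwo.add_self_eq_zero, add_zero])
    (by
      change T.p s ^ 2 = T.e (ι s ^ 2) + 0
      rw [map_pow, add_zero, p_eq])
    (by
      change (0 : L) = T.e 0 + 0 ^ 2
      simp)
  have hj0 : ∀ P, P ≠ 0 → j P ≠ 0 := fun P h0 h1 => h0 (hj (by rw [h1, map_zero]))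
  have hsP0 : ∀ (g : G I) (Q : (T.Cv a s).Point), Q ≠ 0 → T.sP a s g Q ≠ 0 :=
    fun g Q h0 h1 => h0 (T.sP_inj a s g (by rw [h1, map_zero]))
  -- the image of `j` consists of global eigenpoints
  have hjG : ∀ P, T.InG (j P) := by
    intro P
    by_cases h0 : P = 0
    · subst h0
      rw [map_zero]
      exact ⟨zero_mem T.Lg, zero_mem T.Lg⟩
    · obtain ⟨h1, h2⟩ := hjc P h0
      refine ⟨h1 ▸ T.e_mem_Lg _, ?_⟩
      rw [h2, add_zero]
      exact add_mem (T.e_mem_Lg _) (mul_mem (T.twistB_comb_mem ξ) (T.e_mem_Lg _))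
  have hjs : ∀ P g, T.sP a s g (j P) = sg (ξ ⬝ᵥ g) • j P := by
    intro P g
    by_cases h0 : P = 0
    · subst h0
      simp
    · obtain ⟨h1, h2⟩ := hjc P h0
      obtain ⟨h3, h4, h5⟩ := twistB_sg (ξ ⬝ᵥ g) (j P)
      refine pt_ext (hsP0 g _ (hj0 P h0)) (h5 (hj0 P h0)) ?_ ?_
      · rw [h3, xc_sP, h1, T.σ_e]
      · rw [h4, yc_sP, h1, h2]
        simp only [map_add, map_mul, map_zero, T.σ_e, T.σ_comb]
        ring
  -- every global eigenpoint is in the image
  have hsurj : ∀ m : eig (T.sM hP ha) ξ, ∃ P, j P = m.1.1 := by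
    rintro ⟨⟨Q, hQ⟩, hm⟩
    change ∃ P, j P = Q
    by_cases h0 : Q = 0
    · exact ⟨0, by rw [map_zero, h0]⟩
    have hm' : ∀ g, T.sP a s g Q = sg (ξ ⬝ᵥ g) • Q := fun g => congrArg Subtype.val (hm g)
    have hx : ∀ g, T.σ g (xc Q) = xc Q := fun g => by
      rw [← xc_sP, hm', (twistB_sg _ Q).1]
    have hy : ∀ g, T.σ g (yc Q + comb T.θ ξ * xc Q) = yc Q + comb T.θ ξ * xc Q := fun g => by
      rw [map_add, map_mul, hx, ← yc_sP, hm', (twistB_sg _ Q).2.1, T.σ_comb]
      linear_combination (exp := 1) CharTwo.add_self_eq_zero (zc L (ξ ⬝ᵥ g) * xc Q)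
    obtain ⟨x, hx'⟩ := T.fix_Lg hQ.2.1 hx
    obtain ⟨y, hy'⟩ := T.fix_Lg (add_mem hQ.2.2 (mul_mem (T.twistB_comb_mem ξ) hQ.2.1)) hy
    have hy'' : yc Q = T.e y + comb T.θ ξ * T.e x := by
      rw [← hy', ← hx', add_assoc, CharTwo.add_self_eq_zero, add_zero]
    have heq := pt_eq h0
    obtain ⟨P, hP0, hPx, hPy⟩ := exists_pt' (a := ι (a + X * comb β ξ ^ 2)) hs (x := x) (y := y)
      (by
        apply T.e.injective
        rw [map_add T.e, map_add T.e, map_add T.e, map_mul T.e, map_mul T.e, map_mul T.e, ha',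
          map_pow T.e, map_pow T.e, map_pow T.e, map_pow T.e, ← p_eq, wp]
        rw [hy'', hx'] at heq
        have h2 : (2 : L) = 0 := CharTwo.two_eq_zero
        linear_combination heq - (T.e y * comb T.θ ξ * T.e x + (comb T.θ ξ ^ 2 + comb T.θ ξ) *
          T.e x ^ 2) * h2)
    obtain ⟨h1, h2⟩ := hjc P hP0
    exact ⟨P, pt_ext (hj0 P hP0) h0 (by rw [h1, hPx, hx']) (by rw [h2, hPx, hPy, add_zero, hy''])⟩
  choose r hr using hsurj
  let ρ : eig (T.sM hP ha) ξ →+ (Ec (ι (a + X * comb β ξ ^ 2)) (ι s)).Point :=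
    AddMonoidHom.mk' r fun m m' => hj (by rw [map_add, hr, hr, hr]; rfl)
  have hρ : Function.Injective ρ := fun m m' hh => by
    apply Subtype.ext
    apply Subtype.ext
    rw [← hr, ← hr]
    exact congrArg j hh
  have hmem : ∀ P, P ∈ ρ.range ↔ T.InM a s (j P) := by
    intro P
    constructor
    · rintro ⟨m, rfl⟩
      change T.InM a s (j (r m))
      rw [hr]
      exact m.1.2.1
    · intro hM
      exact ⟨⟨⟨j P, hM, hjG P⟩, fun g => Subtype.ext (hjs P g)⟩, hj (hr _)⟩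
  have := twistB_cmp ρ hρ
    (fun P => by rw [hmem, map_add]; exact T.InM_two hP ha _)
    (fun P P' h1 h2 => by
      rw [hmem] at h1 h2 ⊢
      rw [map_add]
      exact T.InM_or hP ha h1 h2)
    (h.weak ξ) (mw hs)
  exact ⟨(AddGroup.fg_iff_addSubgroup_fg _).1 this.1, this.2⟩

end Tw

end Pool.Agent.Lib.MP_788af2_nt.AS
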