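import Pool.Agent.Lib.MP_788af2_nt.AS.Target
import Pool.Agent.Lib.MP_788af2_nt.AS.Count
import Pool.Agent.Lib.MP_788af2_nt.AS.TwEx
import Pool.Agent.Lib.MP_788af2_nt.AS.Log
import Pool.Agent.Lib.MP_788af2_nt.AS.Step
import Pool.Agent.Lib.MP_788af2_nt.AS.Flip
import Pool.Agent.Lib.MP_788af2_nt.AS.Greedy
import Pool.Agent.Lib.MP_788af2_nt.AS.Alg
import Pool.Agent.Lib.MP_788af2_nt.AS.TwistB

/-!
Assembly.
-/

set_option linter.unusedSectionVars false

namespace Pool.Agent.Lib.MP_788af2_nt.AS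

open Polynomial WeierstrassCurve Pool.Agent.Lib.MP_a3f657_nt.Two

open scoped Classical

variable {k : Type} [Field k] [Finite k] [CharP k 2]

lemma zc_cases {V : Type} [Ring V] [CharP V 2] (u : ZMod 2) :
    (u = 0 ∧ zc V u = 0) ∨ (u = 1 ∧ zc V u = 1) := by
  rcases z2_cases u with rfl | rfl <;> simp

lemma comb_mul {I : Type} [Fintype I] (b : k[X]) (j : I → ℕ) (ξ : G I) :
    comb (fun i => b * X ^ j i) ξ = b * ∑ i, monomial (j i) (zc k (ξ i)) := by
  rw [comb, Finset.mul_sum]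
  refine Finset.sum_congr rfl fun i _ => ?_
  rcases z2_cases (ξ i) with h | h <;> simp [h, monomial_one_right_eq_X_pow]

lemma comb_ne {I : Type} [Fintype I] {b : k[X]} (hb : b ≠ 0) {j : I → ℕ}
    (hj : Function.Injective j) (ξ : G I) (h : ξ ≠ 0) : comb (fun i => b * X ^ j i) ξ ≠ 0 := by
  rw [comb_mul]
  refine mul_ne_zero hb fun e => h (funext fun i => ?_)
  have := congrArg (coeff · (j i)) e
  simp only [finsetSum_coeff, coeff_monomial, coeff_zero, hj.eq_iff, Finset.sum_ite_eq',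
    Finset.mem_univ, if_true] at this
  rcases zc_cases (V := k) (ξ i) with h1 | h1
  · exact h1.1
  · rw [h1.2] at this; exact absurd this one_ne_zero

lemma comb_deg {I : Type} [Fintype I] (β : I → k[X]) (ξ : G I) :
    2 * ((comb β ξ).natDegree : ℝ) + 1 ≤ 2 * gam β Finset.univ ∨ comb β ξ = 0 := by
  by_cases h : ∃ i, ξ i ≠ 0
  · left
    obtain ⟨i₀, -⟩ := h
    obtain ⟨i, -, hi⟩ := Finset.exists_max_image Finset.univ (fun i => (β i).natDegree)
      ⟨i₀, Finset.mem_univ _⟩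
    have h1 : (comb β ξ).natDegree ≤ (β i).natDegree :=
      natDegree_sum_le_of_forall_le _ _ fun i' _ => by
        rcases zc_cases (V := k[X]) (ξ i') with h | h <;> simp [h.2, hi i' (Finset.mem_univ _)]
    have h2 : ((β i).natDegree : ℝ) + 1 / 2 ≤ gam β Finset.univ :=
      Finset.single_le_sum (f := fun i => ((β i).natDegree : ℝ) + 1 / 2)
        (fun i _ => by positivity) (Finset.mem_univ i)
    have h3 : ((comb β ξ).natDegree : ℝ) ≤ (β i).natDegree := by exact_mod_cast h1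
    linarith
  · right
    push Not at h
    simp [comb, h]

lemma natDegree_shift {I : Type} [Fintype I] {β : I → k[X]} {a b s : k[X]} {e : ℕ}
    (hP : Par β b s e) (ha : a.natDegree = e) (ξ : G I) :
    (a + X * comb β ξ ^ 2).natDegree = e := by
  rcases comb_deg β ξ with h | h
  · rw [natDegree_add_eq_left_of_natDegree_lt, ha]
    have h1 : (X * comb β ξ ^ 2).natDegree ≤ 1 + 2 * (comb β ξ).natDegree :=
      natDegree_mul_le.trans (add_le_add natDegree_X_le natDegree_pow_le)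
    have h2 := hP.le2
    have h3 := gam_nonneg β Finset.univ
    have h4 : (1 + 2 * (comb β ξ).natDegree : ℝ) < e := by
      have : (0 : ℝ) ≤ b.natDegree := by positivity
      linarith
    have h5 : 1 + 2 * (comb β ξ).natDegree < e := by exact_mod_cast h4
    omega
  · simp [h, ha]

lemma dvd_comb {I : Type} [Fintype I] {β : I → k[X]} {b : k[X]} (h : ∀ i, b ∣ β i) (ξ : G I) :
    b ∣ X * comb β ξ ^ 2 :=
  Dvd.dvd.mul_left (dvd_pow (Finset.dvd_sum fun i _ => Dvd.dvd.mul_left (h i) _) two_ne_zero) _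

lemma rank_le_of_inj {A B : Type} [AddCommGroup A] [AddCommGroup B] (j : A →+ B)
    (hj : Function.Injective j) (hB : AddGroup.FG B) :
    AddGroup.FG A ∧ Module.finrank ℤ A ≤ Module.finrank ℤ B := by
  have : Module.Finite ℤ B := Module.Finite.iff_addGroup_fg.2 hB
  exact ⟨Module.Finite.iff_addGroup_fg.1 (Module.Finite.of_injective j.toIntLinearMap hj),
    LinearMap.finrank_le_finrank_of_injective (f := j.toIntLinearMap) hj⟩

section tower

variable {I : Type} [Fintype I] [DecidableEq I] {β : I → k[X]} {L : Type} [Field L] [CharP L 2]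
  (T : Tw β L) [DecidableEq (RatFunc k)] {a b : k[X]} {e i : ℕ}

/-- The rank of the curve. -/
noncomputable def rk (b a : k[X]) : ℕ := Module.finrank ℤ (Eb (ι a) (ι b)).Point

lemma one_twist (hP : Par β b (b ^ 2 ^ i) e) (ha : a.natDegree = e) {ft : Spl b a → L}
    {ν : L → Spl b a → ZMod 2} (hL : T.LogB (Spl b a) ft ν) :
    ∃ (M : Type) (_ : AddCommGroup M) (s : G I → M →+ M) (νM : M →+ (Spl b a → ZMod 2)),
      Lat s νM (T.Bm a (b ^ 2 ^ i) ft) ∧ ∀ ξ, (eig s ξ).FG ∧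
        AddGroup.FG (Eb (ι (a + X * comb β ξ ^ 2)) (ι b)).Point ∧
        rk b (a + X * comb β ξ ^ 2) ≤ Module.finrank ℤ (eig s ξ) := by
  obtain ⟨νM, h⟩ := T.exists_lat hP ha (adm_spl hP.b_ne a) hL
  refine ⟨_, inferInstance, _, νM, h, fun ξ => ?_⟩
  obtain ⟨h1, h2, h3⟩ := T.eig_cmp hP ha h ξ
  obtain ⟨j, hj⟩ := frob_inj (ι (a + X * comb β ξ ^ 2)) (ι b) i
  rw [show ι (b ^ 2 ^ i) = ι b ^ 2 ^ i from map_pow _ _ _] at h2 h3
  obtain ⟨h4, h5⟩ := rank_le_of_inj j hj h2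
  exact ⟨h1, h4, h5.trans h3⟩

include T in
lemma fg_rank (hP : Par β b (b ^ 2 ^ i) e) (ha : a.natDegree = e) :
    AddGroup.FG (Eb (ι a) (ι b)).Point ∧ rk b a ≤ b.natDegree := by
  obtain ⟨ft, ν, hL⟩ := T.exists_logB hP.dvd (Spl b a) fun q hq =>
    let h := (mem_Spl hP.b_ne).1 hq; ⟨h.1, h.2.1, h.2.2.1⟩
  obtain ⟨M, _, s, νM, h1, h2⟩ := one_twist T hP ha hL
  obtain ⟨-, h3, h4⟩ := h2 0
  have h5 : a + X * comb β 0 ^ 2 = a := by simp [comb]
  rw [h5] at h3 h4
  refine ⟨h3, h4.trans ((h1.rank_le (fun ξ => (h2 ξ).1) 0).trans ?_)⟩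
  rw [Fintype.card_coe]
  exact card_Spl_le hP.b_ne a

end tower

theorem main (n m : ℕ) (hm : 1 ≤ m) (ε : ℝ) (hε : 0 < ε) : ∃ M : ℕ,
    ∀ (k : Type) [Field k] [Finite k] [CharP k 2] [DecidableEq (RatFunc k)] (b : k[X]),
    0 < b.natDegree → b.natDegree ≤ n → ∀ e, M ≤ e → Odd e → ∀ A : Finset k[X],
    (∀ a, a ∈ A ↔ a.natDegree = e) → (∀ a ∈ A, AddGroup.FG (Eb (ι a) (ι b)).Point) ∧
      ∑ a ∈ A, (rk b a : ℝ) ^ m ≤ (1 / 2 + ε) * A.card := by
  set η : ℝ := ε / (2 * ((n : ℝ) ^ m + 1)) with hηd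
  have hη : 0 < η := by positivity
  obtain ⟨R, hR⟩ := alg n η hη
  obtain ⟨D, hD⟩ := greedy n R η hη
  obtain ⟨Q, c₀, hc₀, hQ⟩ := exists_exp D n
  obtain ⟨M, hM⟩ := params n Q c₀
  refine ⟨M, fun k _ _ _ _ b hb0 hbn e he ho A hA => ?_⟩
  obtain ⟨i, c, h1, h2, h3, h4⟩ := hM e he b.natDegree hb0 hbn
  obtain ⟨cc, h5, h6, h7⟩ := hQ c h1
  obtain ⟨h8, h9⟩ := h7 _ hbn
  have hb : b ≠ 0 := by rintro rfl; simp at hb0
  set β : Ix D → k[X] := fun i => b * X ^ (cc i.1 + i.2) with hβ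
  have hβd : ∀ i, (β i).natDegree = b.natDegree + (cc i.1 + i.2) := fun i => by
    rw [hβ, natDegree_mul hb (pow_ne_zero _ X_ne_zero), natDegree_X_pow]
  have hγ : gam β Finset.univ ≤ (Q * c : ℕ) := by simpa only [gam, hβd] using h8
  have hP : Par β b (b ^ 2 ^ i) e := by
    have e1 : ((2 ^ i * b.natDegree + n + 8 * (Q * c) + 4 : ℕ) : ℝ) ≤ e := by exact_mod_cast h2
    have e2 : ((2 * n + 16 * (Q * c) + 4 : ℕ) : ℝ) ≤ e := by exact_mod_cast h3
    have e3 : (b.natDegree : ℝ) ≤ n := by exact_mod_cast hbn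
    refine ⟨hb, ⟨2 ^ i - 1, by rw [Nat.sub_add_cancel Nat.one_le_two_pow]⟩,
      fun i => dvd_mul_right _ _, ho, ?_, ?_⟩
    · rw [natDegree_pow]
      push_cast at e1 hγ ⊢
      linarith
    · push_cast at e2 hγ ⊢
      linarith
  obtain ⟨L, _, _, ⟨T⟩⟩ := exists_tw β (comb_ne hb h6)
  refine ⟨fun a ha => (fg_rank T hP ((hA a).1 ha)).1, ?_⟩
  have hLog : ∀ a : k[X], ∃ ft ν, T.LogB (Spl b a) ft ν := fun a =>
    T.exists_logB hP.dvd (Spl b a) fun q hq =>
      let h := (mem_Spl hP.b_ne).1 hq; ⟨h.1, h.2.1, h.2.2.1⟩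
  have hbad : ∀ S ∈ A.image (Spl b), (((A.filter fun a => Spl b a = S).filter fun a =>
      ¬ ((Finset.univ.filter fun ξ : G (Ix D) => (Spl b a).card % 2 <
        rk b (a + X * comb β ξ ^ 2)).card : ℝ) ≤ η * Fintype.card (G (Ix D))).card : ℝ) ≤
        η * (A.filter fun a => Spl b a = S).card := by
    intro S hS
    obtain ⟨a₀, -, rfl⟩ := Finset.mem_image.1 hS
    obtain ⟨ft, ν, hL⟩ := hLog a₀
    have hcard : Fintype.card (Spl b a₀) ≤ n := by
      rw [Fintype.card_coe]; exact (card_Spl_le hb a₀).trans hbn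
    have hH : ∀ w : G (Ix D) → Spl b a₀ × Spl b a₀ → ZMod 2, T.P.c1 (T.H ft w) =
        ∑ g, ∑ q, zc L (w g q) * T.P.c1 (T.tr (T.σ g (ft q.1) * ft q.2)) := fun w => by
      simp only [Tw.H, T.c1_sum, T.c1_zc_mul]
    refine le_trans ?_ (hD (Spl b a₀) hcard L k[X] (A.filter fun a => Spl b a = Spl b a₀)
      (fun g q => T.P.c1 (T.tr (T.σ g (ft q.1) * ft q.2))) (fun a => T.Bm a (b ^ 2 ^ i) ft) ?_)
    · refine Nat.cast_le.2 (Finset.card_le_card fun a ha => ?_)
      simp only [Finset.mem_filter] at ha ⊢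
      refine ⟨ha.1, fun hgood => ha.2 ?_⟩
      obtain ⟨⟨ha1, ha2⟩, -⟩ := ha
      have ha3 := (hA a).1 ha1
      have hsum : ∀ q q' : Spl b a₀, ∑ g, T.P.c1 (T.tr (T.σ g (ft q) * ft q')) =
          T.P.c1 (T.p (derivative q.1) / T.p q.1 * (T.p (derivative q'.1) / T.p q'.1)) := by
        intro q q'
        rw [← T.c1_sum, ← T.tr_sum, ← Finset.sum_mul, ← Tw.tr, T.tr_fix_mul (T.σ_tr · _),
          hL.tr_ft, hL.tr_ft]
      obtain ⟨μ, hμ⟩ := target (W := Spl b a₀) (V := L) (fun q q' =>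
        T.P.c1 (T.p (derivative q.1) / T.p q.1 * (T.p (derivative q'.1) / T.p q'.1)))
        (fun q => by rw [← sq, PB.c1_sq]) (fun q q' => by rw [mul_comm])
        (T.om_ne _ fun q hq => let h := (mem_Spl hb).1 hq; ⟨h.1, h.2.1⟩)
        (∑ g, T.Bm a (b ^ 2 ^ i) ft g)
      obtain ⟨ξ, hξ⟩ := hgood μ
      simp only [hsum] at hξ
      have hA' : Adm b (∏ q ∈ Spl b a₀, q) a := ha2 ▸ adm_spl hb a
      clear hgood
      revert ft ν
      rw [← ha2]
      intro ft ν hL hH hsum hμ hξ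
      obtain ⟨M, _, s, νM, g1, g2⟩ := one_twist T hP ha3 hL
      refine le_trans (Nat.cast_le.2 (Finset.card_le_card fun ξ₀ h₀ => ?_))
        (hR (Ix D) (Spl b a) (ha2 ▸ hcard) M s νM _ g1 (fun ξ => (g2 ξ).1)
          (T.Bm_alt hP ha3 (adm_spl hb a) hL.mem) _
          ⟨fun q => by rw [Matrix.of_apply, ← sq, PB.c1_sq, map_zero],
            fun q q' => by rw [Matrix.of_apply, Matrix.of_apply, mul_comm]⟩ hμ ξ hξ)
      simp only [Finset.mem_filter, Finset.mem_univ, true_and, Fintype.card_coe] at h₀ ⊢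
      exact h₀.trans_le (g2 ξ₀).2.2
    · intro m' w hw hw0
      rw [← hH] at hw0
      refine le_trans (Nat.mul_le_mul_right _ (Finset.card_le_card fun ξ hξ => ?_))
        (step hb (adm_spl hb a₀).dvd T hL.mem m' (by
          change _ + 8 * gam β _ + 4 ≤ _
          simpa only [gam, hβd] using h9 m') w hw hw0)
      simp only [Finset.mem_filter] at hξ ⊢
      refine ⟨hξ.1, by_contra fun hc => hξ.2 ?_⟩
      exact T.flip hP (Spl b a₀) hL.mem (hc₀.trans (h1.trans (h5 m')))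
        (by rw [natDegree_pow]; have := h5 m'; omega) _ hc _ fun a => by
          rw [Finset.mem_filter, hA]
  have key := final_count A (fun (ξ : G (Ix D)) a => a + X * comb β ξ ^ 2)
    (fun ξ a ha => (hA _).2 (natDegree_shift hP ((hA a).1 ha) ξ))
    (fun ξ a _ => by rw [add_assoc, CharTwo.add_self_eq_zero, add_zero]) (rk b)
    (fun a => (Spl b a).card) n m hm η hη.le
    (fun ξ a _ => by rw [Spl_add a (dvd_comb hP.dvd ξ)])
    (fun a ha => (fg_rank T hP ((hA a).1 ha)).2.trans hbn) _ (fun a _ h => h) (by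
      rw [Finset.card_eq_sum_card_fiberwise (f := Spl b) (t := A.image (Spl b))
        (fun a ha => Finset.mem_image_of_mem _ (Finset.mem_filter.1 ha).1),
        Finset.card_eq_sum_card_image (Spl b) A]
      push_cast
      rw [Finset.mul_sum]
      refine Finset.sum_le_sum fun S hS => le_trans (le_of_eq ?_) (hbad S hS)
      rw [Finset.filter_comm])
    (half_odd hb0 (by omega) A hA)
  refine key.trans (mul_le_mul_of_nonneg_right ?_ (by positivity))
  have e1 : (0 : ℝ) ≤ (n : ℝ) ^ m := by positivity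
  have e2 : η * (2 * ((n : ℝ) ^ m + 1)) = ε := by rw [hηd]; field_simp
  nlinarith

end Pool.Agent.Lib.MP_788af2_nt.AS
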