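import Pool.Agent.Lib.MP_788af2_nt.AS.Defs

/-!
The curve y ^ 2 + x y = x ^ 3 + a x ^ 2 + s ^ 2 x over a field of characteristic two.
-/

set_option linter.unusedSectionVars false

namespace Pool.Agent.Lib.MP_788af2_nt.AS

open Polynomial WeierstrassCurve Pool.Agent.Lib.MP_a3f657_nt.Two

variable {F : Type} [Field F] [CharP F 2] {a s : F}

@[simp] lemma xc_zero {W : Affine F} : xc (0 : W.Point) = 0 := rfl

@[simp] lemma yc_zero {W : Affine F} : yc (0 : W.Point) = 0 := rfl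

@[simp] lemma dl_zero {W : Affine F} : dl (0 : W.Point) = 0 := rfl

lemma dl_eq {P : (Ec a s).Point} (h : P ≠ 0) : dl P = xc P + a := by
  rcases P with _ | ⟨x, y, h'⟩
  · exact absurd rfl h
  · rfl

lemma pt_ext {W : Affine F} {P Q : W.Point} (hP : P ≠ 0) (hQ : Q ≠ 0) (hx : xc P = xc Q)
    (hy : yc P = yc Q) : P = Q := by
  rcases P with _ | ⟨x, y, h⟩
  · exact absurd rfl hP
  rcases Q with _ | ⟨x', y', h'⟩
  · exact absurd rfl hQ
  obtain rfl : x = x' := hx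
  obtain rfl : y = y' := hy
  rfl

lemma pt_eq {P : (Ec a s).Point} (h : P ≠ 0) :
    yc P ^ 2 + xc P * yc P = xc P ^ 3 + a * xc P ^ 2 + s ^ 2 * xc P := by
  rcases P with _ | ⟨x, y, h'⟩
  · exact absurd rfl h
  · simpa [Ec, xc, yc] using (Affine.equation_iff _ _).1 h'.1

private lemma cv_Δ (hs : s ≠ 0) : (Ec a s).Δ ≠ 0 := by
  have e : (Ec a s).Δ = s ^ 4 := by
    simp only [Ec, WeierstrassCurve.Δ, WeierstrassCurve.b₂, WeierstrassCurve.b₄,
      WeierstrassCurve.b₆, WeierstrassCurve.b₈]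
    grind
  rw [e]
  exact pow_ne_zero _ hs

lemma exists_pt' (hs : s ≠ 0) {x y : F} (h : y ^ 2 + x * y = x ^ 3 + a * x ^ 2 + s ^ 2 * x) :
    ∃ P : (Ec a s).Point, P ≠ 0 ∧ xc P = x ∧ yc P = y := by
  have h1 : (Ec a s).Equation x y := (Affine.equation_iff _ _).2 (by simpa [Ec] using h)
  exact ⟨.some x y ((Affine.equation_iff_nonsingular_of_Δ_ne_zero (cv_Δ hs)).1 h1),
    Affine.Point.some_ne_zero _, rfl, rfl⟩

lemma exists_pt (hs : s ≠ 0) {x z : F} (hx : x ≠ 0) (h : wp z = x + a + s ^ 2 / x) :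
    ∃ P : (Ec a s).Point, P ≠ 0 ∧ xc P = x ∧ yc P = x * z := by
  refine exists_pt' hs ?_
  have e : s ^ 2 / x * x = s ^ 2 := div_mul_cancel₀ _ hx
  unfold wp at h
  linear_combination x ^ 2 * h + x * e

lemma wp_pt (P : (Ec a s).Point) (hx : xc P ≠ 0) :
    wp (yc P / xc P) = xc P + a + s ^ 2 / xc P := by
  have h := pt_eq (P := P) (by rintro rfl; exact hx rfl)
  unfold wp
  field_simp
  linear_combination h

lemma xc_neg {W : Affine F} (P : W.Point) : xc (-P) = xc P := by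
  rcases P with _ | ⟨x, y, h⟩ <;> rfl

lemma yc_neg (P : (Ec a s).Point) : yc (-P) = yc P + xc P := by
  rcases P with _ | ⟨x, y, h⟩
  · exact (add_zero _).symm
  · change -y - 1 * x - 0 = y + x
    grind

lemma eq_or_neg {W : Affine F} {P Q : W.Point} (hP : P ≠ 0) (hQ : Q ≠ 0) (h : xc P = xc Q) :
    P = Q ∨ P = -Q := by
  rcases P with _ | ⟨x, y, h1⟩
  · exact absurd rfl hP
  rcases Q with _ | ⟨x', y', h2⟩
  · exact absurd rfl hQ
  exact Affine.Point.X_eq_iff.1 h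

lemma Ec_Δ (hs : s ≠ 0) : (Ec a s).Δ ≠ 0 := cv_Δ hs

private lemma cv_mul (B : PB F) {x y : F} (hx : x ≠ 0) (hy : y ≠ 0) :
    B.D (x * y) / (x * y) = B.D x / x + B.D y / y := by
  rw [B.D_mul]
  field_simp
  ring

private lemma cv_two (B : PB F) (hs : s ≠ 0) {x y : F} (h : x * y = s ^ 2) :
    B.D x / x = B.D y / y := by
  have h0 := h ▸ pow_ne_zero 2 hs
  have h1 := cv_mul B (left_ne_zero_of_mul h0) (right_ne_zero_of_mul h0)
  rw [h, B.D_sq, zero_div] at h1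
  exact CharTwo.add_eq_zero.1 h1.symm

private lemma cv_three (B : PB F) (hs : s ≠ 0) {x y z m : F} (h1 : x * y * z = m ^ 2)
    (h2 : x * y + x * z + y * z = s ^ 2 + m) : B.D z / z = B.D x / x + B.D y / y := by
  by_cases hm : m = 0
  · rw [hm, zero_pow two_ne_zero, mul_eq_zero, mul_eq_zero] at h1
    rcases h1 with (rfl | rfl) | rfl
    · rw [div_zero, zero_add, cv_two B hs (x := y) (y := z) (by simpa [hm] using h2)]
    · rw [div_zero, add_zero, cv_two B hs (x := x) (y := z) (by simpa [hm] using h2)]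
    · rw [div_zero, cv_two B hs (x := x) (y := y) (by simpa [hm] using h2),
        CharTwo.add_self_eq_zero]
  · have h0 := h1 ▸ pow_ne_zero 2 hm
    have h3 := left_ne_zero_of_mul h0
    have h4 := cv_mul B h3 (right_ne_zero_of_mul h0)
    rw [h1, B.D_sq, zero_div, cv_mul B (left_ne_zero_of_mul h3) (right_ne_zero_of_mul h3)] at h4
    exact (CharTwo.add_eq_zero.1 h4.symm).symm

variable [DecidableEq F]

private lemma cv_add (P Q : (Ec a s).Point) : P = 0 ∨ Q = 0 ∨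
    P ≠ 0 ∧ Q ≠ 0 ∧ (P + Q = 0 ∧ xc P = xc Q ∨ P + Q ≠ 0 ∧ ∃ l,
      l = (Ec a s).slope (xc P) (xc Q) (yc P) (yc Q) ∧
      xc (P + Q) = l ^ 2 + l + a + xc P + xc Q ∧
      yc (P + Q) = l * (xc (P + Q) + xc P) + yc P + xc (P + Q) ∧
      xc P * xc Q * xc (P + Q) = (l * xc P + yc P) ^ 2 ∧
      xc P * xc Q + xc P * xc (P + Q) + xc Q * xc (P + Q) = s ^ 2 + (l * xc P + yc P)) := by
  rcases P with _ | ⟨x, y, h⟩
  · exact Or.inl rfl
  rcases Q with _ | ⟨x', y', h'⟩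
  · exact Or.inr (Or.inl rfl)
  refine Or.inr (Or.inr ⟨Affine.Point.some_ne_zero _, Affine.Point.some_ne_zero _, ?_⟩)
  by_cases hxy : x = x' ∧ y = (Ec a s).negY x' y'
  · exact Or.inl ⟨Affine.Point.add_of_Y_eq hxy.1 hxy.2, hxy.1⟩
  have e := Affine.addPolynomial_slope h.1 h'.1 hxy
  rw [Affine.addPolynomial_eq, neg_inj, Cubic.prod_X_sub_C_eq, Cubic.toPoly_injective,
    Cubic.mk.injEq] at e
  obtain ⟨-, -, e1, e2⟩ := e
  rw [Affine.Point.add_some hxy]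
  refine Or.inr ⟨Affine.Point.some_ne_zero _, _, rfl, ?_⟩
  simp only [xc, yc, Affine.addY, Affine.negAddY, Affine.negY]
  generalize (Ec a s).slope x x' y y' = l at *
  have e0 : (Ec a s).addX x x' l = l ^ 2 + 1 * l - a - x - x' := rfl
  generalize (Ec a s).addX x x' l = z at *
  simp only [Ec] at e1 e2 ⊢
  refine ⟨by grind, by grind, by grind, by grind⟩

lemma dl_add (P Q : (Ec a s).Point) : ∃ l, dl (P + Q) = dl P + dl Q + wp l := by
  rcases cv_add P Q with rfl | rfl | ⟨h1, h2, ⟨h3, h4⟩ | ⟨h3, l, -, h4, -⟩⟩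
  · exact ⟨0, by simp [wp]⟩
  · exact ⟨0, by simp [wp]⟩
  · exact ⟨0, by rw [h3, dl_eq h1, dl_eq h2, h4, CharTwo.add_self_eq_zero]; simp [wp]⟩
  · refine ⟨l, ?_⟩
    rw [dl_eq h1, dl_eq h2, dl_eq h3, h4, wp]
    ring

lemma ff_add (B : PB F) (hs : s ≠ 0) (P Q : (Ec a s).Point) :
    B.D (xc (P + Q)) / xc (P + Q) = B.D (xc P) / xc P + B.D (xc Q) / xc Q := by
  rcases cv_add P Q with rfl | rfl | ⟨h1, h2, ⟨h3, h4⟩ | ⟨h3, l, -, -, -, h4, h5⟩⟩
  · simp
  · simp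
  · rw [h3, h4, CharTwo.add_self_eq_zero, xc_zero, div_zero]
  · exact cv_three B hs h4 h5

lemma xc_two {P : (Ec a s).Point} (hx : xc P ≠ 0) :
    P + P ≠ 0 ∧ xc (P + P) = (xc P + s ^ 2 / xc P) ^ 2 := by
  have hw := wp_pt P hx
  rcases P with _ | ⟨x, y, h⟩
  · exact absurd rfl hx
  change x ≠ 0 at hx
  change wp (y / x) = x + a + s ^ 2 / x at hw
  have e1 : y - (Ec a s).negY x y = x := by
    change y - (-y - 1 * x - 0) = x
    grind
  have hy : y ≠ (Ec a s).negY x y := fun e => hx (by rw [← e1, ← e, sub_self])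
  rw [Affine.Point.add_self_of_Y_ne hy]
  refine ⟨Affine.Point.some_ne_zero _, ?_⟩
  have e2 : (Ec a s).slope x x y y = x + s ^ 2 / x + y / x := by
    rw [Affine.slope_of_Y_ne rfl hy, e1, div_eq_iff hx, add_mul, add_mul, div_mul_cancel₀ _ hx,
      div_mul_cancel₀ _ hx]
    simp only [Ec]
    grind
  change (Ec a s).addX x x ((Ec a s).slope x x y y) = (x + s ^ 2 / x) ^ 2
  rw [e2]
  simp only [Affine.addX, Ec]
  unfold wp at hw
  generalize s ^ 2 / x = u at *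
  generalize y / x = v at *
  grind

lemma half (hs : s ≠ 0) {P : (Ec a s).Point} {w l : F} (h0 : w ≠ 0) (hw : xc P = w ^ 2)
    (hl : s ^ 2 / xc P = wp l) : ∃ Q : (Ec a s).Point, Q + Q = P ∧ xc Q = w * (l + 1) ∧
      (yc Q = xc Q * (yc P / xc P + w + l) ∨ yc Q = xc Q * (yc P / xc P + w + l + 1)) := by
  have hx : xc P ≠ 0 := hw ▸ pow_ne_zero 2 h0
  have hP : P ≠ 0 := by rintro rfl; exact hx rfl
  have h1 : s ^ 2 = w ^ 2 * (l ^ 2 + l) := by
    rw [div_eq_iff hx, hw, wp] at hl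
    rw [hl, mul_comm]
  have h2 : w * (l + 1) ≠ 0 := fun e => pow_ne_zero 2 hs (by
    rw [h1]
    linear_combination w * l * e)
  have h3 : s ^ 2 / (w * (l + 1)) = w * l := by
    rw [div_eq_iff h2, h1]
    ring
  obtain ⟨Q, -, hQ1, hQ2⟩ := exists_pt (a := a) hs h2 (z := yc P / xc P + w + l) (by
    rw [wp_add, wp_add, wp_pt P hx, hl, h3, hw]
    unfold wp
    grind)
  obtain ⟨h4, h5⟩ := xc_two (P := Q) (hQ1 ▸ h2)
  rw [hQ1, h3] at h5
  rcases eq_or_neg h4 hP (by rw [h5, hw]; grind) with e | e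
  · exact ⟨Q, e, hQ1, Or.inl (by rw [hQ2, hQ1])⟩
  · refine ⟨-Q, by rw [← neg_add, e, neg_neg], by rw [xc_neg, hQ1], Or.inr ?_⟩
    rw [yc_neg, xc_neg, hQ2, hQ1]
    ring

lemma sub_add (S : Subfield F) (ha : a ∈ S) (hs : s ∈ S) {P Q : (Ec a s).Point} (h1 : xc P ∈ S)
    (h2 : yc P ∈ S) (h3 : xc Q ∈ S) (h4 : yc Q ∈ S) : xc (P + Q) ∈ S ∧ yc (P + Q) ∈ S := by
  rcases cv_add P Q with rfl | rfl | ⟨-, -, ⟨h5, -⟩ | ⟨-, l, hl, h5, h6, -⟩⟩
  · rw [zero_add]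
    exact ⟨h3, h4⟩
  · rw [add_zero]
    exact ⟨h1, h2⟩
  · rw [h5]
    exact ⟨S.zero_mem, S.zero_mem⟩
  · have h7 : l ∈ S := by
      rw [hl, Affine.slope]
      simp only [Ec, Affine.negY]
      have t2 : (2 : F) ∈ S := ofNat_mem S 2
      have t3 : (3 : F) ∈ S := ofNat_mem S 3
      split_ifs
      · exact S.zero_mem
      · exact div_mem (sub_mem (add_mem (add_mem (mul_mem t3 (pow_mem h1 2))
          (mul_mem (mul_mem t2 ha) h1)) (pow_mem hs 2)) (mul_mem S.one_mem h2))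
          (sub_mem h2 (sub_mem (sub_mem (neg_mem h2) (mul_mem S.one_mem h1)) S.zero_mem))
      · exact div_mem (sub_mem h2 h4) (sub_mem h1 h3)
    have h8 : xc (P + Q) ∈ S :=
      h5 ▸ add_mem (add_mem (add_mem (add_mem (pow_mem h7 2) h7) ha) h1) h3
    exact ⟨h8, h6 ▸ add_mem (add_mem (mul_mem h7 (add_mem h8 h1)) h2) h8⟩

end Pool.Agent.Lib.MP_788af2_nt.AS
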