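import Pool.Agent.Lib.MP_788af2_nt.AS.Int
import Pool.Agent.Lib.MP_788af2_nt.AS.Curve

/-!
Local points at infinity.
-/

set_option linter.unusedSectionVars false

namespace Pool.Agent.Lib.MP_788af2_nt.AS

open Polynomial WeierstrassCurve Pool.Agent.Lib.MP_a3f657_nt.Two

namespace Tw

variable {k : Type} [Field k] [Finite k] [CharP k 2] {I : Type} [Fintype I] [DecidableEq I]
  {β : I → k[X]} {L : Type} [Field L] [CharP L 2] (T : Tw β L)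

variable {a b bs s y : k[X]} {e : ℕ} {f Z : L}

private lemma deriv_deg (he : Odd e) (ha : a.natDegree = e) :
    derivative a ≠ 0 ∧ ((derivative a).natDegree : ℝ) = (e : ℝ) - 1 := by
  obtain ⟨j, rfl⟩ := he
  have ha0 : a ≠ 0 := by
    rintro rfl
    simp at ha
  have h1 : (derivative a).coeff (2 * j) ≠ 0 := by
    rw [coeff_derivative, ← ha]
    have h2 : ((2 * j : ℕ) : k) = 0 := by
      rw [Nat.cast_mul, CharP.cast_eq_zero k 2, zero_mul]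
    rw [h2, zero_add, mul_one]
    exact leadingCoeff_ne_zero.2 ha0
  have h2 : (derivative a).natDegree = 2 * j := by
    refine le_antisymm ?_ (le_natDegree_of_ne_zero h1)
    have := natDegree_derivative_le a
    omega
  refine ⟨fun h => h1 (by simp [h]), ?_⟩
  rw [h2]
  push_cast
  ring

lemma c1_p_deg (hP : Par β b s e) (ha : a.natDegree = e) :
    T.P.c1 (T.p a) ≠ 0 ∧ T.d.deg (T.P.c1 (T.p a)) = ((e : ℝ) - 1) / 2 := by
  obtain ⟨h1, h2⟩ := deriv_deg hP.odd ha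
  have h3 : T.P.c1 (T.p a) ^ 2 = T.p (derivative a) := T.D_p a
  have h4 : T.P.c1 (T.p a) ≠ 0 := by
    intro h
    rw [h] at h3
    exact T.p_ne h1 (by rw [← h3]; simp)
  refine ⟨h4, ?_⟩
  have h5 := DF.deg_sq (d := T.d) h4
  rw [h3, T.deg_p h1, h2] at h5
  linarith

lemma red (hP : Par β b s e) (ha : a.natDegree = e) (z : L) :
    T.p a + wp z ∉ T.d.Le (T.E0 a) := by
  intro hv
  have hγ := gam_nonneg β Finset.univ
  have hl := hP.le2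
  have hn : (0 : ℝ) ≤ b.natDegree := Nat.cast_nonneg _
  have hE : T.E0 a = (e : ℝ) - 2 * gam β Finset.univ - 2 := by rw [E0, ha]
  rw [hE] at hv
  obtain ⟨h1, h2⟩ := T.c1_p_deg hP ha
  have h3 : wp z ∈ T.d.Le e := by
    have h4 : wp z = (T.p a + wp z) + T.p a := by grind
    rw [h4]
    exact add_mem (DF.Le.mono hv (by linarith)) (ha ▸ T.p_mem a)
  have h4 : z ∈ T.d.Le ((e : ℝ) / 2) := DF.Le.of_wp h3 (by linarith) le_rfl
  have h5 : T.P.c1 z ∈ T.d.Le ((e : ℝ) / 2 - 1) := T.c1_le (T.mem_Fx_univ z) h4 (by linarith)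
  have h6 : T.P.c1 (T.p a + wp z) ∈ T.d.Le ((e : ℝ) / 2 - 1) :=
    T.c1_le (T.mem_Fx_univ _) hv (by linarith)
  have h7 : T.P.c1 (T.p a) = T.P.c1 (T.p a + wp z) + T.P.c1 z := by
    rw [T.P.c1_add, T.P.c1_wp]; grind
  have h8 : T.P.c1 (T.p a) ∈ T.d.Le ((e : ℝ) / 2 - 1) := by
    rw [h7]; exact add_mem h6 h5
  rw [DF.mem_Le_iff h1, h2] at h8
  linarith

lemma exists_Z (h : ∃ z, bs ∣ y + z ^ 2 + z) (hf : f ∈ T.Wl bs) :
    ∃ Z, Z + T.P.c1 Z = T.p y * f := by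
  obtain ⟨z, o, ho⟩ := h
  obtain ⟨h1, h2⟩ := hf
  obtain ⟨Z₂, -, h3⟩ := T.exists_c1_inv (mul_mem (T.p_mem_O o) h2)
  refine ⟨T.p z ^ 2 * f + Z₂, ?_⟩
  have h4 := congrArg T.p ho
  simp only [map_add, map_mul, map_pow] at h4
  rw [T.P.c1_add, T.P.c1_sq_mul, h1]
  grind

lemma eta_le (hb : b ≠ 0) (hbs : bs ∣ b) (hf : f ∈ T.Wl bs) (h0 : f ≠ 0)
    (hZ : Z + T.P.c1 Z = T.p y * f) : T.P.c1 (T.P.c1 Z / f) ∈
      T.d.Le ((y.natDegree : ℝ) / 4 + (b.natDegree : ℝ) / 2 + 2 * gam β Finset.univ) := by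
  have hγ := gam_nonneg β Finset.univ
  have hbs0 : bs ≠ 0 := ne_zero_of_dvd_ne_zero hb hbs
  have h1 := T.Wl_deg hbs0 hf h0
  have h2 : (bs.natDegree : ℝ) ≤ b.natDegree := by exact_mod_cast natDegree_le_of_dvd hbs hb
  have hy : (0 : ℝ) ≤ y.natDegree := Nat.cast_nonneg _
  have hn : (0 : ℝ) ≤ b.natDegree := Nat.cast_nonneg _
  have h3 : Z + T.P.c1 Z ∈
      T.d.Le ((y.natDegree : ℝ) + 2 * b.natDegree + 2 * gam β Finset.univ + 2 * T.d.deg f) := by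
    rw [hZ]
    exact DF.Le.mul (T.p_mem y) (DF.mem_Le_deg f) (by linarith)
  have h4 := T.of_add_c1 (T.mem_Fx_univ Z) h3 (by linarith)
  have h5 := T.c1_le (T.mem_Fx_univ Z) h4 le_rfl
  have h6 : T.P.c1 Z / f ∈
      T.d.Le ((y.natDegree : ℝ) / 2 + b.natDegree + 2 * gam β Finset.univ) :=
    DF.Le.div h5 (by linarith)
  exact T.c1_le (T.mem_Fx_univ _) h6 (by linarith)

private lemma c1_sq_div (h1 : T.P.c1 f = f) (h0 : f ≠ 0) (x : L) : T.P.c1 (x ^ 2 / f) = x := by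
  have h2 : x ^ 2 / f = (x / f) ^ 2 * f := by field_simp
  rw [h2, T.P.c1_sq_mul, h1]
  field_simp

lemma loc_pt (hP : Par β b s e) (ha : a.natDegree = e) (hbs : bs ∣ b) (hf : f ∈ T.Wl bs)
    (h0 : f ≠ 0) (hZ : Z + T.P.c1 Z = T.p a * f) :
    ∃ x₁ : L, x₁ ≠ 0 ∧ T.d.deg x₁ = ((e : ℝ) - 1) / 2 ∧
      x₁ + T.p s * f / x₁ = T.P.c1 (T.p a) + T.P.c1 (T.P.c1 Z / f) ∧
      ∃ Q : (T.Cv a s).Point, T.InM a s Q ∧ T.ff Q = f ∧ xc Q = x₁ ^ 2 / f := by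
  have hγ := gam_nonneg β Finset.univ
  have hl1 := hP.le1
  have hl2 := hP.le2
  have hn : (0 : ℝ) ≤ b.natDegree := Nat.cast_nonneg _
  have hs0 : s ≠ 0 := by
    obtain ⟨j, rfl⟩ := hP.pow
    exact pow_ne_zero _ hP.b_ne
  have hf1 : T.P.c1 f = f := hf.1
  have hfle := T.Wl_le hf
  have hfd : T.d.deg f ≤ 2 * gam β Finset.univ := (DF.mem_Le_iff h0).1 hfle
  obtain ⟨z₀, hz₀⟩ : ∃ z₀, z₀ = T.P.c1 Z / f := ⟨_, rfl⟩
  obtain ⟨z₁, hz₁⟩ : ∃ z₁, z₁ = T.P.c0 Z + T.P.c1 Z * T.P.c0 f / f := ⟨_, rfl⟩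
  have e1 : T.p a + wp z₀ = z₁ ^ 2 / f := by
    have h1 := T.P.spec Z
    have h2 := T.P.spec f
    rw [hf1] at h2
    have h3 : z₀ * f = T.P.c1 Z := by rw [hz₀]; field_simp
    have h4 : z₁ = T.P.c0 Z + z₀ * T.P.c0 f := by rw [hz₁, hz₀]; ring
    rw [eq_div_iff h0, wp, h4]
    generalize T.P.c0 Z = u at *
    generalize T.P.c0 f = v at *
    generalize T.P.c1 Z = w at *
    generalize T.P.b = t at *
    generalize T.p a = A at *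
    subst h3
    grind
  have e2 : z₁ = T.P.c1 (T.p a) + T.P.c1 z₀ := by
    rw [← T.P.c1_wp z₀, ← T.P.c1_add, e1, T.c1_sq_div hf1 h0]
  obtain ⟨h1, h2⟩ := T.c1_p_deg hP ha
  have h3 := T.eta_le hP.b_ne hbs hf h0 hZ
  rw [← hz₀, ha] at h3
  obtain ⟨h4, h5⟩ := DF.deg_add_lt h1 h3 (by rw [h2]; linarith)
  rw [← e2] at h4 h5
  rw [h2] at h5
  have h6 : T.p s * f / z₁ ^ 2 ∈ T.d.Le (-1) :=
    DF.Le.div (DF.Le.mul (T.p_mem s) hfle le_rfl) (by rw [DF.deg_sq h4, h5]; linarith)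
  obtain ⟨u, hu, hu'⟩ := T.hensel (-1) _ (by norm_num) h6
  obtain ⟨h7, h8⟩ := DF.deg_add_lt (d := T.d) one_ne_zero hu (by rw [DF.deg_one]; norm_num)
  rw [DF.deg_one] at h8
  have h9 : z₁ * (1 + u) ≠ 0 := mul_ne_zero h4 h7
  have h10 : T.d.deg (z₁ * (1 + u)) = ((e : ℝ) - 1) / 2 := by
    rw [T.d.deg_mul h4 h7, h5, h8, add_zero]
  have e3 : (z₁ * (1 + u)) ^ 2 + z₁ * (z₁ * (1 + u)) = T.p s * f := by
    rw [wp, eq_div_iff (pow_ne_zero 2 h4)] at hu'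
    rw [← hu']
    grind
  generalize z₁ * (1 + u) = x₁ at h9 h10 e3
  have e4 : x₁ + T.p s * f / x₁ = z₁ := by
    rw [← e3]
    field_simp
    grind
  have hx : x₁ ^ 2 / f ≠ 0 := div_ne_zero (pow_ne_zero 2 h9) h0
  have e5 : wp z₀ = x₁ ^ 2 / f + T.p a + T.p s ^ 2 / (x₁ ^ 2 / f) := by
    have h11 : T.p s ^ 2 / (x₁ ^ 2 / f) = (T.p s * f / x₁) ^ 2 / f := by field_simp
    have h12 : z₁ ^ 2 / f = x₁ ^ 2 / f + (T.p s * f / x₁) ^ 2 / f := by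
      rw [← e4, CharTwo.add_sq, add_div]
    rw [h11]
    rw [h12] at e1
    grind
  obtain ⟨Q, -, hQ, -⟩ := exists_pt (T.p_ne hs0) hx e5
  refine ⟨x₁, h9, h10, by rw [e4, e2, hz₀], Q, Or.inr ?_, ?_, hQ⟩
  · rw [hQ, DF.mem_Le_iff hx, DF.deg_div (pow_ne_zero 2 h9) h0, DF.deg_sq h9, h10, E0, ha]
    linarith
  · rw [ff, hQ, PB.D, T.c1_sq_div hf1 h0]
    field_simp

lemma pt_spec (hP : Par β b s e) (ha : a.natDegree = e) (hA : Adm b bs a) (hf : f ∈ T.Wl bs) :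
    T.InM a s (T.pt a s f) ∧ T.ff (T.pt a s f) = f := by
  refine @Classical.epsilon_spec_aux _ ⟨.zero⟩ (fun Q => T.InM a s Q ∧ T.ff Q = f) ?_
  by_cases h0 : f = 0
  · exact ⟨.zero, Or.inl rfl, by simp [ff, xc, h0]⟩
  obtain ⟨Z, hZ⟩ := T.exists_Z hA.spl hf
  obtain ⟨x₁, -, -, -, Q, h1, h2, -⟩ := T.loc_pt hP ha hA.dvd hf h0 hZ
  exact ⟨Q, h1, h2⟩

lemma sq_of_ff_zero (hP : Par β b s e) (ha : a.natDegree = e) {Q : (T.Cv a s).Point}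
    (hQ : T.InM a s Q) (h0 : Q ≠ 0) (h : T.ff Q = 0) :
    ∃ w, xc Q = w ^ 2 ∧ w ∉ T.d.Le (T.E0 a) ∧
      T.p s ^ 2 / xc Q ∈ T.d.Le (-2 - 2 * gam β Finset.univ) := by
  have hγ := gam_nonneg β Finset.univ
  have hl1 := hP.le1
  have hn : (0 : ℝ) ≤ b.natDegree := Nat.cast_nonneg _
  have hE : T.E0 a = (e : ℝ) - 2 * gam β Finset.univ - 2 := by rw [E0, ha]
  have h1 : xc Q ∉ T.d.Le (T.E0 a) := hQ.resolve_left h0
  obtain ⟨hx, hx'⟩ := DF.not_mem_Le.1 h1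
  have h2 : T.P.D (xc Q) = 0 := (div_eq_zero_iff.1 h).resolve_right hx
  have h3 := T.P.D_eq_zero h2
  have h4 := wp_pt Q hx
  have hs : T.p s ^ 2 ∈ T.d.Le (2 * s.natDegree) := DF.Le.sq (T.p_mem s) le_rfl
  have h5 : T.p s ^ 2 / xc Q ∈ T.d.Le (T.E0 a) := DF.Le.div hs (by linarith)
  generalize T.P.c0 (xc Q) = w at h3
  have h6 : w ∉ T.d.Le (T.E0 a) := by
    intro hw
    refine T.red hP ha (yc Q / xc Q + w) ?_
    have h7 : T.p a + wp (yc Q / xc Q + w) = w + T.p s ^ 2 / xc Q := by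
      rw [wp_add, h4, wp, ← h3]
      grind
    rw [h7]
    exact add_mem hw h5
  refine ⟨w, h3, h6, DF.Le.div hs ?_⟩
  obtain ⟨hw, hw'⟩ := DF.not_mem_Le.1 h6
  rw [h3, DF.deg_sq hw]
  linarith

end Tw

end Pool.Agent.Lib.MP_788af2_nt.AS
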