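import Pool.Agent.Lib.MP_788af2_nt.AS.Tmap
import Pool.Agent.Lib.MP_788af2_nt.AS.Loc0

/-!
The subgroup of points near infinity and the pairing.
-/

set_option linter.unusedSectionVars false

namespace Pool.Agent.Lib.MP_788af2_nt.AS

open Polynomial WeierstrassCurve Pool.Agent.Lib.MP_a3f657_nt.Two

namespace Tw

variable {k : Type} [Field k] [Finite k] [CharP k 2] {I : Type} [Fintype I] [DecidableEq I]
  {β : I → k[X]} {L : Type} [Field L] [CharP L 2] (T : Tw β L)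

variable [DecidableEq L] {a b bs s : k[X]} {e : ℕ} {f f' f₁ f₂ : L}

private lemma loc1_s (hP : Par β b s e) : T.p s ≠ 0 := by
  obtain ⟨j, rfl⟩ := hP.pow
  exact T.p_ne (pow_ne_zero _ hP.b_ne)

private lemma loc1_E (hP : Par β b s e) (ha : a.natDegree = e) :
    (s.natDegree : ℝ) + 2 ≤ T.E0 a := by
  have h1 := hP.le1
  have h2 := gam_nonneg β Finset.univ
  have h3 : (0 : ℝ) ≤ b.natDegree := Nat.cast_nonneg _
  rw [E0, ha]
  linarith

private lemma loc1_h (hP : Par β b s e) (ha : a.natDegree = e) {x : L}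
    (hx : x ∉ T.d.Le (T.E0 a)) : T.p s ^ 2 / x ∈ T.d.Le (T.E0 a) :=
  DF.Le.div' (DF.Le.sq (T.p_mem s) le_rfl) hx (by linarith [T.loc1_E hP ha])

lemma inM_iff (hP : Par β b s e) (ha : a.natDegree = e) (Q : (T.Cv a s).Point) :
    T.InM a s Q ↔ ∃ z, dl Q + wp z ∈ T.d.Le (T.E0 a) := by
  by_cases h0 : Q = 0
  · subst h0
    exact ⟨fun _ => ⟨0, by simp⟩, fun _ => Or.inl rfl⟩
  rw [dl_eq h0]
  refine ⟨fun h => ?_, fun ⟨z, hz⟩ => Or.inr fun h => T.red hP ha z ?_⟩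
  · have hx := h.resolve_left h0
    refine ⟨yc Q / xc Q, ?_⟩
    have : xc Q + T.p a + wp (yc Q / xc Q) = T.p s ^ 2 / xc Q := by
      rw [wp_pt Q (DF.not_mem_Le.1 hx).1]
      grind
    rw [this]
    exact T.loc1_h hP ha hx
  · have : T.p a + wp z = xc Q + T.p a + wp z + xc Q := by grind
    rw [this]
    exact add_mem hz h

lemma InM_add (hP : Par β b s e) (ha : a.natDegree = e) {Q Q' : (T.Cv a s).Point}
    (h : T.InM a s Q) (h' : T.InM a s Q') : T.InM a s (Q + Q') := by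
  rw [T.inM_iff hP ha] at h h' ⊢
  obtain ⟨z, h⟩ := h
  obtain ⟨z', h'⟩ := h'
  obtain ⟨l, hl⟩ := dl_add Q Q'
  refine ⟨z + z' + l, ?_⟩
  have : dl (Q + Q') + wp (z + z' + l) = dl Q + wp z + (dl Q' + wp z') := by
    rw [hl, wp_add, wp_add]
    grind
  rw [this]
  exact add_mem h h'

lemma InM_neg {Q : (T.Cv a s).Point} (h : T.InM a s Q) : T.InM a s (-Q) := by
  rcases h with rfl | h
  · exact Or.inl rfl
  · exact Or.inr (by rwa [xc_neg])

lemma InM_two (hP : Par β b s e) (ha : a.natDegree = e) (Q : (T.Cv a s).Point) :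
    T.InM a s (Q + Q) := by
  obtain ⟨l, hl⟩ := dl_add Q Q
  refine (T.inM_iff hP ha _).2 ⟨l, ?_⟩
  have : dl (Q + Q) + wp l = 0 := by
    rw [hl]
    grind
  rw [this]
  exact zero_mem _

lemma InM_or (hP : Par β b s e) (ha : a.natDegree = e) {Q Q' : (T.Cv a s).Point}
    (h : ¬ T.InM a s Q) (h' : ¬ T.InM a s Q') : T.InM a s (Q + Q') := by
  obtain ⟨h1, h2⟩ := not_or.1 h
  obtain ⟨h3, h4⟩ := not_or.1 h'
  obtain ⟨l, hl⟩ := dl_add Q Q'
  refine (T.inM_iff hP ha _).2 ⟨l, ?_⟩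
  have : dl (Q + Q') + wp l = xc Q + xc Q' := by
    rw [hl, dl_eq h1, dl_eq h3]
    grind
  rw [this]
  exact add_mem (not_not.1 h2) (not_not.1 h4)

lemma InM_tf (hP : Par β b s e) (ha : a.natDegree = e) {Q : (T.Cv a s).Point} (h : T.InM a s Q)
    {n : ℕ} (hn : n ≠ 0) (h0 : n • Q = 0) : Q = 0 := by
  by_contra h1
  have hx := DF.not_mem_Le.1 (h.resolve_left h1)
  have E := T.loc1_E hP ha
  have m0 : (0 : ℝ) ≤ s.natDegree := Nat.cast_nonneg _
  have d0 : 0 < T.d.deg (xc Q) := by linarith [hx.2]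
  have key : ∀ j : ℕ, xc (2 ^ j • Q) ≠ 0 ∧ T.d.deg (xc (2 ^ j • Q)) = 2 ^ j * T.d.deg (xc Q) := by
    intro j
    induction j with
    | zero => simpa using hx.1
    | succ j ih =>
      have a1 : T.E0 a < T.d.deg (xc (2 ^ j • Q)) := by
        have : (1 : ℝ) ≤ 2 ^ j := one_le_pow₀ one_le_two
        rw [ih.2]
        nlinarith [hx.2]
      have a2 := DF.not_mem_Le.2 ⟨ih.1, a1⟩
      have a3 := DF.deg_add_eq a2 (T.loc1_h hP ha a2)
      rw [pow_succ, mul_nsmul, two_nsmul, (xc_two ih.1).2, DF.deg_sq a3.1, a3.2, ih.2]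
      exact ⟨pow_ne_zero 2 a3.1, by ring⟩
  have fin := (isOfFinAddOrder_iff_nsmul_eq_zero.2 ⟨n, Nat.pos_of_ne_zero hn, h0⟩).finite_multiples
  refine Set.infinite_of_injective_forall_mem (f := fun j : ℕ => 2 ^ j • Q) (fun i j c => ?_)
    (fun j => (AddSubmonoid.mem_multiples_iff _ _).2 ⟨2 ^ j, rfl⟩) fin
  have c' : 2 ^ i • Q = 2 ^ j • Q := c
  have := (key i).2
  rw [c', (key j).2] at this
  exact (pow_right_injective₀ two_pos (by norm_num) (mul_right_cancel₀ d0.ne' this)).symm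

lemma exists_sP (a s : k[X]) (g : G I) : ∃ j : (T.Cv a s).Point →+ (T.Cv a s).Point,
    Function.Injective j ∧ ∀ Q, xc (j Q) = T.σ g (xc Q) ∧ yc (j Q) = T.σ g (yc Q) := by
  obtain ⟨j, h1, h2⟩ := exists_tmap (T.σ g) (T.Cv a s) (T.Cv a s) 0 0 rfl rfl rfl rfl
    (by simp [Ec, T.σ_p]) (by simp [Ec, T.σ_p]) (by simp [Ec])
  refine ⟨j, h1, fun Q => ?_⟩
  by_cases h0 : Q = 0
  · simp [h0]
  · simpa using h2 Q h0

/-- The Galois action on points. -/
noncomputable def sP (a s : k[X]) (g : G I) : (T.Cv a s).Point →+ (T.Cv a s).Point :=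
  (T.exists_sP a s g).choose

lemma sP_inj (a s : k[X]) (g : G I) : Function.Injective (T.sP a s g) :=
  (T.exists_sP a s g).choose_spec.1

lemma xc_sP (g : G I) (Q : (T.Cv a s).Point) : xc (T.sP a s g Q) = T.σ g (xc Q) :=
  ((T.exists_sP a s g).choose_spec.2 Q).1

lemma yc_sP (g : G I) (Q : (T.Cv a s).Point) : yc (T.sP a s g Q) = T.σ g (yc Q) :=
  ((T.exists_sP a s g).choose_spec.2 Q).2

lemma sP_zero (Q : (T.Cv a s).Point) : T.sP a s 0 Q = Q := by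
  by_cases h0 : Q = 0
  · rw [h0, map_zero]
  exact pt_ext ((map_ne_zero_iff _ (T.sP_inj a s 0)).2 h0) h0 (by rw [xc_sP, T.σ_zero])
    (by rw [yc_sP, T.σ_zero])

lemma sP_add (g h : G I) (Q : (T.Cv a s).Point) :
    T.sP a s (g + h) Q = T.sP a s g (T.sP a s h Q) := by
  by_cases h0 : Q = 0
  · rw [h0, map_zero, map_zero, map_zero]
  exact pt_ext ((map_ne_zero_iff _ (T.sP_inj a s _)).2 h0)
    ((map_ne_zero_iff _ (T.sP_inj a s _)).2 ((map_ne_zero_iff _ (T.sP_inj a s _)).2 h0))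
    (by rw [xc_sP, xc_sP, xc_sP, T.σ_add]) (by rw [yc_sP, yc_sP, yc_sP, T.σ_add])

lemma InM_sP (g : G I) {Q : (T.Cv a s).Point} (h : T.InM a s Q) : T.InM a s (T.sP a s g Q) := by
  rcases h with rfl | h
  · exact Or.inl (map_zero (T.sP a s g))
  · refine Or.inr fun c => h ?_
    rw [xc_sP] at c
    simpa only [T.σ_σ] using T.σ_mem g c

lemma ff_sP (g : G I) (Q : (T.Cv a s).Point) : T.ff (T.sP a s g Q) = T.σ g (T.ff Q) := by
  rw [ff, ff, xc_sP, T.σ_D, map_div₀]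

private lemma loc1_ff (hP : Par β b s e) (Q Q' : (T.Cv a s).Point) :
    T.ff (Q + Q') = T.ff Q + T.ff Q' := ff_add T.P (T.loc1_s hP) Q Q'

private lemma loc1_dl {Q : (T.Cv a s).Point} (hQ : T.InM a s Q) (hf : T.P.c1 f = f) :
    T.R (T.p s ^ 2 / xc Q * f) = T.R (dl Q * f) := by
  by_cases h0 : Q = 0
  · simp [h0]
  have : T.p s ^ 2 / xc Q = dl Q + wp (yc Q / xc Q) := by
    rw [wp_pt Q (DF.not_mem_Le.1 (hQ.resolve_left h0)).1, dl_eq h0]
    grind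
  rw [this, add_mul, T.R_add, T.R_wp_mul hf, add_zero]

private lemma loc1_add (hf : T.P.c1 f = f) (Q Q' : (T.Cv a s).Point) :
    T.R (dl (Q + Q') * f) = T.R (dl Q * f) + T.R (dl Q' * f) := by
  obtain ⟨l, hl⟩ := dl_add Q Q'
  rw [hl, add_mul, add_mul, T.R_add, T.R_add, T.R_wp_mul hf, add_zero]

private lemma loc1_zero (hP : Par β b s e) (ha : a.natDegree = e) {Q : (T.Cv a s).Point}
    (hQ : T.InM a s Q) (h : T.ff Q = 0) (hf : f ∈ T.Wl bs) : T.R (dl Q * f) = 0 := by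
  by_cases h0 : Q = 0
  · simp [h0, T.R_zero]
  obtain ⟨-, -, -, h1⟩ := T.sq_of_ff_zero hP ha hQ h0 h
  rw [← T.loc1_dl hQ hf.1]
  exact T.R_small (DF.Le.mul h1 (T.Wl_le hf) (by linarith))

private lemma loc1_sq (Q : (T.Cv a s).Point) :
    T.p s ^ 2 / xc Q * T.ff Q = (T.p s * T.P.c1 (xc Q) / xc Q) ^ 2 := by
  rw [ff, PB.D]
  ring

lemma B_eq (hP : Par β b s e) (ha : a.natDegree = e) (hA : Adm b bs a) {Q : (T.Cv a s).Point}
    (hQ : T.InM a s Q) (hf : T.ff Q ∈ T.Wl bs) (hf' : f' ∈ T.Wl bs) :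
    T.B a s (T.ff Q) f' = T.R (T.p s ^ 2 / xc Q * f') := by
  obtain ⟨h1, h2⟩ := T.pt_spec hP ha hA hf
  have h3 := T.loc1_zero hP ha (T.InM_add hP ha h1 hQ)
    (by rw [T.loc1_ff hP, h2, CharTwo.add_self_eq_zero]) hf'
  rw [T.loc1_add hf'.1] at h3
  rw [B, T.loc1_dl h1 hf'.1, T.loc1_dl hQ hf'.1]
  exact CharTwo.add_eq_zero.1 h3

lemma B_add_left (hP : Par β b s e) (ha : a.natDegree = e) (hA : Adm b bs a) (h₁ : f₁ ∈ T.Wl bs)
    (h₂ : f₂ ∈ T.Wl bs) (hf' : f' ∈ T.Wl bs) :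
    T.B a s (f₁ + f₂) f' = T.B a s f₁ f' + T.B a s f₂ f' := by
  obtain ⟨a1, a2⟩ := T.pt_spec hP ha hA h₁
  obtain ⟨a3, a4⟩ := T.pt_spec hP ha hA h₂
  have a5 : T.ff (T.pt a s f₁ + T.pt a s f₂) = f₁ + f₂ := by rw [T.loc1_ff hP, a2, a4]
  have a6 := T.B_eq hP ha hA (T.InM_add hP ha a1 a3) (by rw [a5]; exact T.Wl_add h₁ h₂) hf'
  rw [a5] at a6
  rw [a6, T.loc1_dl (T.InM_add hP ha a1 a3) hf'.1, T.loc1_add hf'.1, B, B, T.loc1_dl a1 hf'.1,
    T.loc1_dl a3 hf'.1]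

lemma B_sum_left (hP : Par β b s e) (ha : a.natDegree = e) (hA : Adm b bs a) {α : Type}
    (t : Finset α) (u : α → ZMod 2) {F : α → L} (h : ∀ i ∈ t, F i ∈ T.Wl bs) (hf' : f' ∈ T.Wl bs) :
    T.B a s (∑ i ∈ t, zc L (u i) * F i) f' = ∑ i ∈ t, u i * T.B a s (F i) f' := by
  classical
  have z : T.B a s 0 f' = 0 := by
    have := T.B_add_left hP ha hA (T.Wl_zero bs) (T.Wl_zero bs) hf'
    rwa [add_zero, CharTwo.add_self_eq_zero] at this
  induction t using Finset.induction_on with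
  | empty => simpa using z
  | insert i t hi ih =>
    have h' : ∀ j ∈ t, F j ∈ T.Wl bs := fun j hj => h j (Finset.mem_insert_of_mem hj)
    rw [Finset.sum_insert hi, Finset.sum_insert hi, T.B_add_left hP ha hA
      (T.Wl_zc_mul _ (h i (Finset.mem_insert_self i t)))
      (T.Wl_sum t fun j hj => T.Wl_zc_mul _ (h' j hj)) hf', ih h']
    congr 1
    rcases (by decide : ∀ v : ZMod 2, v = 0 ∨ v = 1) (u i) with c | c
    · rw [c, map_zero, zero_mul, zero_mul, z]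
    · rw [c, map_one, one_mul, one_mul]

lemma B_symm (hP : Par β b s e) (ha : a.natDegree = e) (hA : Adm b bs a) (hf : f ∈ T.Wl bs)
    (hf' : f' ∈ T.Wl bs) : T.B a s f f' = T.B a s f' f := by
  have z : ∀ g ∈ T.Wl bs, T.B a s g g = 0 := fun g hg => by
    have := T.loc1_sq (T.pt a s g)
    rw [(T.pt_spec hP ha hA hg).2] at this
    rw [B, this, T.R_sq]
  have r : ∀ g, T.B a s g (f + f') = T.B a s g f + T.B a s g f' := fun g => by
    rw [B, mul_add, T.R_add, B, B]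
  have := z _ (T.Wl_add hf hf')
  rw [T.B_add_left hP ha hA hf hf' (T.Wl_add hf hf'), r, r, z f hf, z f' hf', zero_add,
    add_zero] at this
  exact CharTwo.add_eq_zero.1 this

lemma B_σ (hP : Par β b s e) (ha : a.natDegree = e) (hA : Adm b bs a) (hf : f ∈ T.Wl bs)
    (hf' : f' ∈ T.Wl bs) (g : G I) : T.B a s (T.σ g f) (T.σ g f') = T.B a s f f' := by
  obtain ⟨a1, a2⟩ := T.pt_spec hP ha hA hf
  have a3 : T.ff (T.sP a s g (T.pt a s f)) = T.σ g f := by rw [ff_sP, a2]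
  have a4 := T.B_eq hP ha hA (T.InM_sP g a1) (by rw [a3]; exact T.Wl_σ g hf) (T.Wl_σ g hf')
  rw [a3] at a4
  rw [a4, B, ← T.R_σ g (_ * f'), xc_sP, map_mul, map_div₀, map_pow, T.σ_p]

lemma B_tr_self (hP : Par β b s e) (ha : a.natDegree = e) (hA : Adm b bs a) (hf : f ∈ T.Wl bs) :
    T.B a s (T.tr f) f = 0 := by
  obtain ⟨a1, a2⟩ := T.pt_spec hP ha hA hf
  have a3 : ∀ t : Finset (G I), T.InM a s (∑ g ∈ t, T.sP a s g (T.pt a s f)) ∧
      T.ff (∑ g ∈ t, T.sP a s g (T.pt a s f)) = ∑ g ∈ t, T.σ g f := fun t => by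
    induction t using Finset.induction_on with
    | empty => exact ⟨Or.inl rfl, by simp [ff]⟩
    | insert i t hi ih =>
      rw [Finset.sum_insert hi, Finset.sum_insert hi, T.loc1_ff hP, ih.2, ff_sP, a2]
      exact ⟨T.InM_add hP ha (T.InM_sP i a1) ih.1, rfl⟩
  obtain ⟨a4, a5⟩ := a3 Finset.univ
  have a6 : ∀ h, T.sP a s h (∑ g, T.sP a s g (T.pt a s f)) = ∑ g, T.sP a s g (T.pt a s f) :=
    fun h => by
      rw [map_sum]
      exact Fintype.sum_equiv (Equiv.addLeft h) _ _ fun g => (T.sP_add h g _).symm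
  generalize ∑ g, T.sP a s g (T.pt a s f) = Q at a4 a5 a6
  have a7 : T.tr f = T.ff Q := a5.symm
  rw [a7, T.B_eq hP ha hA a4 (by rw [a5]; exact T.Wl_sum _ fun g _ => T.Wl_σ g hf) hf]
  refine T.R_of_tr_sq (y := T.p s * T.P.c1 (xc Q) / xc Q) ?_
  rw [T.tr_fix_mul (fun g => by rw [map_div₀, map_pow, T.σ_p, ← xc_sP, a6]), a7, T.loc1_sq]

lemma Bm_alt (hP : Par β b s e) (ha : a.natDegree = e) (hA : Adm b bs a) {W : Type}
    {ft : W → L} (h : ∀ q, ft q ∈ T.Wl bs) : Alt (∑ g, T.Bm a s ft g) := by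
  refine ⟨fun q => ?_, fun q q' => ?_⟩
  · have := T.B_sum_left hP ha hA Finset.univ (fun _ => 1) (F := fun g => T.σ g (ft q))
      (fun g _ => T.Wl_σ g (h q)) (h q)
    simp only [map_one, one_mul] at this
    rw [Matrix.sum_apply]
    exact this.symm.trans (T.B_tr_self hP ha hA (h q))
  · rw [Matrix.sum_apply, Matrix.sum_apply]
    refine Finset.sum_congr rfl fun g _ => ?_
    change T.B a s (T.σ g (ft q)) (ft q') = T.B a s (T.σ g (ft q')) (ft q)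
    rw [← T.B_σ hP ha hA (T.Wl_σ g (h q)) (h q') g, T.σ_σ,
      T.B_symm hP ha hA (h q) (T.Wl_σ g (h q'))]

end Tw

end Pool.Agent.Lib.MP_788af2_nt.AS
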