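import Pool.Agent.Lib.MP_788af2_nt.AS.Defs

/-!
A basis adapted to two alternating forms.
-/

set_option linter.unusedSectionVars false

namespace Pool.Agent.Lib.MP_788af2_nt.AS

open Polynomial WeierstrassCurve Pool.Agent.Lib.MP_a3f657_nt.Two

open Matrix

private lemma ad_sym {W : Type} [Fintype W] {A : Matrix W W (ZMod 2)} (h : Alt A)
    (u v : W → ZMod 2) : u ⬝ᵥ A *ᵥ v = v ⬝ᵥ A *ᵥ u := by
  simp only [dotProduct, mulVec, Finset.mul_sum]
  rw [Finset.sum_comm]
  refine Finset.sum_congr rfl fun i _ => Finset.sum_congr rfl fun j _ => ?_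
  rw [h.2 j i]
  ring

private lemma ad_self {W : Type} [Fintype W] {A : Matrix W W (ZMod 2)} (h : Alt A)
    (v : W → ZMod 2) : v ⬝ᵥ A *ᵥ v = 0 := by
  simp only [dotProduct, mulVec, Finset.mul_sum]
  rw [← Finset.sum_product']
  refine Finset.sum_involution (fun p _ => p.swap) (fun p _ => ?_) (fun p _ hp e => hp ?_)
    (fun p _ => by simp) fun p _ => rfl
  · have e : v p.swap.1 * (A p.swap.1 p.swap.2 * v p.swap.2) = v p.1 * (A p.1 p.2 * v p.2) := by
      simp only [Prod.fst_swap, Prod.snd_swap]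
      rw [h.2 p.2 p.1]
      ring
    rw [e, z2_add_self]
  · have e1 : p.2 = p.1 := congrArg Prod.fst e
    rw [e1, h.1, zero_mul, mul_zero]

/-- The pairing of a matrix. -/
private def adPair {W : Type} [Fintype W] (A : Matrix W W (ZMod 2)) :
    (W → ZMod 2) →+ (W → ZMod 2) →+ ZMod 2 :=
  AddMonoidHom.mk' (fun u => AddMonoidHom.mk' (fun v => u ⬝ᵥ A *ᵥ v) fun v w => by
    rw [mulVec_add, dotProduct_add]) fun u u' => by
    ext v
    simp [add_dotProduct]

private lemma adPair_apply {W : Type} [Fintype W] (A : Matrix W W (ZMod 2)) (u v : W → ZMod 2) :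
    adPair A u v = u ⬝ᵥ A *ᵥ v := rfl

/-- The radical of the form `A` on the subspace `K`. -/
private def adRad {W : Type} [Fintype W] (A : Matrix W W (ZMod 2))
    (K : Submodule (ZMod 2) (W → ZMod 2)) : Submodule (ZMod 2) (W → ZMod 2) where
  carrier := {u | u ∈ K ∧ ∀ x ∈ K, u ⬝ᵥ A *ᵥ x = 0}
  zero_mem' := ⟨zero_mem _, fun _ _ => zero_dotProduct _⟩
  add_mem' ha hb := ⟨add_mem ha.1 hb.1, fun x hx => by
    rw [add_dotProduct, ha.2 x hx, hb.2 x hx, add_zero]⟩
  smul_mem' c u hu := ⟨K.smul_mem c hu.1, fun x hx => by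
    rw [smul_dotProduct, hu.2 x hx, smul_zero]⟩

private lemma ad_parity {W : Type} [Fintype W] {A : Matrix W W (ZMod 2)} (h : Alt A)
    (K : Submodule (ZMod 2) (W → ZMod 2)) :
    ∃ i, Module.finrank (ZMod 2) K = Module.finrank (ZMod 2) (adRad A K) + 2 * i := by
  obtain ⟨i, hi⟩ := card_alt (adPair A) (fun v => ad_self h v) K.toAddSubgroup
  refine ⟨i, ?_⟩
  have e1 : Nat.card K.toAddSubgroup = 2 ^ Module.finrank (ZMod 2) K := by
    have := Module.natCard_eq_pow_finrank (K := ZMod 2) (V := K)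
    rwa [Nat.card_zmod] at this
  have e2 : Nat.card (rad (adPair A) K.toAddSubgroup) =
      2 ^ Module.finrank (ZMod 2) (adRad A K) := by
    have := Module.natCard_eq_pow_finrank (K := ZMod 2) (V := adRad A K)
    rwa [Nat.card_zmod] at this
  rw [e1, e2, show (4 : ℕ) = 2 ^ 2 from rfl, ← pow_mul, ← pow_add] at hi
  exact Nat.pow_right_injective (le_refl 2) hi

private lemma ad_entry {W J : Type} [Fintype W] (A : Matrix W W (ZMod 2))
    (P : Matrix W J (ZMod 2)) (i j : J) :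
    (Pᵀ * A * P) i j = (fun w => P w i) ⬝ᵥ A *ᵥ fun w => P w j := by
  rw [Matrix.mul_assoc]
  rfl

private lemma ad_span {W J : Type} [Fintype W] [Fintype J] {S : Submodule (ZMod 2) (W → ZMod 2)}
    (b : Module.Basis J (ZMod 2) S) {z : W → ZMod 2} (h : ∀ j, (b j : W → ZMod 2) ⬝ᵥ z = 0) :
    ∀ y ∈ S, y ⬝ᵥ z = 0 := by
  intro y hy
  have e : y = ∑ j, b.repr ⟨y, hy⟩ j • (b j : W → ZMod 2) := by
    have := congrArg Subtype.val (b.sum_repr ⟨y, hy⟩)
    simp only [Submodule.coe_sum, Submodule.coe_smul] at this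
    exact this.symm
  rw [e, sum_dotProduct]
  exact Finset.sum_eq_zero fun j _ => by rw [smul_dotProduct, h j, smul_zero]

theorem adapt {W : Type} [Fintype W] [DecidableEq W] {B0 Mt : Matrix W W (ZMod 2)} (h0 : Alt B0)
    (h1 : Alt Mt) (h : Small B0 Mt) :
    ∃ (r₁ r₂ : ℕ) (P : Matrix W (Fin r₁ ⊕ Fin r₂) (ZMod 2)),
      Fintype.card W ≤ r₁ + r₂ + Fintype.card W % 2 ∧ r₁ ≤ Fintype.card W ∧
      (∀ i j, (Pᵀ * B0 * P) (Sum.inl i) j = 0) ∧
      (Matrix.of fun i j => Sum.elim (fun _ => (Pᵀ * Mt * P) i j) (fun _ => (Pᵀ * B0 * P) i j)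
        i).det ≠ 0 := by
  obtain ⟨K, hK⟩ : ∃ K : Submodule (ZMod 2) (W → ZMod 2), ∀ x, x ∈ K ↔ B0 *ᵥ x = 0 :=
    ⟨LinearMap.ker B0.mulVecLin, fun _ => Iff.rfl⟩
  have hKr : adRad B0 ⊤ = K := by
    ext u
    rw [hK]
    refine ⟨fun hu => ?_, fun hu => ⟨trivial, fun x _ => ?_⟩⟩
    · funext i
      have := hu.2 (Pi.single i 1) trivial
      rw [ad_sym h0] at this
      simpa using this
    · rw [ad_sym h0, hu, dotProduct_zero]
  obtain ⟨C, hC⟩ := (adRad Mt K).exists_isCompl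
  obtain ⟨V2, hV2⟩ := K.exists_isCompl
  have hUK : adRad Mt K ≤ K := fun _ hu => hu.1
  have hsup : adRad Mt K ⊔ C ⊓ K = K := by
    rw [← sup_inf_assoc_of_le _ hUK, hC.sup_eq_top, top_inf_eq]
  have hinf : adRad Mt K ⊓ (C ⊓ K) = ⊥ := by
    rw [← inf_assoc, hC.inf_eq_bot, bot_inf_eq]
  have d0 : Module.finrank (ZMod 2) (W → ZMod 2) = Fintype.card W :=
    Module.finrank_fintype_fun_eq_card _
  have d1 := Submodule.finrank_add_eq_of_isCompl hV2
  have d2 := Submodule.finrank_sup_add_finrank_inf_eq (adRad Mt K) (C ⊓ K)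
  rw [hsup, hinf, finrank_bot] at d2
  obtain ⟨i1, d3⟩ := ad_parity h0 ⊤
  rw [hKr, finrank_top] at d3
  obtain ⟨i2, d4⟩ := ad_parity h1 K
  have d5 : Module.finrank (ZMod 2) (adRad Mt K) ≤ 1 := by
    by_cases hz : ∃ u : adRad Mt K, u ≠ 0
    · obtain ⟨u, hu⟩ := hz
      refine finrank_le_one u fun w => ?_
      by_cases hw : w = 0
      · exact ⟨0, by rw [hw, zero_smul]⟩
      · refine ⟨1, ?_⟩
        rw [one_smul]
        exact Subtype.ext (h u w (fun e => hu (Subtype.ext e)) (fun e => hw (Subtype.ext e))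
          ((hK _).1 u.2.1) ((hK _).1 w.2.1) (fun x hx => u.2.2 x ((hK _).2 hx))
          fun x hx => w.2.2 x ((hK _).2 hx))
    · refine finrank_le_one 0 fun w => ⟨0, ?_⟩
      by_contra hw
      exact hz ⟨w, fun e => hw (by rw [e, zero_smul])⟩
  have d6 := Submodule.finrank_le (C ⊓ K)
  let b1 := Module.finBasis (ZMod 2) (C ⊓ K : Submodule (ZMod 2) (W → ZMod 2))
  let b2 := Module.finBasis (ZMod 2) V2
  refine ⟨_, _, Matrix.of fun w => Sum.elim (fun i => (b1 i : W → ZMod 2) w)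
    fun j => (b2 j : W → ZMod 2) w, by omega, by omega, fun i j => ?_, fun hd => ?_⟩
  · rw [ad_entry, ad_sym h0]
    have : B0 *ᵥ (b1 i : W → ZMod 2) = 0 := (hK _).1 (b1 i).2.2
    exact (congrArg _ this).trans (dotProduct_zero _)
  · obtain ⟨c, hc0, hc⟩ := Matrix.exists_mulVec_eq_zero_iff.2 hd
    obtain ⟨x1, hx1⟩ : ∃ x1 : (C ⊓ K : Submodule (ZMod 2) (W → ZMod 2)),
      x1 = ∑ i, c (Sum.inl i) • b1 i := ⟨_, rfl⟩
    obtain ⟨x2, hx2⟩ : ∃ x2 : V2, x2 = ∑ j, c (Sum.inr j) • b2 j := ⟨_, rfl⟩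
    have row : ∀ (A : Matrix W W (ZMod 2)) (y : W → ZMod 2),
        ∑ j, (y ⬝ᵥ A *ᵥ fun w => Sum.elim (fun i => (b1 i : W → ZMod 2) w)
          (fun j => (b2 j : W → ZMod 2) w) j) * c j = y ⬝ᵥ A *ᵥ ((x1 : W → ZMod 2) + x2) := by
      intro A y
      rw [Fintype.sum_sum_type, hx1, hx2, mulVec_add, dotProduct_add]
      simp only [Sum.elim_inl, Sum.elim_inr, Submodule.coe_sum, Submodule.coe_smul, mulVec_sum,
        dotProduct_sum, mulVec_smul, dotProduct_smul, smul_eq_mul, mul_comm]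
    have r1 : ∀ i, (b1 i : W → ZMod 2) ⬝ᵥ Mt *ᵥ ((x1 : W → ZMod 2) + x2) = 0 := by
      intro i
      rw [← row]
      have := congrFun hc (Sum.inl i)
      simp only [mulVec, dotProduct, Matrix.of_apply, Sum.elim_inl, ad_entry] at this
      exact this
    have r2 : ∀ j, (b2 j : W → ZMod 2) ⬝ᵥ B0 *ᵥ ((x1 : W → ZMod 2) + x2) = 0 := by
      intro j
      rw [← row]
      have := congrFun hc (Sum.inr j)
      simp only [mulVec, dotProduct, Matrix.of_apply, Sum.elim_inr, ad_entry] at this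
      exact this
    have k1 : (x1 : W → ZMod 2) + x2 ∈ K := by
      refine hKr.le ⟨trivial, fun y _ => ?_⟩
      obtain ⟨y1, hy1, y2, hy2, rfl⟩ := Submodule.mem_sup.1
        (show y ∈ K ⊔ V2 by rw [hV2.sup_eq_top]; trivial)
      rw [mulVec_add, (hK _).1 hy1, zero_add, ad_sym h0]
      exact ad_span b2 r2 y2 hy2
    have k2 : x2 = 0 := by
      have : (x2 : W → ZMod 2) ∈ K ⊓ V2 :=
        ⟨(Submodule.add_mem_iff_right K x1.2.2).1 k1, x2.2⟩
      rw [hV2.inf_eq_bot] at this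
      exact Subtype.ext this
    rw [k2, Submodule.coe_zero, add_zero] at r1
    have k3 : x1 = 0 := by
      have : (x1 : W → ZMod 2) ∈ adRad Mt K ⊓ (C ⊓ K) := by
        refine ⟨⟨x1.2.2, fun y hy => ?_⟩, x1.2⟩
        obtain ⟨y1, hy1, y2, hy2, rfl⟩ := Submodule.mem_sup.1 (hsup.ge hy)
        rw [ad_sym h1, add_dotProduct, hy1.2 _ x1.2.2, zero_add]
        exact ad_span b1 r1 y2 hy2
      rw [hinf] at this
      exact Subtype.ext this
    refine hc0 (funext fun j => ?_)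
    rcases j with i | j
    · exact Fintype.linearIndependent_iff.1 b1.linearIndependent _ (hx1.symm.trans k3) i
    · exact Fintype.linearIndependent_iff.1 b2.linearIndependent _ (hx2.symm.trans k2) j

end Pool.Agent.Lib.MP_788af2_nt.AS
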