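import Pool.Agent.Lib.MP_788af2_nt.AS.Defs

/-!
Basic properties of the tower.
-/

set_option linter.unusedSectionVars false

namespace Pool.Agent.Lib.MP_788af2_nt.AS

open Polynomial WeierstrassCurve Pool.Agent.Lib.MP_a3f657_nt.Two

namespace Tw

variable {k : Type} [Field k] [Finite k] [CharP k 2] {I : Type} [Fintype I] [DecidableEq I]
  {β : I → k[X]} {L : Type} [Field L] [CharP L 2] (T : Tw β L)

variable {x y z f : L} {r c : ℝ} {S : Finset I}

lemma p_eq (a : k[X]) : T.p a = T.e (ι a) := rfl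

private lemma zmod_cases (u : ZMod 2) : u = 0 ∨ u = 1 := by revert u; decide

private lemma G_add_self (g : G I) : g + g = 0 := funext fun i => CharTwo.add_self_eq_zero (g i)

lemma p_X : T.p X = T.P.b := by
  rw [p_eq, T.hP]; simp [ι]

lemma p_ne {a : k[X]} (h : a ≠ 0) : T.p a ≠ 0 :=
  (map_ne_zero T.e).2 (ι_ne h)

lemma p_inj : Function.Injective T.p :=
  fun _ _ h => ι_inj (T.e.injective h)

lemma σ_p (g : G I) (a : k[X]) : T.σ g (T.p a) = T.p a :=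
  T.σ_e g _

lemma σ_σ (g : G I) (x : L) : T.σ g (T.σ g x) = x := by
  rw [← T.σ_add, G_add_self, T.σ_zero]

lemma σ_zc (g : G I) (u : ZMod 2) : T.σ g (zc L u) = zc L u := by
  rcases zmod_cases u with rfl | rfl <;> simp

lemma σ_b (g : G I) : T.σ g T.P.b = T.P.b := by rw [T.hP, T.σ_e]

lemma σ_c0 (g : G I) (x : L) : T.P.c0 (T.σ g x) = T.σ g (T.P.c0 x) :=
  T.P.map_c0 (T.σ_b g).symm x

lemma σ_c1 (g : G I) (x : L) : T.P.c1 (T.σ g x) = T.σ g (T.P.c1 x) :=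
  T.P.map_c1 (T.σ_b g).symm x

lemma σ_D (g : G I) (x : L) : T.P.D (T.σ g x) = T.σ g (T.P.D x) :=
  T.P.map_D (T.σ_b g).symm x

lemma e_c0 (y : RatFunc k) : T.P.c0 (T.e y) = T.e ((PX k).c0 y) :=
  (PX k).map_c0 T.hP y

lemma e_c1 (y : RatFunc k) : T.P.c1 (T.e y) = T.e ((PX k).c1 y) :=
  (PX k).map_c1 T.hP y

lemma D_p (a : k[X]) : T.P.D (T.p a) = T.p (derivative a) := by
  rw [p_eq, p_eq, (PX k).map_D T.hP, D_ι]

lemma c0_p (g h : k[X]) : T.P.c0 (T.p (g ^ 2 + X * h ^ 2)) = T.p g := by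
  rw [p_eq, p_eq, e_c0, (PX_parts g h).1]

lemma c1_p (g h : k[X]) : T.P.c1 (T.p (g ^ 2 + X * h ^ 2)) = T.p h := by
  rw [p_eq, p_eq, e_c1, (PX_parts g h).2]

lemma c0_zc_mul (u : ZMod 2) (x : L) : T.P.c0 (zc L u * x) = zc L u * T.P.c0 x := by
  rcases zmod_cases u with rfl | rfl <;> simp

lemma c1_zc_mul (u : ZMod 2) (x : L) : T.P.c1 (zc L u * x) = zc L u * T.P.c1 x := by
  rcases zmod_cases u with rfl | rfl <;> simp

lemma c0_sum {α : Type} (s : Finset α) (F : α → L) :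
    T.P.c0 (∑ i ∈ s, F i) = ∑ i ∈ s, T.P.c0 (F i) :=
  map_sum T.P.c0h F s

lemma c1_sum {α : Type} (s : Finset α) (F : α → L) :
    T.P.c1 (∑ i ∈ s, F i) = ∑ i ∈ s, T.P.c1 (F i) :=
  map_sum T.P.c1h F s

lemma c1_dlog (x : L) : T.P.c1 (T.P.D x / x) = T.P.D x / x := by
  by_cases hx : x = 0
  · simp [hx]
  have e : T.P.D x / x = (T.P.c1 x / x) ^ 2 * x := by unfold PB.D; field_simp
  conv_lhs => rw [e, PB.c1_sq_mul]
  unfold PB.D; field_simp

lemma deg_p {a : k[X]} (h : a ≠ 0) : T.d.deg (T.p a) = a.natDegree := by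
  rw [p_eq, T.d_e _ (ι_ne h), ord_none h]; simp

lemma p_mem (a : k[X]) : T.p a ∈ T.d.Le a.natDegree := by
  by_cases h : a = 0
  · rw [h, map_zero]; exact zero_mem _
  · exact DF.mem_Le_of (T.deg_p h).le

lemma e_mem {y : RatFunc k} {n : ℤ} : T.e y ∈ T.d.Le n ↔ y ∈ Fil (val none) (-n) := by
  by_cases hy : y = 0
  · simp [hy]
  rw [DF.mem_Le_iff ((map_ne_zero T.e).2 hy), mem_Fil_iff hy, T.d_e _ hy, neg_le]
  exact_mod_cast Iff.rfl

lemma σ_mem (g : G I) (hx : x ∈ T.d.Le r) : T.σ g x ∈ T.d.Le r := by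
  rcases DF.mem_Le.1 hx with h | h
  · rw [h, map_zero]; exact zero_mem _
  · exact DF.mem_Le_of (by rwa [T.σ_deg])

lemma zc_mul_mem (u : ZMod 2) (hx : x ∈ T.d.Le r) : zc L u * x ∈ T.d.Le r := by
  rcases zmod_cases u with rfl | rfl
  · rw [map_zero, zero_mul]; exact zero_mem _
  · rwa [map_one, one_mul]

lemma θ_mem (i : I) : T.θ i ∈ T.d.Le ((β i).natDegree + 1 / 2) := by
  have h1 : wp (T.θ i) ∈ T.d.Le (2 * (β i).natDegree + 1) := by
    rw [T.θ_wp, ← p_eq]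
    refine DF.Le.mono (T.p_mem _) ?_
    have : (X * β i ^ 2).natDegree ≤ 2 * (β i).natDegree + 1 := by
      have h2 := natDegree_mul_le (p := (X : k[X])) (q := β i ^ 2)
      have h3 := natDegree_pow_le (p := β i) (n := 2)
      have h4 := natDegree_X_le (R := k)
      omega
    exact_mod_cast this
  exact DF.Le.of_wp h1 (by positivity) (by linarith)

lemma θ_spec (i : I) : T.θ i = T.θ i ^ 2 + T.P.b * T.p (β i) ^ 2 := by
  have h := T.θ_wp i
  rw [← p_eq, map_mul, map_pow, p_X, wp] at h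
  grind

lemma c0_θ (i : I) : T.P.c0 (T.θ i) = T.θ i :=
  (T.P.uniq (T.θ_spec i)).1

lemma c1_θ (i : I) : T.P.c1 (T.θ i) = T.p (β i) :=
  (T.P.uniq (T.θ_spec i)).2

lemma wp_comb (ξ : G I) : wp (comb T.θ ξ) = T.p (X * comb β ξ ^ 2) := by
  have h1 : wp (comb T.θ ξ) = ∑ i, wp (zc L (ξ i) * T.θ i) := map_sum wpH _ _
  rw [h1, map_mul, map_pow, p_X, comb, map_sum, CharTwo.sum_sq, Finset.mul_sum]
  refine Finset.sum_congr rfl fun i _ => ?_
  have h2 := T.θ_spec i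
  rcases zmod_cases (ξ i) with h | h <;> rw [h]
  · simp
  · simp only [map_one, one_mul, wp]; grind

lemma σ_comb (g ξ : G I) : T.σ g (comb T.θ ξ) = comb T.θ ξ + zc L (ξ ⬝ᵥ g) := by
  simp only [comb, map_sum, map_mul, σ_zc, T.σ_θ, mul_add, Finset.sum_add_distrib, dotProduct]

lemma _root_.Pool.Agent.Lib.MP_788af2_nt.AS.gam_nonneg (β : I → k[X]) (S : Finset I) :
    0 ≤ gam β S :=
  Finset.sum_nonneg fun _ _ => by positivity

lemma mem_Fx_univ (x : L) : x ∈ T.Fx Finset.univ := fun g hg => by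
  rw [show g = 0 from funext fun i => hg i (Finset.mem_univ i), T.σ_zero]

lemma mem_Fx_empty : x ∈ T.Fx ∅ ↔ ∀ g, T.σ g x = x :=
  ⟨fun h g => h g (by simp), fun h g _ => h g⟩

lemma c0_Fx (h : x ∈ T.Fx S) : T.P.c0 x ∈ T.Fx S := fun g hg => by rw [← σ_c0, h g hg]

lemma c1_Fx (h : x ∈ T.Fx S) : T.P.c1 x ∈ T.Fx S := fun g hg => by rw [← σ_c1, h g hg]

/-- Splitting off one generator: `x = θ j * x₁ + x₀`. -/
lemma Fx_split {j : I} (hj : j ∉ S) (h : x ∈ T.Fx (insert j S)) :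
    x + T.σ (Pi.single j 1) x ∈ T.Fx S ∧ x + T.θ j * (x + T.σ (Pi.single j 1) x) ∈ T.Fx S := by
  have key : ∀ g : G I, (∀ i ∈ S, g i = 0) →
      (g j = 0 ∧ T.σ g x = x ∧ T.σ g (T.σ (Pi.single j 1) x) = T.σ (Pi.single j 1) x) ∨
      (g j = 1 ∧ T.σ g x = T.σ (Pi.single j 1) x ∧ T.σ g (T.σ (Pi.single j 1) x) = x) := by
    intro g hg
    rcases zmod_cases (g j) with h0 | h0
    · have h1 : T.σ g x = x := h g (by simpa [h0] using hg)
      exact Or.inl ⟨h0, h1, by rw [← T.σ_add, add_comm, T.σ_add, h1]⟩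
    · have h1 : T.σ (g + Pi.single j 1) x = x := h _ (by
        intro i hi
        rcases Finset.mem_insert.1 hi with rfl | hi
        · rw [Pi.add_apply, h0, Pi.single_eq_same]; rfl
        · have : i ≠ j := fun e => hj (e ▸ hi)
          rw [Pi.add_apply, hg i hi, Pi.single_eq_of_ne this, add_zero])
      rw [T.σ_add] at h1
      refine Or.inr ⟨h0, ?_, h1⟩
      conv_lhs => rw [← h1, σ_σ]
  refine ⟨fun g hg => ?_, fun g hg => ?_⟩
  · rcases key g hg with ⟨-, h1, h2⟩ | ⟨-, h1, h2⟩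
    · rw [map_add, h1, h2]
    · rw [map_add, h1, h2, add_comm]
  · rcases key g hg with ⟨h0, h1, h2⟩ | ⟨h0, h1, h2⟩
    · rw [map_add, map_mul, map_add, h1, h2, T.σ_θ, h0, map_zero, add_zero]
    · rw [map_add, map_mul, map_add, h1, h2, T.σ_θ, h0, map_one]; grind

lemma b_mem : T.P.b ∈ T.d.Le 1 := by
  have := T.p_mem X
  rwa [p_X, natDegree_X, Nat.cast_one] at this

/-- An element that is almost fixed is close to a fixed element. -/
lemma near_fix (S : Finset I) : ∀ (x : L) (d : ℝ), x ∈ T.Fx S → (∀ g, T.σ g x + x ∈ T.d.Le d) →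
    ∃ r0, (∀ g, T.σ g r0 = r0) ∧ x + r0 ∈ T.d.Le (gam β S + d) := by
  induction S using Finset.induction_on with
  | empty =>
    intro x d h _
    exact ⟨x, T.mem_Fx_empty.1 h, by rw [two_K]; exact zero_mem _⟩
  | insert j S hj ih =>
    intro x d h hd
    obtain ⟨-, h2⟩ := T.Fx_split hj h
    have hg := gam_nonneg β S
    have h0 : (0 : ℝ) ≤ (β j).natDegree := by positivity
    have h3 : T.θ j * (x + T.σ (Pi.single j 1) x) ∈ T.d.Le ((β j).natDegree + 1 / 2 + d) :=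
      DF.Le.mul (T.θ_mem j) (by rw [add_comm]; exact hd _) le_rfl
    obtain ⟨r0, h4, h5⟩ := ih _ ((β j).natDegree + 1 / 2 + d) h2 fun g => by
      rw [map_add, add_add_add_comm]
      exact add_mem (DF.Le.mono (hd g) (by linarith)) (add_mem (T.σ_mem g h3) h3)
    refine ⟨r0, h4, ?_⟩
    have e : gam β (insert j S) = (β j).natDegree + 1 / 2 + gam β S := Finset.sum_insert hj
    rw [show x + r0 = x + T.θ j * (x + T.σ (Pi.single j 1) x) + r0 +
      T.θ j * (x + T.σ (Pi.single j 1) x) by grind, e]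
    exact add_mem (DF.Le.mono h5 (by linarith)) (DF.Le.mono h3 (by linarith))

lemma fix_not_sq (h : ∀ g, T.σ g x = x) (hc : c < 1) : T.P.b + x ^ 2 ∉ T.d.Le c := fun h1 => by
  obtain ⟨y, hy⟩ := T.dense x h 0
  have h2 : T.e (RatFunc.X + y ^ 2) ∈ T.d.Le (max c 0) := by
    rw [show T.e (RatFunc.X + y ^ 2) = T.P.b + x ^ 2 + (x - T.e y) ^ 2 by
      rw [map_add, map_pow, T.hP]; grind]
    exact add_mem (DF.Le.mono h1 (le_max_left _ _)) (DF.Le.sq hy (by simp))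
  have h3 : RatFunc.X + y ^ 2 ≠ 0 ∧ ord (val none) (RatFunc.X + y ^ 2) ≤ -1 := by
    by_cases h4 : y ∈ Fil (val none) 0
    · have := ord_add (w := val none) (x := RatFunc.X) (y := y ^ 2) RatFunc.X_ne_zero
        (Fil.sq h4 (by rw [ord_X]; omega))
      exact ⟨this.1, by rw [this.2, ord_X]⟩
    · obtain ⟨h5, h6⟩ := not_mem_Fil.1 h4
      have := ord_add (w := val none) (x := y ^ 2) (y := RatFunc.X) (pow_ne_zero 2 h5)
        (mem_Fil_of_le (by rw [ord_sq, ord_X]; omega))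
      rw [add_comm] at this
      exact ⟨this.1, by rw [this.2, ord_sq]; omega⟩
  rw [DF.mem_Le_iff ((map_ne_zero T.e).2 h3.1), T.d_e _ h3.1] at h2
  have h7 : ((ord (val none) (RatFunc.X + y ^ 2) : ℤ) : ℝ) ≤ -1 := by exact_mod_cast h3.2
  have h8 : max c 0 < 1 := max_lt hc one_pos
  linarith

/-- `t` is not close to a square. -/
lemma near_sq (h : x ∈ T.Fx S) : T.P.b + x ^ 2 ≠ 0 ∧ 1 - 2 * gam β S ≤ T.d.deg (T.P.b + x ^ 2) := by
  have h0 : T.P.b + x ^ 2 ≠ 0 := fun e => T.P.ns x (by grind)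
  refine ⟨h0, ?_⟩
  have hg := gam_nonneg β S
  obtain ⟨r0, h1, h2⟩ := T.near_fix S x (T.d.deg (T.P.b + x ^ 2) / 2) h fun g => by
    refine DF.Le.of_sq (r := T.d.deg (T.P.b + x ^ 2)) ?_ le_rfl
    have e : (T.σ g x + x) ^ 2 = T.σ g (T.P.b + x ^ 2) + (T.P.b + x ^ 2) := by
      rw [map_add, map_pow, σ_b]; grind
    rw [e]
    exact add_mem (T.σ_mem g (DF.mem_Le_deg _)) (DF.mem_Le_deg _)
  by_contra h3
  refine T.fix_not_sq h1 (c := T.d.deg (T.P.b + x ^ 2) + 2 * gam β S) (by linarith [not_le.1 h3]) ?_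
  rw [show T.P.b + r0 ^ 2 = (T.P.b + x ^ 2) + (x + r0) ^ 2 by grind]
  exact add_mem (DF.mem_Le_of (by linarith)) (DF.Le.sq h2 (by linarith))

lemma c1_le' (hS : x ∈ T.Fx S) (hx : x ∈ T.d.Le r) :
    T.P.c1 x ∈ T.d.Le ((r - 1) / 2 + gam β S) := by
  by_cases h0 : T.P.c1 x = 0
  · rw [h0]; exact zero_mem _
  have h1 : T.P.c0 x / T.P.c1 x ∈ T.Fx S := fun g hg => by
    rw [map_div₀, T.c0_Fx hS g hg, T.c1_Fx hS g hg]
  obtain ⟨h2, h3⟩ := T.near_sq h1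
  have e : x = T.P.c1 x ^ 2 * (T.P.b + (T.P.c0 x / T.P.c1 x) ^ 2) := by
    conv_lhs => rw [T.P.spec x]
    field_simp
    ring
  rw [e] at hx
  exact DF.Le.of_sq (DF.Le.of_mul hx h2 le_rfl) (by linarith)

lemma c0_le (hS : x ∈ T.Fx S) (hx : x ∈ T.d.Le r) (h : r / 2 + gam β S ≤ c) :
    T.P.c0 x ∈ T.d.Le c := by
  have hg := gam_nonneg β S
  refine DF.Le.of_sq (r := r + 2 * gam β S) ?_ (by linarith)
  have e : T.P.c0 x ^ 2 = x + T.P.b * T.P.c1 x ^ 2 := by have := T.P.spec x; grind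
  rw [e]
  refine add_mem (DF.Le.mono hx (by linarith)) (DF.Le.mul T.b_mem
    (DF.Le.sq (T.c1_le' hS hx) le_rfl) (by linarith))

lemma c1_le (hS : x ∈ T.Fx S) (hx : x ∈ T.d.Le r) (h : r / 2 + gam β S ≤ c) :
    T.P.c1 x ∈ T.d.Le c :=
  DF.Le.mono (T.c1_le' hS hx) (by linarith)

lemma D_le (hS : x ∈ T.Fx S) (hx : x ∈ T.d.Le r) (h : r + 2 * gam β S ≤ c) :
    T.P.D x ∈ T.d.Le c :=
  DF.Le.sq (T.c1_le hS hx le_rfl) (by linarith)

lemma of_add_c1 (hS : x ∈ T.Fx S) (hx : x + T.P.c1 x ∈ T.d.Le r) (h : 2 * gam β S ≤ r) :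
    x ∈ T.d.Le r := by
  by_contra h1
  obtain ⟨h2, h3⟩ := DF.not_mem_Le.1 h1
  have h4 := DF.deg_add_lt h2 (T.c1_le hS (DF.mem_Le_deg x) le_rfl) (by linarith)
  rw [DF.mem_Le_iff h4.1, h4.2] at hx
  linarith

lemma log_le (hS : f ∈ T.Fx S) (h : T.P.c1 f = f) : f ∈ T.d.Le (2 * gam β S) :=
  T.of_add_c1 hS (by rw [h, two_K]; exact zero_mem _) le_rfl

lemma tr_add (x y : L) : T.tr (x + y) = T.tr x + T.tr y := by
  simp only [tr, map_add, Finset.sum_add_distrib]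

lemma tr_sum {α : Type} (s : Finset α) (F : α → L) : T.tr (∑ i ∈ s, F i) = ∑ i ∈ s, T.tr (F i) := by
  simp only [tr, map_sum]
  exact Finset.sum_comm

lemma tr_σ (g : G I) (x : L) : T.tr (T.σ g x) = T.tr x := by
  simp only [tr, ← T.σ_add]
  exact Fintype.sum_equiv (Equiv.addRight g) _ _ fun _ => rfl

lemma σ_tr (g : G I) (x : L) : T.σ g (T.tr x) = T.tr x := by
  simp only [tr, map_sum, ← T.σ_add]
  exact Fintype.sum_equiv (Equiv.addLeft g) _ _ fun _ => rfl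

lemma tr_fix_mul (h : ∀ g, T.σ g y = y) (x : L) : T.tr (y * x) = y * T.tr x := by
  simp only [tr, map_mul, h, Finset.mul_sum]

lemma tr_c0 (x : L) : T.tr (T.P.c0 x) = T.P.c0 (T.tr x) := by
  simp only [tr, c0_sum, σ_c0]

lemma tr_c1 (x : L) : T.tr (T.P.c1 x) = T.P.c1 (T.tr x) := by
  simp only [tr, c1_sum, σ_c1]

lemma tr_mem (hx : x ∈ T.d.Le r) : T.tr x ∈ T.d.Le r :=
  sum_mem fun g _ => T.σ_mem g hx

lemma tr_prod (g : G I) : T.tr (∏ i, (T.θ i + zc L (g i) + 1)) = 1 := by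
  simp only [tr, map_prod, map_add, T.σ_θ, σ_zc, map_one]
  rw [← Fintype.piFinset_univ, ← Finset.prod_univ_sum (fun _ : I => (Finset.univ : Finset (ZMod 2)))
    (fun i u => T.θ i + zc L u + zc L (g i) + 1)]
  refine Finset.prod_eq_one fun i _ => ?_
  rw [show (Finset.univ : Finset (ZMod 2)) = {0, 1} from rfl, Finset.sum_pair zero_ne_one, map_zero,
    map_one]
  grind

lemma R_eq {y : RatFunc k} (h : T.tr x - T.e y ∈ T.d.Le (-2)) : T.R x = res none y := by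
  have key : ∀ y' : RatFunc k, T.tr x - T.e y' ∈ T.d.Le (-2) → res none y' = res none y := by
    intro y' h1
    have h2 := sub_mem h h1
    rw [sub_sub_sub_cancel_left, ← map_sub, show (-2 : ℝ) = ((-2 : ℤ) : ℝ) by norm_num, e_mem,
      neg_neg] at h2
    have h3 := res_none_two h2
    rwa [map_sub, sub_eq_zero] at h3
  exact key _ (Classical.epsilon_spec
    (p := fun y : RatFunc k => T.tr x - T.e y ∈ T.d.Le (-2)) ⟨y, h⟩)

lemma R_congr (h : T.tr x = T.tr y) : T.R x = T.R y := by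
  simp only [R, h]

lemma R_add (x y : L) : T.R (x + y) = T.R x + T.R y := by
  obtain ⟨u, hu⟩ := T.dense _ (fun g => T.σ_tr g x) (-2)
  obtain ⟨v, hv⟩ := T.dense _ (fun g => T.σ_tr g y) (-2)
  rw [T.R_eq hu, T.R_eq hv, ← map_add]
  refine T.R_eq ?_
  rw [tr_add, map_add, add_sub_add_comm]
  exact add_mem hu hv

lemma R_zero : T.R 0 = 0 := by
  rw [T.R_eq (y := 0) (by simp [tr]), map_zero]

lemma R_sum {α : Type} (s : Finset α) (F : α → L) : T.R (∑ i ∈ s, F i) = ∑ i ∈ s, T.R (F i) :=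
  map_sum (⟨⟨T.R, T.R_zero⟩, T.R_add⟩ : L →+ ZMod 2) F s

lemma R_zc_mul (u : ZMod 2) (x : L) : T.R (zc L u * x) = u * T.R x := by
  rcases zmod_cases u with rfl | rfl <;> simp [R_zero]

lemma R_σ (g : G I) (x : L) : T.R (T.σ g x) = T.R x :=
  T.R_congr (T.tr_σ g x)

lemma R_c1 (x : L) : T.R (T.P.c1 x) = T.R x := by
  obtain ⟨u, hu⟩ := T.dense _ (fun g => T.σ_tr g x) (-4)
  rw [T.R_eq (DF.Le.mono hu (by norm_num)), ← res_c1 none u]
  refine T.R_eq ?_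
  have e : T.tr (T.P.c1 x) - T.e ((PX k).c1 u) = T.P.c1 (T.tr x - T.e u) := by
    rw [tr_c1, ← e_c1]; exact (map_sub T.P.c1h _ _).symm
  rw [e]
  refine T.c1_le (S := ∅) (T.mem_Fx_empty.2 fun g => ?_) hu (by simp [gam]; norm_num)
  rw [map_sub, σ_tr, T.σ_e]

lemma R_small (h : x ∈ T.d.Le (-2)) : T.R x = 0 := by
  rw [T.R_eq (y := 0) (by simpa using T.tr_mem h), map_zero]

lemma R_of_tr_sq (h : T.tr x = y ^ 2) : T.R x = 0 := by
  rw [← R_c1, T.R_congr (y := 0) (by rw [tr_c1, h]; simp [tr]), R_zero]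

lemma R_sq (x : L) : T.R (x ^ 2) = 0 := by
  rw [← R_c1, PB.c1_sq, R_zero]

lemma R_wp_mul (hf : T.P.c1 f = f) (z : L) : T.R (wp z * f) = 0 := by
  rw [wp, add_mul, R_add, ← T.R_c1 (z ^ 2 * f), PB.c1_sq_mul, hf]
  exact CharTwo.add_self_eq_zero _

end Tw

end Pool.Agent.Lib.MP_788af2_nt.AS
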