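import Pool.Agent.Lib.MP_788af2_nt.AS.Defs

/-!
Odd parts of products of polynomials.
-/

set_option linter.unusedSectionVars false

namespace Pool.Agent.Lib.MP_788af2_nt.AS

open Polynomial WeierstrassCurve Pool.Agent.Lib.MP_a3f657_nt.Two

open scoped Classical

variable {k : Type} [Field k] [Finite k] [CharP k 2]

private lemma co_cases (a : ZMod 2) : a = 0 ∨ a = 1 := by
  revert a
  decide

private noncomputable def co_u (k : Type) [Field k] [CharP k 2] (m : ℕ) {n : ℕ} (η : G (Fin n)) :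
    k[X] := ∑ j : Fin n, zc k[X] (η j) * X ^ (m + 2 * (j : ℕ))

private lemma co_dvd (m : ℕ) {n : ℕ} (η : G (Fin n)) : (X : k[X]) ^ m ∣ co_u k m η :=
  Finset.dvd_sum fun _ _ => Dvd.dvd.mul_left (pow_dvd_pow _ (Nat.le_add_right _ _)) _

private lemma co_ne (m : ℕ) {n : ℕ} {η : G (Fin n)} (h : η ≠ 0) : co_u k m η ≠ 0 := by
  obtain ⟨j, hj⟩ := Function.ne_iff.1 h
  have h1 : η j = 1 := (co_cases _).resolve_left hj
  intro h0
  have h2 := congrArg (fun p : k[X] => p.coeff (m + 2 * (j : ℕ))) h0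
  simp only [co_u, finsetSum_coeff, coeff_zero] at h2
  rw [Finset.sum_eq_single j, h1, map_one, one_mul, coeff_X_pow_self] at h2
  · exact one_ne_zero h2
  · intro i _ hi
    have n1 : m + 2 * (j : ℕ) ≠ m + 2 * (i : ℕ) := fun e => hi (Fin.ext (by omega))
    rcases co_cases (η i) with e | e
    · simp [e]
    · rw [e, map_one, one_mul, coeff_X_pow, if_neg n1]
  · simp

private lemma co_deg (m : ℕ) {n : ℕ} {η : G (Fin n)} (h : η ≠ 0) {g : k[X]} (hg : g ≠ 0) :
    (m : WithBot ℕ) ≤ (co_u k m η * g).degree := by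
  have := degree_le_of_dvd ((co_dvd m η).mul_right g) (mul_ne_zero (co_ne m h) hg)
  rwa [degree_X_pow] at this

private lemma co_der_even (m : ℕ) {n : ℕ} (η : G (Fin n)) :
    derivative (co_u k (2 * m) η) = 0 := by
  rw [co_u, derivative_sum]
  refine Finset.sum_eq_zero fun j _ => ?_
  have e : ((2 * m + 2 * (j : ℕ) : ℕ) : k) = 0 := by
    rw [CharP.cast_eq_zero_iff k 2]
    omega
  rcases co_cases (η j) with h | h
  · simp [h]
  · rw [h, map_one, one_mul, derivative_X_pow, e, map_zero, zero_mul]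

private lemma co_der_odd (m : ℕ) {n : ℕ} (η : G (Fin n)) :
    derivative (co_u k (2 * m + 1) η) = co_u k (2 * m) η := by
  rw [co_u, co_u, derivative_sum]
  refine Finset.sum_congr rfl fun j _ => ?_
  have e0 : ((2 * m + 2 * (j : ℕ) : ℕ) : k) = 0 := by
    rw [CharP.cast_eq_zero_iff k 2]
    omega
  have e1 : 2 * m + 1 + 2 * (j : ℕ) = (2 * m + 2 * (j : ℕ)) + 1 := by ring
  rcases co_cases (η j) with h | h
  · simp [h]
  · rw [h, map_one, one_mul, one_mul, e1, derivative_X_pow, Nat.cast_succ, e0, zero_add, map_one,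
      one_mul, Nat.add_sub_cancel]

private lemma co_key (g : k[X]) (hg : g ≠ 0) (c : ℕ) : ∃ ε : ℕ, ε ≤ 1 ∧ ∀ (n : ℕ) (η : G (Fin n)),
    η ≠ 0 → ((c - 1 : ℕ) : WithBot ℕ) ≤ (derivative (co_u k (c + ε) η * g)).degree := by
  by_cases h : derivative g = 0
  · obtain ⟨ε, m, h1, h2⟩ : ∃ ε m, ε ≤ 1 ∧ c + ε = 2 * m + 1 :=
      ⟨1 - c % 2, c / 2, by omega, by omega⟩
    refine ⟨ε, h1, fun n η hη => ?_⟩
    rw [derivative_mul, h, mul_zero, add_zero, h2, co_der_odd]
    exact le_trans (by exact_mod_cast (by omega : c - 1 ≤ 2 * m)) (co_deg _ hη hg)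
  · obtain ⟨ε, m, h1, h2⟩ : ∃ ε m, ε ≤ 1 ∧ c + ε = 2 * m :=
      ⟨c % 2, (c + 1) / 2, by omega, by omega⟩
    refine ⟨ε, h1, fun n η hη => ?_⟩
    rw [derivative_mul, h2, co_der_even, zero_mul, zero_add]
    exact le_trans (by exact_mod_cast (by omega : c - 1 ≤ 2 * m)) (co_deg _ hη h)

private lemma co_comb_add {I R : Type} [Fintype I] [Ring R] [CharP R 2] (β : I → R) (ξ ξ' : G I) :
    comb β (ξ + ξ') = comb β ξ + comb β ξ' := by
  simp only [comb, Pi.add_apply, map_add, add_mul, Finset.sum_add_distrib]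

theorem count_odd (g : k[X]) (hg : g ≠ 0) (c D : ℕ) :
    (Finset.univ.filter fun ξ : G (Fin D) =>
      (derivative (comb (fun i : Fin D => (X : k[X]) ^ (c + i)) ξ * g)).degree <
        (c - 1 : ℕ)).card * 2 ^ (D / 2) ≤ 2 ^ D := by
  obtain ⟨ε, h1, h2⟩ := co_key g hg c
  let em : Fin (D / 2) → Fin D := fun j => ⟨ε + 2 * j, by have := j.2; omega⟩
  let ex : G (Fin (D / 2)) → G (Fin D) := fun η i => ∑ j, if em j = i then η j else 0
  have e1 : ∀ η η', ex (η + η') = ex η + ex η' := by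
    intro η η'
    funext i
    simp only [ex, Pi.add_apply, ← Finset.sum_add_distrib]
    refine Finset.sum_congr rfl fun j _ => ?_
    split_ifs <;> simp
  have e2 : ∀ η, comb (fun i : Fin D => (X : k[X]) ^ (c + i)) (ex η) = co_u k (c + ε) η := by
    intro η
    simp only [comb, ex, co_u, map_sum, Finset.sum_mul]
    rw [Finset.sum_comm]
    refine Finset.sum_congr rfl fun j _ => ?_
    rw [Finset.sum_eq_single (em j), if_pos rfl, add_assoc]
    · intro i _ hi
      rw [if_neg hi.symm, map_zero, zero_mul]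
    · simp
  have z : ∀ {n : ℕ} (x : G (Fin n)), x + x = 0 := fun x => by
    funext i
    exact CharTwo.add_self_eq_zero _
  have c1 : Fintype.card (G (Fin (D / 2))) = 2 ^ (D / 2) := by simp
  have c2 : Fintype.card (G (Fin D)) = 2 ^ D := by simp
  rw [← c1, ← c2, ← Finset.card_univ, ← Finset.card_univ, ← Finset.card_product]
  refine Finset.card_le_card_of_injOn (fun p => p.1 + ex p.2) (fun _ _ => by simp) ?_
  rintro ⟨ξ, η⟩ a ⟨ξ', η'⟩ b e
  simp only [Finset.coe_product, Finset.coe_filter, Finset.mem_univ, true_and, Finset.coe_univ,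
    Set.mem_prod, Set.mem_ofPred_eq, Set.mem_univ, and_true] at a b
  have e3 : ξ + ex η = ξ' + ex η' := e
  have e4 : ex (η + η') = ξ + ξ' := by
    rw [e1]
    linear_combination e3 + z (ex η') - z ξ
  have e5 : η + η' = 0 := by
    by_contra n
    have k1 := h2 _ _ n
    rw [← e2, e4, co_comb_add, add_mul, derivative_add] at k1
    exact absurd (lt_of_le_of_lt (degree_add_le _ _) (max_lt a b)) (not_lt.2 k1)
  have e6 : η = η' := by linear_combination e5 - z η'
  subst e6
  rw [add_right_cancel e3]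

end Pool.Agent.Lib.MP_788af2_nt.AS
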