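import Pool.Agent.Lib.MP_a3f657_nt.C2Res

/-!
Artin-Schreier twists of `y ^ 2 + x y = x ^ 3 + b` in characteristic two: definitions.
-/

set_option linter.unusedSectionVars false

namespace Pool.Agent.Lib.MP_788af2_nt.AS

open Polynomial WeierstrassCurve Pool.Agent.Lib.MP_a3f657_nt.Two

/-- A real valued degree function (minus an additive valuation). -/
structure DF (L : Type) [Field L] where
  /-- The degree. -/
  deg : L → ℝ
  deg_mul : ∀ {x y : L}, x ≠ 0 → y ≠ 0 → deg (x * y) = deg x + deg y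
  deg_add : ∀ {x y : L}, x ≠ 0 → y ≠ 0 → x + y ≠ 0 → deg (x + y) ≤ max (deg x) (deg y)

namespace DF

variable {L : Type} [Field L] (d : DF L)

lemma deg_one : d.deg 1 = 0 := by
  have := d.deg_mul (one_ne_zero (α := L)) one_ne_zero
  rw [mul_one] at this
  linarith

lemma deg_neg (x : L) : d.deg (-x) = d.deg x := by
  by_cases hx : x = 0
  · simp [hx]
  have h0 : (-1 : L) ≠ 0 := by simp
  have h1 := d.deg_mul h0 h0
  rw [show (-1 : L) * -1 = 1 by ring, deg_one] at h1
  rw [show -x = -1 * x by ring, d.deg_mul h0 hx]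
  linarith

/-- The elements of degree at most `r`. -/
def Le (r : ℝ) : AddSubgroup L where
  carrier := {x | x = 0 ∨ d.deg x ≤ r}
  zero_mem' := Or.inl rfl
  neg_mem' := by
    rintro x (rfl | h)
    · exact Or.inl neg_zero
    · exact Or.inr (by rwa [deg_neg])
  add_mem' := by
    intro x y hx hy
    by_cases h1 : x = 0
    · simpa [h1] using hy
    by_cases h2 : y = 0
    · simpa [h2] using hx
    by_cases h3 : x + y = 0
    · exact Or.inl h3
    exact Or.inr ((d.deg_add h1 h2 h3).trans (max_le (hx.resolve_left h1) (hy.resolve_left h2)))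

variable {d} {x y : L} {r r' c : ℝ}

lemma mem_Le : x ∈ d.Le r ↔ x = 0 ∨ d.deg x ≤ r := Iff.rfl

lemma mem_Le_iff (hx : x ≠ 0) : x ∈ d.Le r ↔ d.deg x ≤ r := by simp [mem_Le, hx]

lemma mem_Le_of (h : d.deg x ≤ r) : x ∈ d.Le r := Or.inr h

lemma mem_Le_deg (x : L) : x ∈ d.Le (d.deg x) := Or.inr le_rfl

lemma not_mem_Le : x ∉ d.Le r ↔ x ≠ 0 ∧ r < d.deg x := by simp [mem_Le]

lemma Le.mono (hx : x ∈ d.Le r) (h : r ≤ c) : x ∈ d.Le c := hx.imp id fun e => e.trans h

lemma Le.mul (hx : x ∈ d.Le r) (hy : y ∈ d.Le r') (h : r + r' ≤ c) : x * y ∈ d.Le c := by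
  by_cases h1 : x = 0
  · simp [h1]
  by_cases h2 : y = 0
  · simp [h2]
  rw [mem_Le_iff h1] at hx
  rw [mem_Le_iff h2] at hy
  exact mem_Le_of (by rw [d.deg_mul h1 h2]; linarith)

lemma Le.one (h : 0 ≤ r) : (1 : L) ∈ d.Le r := mem_Le_of (by rwa [deg_one])

lemma deg_inv (hx : x ≠ 0) : d.deg x⁻¹ = -d.deg x := by
  have := d.deg_mul hx (inv_ne_zero hx)
  rw [mul_inv_cancel₀ hx, deg_one] at this
  linarith

lemma deg_div (hx : x ≠ 0) (hy : y ≠ 0) : d.deg (x / y) = d.deg x - d.deg y := by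
  rw [div_eq_mul_inv, d.deg_mul hx (inv_ne_zero hy), deg_inv hy]; ring

lemma deg_pow (hx : x ≠ 0) (n : ℕ) : d.deg (x ^ n) = n * d.deg x := by
  induction n with
  | zero => simp [deg_one]
  | succ n ih => rw [pow_succ, d.deg_mul (pow_ne_zero n hx) hx, ih]; push_cast; ring

lemma deg_sq (hx : x ≠ 0) : d.deg (x ^ 2) = 2 * d.deg x := by simpa using deg_pow hx 2

lemma Le.div (hx : x ∈ d.Le r) (h : r - d.deg y ≤ c) : x / y ∈ d.Le c := by
  by_cases hy : y = 0
  · simp [hy]
  rw [div_eq_mul_inv]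
  exact Le.mul hx (mem_Le_deg _) (by rw [deg_inv hy]; linarith)

lemma Le.div' (hx : x ∈ d.Le r) (hy : y ∉ d.Le r') (h : r - r' ≤ c) : x / y ∈ d.Le c :=
  Le.div hx (by have := (not_mem_Le.1 hy).2; linarith)

lemma Le.pow (hx : x ∈ d.Le r) (n : ℕ) (h : n * r ≤ c) : x ^ n ∈ d.Le c := by
  refine Le.mono (r := n * r) ?_ h
  clear h
  induction n with
  | zero => simpa using Le.one le_rfl
  | succ n ih => rw [pow_succ]; exact Le.mul ih hx (by push_cast; linarith)

lemma Le.sq (hx : x ∈ d.Le r) (h : 2 * r ≤ c) : x ^ 2 ∈ d.Le c := Le.pow hx 2 (by simpa using h)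

lemma Le.of_sq (hx : x ^ 2 ∈ d.Le r) (h : r / 2 ≤ c) : x ∈ d.Le c := by
  by_cases h1 : x = 0
  · simp [h1]
  rw [mem_Le_iff (pow_ne_zero 2 h1), deg_sq h1] at hx
  exact mem_Le_of (by linarith)

lemma Le.of_mul (hx : x * y ∈ d.Le r) (hy : y ≠ 0) (h : r - d.deg y ≤ c) : x ∈ d.Le c := by
  have := Le.div hx h
  rwa [mul_div_cancel_right₀ _ hy] at this

lemma Le.prod {α : Type} (s : Finset α) {f : α → L} {g : α → ℝ} (h : ∀ i ∈ s, f i ∈ d.Le (g i)) :
    ∏ i ∈ s, f i ∈ d.Le (∑ i ∈ s, g i) := by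
  classical
  induction s using Finset.induction_on with
  | empty => simpa using Le.one le_rfl
  | insert a s ha ih =>
    rw [Finset.prod_insert ha, Finset.sum_insert ha]
    exact Le.mul (h a (by simp)) (ih fun i hi => h i (by simp [hi])) le_rfl

lemma add_not_mem (hx : x ∉ d.Le r) (hy : y ∈ d.Le r) : x + y ∉ d.Le r := fun h =>
  hx (by simpa using sub_mem h hy)

/-- The degree of a sum with a dominant term. -/
lemma deg_add_eq (hx : x ∉ d.Le r) (hy : y ∈ d.Le r) : x + y ≠ 0 ∧ d.deg (x + y) = d.deg x := by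
  obtain ⟨h0, h1⟩ := not_mem_Le.1 hx
  obtain ⟨h2, h3⟩ := not_mem_Le.1 (add_not_mem hx hy)
  refine ⟨h2, le_antisymm ((mem_Le_iff h2).1 (add_mem (mem_Le_deg x) (Le.mono hy h1.le))) ?_⟩
  have := sub_mem (mem_Le_deg (d := d) (x + y)) (Le.mono hy h3.le)
  rwa [add_sub_cancel_right, mem_Le_iff h0] at this

lemma deg_add_lt (hx : x ≠ 0) (hy : y ∈ d.Le r) (h : r < d.deg x) :
    x + y ≠ 0 ∧ d.deg (x + y) = d.deg x := deg_add_eq (not_mem_Le.2 ⟨hx, h⟩) hy

lemma Le.wp_mem (hx : x ∈ d.Le r) (h1 : 2 * r ≤ c) (h2 : r ≤ c) : wp x ∈ d.Le c :=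
  add_mem (Le.sq hx h1) (Le.mono hx h2)

lemma Le.of_wp (hx : wp x ∈ d.Le r) (h0 : 0 ≤ r) (h : r / 2 ≤ c) : x ∈ d.Le c := by
  by_contra h1
  obtain ⟨h2, h3⟩ := not_mem_Le.1 h1
  have h4 := deg_add_lt (d := d) (pow_ne_zero 2 h2) (mem_Le_deg x) (by rw [deg_sq h2]; linarith)
  rw [wp, mem_Le_iff h4.1, h4.2, deg_sq h2] at hx
  linarith

end DF

/-- The elementary abelian group `F₂ ^ I`. -/
abbrev G (I : Type) : Type := I → ZMod 2

/-- The prime field inside a ring of characteristic two. -/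
def zc (L : Type) [Ring L] [CharP L 2] : ZMod 2 →+* L := ZMod.castHom (dvd_refl 2) L

/-- The sign of an element of `ZMod 2`. -/
def sg (x : ZMod 2) : ℤ := if x = 0 then 1 else -1

/-- The compositum at infinity of the Artin-Schreier extensions `θ ^ 2 + θ = t β ^ 2`. -/
structure Tw {k : Type} [Field k] [Finite k] [CharP k 2] {I : Type} [Fintype I] [DecidableEq I]
    (β : I → k[X]) (L : Type) [Field L] [CharP L 2] where
  /-- The embedding of `k(t)`. -/
  e : RatFunc k →+* L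
  /-- The 2-basis `t`. -/
  P : PB L
  hP : P.b = e RatFunc.X
  /-- The degree. -/
  d : DF L
  d_e : ∀ x, x ≠ 0 → d.deg (e x) = -(ord (val none) x : ℤ)
  /-- The Galois action. -/
  σ : G I → L →+* L
  σ_zero : ∀ x, σ 0 x = x
  σ_add : ∀ g h x, σ (g + h) x = σ g (σ h x)
  σ_e : ∀ g x, σ g (e x) = e x
  σ_deg : ∀ g x, d.deg (σ g x) = d.deg x
  /-- The Artin-Schreier generators. -/
  θ : I → L
  θ_wp : ∀ i, wp (θ i) = e (ι (X * β i ^ 2))
  σ_θ : ∀ g i, σ g (θ i) = θ i + zc L (g i)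
  dense : ∀ x, (∀ g, σ g x = x) → ∀ r : ℝ, ∃ y, x - e y ∈ d.Le r
  hensel : ∀ (r : ℝ) (x : L), r < 0 → x ∈ d.Le r → ∃ u ∈ d.Le r, wp u = x

/-- The combination of the `β i` with coefficients `ξ`. -/
noncomputable def comb {I R : Type} [Fintype I] [Ring R] [CharP R 2] (β : I → R) (ξ : G I) : R :=
  ∑ i, zc R (ξ i) * β i

/-- The half sum of the degrees of the `t β i ^ 2`, `i ∈ S`. -/
noncomputable def gam {k I : Type} [Field k] (β : I → k[X]) (S : Finset I) : ℝ :=
  ∑ i ∈ S, (((β i).natDegree : ℝ) + 1 / 2)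

section curve

variable {F : Type} [Field F]

/-- The curve `y ^ 2 + x y = x ^ 3 + a x ^ 2 + b`. -/
def Eb (a b : F) : Affine F := ⟨1, a, 0, 0, b⟩

/-- The curve `y ^ 2 + x y = x ^ 3 + a x ^ 2 + s ^ 2 x`. -/
def Ec (a s : F) : Affine F := ⟨1, a, 0, s ^ 2, 0⟩

/-- The first coordinate (zero at infinity). -/
def xc {W : Affine F} : W.Point → F
  | .zero => 0
  | .some x _ _ => x

/-- The second coordinate (zero at infinity). -/
def yc {W : Affine F} : W.Point → F
  | .zero => 0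
  | .some _ y _ => y

/-- The Artin-Schreier descent map. -/
def dl {W : Affine F} : W.Point → F
  | .zero => 0
  | .some x _ _ => x + W.a₂

end curve

namespace Tw

variable {k : Type} [Field k] [Finite k] [CharP k 2] {I : Type} [Fintype I] [DecidableEq I]
  {β : I → k[X]} {L : Type} [Field L] [CharP L 2] (T : Tw β L)

/-- Polynomials inside the tower. -/
noncomputable def p : k[X] →+* L := T.e.comp (algebraMap k[X] (RatFunc k))

/-- The ring `k[t][θ]`. -/
def O : Subring L := Subring.closure (Set.range T.p ∪ Set.range T.θ)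

/-- The global field `k(t)(θ)`. -/
def Lg : Subfield L := Subfield.closure (Set.range T.e ∪ Set.range T.θ)

/-- The elements fixed by all `g` vanishing on `S`. -/
def Fx (S : Finset I) : Set L := {x | ∀ g : G I, (∀ i ∈ S, g i = 0) → T.σ g x = x}

/-- The trace. -/
def tr (x : L) : L := ∑ g : G I, T.σ g x

/-- The absolute trace of the residue at infinity of `tr x dt`. -/
noncomputable def R (x : L) : ZMod 2 :=
  res none (Classical.epsilon fun y : RatFunc k => T.tr x - T.e y ∈ T.d.Le (-2))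

/-- Logarithmic forms with simple poles above `bs`. -/
def Wl (bs : k[X]) : Set L := {f | T.P.c1 f = f ∧ T.p bs * f ∈ T.O}

/-- The curve over the tower. -/
noncomputable abbrev Cv (a s : k[X]) : Affine L := Ec (T.p a) (T.p s)

/-- The logarithmic derivative of the first coordinate. -/
noncomputable def ff {W : Affine L} (Q : W.Point) : L := T.P.D (xc Q) / xc Q

/-- The threshold of the subgroup of index two. -/
noncomputable def E0 (_ : Tw β L) (a : k[X]) : ℝ := a.natDegree - 2 * gam β Finset.univ - 2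

/-- The points near infinity. -/
def InM (a s : k[X]) (Q : (T.Cv a s).Point) : Prop := Q = .zero ∨ xc Q ∉ T.d.Le (T.E0 a)

/-- The global points. -/
def InG {W : Affine L} (Q : W.Point) : Prop := xc Q ∈ T.Lg ∧ yc Q ∈ T.Lg

/-- A local point with prescribed logarithmic derivative. -/
noncomputable def pt (a s : k[X]) (f : L) : (T.Cv a s).Point :=
  @Classical.epsilon _ ⟨.zero⟩ fun Q => T.InM a s Q ∧ T.ff Q = f

/-- The pairing. -/
noncomputable def B (a s : k[X]) (f f' : L) : ZMod 2 := T.R (T.p s ^ 2 / xc (T.pt a s f) * f')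

/-- `ft` is the family of basic logarithmic forms above the primes in `S`, `ν` the residues. -/
structure LogB (S : Finset k[X]) (ft : S → L) (ν : L → S → ZMod 2) : Prop where
  mem : ∀ q, ft q ∈ T.Wl (∏ q ∈ S, q)
  tr_ft : ∀ q, T.tr (ft q) = T.p (derivative q.1) / T.p q.1
  ν_add : ∀ f ∈ T.Wl (∏ q ∈ S, q), ∀ f' ∈ T.Wl (∏ q ∈ S, q), ν (f + f') = ν f + ν f'
  dec : ∀ f ∈ T.Wl (∏ q ∈ S, q), f = ∑ g : G I, ∑ q, zc L (ν (T.σ g f) q) * T.σ g (ft q)

/-- The first order pairing with weight `w`. -/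
noncomputable def H {W : Type} [Fintype W] (ft : W → L) (w : G I → W × W → ZMod 2) : L :=
  ∑ g, ∑ q, zc L (w g q) * T.tr (T.σ g (ft q.1) * ft q.2)

/-- The matrix of the pairing. -/
noncomputable def Bm {W : Type} (a s : k[X]) (ft : W → L) (g : G I) : Matrix W W (ZMod 2) :=
  Matrix.of fun q q' => T.B a s (T.σ g (ft q)) (ft q')

end Tw

section poly

variable {k : Type} [Field k]

open Classical in
/-- The monic primes dividing `b` at which `z ^ 2 + z + a` has a root. -/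
noncomputable def Spl (b a : k[X]) : Finset k[X] :=
  (UniqueFactorizationMonoid.normalizedFactors b).toFinset.filter fun q => ∃ z, q ∣ a + z ^ 2 + z

/-- `bs` is the product of the primes dividing `b` that split for `a`. -/
structure Adm (b bs a : k[X]) : Prop where
  dvd : bs ∣ b
  cop : IsCoprime bs (derivative bs)
  spl : ∃ z, bs ∣ a + z ^ 2 + z
  non : ∀ q, Irreducible q → q ∣ b → ¬ q ∣ bs → ∀ z, ¬ q ∣ a + z ^ 2 + z

/-- The numerical hypotheses: `e` is the degree of the twists. -/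
structure Par {I : Type} [Fintype I] (β : I → k[X]) (b s : k[X]) (e : ℕ) : Prop where
  b_ne : b ≠ 0
  pow : ∃ j, s = b ^ (j + 1)
  dvd : ∀ i, b ∣ β i
  odd : Odd e
  le1 : (s.natDegree : ℝ) + b.natDegree + 8 * gam β Finset.univ + 4 ≤ e
  le2 : 2 * (b.natDegree : ℝ) + 16 * gam β Finset.univ + 4 ≤ e

end poly

section alg

variable {I : Type} [Fintype I] {M : Type} [AddCommGroup M]

/-- The eigen-subgroup of the character `ξ`. -/
def eig (s : G I → M →+ M) (ξ : G I) : AddSubgroup M where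
  carrier := {m | ∀ g, s g m = sg (ξ ⬝ᵥ g) • m}
  zero_mem' g := by simp
  add_mem' hx hy g := by rw [map_add, hx g, hy g, smul_add]
  neg_mem' hx g := by rw [map_neg, hx g, smul_neg]

/-- The hypotheses on a lattice with an action of `G I`, a descent map and relations. -/
structure Lat {W : Type} [Fintype W] [DecidableEq I] (s : G I → M →+ M) (ν : M →+ (W → ZMod 2))
    (Bm : G I → Matrix W W (ZMod 2)) : Prop where
  s_zero : ∀ m, s 0 m = m
  s_add : ∀ g h m, s (g + h) m = s g (s h m)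
  tf : ∀ (n : ℕ) (m : M), n ≠ 0 → n • m = 0 → m = 0
  inj : ∀ m, (∀ g, ν (s g m) = 0) → ∃ m', m = m' + m'
  rel : ∀ m j, ∑ g, ∑ i, ν (s g m) i * Bm g i j = 0

/-- An alternating matrix. -/
def Alt {W : Type} (A : Matrix W W (ZMod 2)) : Prop := (∀ i, A i i = 0) ∧ ∀ i j, A i j = A j i

/-- The form `Mt` restricted to the kernel of `B0` has at most one nonzero radical vector. -/
def Small {W : Type} [Fintype W] (B0 Mt : Matrix W W (ZMod 2)) : Prop :=
  ∀ u v : W → ZMod 2, u ≠ 0 → v ≠ 0 → B0.mulVec u = 0 → B0.mulVec v = 0 →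
    (∀ x, B0.mulVec x = 0 → u ⬝ᵥ Mt.mulVec x = 0) → (∀ x, B0.mulVec x = 0 → v ⬝ᵥ Mt.mulVec x = 0) →
    u = v

/-- The cube pattern: first derivatives `Mt`, higher derivatives zero. -/
def Pat {W : Type} [DecidableEq I] {R : ℕ} (Bm : G I → Matrix W W (ZMod 2))
    (Mt : Matrix W W (ZMod 2)) (ξ : Fin R → G I) : Prop :=
  (∀ l, ∑ g, (ξ l ⬝ᵥ g) • Bm g = Mt) ∧
    ∀ S : Finset (Fin R), 2 ≤ S.card → ∑ g, (∏ l ∈ S, ξ l ⬝ᵥ g) • Bm g = 0

/-- Integer combinations of characters of the cube. -/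
def IsLam {R : ℕ} (f : Finset (Fin R) → ℤ) : Prop :=
  ∃ c : Finset (Fin R) → ℤ, ∀ C, f C = ∑ S ∈ C.powerset, 2 ^ S.card * c S

/-- The index set of the generators: `R` blocks. -/
abbrev Ix {R : ℕ} (D : Fin R → ℕ) : Type := Σ m : Fin R, Fin (D m)

/-- `w` depends only on the blocks before `m`. -/
def Meas {R : ℕ} {D : Fin R → ℕ} {V : Type} (m : Fin R) (w : G (Ix D) → V) : Prop :=
  ∀ g g' : G (Ix D), (∀ i : Ix D, i.1 < m → g i = g' i) → w g = w g'

/-- The vectors supported on the block `m`. -/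
def Blk {R : ℕ} (D : Fin R → ℕ) (m : Fin R) : Finset (G (Ix D)) :=
  Finset.univ.filter fun ξ => ∀ i : Ix D, i.1 ≠ m → ξ i = 0

end alg

end Pool.Agent.Lib.MP_788af2_nt.AS
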