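import Pool.Agent.Lib.MP_788af2_nt.AS.Defs

/-!
Descent over a Dedekind domain.
-/

set_option linter.unusedSectionVars false

namespace Pool.Agent.Lib.MP_788af2_nt.AS

open Polynomial WeierstrassCurve Pool.Agent.Lib.MP_a3f657_nt.Two

section GlobAbsAux

open IsDedekindDomain WithZero

variable {O F : Type} [CommRing O] [IsDedekindDomain O] [Field F] [Algebra O F]
  [IsFractionRing O F] [CharP F 2] (v : HeightOneSpectrum O)

theorem gaA_pow (o : O) (n : ℕ) :
    algebraMap O F o ∈ Fil (v.valuation F) n ↔ o ∈ v.asIdeal ^ n := by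
  rw [mem_Fil, ← v.intValuation_le_pow_iff_mem, ← v.valuation_of_algebraMap (K := F)]

theorem gaA_int (o : O) : algebraMap O F o ∈ Fil (v.valuation F) 0 :=
  (gaA_pow v o 0).2 (by simp)

theorem gaA_one (o : O) : algebraMap O F o ∈ Fil (v.valuation F) 1 ↔ o ∈ v.asIdeal := by
  simpa using gaA_pow (F := F) v o 1

theorem gaA_ord {o : O} (h : o ∉ v.asIdeal) :
    algebraMap O F o ≠ 0 ∧ ord (v.valuation F) (algebraMap O F o) = 0 :=
  ord_eq_of (gaA_int v o) fun k => h ((gaA_one v o).1 (by simpa using k))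

theorem gaA_le {x : F} : x ∈ Fil (v.valuation F) 0 ↔ v.valuation F x ≤ 1 := by
  rw [mem_Fil]
  simp

theorem gaA_near {x : F} (hx : x ∈ Fil (v.valuation F) 0) :
    ∃ o : O, x + algebraMap O F o ∈ Fil (v.valuation F) 1 := by
  obtain ⟨o, ho⟩ := v.exists_valuation_sub_lt_of_integer ((gaA_le v).1 hx) 1
  refine ⟨o, ?_⟩
  rw [CharTwo.sub_eq_add, add_comm] at ho
  by_contra hn
  obtain ⟨h1, h2⟩ := ord_eq_of (add_mem hx (gaA_int v o)) (by simpa using hn)
  have h3 := (Valuation.ne_zero_iff (v.valuation F)).2 h1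
  rw [ord, neg_eq_zero] at h2
  rw [← exp_log h3, h2] at ho
  simp at ho

theorem gaA_pi : ∃ π : F, π ≠ 0 ∧ ord (v.valuation F) π = 1 := by
  obtain ⟨π, h⟩ := v.valuation_exists_uniformizer F
  refine ⟨π, ?_, by simp [ord, h]⟩
  rintro rfl
  exact exp_ne_zero (h.symm.trans (map_zero _))

theorem gaA_neg {w : Valuation F ℤᵐ⁰} {z y r : F} (h : wp z = y + r) (hy : ord w y < 0)
    (hr : r ∈ Fil w 0) : ord w y % 2 = 0 := by
  have hy0 : y ≠ 0 := by
    rintro rfl
    simp at hy
  obtain ⟨h1, h2⟩ := ord_add (w := w) hy0 (Fil.mono hr (by omega))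
  rw [← h] at h1 h2
  by_cases hz : ord w z < 0
  · have := (ord_wp hz).2
    omega
  · have := (mem_Fil_iff h1).1 (Fil.wp (mem_Fil_ord (w := w) z) (c := 0) (by omega) (by omega))
    omega

variable {D : F → F} (Dmul : ∀ x y, D (x * y) = x * D y + y * D x)
  (DO : ∀ o : O, ∃ o' : O, D (algebraMap O F o) = algebraMap O F o')

include Dmul in
theorem gaA_sq (y u : F) : D (y ^ 2 * u) = y ^ 2 * D u := by
  rw [Dmul, sq, Dmul, two_K, mul_zero, add_zero]

include Dmul DO in
theorem gaA_D {x : F} (hx : x ∈ Fil (v.valuation F) 0) : D x ∈ Fil (v.valuation F) 0 := by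
  obtain ⟨n, d, h⟩ := v.exists_primeCompl_mul_eq_of_integer x ((gaA_le v).1 hx)
  obtain ⟨n', hn⟩ := DO n
  obtain ⟨d', hd⟩ := DO d
  obtain ⟨h1, h2⟩ := gaA_ord (F := F) v d.2
  rw [← h, Dmul, hd] at hn
  have e : D x * algebraMap O F d = algebraMap O F n' + x * algebraMap O F d' := by grind
  refine Fil.of_mul (a := 0) ?_ h1 (by omega)
  rw [e]
  exact add_mem (gaA_int v _) (Fil.mul hx (gaA_int v _) le_rfl)

include Dmul DO in
theorem gaA_even {x : F} (hx : x ≠ 0) (h : ord (v.valuation F) x % 2 = 0) :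
    D x / x ∈ Fil (v.valuation F) 0 := by
  obtain ⟨π, h0, h1⟩ := gaA_pi (F := F) v
  have h2 : π ^ (ord (v.valuation F) x / 2) ≠ 0 := zpow_ne_zero _ h0
  have h3 : ord (v.valuation F) (π ^ (ord (v.valuation F) x / 2)) = ord (v.valuation F) x / 2 := by
    rw [ord_zpow, h1, mul_one]
  generalize π ^ (ord (v.valuation F) x / 2) = y at h2 h3
  have h4 : ord (v.valuation F) (x / y ^ 2) = 0 := by
    rw [ord_div hx (pow_ne_zero 2 h2), ord_sq]
    omega
  have e : D x / x = D (x / y ^ 2) / (x / y ^ 2) := by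
    have := gaA_sq Dmul y (x / y ^ 2)
    rw [mul_div_cancel₀ _ (pow_ne_zero 2 h2)] at this
    rw [this]
    field_simp
  rw [e]
  exact Fil.div (gaA_D v Dmul DO (mem_Fil_of_le h4.ge)) (by omega)

include Dmul DO in
theorem gaA_dlog {x : F} (hx : x ≠ 0) : D x / x ∈ Fil (v.valuation F) (-1) := by
  rcases Int.emod_two_eq_zero_or_one (ord (v.valuation F) x) with h | h
  · exact Fil.mono (gaA_even v Dmul DO hx h) (by omega)
  obtain ⟨π, h0, h1⟩ := gaA_pi (F := F) v
  have h2 := gaA_even v Dmul DO (div_ne_zero hx h0) (by rw [ord_div hx h0]; omega)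
  have e : D x / x = D (x / π) / (x / π) + D π / π := by
    have := Dmul π (x / π)
    rw [mul_div_cancel₀ _ h0] at this
    rw [this]
    field_simp
  rw [e]
  exact add_mem (Fil.mono h2 (by omega))
    (Fil.div (gaA_D v Dmul DO (mem_Fil_of_le (by omega))) (by omega))

include Dmul DO in
theorem gaA_bs {bs : O} (hcop : ∃ u v : O, algebraMap O F u * algebraMap O F bs +
      algebraMap O F v * D (algebraMap O F bs) = 1) :
    ord (v.valuation F) (algebraMap O F bs) ≤ 1 := by
  by_contra hn
  obtain ⟨u, u', e⟩ := hcop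
  obtain ⟨π, h0, h1⟩ := gaA_pi (F := F) v
  have h2 : algebraMap O F bs ∈ Fil (v.valuation F) 2 := mem_Fil_of_le (by omega)
  have h3 := gaA_sq Dmul π (algebraMap O F bs / π ^ 2)
  rw [mul_div_cancel₀ _ (pow_ne_zero 2 h0)] at h3
  have h4 : (1 : F) ∈ Fil (v.valuation F) 1 := by
    rw [← e, h3]
    exact add_mem (Fil.mul (gaA_int v u) h2 (by omega)) (Fil.mul (gaA_int v u')
      (Fil.mul (mem_Fil_ord _) (gaA_D v Dmul DO (Fil.div h2 (by rw [ord_sq]; omega))) le_rfl)
      (by rw [ord_sq]; omega))
  simp [mem_Fil_iff] at h4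

end GlobAbsAux

open IsDedekindDomain in
theorem glob_abs {O F : Type} [CommRing O] [IsDedekindDomain O] [Field F] [Algebra O F]
    [IsFractionRing O F] [CharP F 2] (D : F → F) (Dadd : ∀ x y, D (x + y) = D x + D y)
    (Dmul : ∀ x y, D (x * y) = x * D y + y * D x)
    (DO : ∀ o : O, ∃ o' : O, D (algebraMap O F o) = algebraMap O F o') {a s bs th : O}
    (hs : s ≠ 0) (hcop : ∃ u v : O, algebraMap O F u * algebraMap O F bs +
      algebraMap O F v * D (algebraMap O F bs) = 1) (hbs : bs ∣ s) (hth : bs ∣ a + th ^ 2 + th)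
    (hns : ∀ Q : Ideal O, Q.IsMaximal → s ∈ Q → bs ∉ Q → ∀ o, a + o ^ 2 + o ∉ Q) {x z : F}
    (hx : x ≠ 0) (h : wp z = x + algebraMap O F a + algebraMap O F s ^ 2 / x) :
    (∃ o : O, algebraMap O F bs * (D x / x) = algebraMap O F o) ∧
      ∃ (ζ : F) (o : O), algebraMap O F s ^ 2 / x + wp ζ = algebraMap O F (bs * o) := by
  classical
  have inj := IsFractionRing.injective O F
  have hb0 : bs ≠ 0 := ne_zero_of_dvd_ne_zero hs hbs
  have hbF : algebraMap O F bs ≠ 0 := fun e => hb0 (inj (e.trans (map_zero _).symm))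
  have hsF : algebraMap O F s ≠ 0 := fun e => hs (inj (e.trans (map_zero _).symm))
  have hh : ∀ v : HeightOneSpectrum O, ord (v.valuation F) (algebraMap O F s ^ 2 / x) =
      2 * ord (v.valuation F) (algebraMap O F s) - ord (v.valuation F) x := fun v => by
    rw [ord_div (pow_ne_zero 2 hsF) hx, ord_sq]
  have hb1 : ∀ v : HeightOneSpectrum O, 0 ≤ ord (v.valuation F) (algebraMap O F bs) := fun v =>
    (mem_Fil_iff hbF).1 (gaA_int v bs)
  have hb2 : ∀ v : HeightOneSpectrum O, ord (v.valuation F) (algebraMap O F bs) ≤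
      ord (v.valuation F) (algebraMap O F s) := fun v => by
    obtain ⟨m, rfl⟩ := hbs
    rw [← mem_Fil_iff hsF, map_mul]
    exact Fil.mul (mem_Fil_ord _) (gaA_int v m) (by omega)
  constructor
  · obtain ⟨o, ho⟩ := HeightOneSpectrum.mem_integers_of_valuation_le_one F
      (algebraMap O F bs * (D x / x)) fun v => (gaA_le v).1 (by
        by_cases hv : bs ∈ v.asIdeal
        · exact Fil.mul ((gaA_one v bs).2 hv) (gaA_dlog v Dmul DO hx) (by omega)
        refine Fil.mul (gaA_int v bs) (gaA_even v Dmul DO hx ?_) le_rfl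
        have h1 := hh v
        have h2 := hb1 v
        have h3 := hb2 v
        by_cases c1 : ord (v.valuation F) x < 0
        · exact gaA_neg (h.trans (add_assoc _ _ _)) c1
            (add_mem (gaA_int v a) (mem_Fil_of_le (by omega)))
        by_cases c2 : ord (v.valuation F) (algebraMap O F s ^ 2 / x) < 0
        · have := gaA_neg (h.trans (add_comm _ _)) c2
            (add_mem (mem_Fil_of_le (by omega)) (gaA_int v a))
          omega
        by_contra c3
        have x1 : x ∈ Fil (v.valuation F) 1 := mem_Fil_of_le (by omega)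
        have s1 : algebraMap O F s ^ 2 / x ∈ Fil (v.valuation F) 1 := mem_Fil_of_le (by omega)
        have z0 : z ∈ Fil (v.valuation F) 0 := Fil.of_wp (a := 0) (by
          rw [h]
          exact add_mem (add_mem (Fil.mono x1 (by omega)) (gaA_int v a))
            (Fil.mono s1 (by omega))) (by omega) le_rfl
        obtain ⟨o, ho⟩ := gaA_near v z0
        refine hns _ v.isMaximal ((gaA_one (F := F) v s).1 (mem_Fil_of_le (by omega))) hv o
          ((gaA_one (F := F) v _).1 ?_)
        have e : algebraMap O F (a + o ^ 2 + o) =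
            wp (z + algebraMap O F o) + x + algebraMap O F s ^ 2 / x := by
          rw [wp_add, h, map_add, map_add, map_pow, wp]
          grind
        rw [e]
        exact add_mem (add_mem (Fil.wp ho le_rfl (by omega)) x1) s1)
    exact ⟨o, ho.symm⟩
  · obtain ⟨m, hm⟩ := hth
    have hz : wp (z + algebraMap O F th) =
        x + algebraMap O F bs * algebraMap O F m + algebraMap O F s ^ 2 / x := by
      rw [wp_add, h, ← map_mul, ← hm, map_add, map_add, map_pow, wp]
      ring
    generalize z + algebraMap O F th = y at hz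
    obtain ⟨n, d, hd, hnd⟩ := IsFractionRing.div_surjective (A := O) x
    have hd0 := nonZeroDivisors.ne_zero hd
    have hn0 : n ≠ 0 := by
      rintro rfl
      exact hx (by rw [← hnd, map_zero, zero_div])
    have fin := Ideal.finite_factors (I := Ideal.span {n * d * bs})
      (by simpa [Ideal.span_singleton_eq_bot] using ⟨⟨hn0, hd0⟩, hb0⟩)
    obtain ⟨c, hc⟩ := exists_forall_sub_mem_ideal (s := fin.toFinset) (fun v => v.asIdeal)
      (fun v => (1 - ord (v.valuation F) y).toNat) (fun v _ => v.prime)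
      (fun v _ w _ e k => e (HeightOneSpectrum.ext k))
      fun v => if 0 < ord (v.1.valuation F) x then 1 else 0
    obtain ⟨o, ho⟩ := HeightOneSpectrum.mem_integers_of_valuation_le_one F
      ((algebraMap O F s ^ 2 / x + wp (algebraMap O F c * y)) / algebraMap O F bs)
      fun v => (gaA_le v).1 (Fil.div (a := ord (v.valuation F) (algebraMap O F bs)) (by
        have h1 := hh v
        have h2 := hb1 v
        have h3 := hb2 v
        have h4 := gaA_bs v Dmul DO hcop
        by_cases hv : v ∈ fin.toFinset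
        · have h5 := Fil.mul ((gaA_pow (F := F) v _ _).2 (hc v hv)) (mem_Fil_ord y) (c := 1)
            (by omega)
          by_cases c1 : 0 < ord (v.valuation F) x
          · rw [if_pos c1, map_sub, map_one, CharTwo.sub_eq_add] at h5
            have e : algebraMap O F s ^ 2 / x + wp (algebraMap O F c * y) =
                wp ((algebraMap O F c + 1) * y) + x + algebraMap O F bs * algebraMap O F m := by
              rw [add_mul, one_mul, wp_add, hz]
              grind
            rw [e]
            exact add_mem (add_mem (Fil.wp h5 h4 (by omega)) (mem_Fil_of_le (by omega)))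
              (Fil.mul (mem_Fil_ord _) (gaA_int v m) (by omega))
          · rw [if_neg c1, sub_zero] at h5
            exact add_mem (mem_Fil_of_le (by omega)) (Fil.wp h5 h4 (by omega))
        · rw [Set.Finite.mem_toFinset, Set.mem_ofPred_eq, Ideal.dvd_span_singleton] at hv
          obtain ⟨n1, n2⟩ := gaA_ord (F := F) v (o := n)
            fun k => hv (Ideal.mul_mem_right _ _ (Ideal.mul_mem_right _ _ k))
          obtain ⟨d1, d2⟩ := gaA_ord (F := F) v (o := d)
            fun k => hv (Ideal.mul_mem_right _ _ (Ideal.mul_mem_left _ _ k))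
          have b2 := (gaA_ord (F := F) v (o := bs) fun k => hv (Ideal.mul_mem_left _ _ k)).2
          have x0 : ord (v.valuation F) x = 0 := by rw [← hnd, ord_div n1 d1, n2, d2, sub_zero]
          have s0 : algebraMap O F s ^ 2 / x ∈ Fil (v.valuation F) 0 := mem_Fil_of_le (by omega)
          have y0 : y ∈ Fil (v.valuation F) 0 := Fil.of_wp (a := 0) (by
            rw [hz]
            exact add_mem (add_mem (mem_Fil_of_le x0.ge)
              (Fil.mul (gaA_int v bs) (gaA_int v m) le_rfl)) s0) (by omega) le_rfl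
          rw [b2]
          exact add_mem s0 (Fil.wp (Fil.mul (gaA_int v c) y0 le_rfl) le_rfl le_rfl)) (by omega))
    exact ⟨algebraMap O F c * y, o, by rw [map_mul, ho, mul_div_cancel₀ _ hbF]⟩

end Pool.Agent.Lib.MP_788af2_nt.AS
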