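import Pool.Agent.Lib.MP_788af2_nt.AS.MW
import Pool.Agent.Lib.MP_788af2_nt.AS.GlobAbs
import Pool.Agent.Lib.MP_788af2_nt.AS.Spl

/-!
The Mordell-Weil theorem for all the curves of the family.
-/

set_option linter.unusedSectionVars false

namespace Pool.Agent.Lib.MP_788af2_nt.AS

open Polynomial WeierstrassCurve Pool.Agent.Lib.MP_a3f657_nt.Two

section aux

variable {k : Type} [Field k] [Finite k] [CharP k 2]

private theorem weak_glob (a : k[X]) {s : k[X]} (hs : s ≠ 0) :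
    ∃ bs : k[X], bs ≠ 0 ∧ ∀ x z : RatFunc k, x ≠ 0 → wp z = x + ι a + ι s ^ 2 / x →
      (∃ o : k[X], ι bs * ((PX k).D x / x) = ι o) ∧
        ∃ (ζ : RatFunc k) (o : k[X]), ι s ^ 2 / x + wp ζ = ι o := by
  have hA := adm_spl hs a
  set bs := ∏ q ∈ Spl s a, q
  have hbs0 : bs ≠ 0 := fun e => hs (by simpa [e] using hA.dvd)
  refine ⟨bs, hbs0, fun x z hx h => ?_⟩
  obtain ⟨th, hth⟩ := hA.spl
  obtain ⟨u, v, huv⟩ := hA.cop
  have hcop : ∃ u v : k[X], algebraMap k[X] (RatFunc k) u * algebraMap k[X] (RatFunc k) bs +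
      algebraMap k[X] (RatFunc k) v * (PX k).D (algebraMap k[X] (RatFunc k) bs) = 1 :=
    ⟨u, v, by
      rw [D_ι, ← map_mul, ← map_mul, ← map_add, huv, map_one]⟩
  have hns : ∀ Q : Ideal k[X], Q.IsMaximal → s ∈ Q → bs ∉ Q → ∀ o, a + o ^ 2 + o ∉ Q := by
    intro Q hQ hsQ hbQ o
    obtain ⟨q, rfl⟩ := (IsPrincipalIdealRing.principal Q).principal
    have e : ∀ y : k[X], y ∈ Submodule.span k[X] {q} ↔ q ∣ y := fun y => Ideal.mem_span_singleton
    rw [e] at hsQ hbQ ⊢
    have hq0 : q ≠ 0 := fun e => hs (by simpa [e] using hsQ)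
    have hq : Prime q := (Ideal.span_singleton_prime hq0).1 hQ.isPrime
    exact hA.non q hq.irreducible hsQ hbQ o
  obtain ⟨h1, ζ, o, h2⟩ := glob_abs (O := k[X]) (F := RatFunc k) (PX k).D (PX k).D_add
    (PX k).D_mul (fun o => ⟨derivative o, D_ι o⟩) hs hcop hA.dvd hth hns hx h
  exact ⟨h1, ζ, bs * o, h2⟩

private theorem weak_dlog (x : RatFunc k) : (PX k).D x / x ∈ Fil (val none) 1 := by
  have h1 : (pl none).P.D x / x ∈ Fil (val (k := k) none) (-1) := PreLoc.dlog_mem (L := pl none) x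
  rw [D_eq none x, mul_div_right_comm]
  refine Fil.mul h1 (mem_Fil_ord _) ?_
  rw [ord_D_unif]
  simp [eD]

private theorem weak_red {B : ℕ} {o : k[X]} {z : RatFunc k}
    (h : ι o + wp z ∈ Fil (val none) (-B)) :
    ∃ o' : k[X], o'.natDegree ≤ B ∧ ∃ z', ι o' = ι o + wp z' := by
  refine ⟨o + wp (pol z), ?_, ι (pol z), by simp [ι, wp]⟩
  rw [← ι_mem_none]
  have h1 : wp (z - ι (pol z)) ∈ Fil (val (k := k) none) (-B) :=
    Fil.wp (pol_spec z) (by omega) (by omega)
  have e : ι (o + wp (pol z)) = (ι o + wp z) + wp (z - ι (pol z)) := by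
    simp only [ι, wp, map_add, map_pow]
    grind
  rw [e]
  exact add_mem h h1

end aux

theorem fg_all {k : Type} [Field k] [Finite k] [CharP k 2] [DecidableEq (RatFunc k)] (a : k[X])
    {s : k[X]} (hs : s ≠ 0) : AddGroup.FG (Ec (ι a) (ι s)).Point := by
  have hs' : ι s ≠ 0 := ι_ne hs
  refine mw hs' ?_
  obtain ⟨bs, hbs0, hglob⟩ := weak_glob a hs
  let f : (Ec (ι a) (ι s)).Point →+ RatFunc k :=
    { toFun := fun P => (PX k).D (xc P) / xc P
      map_zero' := by simp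
      map_add' := fun P Q => ff_add (PX k) hs' P Q }
  let δ : (Ec (ι a) (ι s)).Point →+ RatFunc k ⧸ (wpH (K := RatFunc k)).range :=
    { toFun := fun P => QuotientAddGroup.mk (dl P)
      map_zero' := by simp
      map_add' := fun P Q => by
        obtain ⟨l, hl⟩ := dl_add P Q
        have h0 : (QuotientAddGroup.mk (wp l) : RatFunc k ⧸ (wpH (K := RatFunc k)).range) = 0 :=
          (QuotientAddGroup.eq_zero_iff (wp l)).2 ⟨l, rfl⟩
        rw [hl, QuotientAddGroup.mk_add, QuotientAddGroup.mk_add, h0, add_zero] }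
  have hf : Finite f.range := by
    refine Set.Finite.subset (((finite_degree_lt (k := k) (bs.natDegree : ℕ)).image
      fun o => ι o / ι bs)) ?_
    rintro _ ⟨P, rfl⟩
    by_cases hx : xc P = 0
    · exact ⟨0, by simp, by simp [f, hx]⟩
    obtain ⟨⟨o, ho⟩, -⟩ := hglob _ _ hx (wp_pt P hx)
    refine ⟨o, ?_, ?_⟩
    · change o.degree < (bs.natDegree : ℕ)
      rw [← ι_mem_none', ← ho]
      exact Fil.mul (ι_mem_none_self bs) (weak_dlog _) (by omega)
    · change ι o / ι bs = (PX k).D (xc P) / xc P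
      rw [← ho, mul_div_cancel_left₀ _ (ι_ne hbs0)]
  have hδ : Finite δ.range := by
    let B : ℕ := 2 * s.natDegree + a.natDegree
    refine Set.Finite.subset (((finite_degree_lt (k := k) (B + 1 : ℕ)).image
      fun o => (QuotientAddGroup.mk (ι o) : RatFunc k ⧸ (wpH (K := RatFunc k)).range))) ?_
    have hdeg : ∀ o : k[X], o.natDegree ≤ B → o.degree < (B + 1 : ℕ) := fun o ho =>
      lt_of_le_of_lt degree_le_natDegree (by exact_mod_cast Nat.lt_succ_of_le ho)
    rintro _ ⟨P, rfl⟩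
    by_cases hP : P = 0
    · exact ⟨0, by simp, by simp [hP]⟩
    by_cases hx : xc P = 0
    · refine ⟨a, hdeg a (by omega), ?_⟩
      change _ = QuotientAddGroup.mk (dl P)
      rw [dl_eq hP, hx, zero_add]
    have hw := wp_pt P hx
    obtain ⟨-, ζ, o, ho⟩ := hglob _ _ hx hw
    have key : ∃ z, ι o + wp z ∈ Fil (val (k := k) none) (-B) := by
      by_cases h0 : xc P ∈ Fil (val (k := k) none) 0
      · refine ⟨ζ + yc P / xc P, ?_⟩
        have e : ι o + wp (ζ + yc P / xc P) = xc P + ι a := by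
          rw [wp_add, hw, ← ho]; grind
        rw [e]
        exact add_mem (Fil.mono h0 (by omega)) (Fil.mono (ι_mem_none_self a) (by omega))
      · refine ⟨ζ, ?_⟩
        have e : ι o + wp ζ = ι s ^ 2 / xc P := by rw [← ho]; grind
        rw [e]
        have h1 := (not_mem_Fil.1 h0).2
        exact Fil.div (Fil.sq (ι_mem_none_self s) le_rfl) (by omega)
    obtain ⟨z, hz⟩ := key
    obtain ⟨o', ho', z', hz'⟩ := weak_red hz
    refine ⟨o', hdeg o' ho', ?_⟩
    change QuotientAddGroup.mk (ι o') = QuotientAddGroup.mk (dl P)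
    rw [QuotientAddGroup.eq, dl_eq hP]
    refine ⟨z' + ζ + yc P / xc P, ?_⟩
    rw [wpH_apply, wp_add, wp_add, hw, hz', ← ho]
    grind
  have hle : f.ker ⊓ δ.ker ≤ (nsmulAddMonoidHom (α := (Ec (ι a) (ι s)).Point) 2).range := by
    rintro P ⟨h1, h2⟩
    have h1' : (PX k).D (xc P) / xc P = 0 := h1
    obtain ⟨z, hz⟩ : ∃ z, wp z = dl P := (QuotientAddGroup.eq_zero_iff (dl P)).1 h2
    suffices ∃ Q : (Ec (ι a) (ι s)).Point, Q + Q = P by
      obtain ⟨Q, hQ⟩ := this
      exact ⟨Q, by rw [nsmulAddMonoidHom_apply, two_nsmul, hQ]⟩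
    by_cases hP : P = 0
    · exact ⟨0, by simp [hP]⟩
    rw [dl_eq hP] at hz
    have e1 : ι s ^ 2 / ι s = ι s := by field_simp
    by_cases hx : xc P = 0
    · obtain ⟨Q, hQ0, hQx, -⟩ := exists_pt (a := ι a) hs' (z := z) hs' (by
        rw [hz, hx, e1]; grind)
      obtain ⟨h3, h4⟩ := xc_two (P := Q) (by rw [hQx]; exact hs')
      have h5 : xc (Q + Q) = 0 := by rw [h4, hQx, e1]; grind
      have hy : ∀ R : (Ec (ι a) (ι s)).Point, R ≠ 0 → xc R = 0 → yc R = 0 := by
        intro R hR hRx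
        have := pt_eq hR
        rw [hRx] at this
        simpa using this
      exact ⟨Q, pt_ext h3 hP (by rw [h5, hx]) (by rw [hy _ h3 h5, hy _ hP hx])⟩
    · have hD : (PX k).D (xc P) = 0 := by simpa [hx] using h1'
      have hsq := (PX k).D_eq_zero hD
      have hw0 : (PX k).c0 (xc P) ≠ 0 := fun e => hx (by rw [hsq, e]; simp)
      obtain ⟨Q, hQ, -⟩ := half hs' (l := yc P / xc P + z) hw0 hsq (by
        rw [wp_add, wp_pt P hx, hz]; grind)
      exact ⟨Q, hQ⟩
  exact AddSubgroup.finiteIndex_of_le hle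

end Pool.Agent.Lib.MP_788af2_nt.AS
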