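import Pool.Agent.Lib.MP_788af2_nt.AS.Main
import Pool.Agent.Lib.MP_788af2_nt.AS.Weak
import Pool.Agent.Lib.MP_788af2_nt.AS.AllDeg

/-!
All degrees.
-/

set_option linter.unusedSectionVars false

namespace Pool.Agent.Lib.MP_788af2_nt.AS

open Polynomial WeierstrassCurve Pool.Agent.Lib.MP_a3f657_nt.Two

variable {k : Type} [Field k] [Finite k] [CharP k 2] [DecidableEq (RatFunc k)]

lemma fg_Eb (a : k[X]) {b : k[X]} (hb : b ≠ 0) : AddGroup.FG (Eb (ι a) (ι b)).Point := by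
  obtain ⟨j, hj⟩ := frob_inj (ι a) (ι b) 0
  refine (rank_le_of_inj j hj ?_).1
  rw [pow_zero, pow_one]
  exact fg_all a hb

lemma rk_le (a z : k[X]) {b : k[X]} (hb : b ≠ 0) : rk b a ≤ rk b (a + z ^ 2 + z) := by
  obtain ⟨j, hj, -⟩ := exists_tmap (RingHom.id _) (Eb (ι a) (ι b)) (Eb (ι (a + z ^ 2 + z)) (ι b))
    (ι z) 0 rfl rfl rfl rfl (by simp [Eb, wp, add_assoc]) (by simp [Eb]) (by simp [Eb])
  exact (rank_le_of_inj j hj (fg_Eb _ hb)).2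

theorem final {b : k[X]} (hb : 0 < b.natDegree) (m : ℕ) (hm : 1 ≤ m) (ε : ℝ) (hε : 0 < ε) :
    ∃ N₀ : ℕ, ∀ N, N₀ ≤ N → ∃ A : Finset k[X], A.Nonempty ∧ (∀ a, a ∈ A ↔ a.natDegree ≤ N) ∧
      (∀ a ∈ A, AddGroup.FG (Eb (ι a) (ι b)).Point) ∧
      ∑ a ∈ A, (rk b a : ℝ) ^ m ≤ (1 / 2 + ε) * A.card := by
  have hb0 : b ≠ 0 := by rintro rfl; simp at hb
  obtain ⟨M, hM⟩ := main b.natDegree m hm (ε / 2) (by positivity)
  obtain ⟨N₀, h⟩ := all_deg (fun a => (rk b a : ℝ) ^ m) (fun a z => by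
    have h1 := rk_le a z hb0
    have h2 := rk_le (a + z ^ 2 + z) z hb0
    rw [show a + z ^ 2 + z + z ^ 2 + z = a by grind] at h2
    simp only [le_antisymm h2 h1]) (1 / 2 + ε / 2) M
    (fun e he ho A hA => (hM k b hb le_rfl e he ho A hA).2) (ε / 2) (by positivity)
  refine ⟨N₀, fun N hN => ?_⟩
  obtain ⟨A, h1, h2⟩ := exists_box (k := k) N
  exact ⟨A, h1, h2, fun a _ => fg_Eb a hb0, by simpa [add_assoc] using h N hN A h2⟩

end Pool.Agent.Lib.MP_788af2_nt.AS
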