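import Pool.Agent.Lib.MP_788af2_nt.AS.Int
import Pool.Agent.Lib.MP_788af2_nt.AS.GlobAbs

/-!
Descent over the ring of integers of the tower.
-/

set_option linter.unusedSectionVars false

namespace Pool.Agent.Lib.MP_788af2_nt.AS

open Polynomial WeierstrassCurve Pool.Agent.Lib.MP_a3f657_nt.Two

namespace Tw

variable {k : Type} [Field k] [Finite k] [CharP k 2] {I : Type} [Fintype I] [DecidableEq I]
  {β : I → k[X]} {L : Type} [Field L] [CharP L 2] (T : Tw β L)

/-- Polynomials inside the ring of integers. -/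
noncomputable def pO : k[X] →+* T.O := T.p.codRestrict T.O T.p_mem_O

/-- The ring of integers inside the global field. -/
noncomputable def iO : T.O →+* T.Lg := T.O.subtype.codRestrict T.Lg fun x => T.O_le_Lg x.2

/-- The ring of integers as an algebra over the polynomials. -/
noncomputable local instance algPO : Algebra k[X] T.O := T.pO.toAlgebra

/-- The global field as an algebra over the ring of integers. -/
noncomputable local instance algOL : Algebra T.O T.Lg := T.iO.toAlgebra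

lemma coe_alg (x : T.O) : (algebraMap T.O T.Lg x : L) = x :=
  RingHom.codRestrict_apply T.O.subtype T.Lg (fun x => T.O_le_Lg x.2) x

lemma coe_pO (a : k[X]) : (T.pO a : L) = T.p a := RingHom.codRestrict_apply T.p T.O T.p_mem_O a

lemma O_sub (S : Subring T.O) (hp : ∀ a, T.pO a ∈ S) (hθ : ∀ i, ⟨T.θ i, T.θ_mem_O i⟩ ∈ S)
    (x : T.O) : x ∈ S := by
  have h : T.O ≤ S.map T.O.subtype := Subring.closure_le.2 (by
    rintro _ (⟨a, rfl⟩ | ⟨i, rfl⟩)
    exacts [⟨_, hp a, rfl⟩, ⟨_, hθ i, rfl⟩])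
  obtain ⟨y, hy, e⟩ := h x.2
  exact (Subtype.ext e : y = x) ▸ hy

lemma isIntegral_O : Algebra.IsIntegral k[X] T.O := ⟨fun x => by
  obtain ⟨f, hf, e⟩ := T.O_int x.2
  exact ⟨f, hf, Subtype.ext ((hom_eval₂ f T.pO T.O.subtype x).trans e)⟩⟩

lemma isFractionRing_O : IsFractionRing T.O T.Lg := by
  have : FaithfulSMul T.O T.Lg := (faithfulSMul_iff_algebraMap_injective _ _).2 fun x y h =>
    Subtype.ext (by rw [← T.coe_alg x, h, T.coe_alg y])
  refine IsFractionRing.of_field _ _ fun x => ?_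
  obtain ⟨a, ha, h⟩ := T.mem_Lg.1 x.2
  refine ⟨⟨_, h⟩, T.pO a, eq_div_of_mul_eq (fun e => T.p_ne ha (congrArg Subtype.val e)) ?_⟩
  exact Subtype.ext (mul_comm x.1 (T.p a))

theorem isDedekind : IsDedekindDomain T.O := by
  classical
  have := T.isIntegral_O
  have := T.isFractionRing_O
  have : Algebra.FiniteType k[X] T.O := ⟨Finset.univ.image fun i => ⟨T.θ i, T.θ_mem_O i⟩,
    eq_top_iff.2 fun x _ => Subalgebra.mem_toSubring.1 (T.O_sub _
      (fun a => Subalgebra.algebraMap_mem _ a) (fun i => Algebra.subset_adjoin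
        (Finset.mem_coe.2 (Finset.mem_image_of_mem _ (Finset.mem_univ i)))) x)⟩
  have : IsNoetherianRing T.O := Algebra.FiniteType.isNoetherianRing k[X] T.O
  have : Ring.DimensionLEOne T.O := ⟨fun {Q} h1 h2 =>
    Ideal.isMaximal_of_isIntegral_of_isMaximal_comap (R := k[X]) Q
      (IsPrime.to_maximal_ideal (Ideal.IsIntegral.comap_ne_bot k[X] h1))⟩
  have : IsIntegrallyClosed T.O := (isIntegrallyClosed_iff T.Lg).2 fun {x} hx => by
    let _ : Algebra k[X] T.Lg := (T.iO.comp T.pO).toAlgebra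
    have : IsScalarTower k[X] T.O T.Lg := IsScalarTower.of_algebraMap_eq fun _ => rfl
    obtain ⟨f, hf, e⟩ := isIntegral_trans (R := k[X]) x hx
    exact ⟨⟨x, T.int_O x.2 ⟨f, hf, (hom_eval₂ f _ T.Lg.subtype x).symm.trans
      (congrArg Subtype.val e)⟩⟩, rfl⟩
  exact {}

lemma exists_pO {b : k[X]} (hb : ∀ i, b ∣ β i) {Q : Ideal T.O} (hQ : Q.IsPrime) (h : T.pO b ∈ Q)
    (o : T.O) : ∃ z, Ideal.Quotient.mk Q (T.pO z) = Ideal.Quotient.mk Q o := by
  refine T.O_sub (((Ideal.Quotient.mk Q).comp T.pO).range.comap (Ideal.Quotient.mk Q))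
    (fun a => ⟨a, rfl⟩) (fun i => ?_) o
  obtain ⟨c, hc⟩ := hb i
  have e : (⟨T.θ i, T.θ_mem_O i⟩ : T.O) * (⟨T.θ i, T.θ_mem_O i⟩ + 1) =
      T.pO (X * b * c ^ 2) * T.pO b := by
    rw [← map_mul, show X * b * c ^ 2 * b = X * β i ^ 2 by rw [hc]; ring]
    exact Subtype.ext ((show T.θ i * (T.θ i + 1) = wp (T.θ i) by unfold wp; ring).trans (T.θ_wp i))
  rcases hQ.mem_or_mem (e ▸ Q.mul_mem_left _ h) with h1 | h1
  · exact ⟨0, by rw [map_zero, Ideal.Quotient.eq_zero_iff_mem.2 h1]⟩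
  · have h2 := Ideal.Quotient.eq_zero_iff_mem.2 h1
    rw [map_add, map_one] at h2
    exact ⟨-1, by rw [map_neg, map_one, eq_neg_of_add_eq_zero_left h2]⟩

theorem glob {a b bs s : k[X]} (hb : ∀ i, b ∣ β i) (hb0 : b ≠ 0) (hs : ∃ j, s = b ^ (j + 1))
    (hA : Adm b bs a) {x z : L} (hx : x ∈ T.Lg) (hz : z ∈ T.Lg) (h0 : x ≠ 0)
    (h : wp z = x + T.p a + T.p s ^ 2 / x) :
    T.P.D x / x ∈ T.Wl bs ∧ ∃ ζ ∈ T.Lg, ∃ o ∈ T.O, T.p s ^ 2 / x + wp ζ = T.p bs * o := by
  have := T.isDedekind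
  have := T.isFractionRing_O
  obtain ⟨j, rfl⟩ := hs
  obtain ⟨u, v, huv⟩ := hA.cop
  obtain ⟨th, hth⟩ := hA.spl
  let D : T.Lg → T.Lg := fun y => ⟨T.P.D y, pow_mem (T.c1_Lg y.2) 2⟩
  have hD : ∀ y, (D y : L) = T.P.D y := fun _ => rfl
  have hw : ∀ y : T.Lg, ((wp y : T.Lg) : L) = wp (y : L) := fun _ => rfl
  clear_value D
  obtain ⟨⟨o, h1⟩, ζ, o', h2⟩ := glob_abs (O := T.O) (F := T.Lg) D
    (fun _ _ => Subtype.ext (by simp only [hD, Subfield.coe_add, PB.D_add]))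
    (fun _ _ => Subtype.ext (by simp only [hD, Subfield.coe_add, Subfield.coe_mul, PB.D_mul]))
    (fun o => ⟨⟨_, T.D_O o.2⟩, Subtype.ext (by simp only [hD, coe_alg])⟩)
    (a := T.pO a) (s := T.pO (b ^ (j + 1))) (bs := T.pO bs) (th := T.pO th)
    (fun e => T.p_ne (pow_ne_zero _ hb0) (by rw [← coe_pO, e, Subring.coe_zero]))
    ⟨T.pO u, T.pO v, Subtype.ext (by
      simp only [hD, coe_alg, coe_pO, Subfield.coe_add, Subfield.coe_mul, Subfield.coe_one]
      rw [D_p, ← map_mul, ← map_mul, ← map_add, huv, map_one])⟩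
    (map_dvd _ (hA.dvd.trans (dvd_pow_self b j.succ_ne_zero)))
    (by simpa only [map_add, map_pow] using map_dvd T.pO hth)
    (fun Q hQ h3 h4 o h5 => by
      have hP := hQ.isPrime
      have h6 : T.pO b ∈ Q := hP.mem_of_pow_mem (j + 1) (map_pow T.pO b _ ▸ h3)
      obtain ⟨z, hz⟩ := T.exists_pO hb hP h6 o
      have h7 := @Submodule.IsPrincipal.mem_iff_generator_dvd _ _ (Q.comap T.pO) _
      refine hA.non _ (Submodule.IsPrincipal.prime_generator_of_isPrime (Q.comap T.pO)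
        fun e => hb0 (Ideal.mem_bot.1 (e ▸ (show b ∈ Q.comap T.pO from h6)))).irreducible
        (h7.1 h6) (fun e => h4 (h7.2 e)) z (h7.1 ?_)
      rw [← Ideal.Quotient.eq_zero_iff_mem] at h5
      rw [Ideal.mem_comap, ← Ideal.Quotient.eq_zero_iff_mem]
      simpa only [map_add, map_pow, hz] using h5)
    (x := ⟨x, hx⟩) (z := ⟨z, hz⟩) (fun e => h0 (congrArg Subtype.val e)) (Subtype.ext (by
      simpa only [hw, coe_alg, coe_pO, Subfield.coe_add, Subfield.coe_div, SubmonoidClass.coe_pow]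
        using h))
  rw [Subtype.ext_iff] at h1 h2
  simp only [hD, hw, coe_alg, coe_pO, Subfield.coe_add, Subfield.coe_mul, Subfield.coe_div,
    SubmonoidClass.coe_pow, Subring.coe_mul] at h1 h2
  exact ⟨⟨T.c1_dlog x, h1 ▸ o.2⟩, ζ, ζ.2, o', o'.2, h2⟩

end Tw

end Pool.Agent.Lib.MP_788af2_nt.AS
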