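import Pool.Agent.Lib.MP_788af2_nt.AS.Loc1

/-!
Variation of the pairing with the twist.
-/

set_option linter.unusedSectionVars false

namespace Pool.Agent.Lib.MP_788af2_nt.AS

open Polynomial WeierstrassCurve Pool.Agent.Lib.MP_a3f657_nt.Two

/-- The degree estimate behind the variation formula. -/
private lemma rho_le {L : Type} [Field L] [CharP L 2] (d : DF L) {x y al al' U V η ηd : L}
    {e γ m n M : ℝ} (hγ : 0 ≤ γ) (hn : 0 ≤ n) (l1 : m + n + 8 * γ + 4 ≤ e)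
    (l2 : 2 * n + 16 * γ + 4 ≤ e) (l3 : M + m + 2 ≤ e) (hx : x ≠ 0) (hy : y ≠ 0) (hal : al ≠ 0)
    (hal' : al' ≠ 0) (dx : d.deg x = (e - 1) / 2) (dy : d.deg y = (e - 1) / 2)
    (dal : d.deg al = (e - 1) / 2) (dal' : d.deg al' = (e - 1) / 2) (hU : U ∈ d.Le M)
    (hV : V ∈ d.Le (m + 2 * γ)) (hη : η ∈ d.Le (e / 4 + n / 2 + 2 * γ))
    (hη' : η + ηd ∈ d.Le (e / 4 + n / 2 + 2 * γ))
    (hηd : ηd ∈ d.Le ((2 * M + 1) / 4 + n / 2 + 2 * γ)) (ea : al' = al + U)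
    (ex : x + V / x = al + η) (ey : y + V / y = al' + (η + ηd)) :
    (x + y) / (x * y) + U / (al * al') ∈ d.Le (-1 - m - 2 * γ) := by
  have hxy : x * y ≠ 0 := mul_ne_zero hx hy
  have haa : al * al' ≠ 0 := mul_ne_zero hal hal'
  have dxy : d.deg (x * y) = e - 1 := by rw [d.deg_mul hx hy, dx, dy]; ring
  have daa : d.deg (al * al') = e - 1 := by rw [d.deg_mul hal hal', dal, dal']; ring
  have hξ : V / (x * y) ∈ d.Le (m + 2 * γ - (e - 1)) := DF.Le.div hV (by rw [dxy])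
  have h1ξ := DF.deg_add_lt (d := d) (one_ne_zero (α := L)) hξ (by rw [d.deg_one]; linarith)
  rw [d.deg_one] at h1ξ
  have e1 : V / x + V / y = (x + y) * (V / (x * y)) := by field_simp; ring
  have e2 : (x + y) * (1 + V / (x * y)) = U + ηd := by
    rw [mul_add, mul_one, ← e1]; grind
  have hd : x + y ∈ d.Le (2 * e - 2 * m - 4 * γ - 3) := by
    refine DF.Le.of_mul (r := 2 * e - 2 * m - 4 * γ - 3) ?_ h1ξ.1 (by rw [h1ξ.2]; linarith)
    rw [e2]
    exact add_mem (DF.Le.mono hU (by linarith)) (DF.Le.mono hηd (by linarith))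
  have e3 : x + y + U = ηd + (x + y) * (V / (x * y)) := by
    rw [mul_add, mul_one] at e2; grind
  have hdU : x + y + U ∈ d.Le (e - 2 - m - 2 * γ) := by
    rw [e3]
    exact add_mem (DF.Le.mono hηd (by linarith)) (DF.Le.mul hd hξ (by linarith))
  have hxa : x + al ∈ d.Le (e / 2 - 2 * γ - 1 / 2) := by
    have : x + al = η + V / x := by grind
    rw [this]
    exact add_mem (DF.Le.mono hη (by linarith)) (DF.Le.div hV (by rw [dx]; linarith))
  have hya : y + al' ∈ d.Le (e / 2 - 2 * γ - 1 / 2) := by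
    have : y + al' = (η + ηd) + V / y := by grind
    rw [this]
    exact add_mem (DF.Le.mono hη' (by linarith)) (DF.Le.div hV (by rw [dy]; linarith))
  have hpa : x * y + al * al' ∈ d.Le (e - 2 * γ - 1) := by
    have : x * y + al * al' = (x + al) * y + al * (y + al') := by grind
    rw [this]
    exact add_mem (DF.Le.mul hxa (DF.mem_Le_deg y) (by rw [dy]; linarith))
      (DF.Le.mul (DF.mem_Le_deg al) hya (by rw [dal]; linarith))
  have e4 : (x + y) / (x * y) + U / (al * al') =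
      (x + y + U) / (x * y) + U * (x * y + al * al') / (x * y) / (al * al') := by
    have h2 : (2 : L) = 0 := CharTwo.two_eq_zero
    field_simp
    linear_combination (-(U * al * al')) * h2
  rw [e4]
  refine add_mem (DF.Le.div hdU (by rw [dxy]; linarith)) ?_
  refine DF.Le.div (r := e - 2 - m - 2 * γ) ?_ (by rw [daa]; linarith)
  refine DF.Le.div (r := M + (e - 2 * γ - 1)) (DF.Le.mul hU hpa le_rfl) (by rw [dxy]; linarith)

private lemma adm_add {k : Type} [Field k] {a b bs y : k[X]} (hA : Adm b bs a) (h : b ∣ y) :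
    Adm b bs (a + y) := by
  refine ⟨hA.dvd, hA.cop, ?_, fun q hq h1 h2 z hz => hA.non q hq h1 h2 z ?_⟩
  · obtain ⟨z, hz⟩ := hA.spl
    refine ⟨z, ?_⟩
    rw [show a + y + z ^ 2 + z = (a + z ^ 2 + z) + y by ring]
    exact dvd_add hz (hA.dvd.trans h)
  · rw [show a + y + z ^ 2 + z = y + (a + z ^ 2 + z) by ring] at hz
    exact (dvd_add_right (h1.trans h)).1 hz

namespace Tw

variable {k : Type} [Field k] [Finite k] [CharP k 2] {I : Type} [Fintype I] [DecidableEq I]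
  {β : I → k[X]} {L : Type} [Field L] [CharP L 2] (T : Tw β L)

theorem B_pert {a b bs s μ : k[X]} {e : ℕ} {f f' : L} (hP : Par β b s e) (ha : a.natDegree = e)
    (hA : Adm b bs a) (hμ : b ∣ μ) (h1 : 2 * μ.natDegree + 1 < e)
    (h2 : μ.natDegree + s.natDegree + 2 ≤ e) (hf : f ∈ T.Wl bs) (hf' : f' ∈ T.Wl bs) :
    T.B (a + X * μ ^ 2) s f f' = T.B a s f f' + T.R (T.p s ^ 2 * T.p μ ^ 2 /
      (T.p (derivative a) * T.p (derivative (a + X * μ ^ 2))) * (f * f')) := by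
  classical
  have hy : (X * μ ^ 2).natDegree ≤ 2 * μ.natDegree + 1 := by
    refine natDegree_mul_le.trans ?_
    have := natDegree_pow_le (p := μ) (n := 2)
    have := natDegree_X_le (R := k)
    omega
  have ha' : (a + X * μ ^ 2).natDegree = e := by
    rw [natDegree_add_eq_left_of_natDegree_lt (by omega), ha]
  have hby : b ∣ X * μ ^ 2 := Dvd.dvd.mul_left (hμ.trans (dvd_pow_self μ two_ne_zero)) X
  have hA' : Adm b bs (a + X * μ ^ 2) := adm_add hA hby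
  by_cases h0 : f = 0
  · subst h0
    have e1 := T.B_add_left hP ha hA hf hf hf'
    have e2 := T.B_add_left hP ha' hA' hf hf hf'
    rw [add_zero] at e1 e2
    rw [left_eq_add.1 e1, left_eq_add.1 e2, zero_mul, mul_zero, T.R_zero, add_zero]
  obtain ⟨Z, hZ⟩ := T.exists_Z hA.spl hf
  obtain ⟨Zd, hZd⟩ := T.exists_Z (y := X * μ ^ 2) ⟨0, by simpa using hA.dvd.trans hby⟩ hf
  have hZ' : Z + Zd + T.P.c1 (Z + Zd) = T.p (a + X * μ ^ 2) * f := by
    rw [T.P.c1_add, map_add, add_mul, ← hZ, ← hZd]; ring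
  obtain ⟨x, hx, dx, ex, Q, hQ, fQ, xQ⟩ := T.loc_pt hP ha hA.dvd hf h0 hZ
  obtain ⟨y, hy0, dy, ey, Q', hQ', fQ', xQ'⟩ := T.loc_pt hP ha' hA.dvd hf h0 hZ'
  obtain ⟨hal, dal⟩ := T.c1_p_deg hP ha
  obtain ⟨hal', dal'⟩ := T.c1_p_deg hP ha'
  have hη := T.eta_le hP.b_ne hA.dvd hf h0 hZ
  have hη' := T.eta_le hP.b_ne hA.dvd hf h0 hZ'
  have hηd := T.eta_le hP.b_ne hA.dvd hf h0 hZd
  have es : T.P.c1 (T.P.c1 (Z + Zd) / f) = T.P.c1 (T.P.c1 Z / f) + T.P.c1 (T.P.c1 Zd / f) := by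
    rw [T.P.c1_add, add_div, T.P.c1_add]
  rw [es] at ey hη'
  rw [ha] at hη
  rw [ha'] at hη'
  have ea : T.P.c1 (T.p (a + X * μ ^ 2)) = T.P.c1 (T.p a) + T.p μ := by
    rw [map_add, T.P.c1_add, map_mul, map_pow, T.p_X, T.P.c1_b_sq]
  have hγ := gam_nonneg β Finset.univ
  have hfl := T.Wl_le hf
  have hfl' := T.Wl_le hf'
  have hy' : ((X * μ ^ 2).natDegree : ℝ) ≤ 2 * (μ.natDegree : ℝ) + 1 := by exact_mod_cast hy
  have h2' : (μ.natDegree : ℝ) + (s.natDegree : ℝ) + 2 ≤ e := by exact_mod_cast h2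
  have hρ := rho_le T.d hγ (Nat.cast_nonneg b.natDegree) hP.le1
    hP.le2 h2' hx hy0 hal hal' dx dy dal dal' (T.p_mem μ) (DF.Le.mul (T.p_mem s) hfl le_rfl) hη hη'
    (DF.Le.mono hηd (by linarith)) ea ex ey
  have eB := T.B_eq hP ha hA hQ (fQ ▸ hf) hf'
  have eB' := T.B_eq hP ha' hA' hQ' (fQ' ▸ hf) hf'
  rw [fQ, xQ] at eB
  rw [fQ', xQ'] at eB'
  rw [eB, eB', ← T.D_p, ← T.D_p, PB.D, PB.D]
  generalize T.P.c1 (T.p a) = al at *
  generalize T.P.c1 (T.p (a + X * μ ^ 2)) = al' at *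
  have hs : T.p s ^ 2 * f * ((x + y) / (x * y) + T.p μ / (al * al')) ^ 2 * f' ∈ T.d.Le (-2) := by
    refine DF.Le.mul (r := -2 - 2 * gam β Finset.univ) ?_ hfl' (by linarith)
    exact DF.Le.mul (DF.Le.mul (DF.Le.sq (T.p_mem s) le_rfl) hfl le_rfl) (DF.Le.sq hρ le_rfl)
      (by linarith)
  have key : T.p s ^ 2 / (y ^ 2 / f) * f' = T.p s ^ 2 / (x ^ 2 / f) * f' +
      T.p s ^ 2 * T.p μ ^ 2 / (al ^ 2 * al' ^ 2) * (f * f') +
      T.p s ^ 2 * f * ((x + y) / (x * y) + T.p μ / (al * al')) ^ 2 * f' := by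
    rw [CharTwo.add_sq, div_pow, div_pow, CharTwo.add_sq]
    have h2 : (2 : L) = 0 := CharTwo.two_eq_zero
    field_simp
    grind
  rw [key, T.R_add, T.R_add, T.R_small hs, add_zero]

end Tw

end Pool.Agent.Lib.MP_788af2_nt.AS
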