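import Pool.Agent.Lib.MP_788af2_nt.AS.Defs

/-!
The symmetric case of anticoncentration.
-/

set_option linter.unusedSectionVars false

namespace Pool.Agent.Lib.MP_788af2_nt.AS

open Polynomial WeierstrassCurve Pool.Agent.Lib.MP_a3f657_nt.Two

private theorem sym_cb (n : ℕ) : Nat.centralBinom n ^ 2 * (2 * n + 1) ≤ 16 ^ n := by
  induction n with
  | zero => simp
  | succ n ih =>
    have h := Nat.succ_mul_centralBinom_succ n
    have h1 : (n + 1) ^ 2 * (Nat.centralBinom (n + 1) ^ 2 * (2 * (n + 1) + 1)) =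
        4 * ((2 * n + 1) * (2 * n + 3)) * (Nat.centralBinom n ^ 2 * (2 * n + 1)) := by
      calc (n + 1) ^ 2 * (Nat.centralBinom (n + 1) ^ 2 * (2 * (n + 1) + 1))
          = ((n + 1) * Nat.centralBinom (n + 1)) ^ 2 * (2 * n + 3) := by ring
        _ = _ := by rw [h]; ring
    have h2 : 4 * ((2 * n + 1) * (2 * n + 3)) ≤ (n + 1) ^ 2 * 16 := by nlinarith
    have h3 := Nat.mul_le_mul h2 ih
    rw [← h1, mul_assoc] at h3
    have h4 := Nat.le_of_mul_le_mul_left h3 (by positivity)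
    rwa [pow_succ' 16 n]

private theorem sym_rho (w : ℕ) (η : ℝ) (hη : 0 < η) :
    ∃ ρ : ℕ, ∀ j, (w : ℝ) * (ρ.choose j : ℝ) ≤ η * 2 ^ ρ := by
  obtain ⟨n, hn⟩ := exists_nat_ge ((w : ℝ) ^ 2 / η ^ 2)
  refine ⟨2 * n, fun j => ?_⟩
  have h1 : (((2 * n).choose j : ℕ) : ℝ) ≤ Nat.centralBinom n := by
    exact_mod_cast Nat.choose_le_centralBinom j n
  have h2 : (Nat.centralBinom n : ℝ) ^ 2 * (2 * n + 1) ≤ 16 ^ n := by exact_mod_cast sym_cb n
  have h3 : (w : ℝ) ^ 2 ≤ η ^ 2 * (2 * n + 1) := by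
    rw [div_le_iff₀ (by positivity)] at hn
    have : (0 : ℝ) ≤ n := n.cast_nonneg
    nlinarith [sq_nonneg η]
  have h4 : ((w : ℝ) * Nat.centralBinom n) ^ 2 ≤ (η * 2 ^ (2 * n)) ^ 2 := by
    have e : ((2 : ℝ) ^ (2 * n)) ^ 2 = 16 ^ n := by
      rw [← pow_mul, show 2 * n * 2 = 4 * n by ring, pow_mul]
      norm_num
    rw [mul_pow, mul_pow, e]
    calc (w : ℝ) ^ 2 * (Nat.centralBinom n : ℝ) ^ 2
        ≤ η ^ 2 * (2 * n + 1) * (Nat.centralBinom n : ℝ) ^ 2 := by gcongr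
      _ = η ^ 2 * ((Nat.centralBinom n : ℝ) ^ 2 * (2 * n + 1)) := by ring
      _ ≤ _ := by gcongr
  have h5 := (pow_le_pow_iff_left₀ (by positivity) (by positivity) two_ne_zero).1 h4
  exact (mul_le_mul_of_nonneg_left h1 w.cast_nonneg).trans h5

private theorem sym_dvd (A : ℕ) (q : ℤ) (k : ℕ) :
    ∀ d : ℤ, ¬ (2 : ℤ) ^ k ∣ d → (2 : ℤ) ^ (A + k) ∣ d * q → (2 : ℤ) ^ A ∣ q := by
  induction k with
  | zero => intro d h; simp at h
  | succ k ih =>
    intro d h1 h2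
    by_cases h : (2 : ℤ) ∣ d
    · obtain ⟨d', rfl⟩ := h
      refine ih d' (fun h3 => h1 ?_) ?_
      · rw [pow_succ']
        exact mul_dvd_mul_left 2 h3
      · rw [← add_assoc, pow_succ', mul_assoc] at h2
        exact (mul_dvd_mul_iff_left two_ne_zero).1 h2
    · exact (pow_dvd_pow 2 (Nat.le_add_right _ _)).trans
        (Int.prime_two.pow_dvd_of_dvd_mul_left _ h h2)

/-- A polynomial that is nonzero of degree at most `r` modulo two has at most `r` approximate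
roots below `2 ^ k`. -/
private theorem sym_roots (k r : ℕ) : ∀ F : ℤ[X], F.map (Int.castRingHom (ZMod 2)) ≠ 0 →
    (F.map (Int.castRingHom (ZMod 2))).natDegree ≤ r → ∀ s : Finset ℕ,
    (∀ n ∈ s, n < 2 ^ k ∧ (2 : ℤ) ^ (r * k + 1) ∣ F.eval (n : ℤ)) → s.card ≤ r := by
  have ev : ∀ (F : ℤ[X]) (x : ℤ) (m : ℕ), (2 : ℤ) ^ (m + 1) ∣ F.eval x →
      Int.castRingHom (ZMod 2) (F.eval x) = 0 := by
    intro F x m h
    exact (ZMod.intCast_zmod_eq_zero_iff_dvd _ 2).2 ((dvd_pow_self 2 m.succ_ne_zero).trans h)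
  induction r with
  | zero =>
    intro F h0 hd s hs
    rw [Nat.le_zero, Finset.card_eq_zero, Finset.eq_empty_iff_forall_notMem]
    intro n hn
    have h1 := ev F n _ (hs n hn).2
    rw [← eval_map_apply, eq_C_of_natDegree_le_zero hd, eval_C] at h1
    rw [eq_C_of_natDegree_le_zero hd, h1, C_0] at h0
    exact h0 rfl
  | succ r ih =>
    intro F h0 hd s hs
    rcases s.eq_empty_or_nonempty with rfl | ⟨n0, hn0⟩
    · simp
    obtain ⟨Q, hQ⟩ := X_sub_C_dvd_sub_C_eval (p := F) (a := (n0 : ℤ))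
    have h1 := ev F n0 _ (hs n0 hn0).2
    have h2 : F.map (Int.castRingHom (ZMod 2)) =
        (X - C (Int.castRingHom (ZMod 2) n0)) * Q.map (Int.castRingHom (ZMod 2)) := by
      have h3 := congrArg (Polynomial.map (Int.castRingHom (ZMod 2))) hQ
      rwa [Polynomial.map_sub, map_C, h1, C_0, sub_zero, Polynomial.map_mul, Polynomial.map_sub,
        map_X, map_C] at h3
    have hQ0 : Q.map (Int.castRingHom (ZMod 2)) ≠ 0 := by
      intro h
      rw [h2, h, mul_zero] at h0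
      exact h0 rfl
    have hQd : (Q.map (Int.castRingHom (ZMod 2))).natDegree ≤ r := by
      rw [h2, (monic_X_sub_C _).natDegree_mul' hQ0, natDegree_X_sub_C] at hd
      omega
    have h4 := ih Q hQ0 hQd (s.erase n0) (by
      intro n hn
      obtain ⟨hne, hn⟩ := Finset.mem_erase.1 hn
      refine ⟨(hs n hn).1, sym_dvd _ _ k ((n : ℤ) - n0) (fun h => ?_) ?_⟩
      · have h5 : ((2 ^ k : ℕ) : ℤ) ∣ (n : ℤ) - n0 := by exact_mod_cast h
        have h6 := (hs n hn).1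
        have h7 := (hs n0 hn0).1
        have h8 := Int.eq_zero_of_abs_lt_dvd h5 (by rw [abs_lt]; constructor <;> omega)
        omega
      · have h5 := congrArg (eval (n : ℤ)) hQ
        rw [eval_sub, eval_C, eval_mul, eval_sub, eval_X, eval_C] at h5
        rw [← h5, show r * k + 1 + k = (r + 1) * k + 1 by ring]
        exact dvd_sub (hs n hn).2 (hs n0 hn0).2)
    rw [Finset.card_erase_of_mem hn0] at h4
    omega

private theorem sym_odd1 (m : ℕ) : ∃ o : ℕ, Odd o ∧ (m ≠ 0 → 2 * m.factorial ∣ o * 2 ^ m) := by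
  obtain ⟨u, o, ho, h⟩ := Nat.exists_eq_two_pow_mul_odd m.factorial_ne_zero
  refine ⟨o, ho, fun hm => ?_⟩
  have h1 : (u : ℕ∞) ≤ emultiplicity 2 m.factorial :=
    pow_dvd_iff_le_emultiplicity.1 ⟨o, h⟩
  have h2 : u < m := by
    exact_mod_cast h1.trans_lt (Nat.emultiplicity_two_factorial_lt hm)
  rw [h, ← mul_assoc, ← pow_succ', mul_comm o]
  exact mul_dvd_mul_right (pow_dvd_pow 2 h2) o

private theorem sym_odd (ρ : ℕ) :
    ∃ o : ℕ, Odd o ∧ ∀ m, m ≠ 0 → m ≤ ρ → 2 * m.factorial ∣ o * 2 ^ m := by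
  choose o ho using sym_odd1
  refine ⟨∏ m ∈ Finset.range (ρ + 1), o m,
    Finset.prod_induction _ _ (fun a b => Odd.mul) odd_one fun m _ => (ho m).1,
    fun m h0 hm => ((ho m).2 h0).trans (mul_dvd_mul_right ?_ _)⟩
  exact Finset.dvd_prod_of_mem _ (Finset.mem_range.2 (Nat.lt_succ_of_le hm))

private theorem sym_poly {ρ o : ℕ} (ho : ∀ m, m ≠ 0 → m ≤ ρ → 2 * m.factorial ∣ o * 2 ^ m)
    (a : ℕ → ℤ) (ha : ∀ m, m ≤ ρ → (2 : ℤ) ^ m ∣ a m) : ∃ g : ℤ[X], ∀ n : ℕ, n ≤ ρ →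
      (o : ℤ) * ∑ m ∈ Finset.range (n + 1), n.choose m • a m = o * a 0 + 2 * g.eval (n : ℤ) := by
  have h1 : ∀ m, ∃ e : ℤ, m + 1 ≤ ρ → (o : ℤ) * a (m + 1) = 2 * (m + 1).factorial * e := by
    intro m
    by_cases hm : m + 1 ≤ ρ
    · have h2 : (2 : ℤ) * (m + 1).factorial ∣ o * 2 ^ (m + 1) := by
        exact_mod_cast Int.natCast_dvd_natCast.2 (ho (m + 1) m.succ_ne_zero hm)
      obtain ⟨e, he⟩ := h2.trans (mul_dvd_mul_left _ (ha _ hm))
      exact ⟨e, fun _ => he⟩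
    · exact ⟨0, fun h => absurd h hm⟩
  choose e he using h1
  refine ⟨∑ m ∈ Finset.range ρ, C (e m) * descPochhammer ℤ (m + 1), fun n hn => ?_⟩
  have h2 : ∑ m ∈ Finset.range (n + 1), n.choose m • a m =
      ∑ m ∈ Finset.range (ρ + 1), n.choose m • a m := by
    refine Finset.sum_subset (Finset.range_subset_range.2 (by omega)) fun m _ hm => ?_
    rw [Nat.choose_eq_zero_of_lt (by simpa using hm), zero_smul]
  rw [h2, Finset.sum_range_succ', Nat.choose_zero_right, one_smul, mul_add, add_comm,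
    eval_finsetSum, Finset.mul_sum, Finset.mul_sum]
  congr 1
  refine Finset.sum_congr rfl fun m hm => ?_
  rw [eval_mul, eval_C, descPochhammer_eval_eq_descFactorial,
    Nat.descFactorial_eq_factorial_mul_choose, nsmul_eq_mul, mul_left_comm,
    he m (Finset.mem_range.1 hm)]
  push_cast
  ring

theorem sym_case (w : ℕ) (η : ℝ) (hη : 0 < η) : ∃ ρ J : ℕ, ∀ r ≤ w, ∀ (α : Type) [DecidableEq α]
    (B : Finset α), B.card = ρ → ∀ (c : ℕ → Finset α → ℤ) (N₀ : ℕ),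
    (∀ j S, (2 : ℤ) ^ S.card ∣ c j S) →
    (∀ j ≤ r, ∀ S ⊆ B, ∀ S' ⊆ B, S.card = S'.card → (2 : ℤ) ^ J ∣ c j S - c j S') →
    Odd (c r ∅) → ((B.powerset.filter fun C => ∑ j ∈ Finset.range (r + 1),
      (∑ S ∈ C.powerset, c j S) * ((N₀ + C.card : ℕ) : ℤ) ^ j = 0).card : ℝ) ≤ η * 2 ^ ρ := by
  obtain ⟨ρ, hρ⟩ := sym_rho w η hη
  refine ⟨ρ, w * ρ + 1, fun r hr α _ B hB c N₀ hdv hsym hodd => ?_⟩
  have hT : ∀ m, ∃ T : Finset α, m ≤ ρ → T ⊆ B ∧ T.card = m := by
    intro m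
    by_cases hm : m ≤ ρ
    · obtain ⟨T, hT⟩ := Finset.exists_subset_card_eq (s := B) (hB ▸ hm)
      exact ⟨T, fun _ => hT⟩
    · exact ⟨∅, fun h => absurd h hm⟩
  choose T hT using hT
  have hT0 : T 0 = ∅ := Finset.card_eq_zero.1 (hT 0 (Nat.zero_le _)).2
  obtain ⟨o, hoo, ho⟩ := sym_odd ρ
  have hg := fun j => sym_poly ho (fun m => c j (T m)) fun m hm => by
    have := hdv j (T m)
    rwa [(hT m hm).2] at this
  choose g hg using hg
  let F : ℤ[X] := ∑ j ∈ Finset.range (r + 1),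
    (C ((o : ℤ) * c j ∅) + 2 * g j) * (X + C (N₀ : ℤ)) ^ j
  have hF : F.map (Int.castRingHom (ZMod 2)) = ∑ j ∈ Finset.range (r + 1),
      C (Int.castRingHom (ZMod 2) ((o : ℤ) * c j ∅)) *
        (X + C (Int.castRingHom (ZMod 2) (N₀ : ℤ))) ^ j := by
    have h2 : (2 : (ZMod 2)[X]) = 0 := by exact_mod_cast CharP.cast_eq_zero (ZMod 2)[X] 2
    simp only [F, Polynomial.map_sum, Polynomial.map_mul, Polynomial.map_add, Polynomial.map_pow,
      map_X, map_C, Polynomial.map_ofNat, h2, zero_mul, add_zero]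
  have hdeg : ∀ j, ((X + C (Int.castRingHom (ZMod 2) (N₀ : ℤ))) ^ j).natDegree = j := fun j => by
    rw [(monic_X_add_C _).natDegree_pow, natDegree_X_add_C, mul_one]
  have hFd : (F.map (Int.castRingHom (ZMod 2))).natDegree ≤ r := by
    rw [hF]
    refine natDegree_sum_le_of_forall_le _ _ fun j hj => (natDegree_C_mul_le _ _).trans ?_
    rw [hdeg]
    exact Nat.le_of_lt_succ (Finset.mem_range.1 hj)
  have hF0 : F.map (Int.castRingHom (ZMod 2)) ≠ 0 := by
    intro h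
    have h1 := congrArg (fun p => p.coeff r) (hF.symm.trans h)
    simp only [finsetSum_coeff, coeff_C_mul, coeff_zero] at h1
    rw [Finset.sum_range_succ, Finset.sum_eq_zero, zero_add] at h1
    · have h2 := ((monic_X_add_C (Int.castRingHom (ZMod 2) (N₀ : ℤ))).pow r).coeff_natDegree
      rw [hdeg] at h2
      rw [h2, mul_one] at h1
      have h3 : (2 : ℤ) ∣ (o : ℤ) * c r ∅ := (ZMod.intCast_zmod_eq_zero_iff_dvd _ 2).1 h1
      have h4 : Odd ((o : ℤ) * c r ∅) := (Odd.natCast hoo).mul hodd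
      exact Int.not_even_iff_odd.2 h4 (even_iff_two_dvd.2 h3)
    · intro j hj
      rw [coeff_eq_zero_of_natDegree_lt (by rw [hdeg]; exact Finset.mem_range.1 hj), mul_zero]
  let s : Finset ℕ := (Finset.range (ρ + 1)).filter fun n => (2 : ℤ) ^ (r * ρ + 1) ∣ F.eval (n : ℤ)
  have hs : s.card ≤ r := sym_roots ρ r F hF0 hFd s fun n hn => by
    obtain ⟨h1, h2⟩ := Finset.mem_filter.1 hn
    exact ⟨(Nat.le_of_lt_succ (Finset.mem_range.1 h1)).trans_lt Nat.lt_two_pow_self, h2⟩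
  have hsub : (B.powerset.filter fun C => ∑ j ∈ Finset.range (r + 1),
      (∑ S ∈ C.powerset, c j S) * ((N₀ + C.card : ℕ) : ℤ) ^ j = 0) ⊆
      s.biUnion fun n => B.powersetCard n := by
    intro D hD
    obtain ⟨hDB, hD0⟩ := Finset.mem_filter.1 hD
    have hDB := Finset.mem_powerset.1 hDB
    have hDρ : D.card ≤ ρ := hB ▸ Finset.card_le_card hDB
    refine Finset.mem_biUnion.2 ⟨D.card, Finset.mem_filter.2
      ⟨Finset.mem_range.2 (Nat.lt_succ_of_le hDρ), ?_⟩, Finset.mem_powersetCard.2 ⟨hDB, rfl⟩⟩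
    have h1 : F.eval (D.card : ℤ) = -(o : ℤ) * ∑ j ∈ Finset.range (r + 1),
        (∑ S ∈ D.powerset, (c j S - c j (T S.card))) * ((N₀ + D.card : ℕ) : ℤ) ^ j := by
      simp only [Finset.sum_sub_distrib, sub_mul]
      rw [hD0, zero_sub, neg_mul_neg, Finset.mul_sum]
      simp only [F, eval_finsetSum]
      refine Finset.sum_congr rfl fun j _ => ?_
      rw [Finset.sum_powerset_apply_card (f := fun m => c j (T m)), ← mul_assoc, hg j _ hDρ, hT0]
      simp only [eval_mul, eval_add, eval_C, eval_pow, eval_X, eval_ofNat]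
      push_cast
      ring
    rw [h1]
    refine (pow_dvd_pow 2 (Nat.succ_le_succ (Nat.mul_le_mul_right ρ hr))).trans
      (Dvd.dvd.mul_left (Finset.dvd_sum fun j hj => Dvd.dvd.mul_right
        (Finset.dvd_sum fun S hS => ?_) _) _)
    have hSD := Finset.mem_powerset.1 hS
    have hSρ : S.card ≤ ρ := (Finset.card_le_card hSD).trans hDρ
    exact hsym j (Nat.le_of_lt_succ (Finset.mem_range.1 hj)) S (hSD.trans hDB) _ (hT _ hSρ).1
      (hT _ hSρ).2.symm
  have h1 := (Finset.card_le_card hsub).trans Finset.card_biUnion_le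
  have h2 : ∑ n ∈ s, (B.powersetCard n).card ≤ w * ρ.choose (ρ / 2) := by
    refine (Finset.sum_le_card_nsmul s _ (ρ.choose (ρ / 2)) fun n _ => ?_).trans ?_
    · rw [Finset.card_powersetCard, hB]
      exact Nat.choose_le_middle n ρ
    · exact Nat.mul_le_mul_right _ (hs.trans hr)
  refine le_trans ?_ (hρ (ρ / 2))
  exact_mod_cast h1.trans h2

end Pool.Agent.Lib.MP_788af2_nt.AS
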