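import Pool.Agent.Lib.MP_788af2_nt.AS.Defs

/-!
Linear algebra of alternating forms over the field with two elements.
-/

set_option linter.unusedSectionVars false

namespace Pool.Agent.Lib.MP_788af2_nt.AS

open Polynomial WeierstrassCurve Pool.Agent.Lib.MP_a3f657_nt.Two

open Matrix

private lemma tgtA_succ (x : ZMod 2) : sg (x + 1) = -sg x := by
  revert x
  decide

private lemma tgtA_one {x : ZMod 2} (h : x ≠ 0) : x = 1 := by
  revert x
  decide

/-- The sum of a nontrivial sign character vanishes. -/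
private lemma tgtA_sum {A : Type} [AddCommGroup A] [Fintype A] (φ : A →+ ZMod 2) {a : A}
    (ha : φ a ≠ 0) : ∑ x, sg (φ x) = 0 := by
  have h1 : ∑ x, sg (φ (x + a)) = ∑ x, sg (φ x) :=
    Fintype.sum_equiv (Equiv.addRight a) _ _ fun _ => rfl
  simp only [map_add, tgtA_one ha, tgtA_succ, Finset.sum_neg_distrib] at h1
  omega

private lemma tgtA_sum_nonneg {A : Type} [AddCommGroup A] [Fintype A] (φ : A →+ ZMod 2) :
    0 ≤ ∑ x, sg (φ x) := by
  by_cases h : ∀ a, φ a = 0
  · simp [h, sg]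
  · obtain ⟨a, ha⟩ := not_forall.1 h
    exact (tgtA_sum φ ha).ge

/-- First moment argument for an abstract biadditive map. -/
private lemma tgtA_abs {K V : Type} [AddCommGroup K] [Fintype K] [AddCommGroup V]
    (h2 : ∀ x : V, x + x = 0) (Om : K → K →+ V)
    (hne : ∀ u v, u ≠ 0 → v ≠ 0 → u ≠ v → Om u v ≠ 0) :
    ∃ μ : V →+ ZMod 2, ∀ u v, u ≠ 0 → v ≠ 0 → (∀ x, μ (Om u x) = 0) → (∀ x, μ (Om v x) = 0) →
      u = v := by
  classical
  have hsep : ∀ y : V, ∃ χ : V →+ ZMod 2, y ≠ 0 → χ y ≠ 0 := by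
    intro y
    by_cases hy : y = 0
    · exact ⟨0, fun h => absurd hy h⟩
    · obtain ⟨χ, h, -⟩ := exists_sep_hom h2 ⊥ (v := y) (by simpa using hy)
      exact ⟨χ, fun _ => h⟩
  choose χ hχ using hsep
  let m : (K × K → ZMod 2) → V →+ ZMod 2 := fun c =>
    AddMonoidHom.mk' (fun y => ∑ p, c p * χ (Om p.1 p.2) y) fun y y' => by
      simp only [map_add, mul_add, Finset.sum_add_distrib]
  let ev : V → (K × K → ZMod 2) →+ ZMod 2 := fun y =>
    AddMonoidHom.mk' (fun c => ∑ p, c p * χ (Om p.1 p.2) y) fun c c' => by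
      simp only [Pi.add_apply, add_mul, Finset.sum_add_distrib]
  obtain ⟨N, hN⟩ : ∃ N : ℤ, N = (Fintype.card (K × K → ZMod 2) : ℤ) := ⟨_, rfl⟩
  have hN0 : 0 < N := by
    rw [hN]
    exact_mod_cast Fintype.card_pos
  have h1 : ∀ u v, ∑ c, sg (m c (Om u v)) ≤ if Om u v = 0 then N else 0 := by
    intro u v
    split_ifs with h
    · simp [h, sg, hN]
    · refine (tgtA_sum (ev (Om u v)) (a := Pi.single (u, v) 1) ?_).le
      change ∑ p, (Pi.single (u, v) (1 : ZMod 2) : K × K → ZMod 2) p *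
        χ (Om p.1 p.2) (Om u v) ≠ 0
      rw [Finset.sum_eq_single (u, v)]
      · simpa using hχ _ h
      · intro p _ hp
        simp [hp]
      · simp
  have h3 : ∀ u, u ≠ 0 → ∑ v, ∑ c, sg (m c (Om u v)) ≤ 2 * N := by
    intro u hu
    refine (Finset.sum_le_sum fun v _ => h1 u v).trans ?_
    calc ∑ v, (if Om u v = 0 then N else 0)
        ≤ ∑ v, ((if v = 0 then N else 0) + if v = u then N else 0) := by
          refine Finset.sum_le_sum fun v _ => ?_
          by_cases e1 : v = 0
          · have := hN0.le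
            simp only [if_pos e1]
            split_ifs <;> omega
          by_cases e2 : v = u
          · simp only [if_neg e1, if_pos e2]
            split_ifs <;> omega
          · simp [e1, e2, hne u v hu e1 (Ne.symm e2)]
      _ = 2 * N := by
          simp only [Finset.sum_add_distrib, Finset.sum_ite_eq', Finset.mem_univ, if_true]
          ring
  by_contra hcon
  have h4 : ∀ c, 2 * (Fintype.card K : ℤ) ≤
      ∑ u ∈ Finset.univ.erase (0 : K), ∑ v, sg (m c (Om u v)) := by
    intro c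
    have h5 : ¬ ∀ u v, u ≠ 0 → v ≠ 0 → (∀ x, m c (Om u x) = 0) → (∀ x, m c (Om v x) = 0) →
        u = v := fun h => hcon ⟨m c, h⟩
    push Not at h5
    obtain ⟨u, v, hu, hv, h6, h7, huv⟩ := h5
    calc 2 * (Fintype.card K : ℤ) = ∑ w ∈ ({u, v} : Finset K), ∑ x, sg (m c (Om w x)) := by
          rw [Finset.sum_pair huv]
          simp [h6, h7, sg]
          ring
      _ ≤ _ := by
          refine Finset.sum_le_sum_of_subset_of_nonneg ?_ fun w _ _ =>
            tgtA_sum_nonneg ((m c).comp (Om w))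
          intro w hw
          simp only [Finset.mem_insert, Finset.mem_singleton] at hw
          rcases hw with rfl | rfl <;> simpa
  have h8 : N * (2 * (Fintype.card K : ℤ)) ≤
      ∑ c, ∑ u ∈ Finset.univ.erase (0 : K), ∑ v, sg (m c (Om u v)) := by
    refine le_trans ?_ (Finset.sum_le_sum fun c _ => h4 c)
    simp [hN]
  have h9 : ∑ c, ∑ u ∈ Finset.univ.erase (0 : K), ∑ v, sg (m c (Om u v)) ≤
      ∑ _u ∈ Finset.univ.erase (0 : K), 2 * N := by
    rw [Finset.sum_comm]
    refine Finset.sum_le_sum fun u hu => ?_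
    rw [Finset.sum_comm]
    exact h3 u (Finset.ne_of_mem_erase hu)
  have h10 : ((Finset.univ.erase (0 : K)).card : ℤ) + 1 = Fintype.card K := by
    exact_mod_cast Finset.card_erase_add_one (Finset.mem_univ (0 : K))
  rw [Finset.sum_const, nsmul_eq_mul] at h9
  nlinarith

private lemma tgtA_zc {V : Type} [CommRing V] [CharP V 2] (μ : V →+ ZMod 2) (a : ZMod 2) (y : V) :
    μ (zc V a * y) = a * μ y := by
  by_cases h : a = 0
  · simp [h]
  · simp [tgtA_one h]

theorem target {W : Type} [Fintype W] [DecidableEq W] {V : Type} [CommRing V] [CharP V 2]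
    (om : W → W → V) (h0 : ∀ q, om q q = 0) (hs : ∀ q q', om q q' = om q' q)
    (hne : ∀ u v : W → ZMod 2, u ≠ 0 → v ≠ 0 → u ≠ v →
      ∑ q, ∑ q', zc V (u q * v q') * om q q' ≠ 0) (B0 : Matrix W W (ZMod 2)) :
    ∃ μ : V →+ ZMod 2, Small B0 (Matrix.of fun q q' => μ (om q q')) := by
  classical
  let K : AddSubgroup (W → ZMod 2) := (Matrix.mulVecLin B0).toAddMonoidHom.ker
  let _ : Fintype K := Fintype.ofFinite K
  let Om : K → K →+ V := fun u =>
    AddMonoidHom.mk' (fun v => ∑ q, ∑ q', zc V (u.1 q * v.1 q') * om q q') fun v v' => by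
      simp only [AddSubgroup.coe_add, Pi.add_apply, mul_add, map_add, add_mul,
        Finset.sum_add_distrib]
  obtain ⟨μ, hμ⟩ := tgtA_abs (fun x : V => CharTwo.add_self_eq_zero x) Om fun u v hu hv huv =>
    hne u.1 v.1 (fun h => hu (Subtype.ext h)) (fun h => hv (Subtype.ext h))
      fun h => huv (Subtype.ext h)
  have key : ∀ u x : K, μ (Om u x) = u.1 ⬝ᵥ (Matrix.of fun q q' => μ (om q q')).mulVec x.1 := by
    intro u x
    change μ (∑ q, ∑ q', zc V (u.1 q * x.1 q') * om q q') = _
    simp only [map_sum, tgtA_zc, dotProduct, Matrix.mulVec, Matrix.of_apply, Finset.mul_sum]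
    exact Finset.sum_congr rfl fun q _ => Finset.sum_congr rfl fun q' _ => by ring
  refine ⟨μ, fun u v hu hv hu0 hv0 h1 h2 => ?_⟩
  have := hμ ⟨u, hu0⟩ ⟨v, hv0⟩ (fun h => hu (congrArg Subtype.val h))
    (fun h => hv (congrArg Subtype.val h)) (fun x => (key _ x).trans (h1 x.1 x.2))
    fun x => (key _ x).trans (h2 x.1 x.2)
  exact congrArg Subtype.val this

end Pool.Agent.Lib.MP_788af2_nt.AS
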