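import Pool.Agent.Lib.MP_788af2_nt.AS.Curve

/-!
Transport of points.
-/

set_option linter.unusedSectionVars false

namespace Pool.Agent.Lib.MP_788af2_nt.AS

open Polynomial WeierstrassCurve Pool.Agent.Lib.MP_a3f657_nt.Two

variable {F : Type} [Field F] [CharP F 2] [DecidableEq F]

section aux

variable {F' : Type} [Field F'] [CharP F' 2] [DecidableEq F'] (φ : F →+* F')
    (W : Affine F) (W' : Affine F') (u r : F') (h1 : W.a₁ = 1) (h3 : W.a₃ = 0) (h1' : W'.a₁ = 1)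
    (h3' : W'.a₃ = 0) (h2 : W'.a₂ = φ W.a₂ + wp u) (h4 : W'.a₄ = φ W.a₄ + r)
    (h6 : W'.a₆ = φ W.a₆ + r ^ 2)

include h1 h3 h1' h3' h2 h4 h6

private lemma tm_ns {x y : F} (h : W.Nonsingular x y) :
    W'.Nonsingular (φ x) (φ y + u * φ x + r) := by
  have t : (2 : F') = 0 := CharTwo.two_eq_zero
  rw [Affine.nonsingular_iff', Affine.equation_iff] at h ⊢
  obtain ⟨he, hn⟩ := h
  have he' := congrArg φ he
  rw [h1, h3] at he' hn
  simp only [map_add, map_mul, map_pow, map_one, map_zero] at he'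
  rw [h1', h3', h2, h4, h6, wp]
  refine ⟨by linear_combination he' + (φ y * u * φ x + φ y * r + u * φ x * r) * t, ?_⟩
  by_cases hx : x = 0
  · left
    subst hx
    rcases hn with hn | hn
    · intro hc
      apply hn
      apply φ.injective
      simp only [map_sub, map_add, map_mul, map_pow, map_one, map_zero, map_ofNat] at hc ⊢
      linear_combination hc
    · exfalso
      apply hn
      have t0 : (2 : F) = 0 := CharTwo.two_eq_zero
      linear_combination y * t0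
  · right
    intro hc
    apply hx
    apply φ.injective
    rw [map_zero]
    linear_combination hc - (φ y + u * φ x + r) * t

private lemma tm_negY (x y : F) :
    W'.negY (φ x) (φ y + u * φ x + r) = φ (W.negY x y) + u * φ x + r := by
  have t : (2 : F') = 0 := CharTwo.two_eq_zero
  simp only [Affine.negY, h1, h3, h1', h3', map_sub, map_neg, map_mul, map_one, map_zero]
  linear_combination (-(u * φ x) - r) * t

private lemma tm_cond {x₁ x₂ y₁ y₂ : F} :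
    (φ x₁ = φ x₂ ∧ φ y₁ + u * φ x₁ + r = W'.negY (φ x₂) (φ y₂ + u * φ x₂ + r)) ↔
      (x₁ = x₂ ∧ y₁ = W.negY x₂ y₂) := by
  rw [tm_negY φ W W' u r h1 h3 h1' h3' h2 h4 h6]
  constructor
  · rintro ⟨hx, hy⟩
    refine ⟨φ.injective hx, φ.injective ?_⟩
    rw [hx] at hy
    linear_combination hy
  · rintro ⟨hx, hy⟩
    rw [hx, hy]
    exact ⟨rfl, rfl⟩

private lemma tm_slope {x₁ x₂ y₁ y₂ : F} (e₁ : W.Equation x₁ y₁) (e₂ : W.Equation x₂ y₂)
    (hxy : ¬(x₁ = x₂ ∧ y₁ = W.negY x₂ y₂)) :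
    W'.slope (φ x₁) (φ x₂) (φ y₁ + u * φ x₁ + r) (φ y₂ + u * φ x₂ + r) =
      φ (W.slope x₁ x₂ y₁ y₂) + u := by
  have t : (2 : F') = 0 := CharTwo.two_eq_zero
  have t0 : (2 : F) = 0 := CharTwo.two_eq_zero
  by_cases hx : x₁ = x₂
  · have hy : y₁ ≠ W.negY x₂ y₂ := fun h => hxy ⟨hx, h⟩
    have hyy : y₁ = y₂ := Affine.Y_eq_of_Y_ne e₁ e₂ hx hy
    subst hx
    subst hyy
    have hy' : φ y₁ + u * φ x₁ + r ≠ W'.negY (φ x₁) (φ y₁ + u * φ x₁ + r) := fun h =>
      hxy ((tm_cond φ W W' u r h1 h3 h1' h3' h2 h4 h6).1 ⟨rfl, h⟩)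
    have d : y₁ - W.negY x₁ y₁ = x₁ := by
      simp only [Affine.negY, h1, h3]
      linear_combination y₁ * t0
    have d' : φ y₁ + u * φ x₁ + r - W'.negY (φ x₁) (φ y₁ + u * φ x₁ + r) = φ x₁ := by
      simp only [Affine.negY, h1', h3']
      linear_combination (φ y₁ + u * φ x₁ + r) * t
    have hx0 : x₁ ≠ 0 := by
      intro h
      apply hy
      rw [h] at d ⊢
      exact sub_eq_zero.1 d
    have hx1 : φ x₁ ≠ 0 := (map_ne_zero φ).2 hx0
    rw [Affine.slope_of_Y_ne rfl hy, Affine.slope_of_Y_ne rfl hy', d, d', h1, h1', h2, h4]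
    simp only [map_div₀, map_sub, map_add, map_mul, map_pow, map_one, map_ofNat]
    field_simp
    linear_combination (φ x₁ * wp u - u * φ x₁) * t
  · have hx' : φ x₁ ≠ φ x₂ := fun h => hx (φ.injective h)
    have hd : φ x₁ - φ x₂ ≠ 0 := sub_ne_zero.2 hx'
    rw [Affine.slope_of_X_ne hx, Affine.slope_of_X_ne hx']
    simp only [map_div₀, map_sub]
    field_simp
    ring

private lemma tm_addX (x₁ x₂ l : F) :
    W'.addX (φ x₁) (φ x₂) (φ l + u) = φ (W.addX x₁ x₂ l) := by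
  have t : (2 : F') = 0 := CharTwo.two_eq_zero
  simp only [Affine.addX, h1, h1', h2, wp, map_sub, map_add, map_mul, map_pow, map_one]
  linear_combination (φ l * u) * t

private lemma tm_addY (x₁ x₂ y₁ l : F) :
    W'.addY (φ x₁) (φ x₂) (φ y₁ + u * φ x₁ + r) (φ l + u) =
      φ (W.addY x₁ x₂ y₁ l) + u * φ (W.addX x₁ x₂ l) + r := by
  rw [Affine.addY, Affine.addY, ← tm_negY φ W W' u r h1 h3 h1' h3' h2 h4 h6, Affine.negAddY,
    Affine.negAddY, tm_addX φ W W' u r h1 h3 h1' h3' h2 h4 h6]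
  congr 1
  simp only [map_add, map_mul, map_sub]
  ring

end aux

/-- Transport of points along a field embedding followed by `y ↦ y + u x + r`. -/
lemma exists_tmap {F' : Type} [Field F'] [CharP F' 2] [DecidableEq F'] (φ : F →+* F')
    (W : Affine F) (W' : Affine F') (u r : F') (h1 : W.a₁ = 1) (h3 : W.a₃ = 0) (h1' : W'.a₁ = 1)
    (h3' : W'.a₃ = 0) (h2 : W'.a₂ = φ W.a₂ + wp u) (h4 : W'.a₄ = φ W.a₄ + r)
    (h6 : W'.a₆ = φ W.a₆ + r ^ 2) :
    ∃ j : W.Point →+ W'.Point, Function.Injective j ∧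
      ∀ P, P ≠ 0 → xc (j P) = φ (xc P) ∧ yc (j P) = φ (yc P) + u * φ (xc P) + r := by
  let f : W.Point → W'.Point := fun P => match P with
    | .zero => .zero
    | .some _ _ h => .some _ _ (tm_ns φ W W' u r h1 h3 h1' h3' h2 h4 h6 h)
  have f0 : f 0 = 0 := rfl
  have fs : ∀ (x y : F) (h : W.Nonsingular x y),
      f (.some x y h) = .some _ _ (tm_ns φ W W' u r h1 h3 h1' h3' h2 h4 h6 h) := fun _ _ _ => rfl
  have fadd : ∀ P Q, f (P + Q) = f P + f Q := by
    rintro (_ | ⟨x₁, y₁, n₁⟩) (_ | ⟨x₂, y₂, n₂⟩)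
    any_goals rfl
    by_cases hxy : x₁ = x₂ ∧ y₁ = W.negY x₂ y₂
    · have hc := (tm_cond φ W W' u r h1 h3 h1' h3' h2 h4 h6).2 hxy
      rw [Affine.Point.add_of_Y_eq hxy.1 hxy.2, fs _ _ n₁, fs _ _ n₂,
        Affine.Point.add_of_Y_eq hc.1 hc.2, f0]
    · have hc := fun h => hxy ((tm_cond φ W W' u r h1 h3 h1' h3' h2 h4 h6).1 h)
      rw [Affine.Point.add_some hxy, fs _ _ n₁, fs _ _ n₂, fs _ _ (Affine.nonsingular_add n₁ n₂ hxy),
        Affine.Point.add_some hc]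
      simp only [Affine.Point.some.injEq]
      rw [tm_slope φ W W' u r h1 h3 h1' h3' h2 h4 h6 n₁.1 n₂.1 hxy,
        tm_addX φ W W' u r h1 h3 h1' h3' h2 h4 h6, tm_addY φ W W' u r h1 h3 h1' h3' h2 h4 h6]
      exact ⟨rfl, rfl⟩
  refine ⟨AddMonoidHom.mk' f fadd, ?_, ?_⟩
  · rw [injective_iff_map_eq_zero]
    rintro (_ | ⟨x, y, n⟩) h
    · rfl
    · exact absurd h (Affine.Point.some_ne_zero _)
  · rintro (_ | ⟨x, y, n⟩) h
    · exact absurd rfl h
    · exact ⟨rfl, rfl⟩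

private lemma frob_iter (a b : F) (k : ℕ) :
    ∃ j : (Eb a b).Point →+ (Eb a (b ^ 2 ^ k)).Point, Function.Injective j := by
  have t : (2 : F) = 0 := CharTwo.two_eq_zero
  haveI : Fact (Nat.Prime 2) := ⟨Nat.prime_two⟩
  induction k with
  | zero =>
    obtain ⟨j, hj, -⟩ := exists_tmap (RingHom.id F) (Eb a b) (Eb a (b ^ 2 ^ 0)) 0 0 rfl rfl rfl rfl
      (by simp [Eb, wp]) (by simp [Eb]) (by simp [Eb])
    exact ⟨j, hj⟩
  | succ k ih =>
    obtain ⟨j, hj⟩ := ih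
    obtain ⟨j', hj', -⟩ := exists_tmap (frobenius F 2) (Eb a (b ^ 2 ^ k)) (Eb a (b ^ 2 ^ (k + 1)))
      a 0 rfl rfl rfl rfl
      (by simp only [Eb, wp, frobenius_def]; linear_combination (-a ^ 2) * t)
      (by simp [Eb]) (by simp only [Eb, frobenius_def]; rw [pow_succ 2 k, pow_mul]; ring)
    exact ⟨j'.comp j, hj'.comp hj⟩

/-- Iterated Frobenius. -/
lemma frob_inj (a b : F) (i : ℕ) :
    ∃ j : (Eb a b).Point →+ (Ec a (b ^ 2 ^ i)).Point, Function.Injective j := by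
  have t : (2 : F) = 0 := CharTwo.two_eq_zero
  obtain ⟨j, hj⟩ := frob_iter a b (i + 2)
  obtain ⟨j', hj', -⟩ := exists_tmap (RingHom.id F) (Eb a (b ^ 2 ^ (i + 2))) (Ec a (b ^ 2 ^ i))
    0 ((b ^ 2 ^ i) ^ 2) rfl rfl rfl rfl (by simp [Eb, Ec, wp]) (by simp [Eb, Ec])
    (by
      simp only [Eb, Ec, RingHom.id_apply]
      rw [pow_add 2 i 2, pow_mul]
      linear_combination (-(b ^ 2 ^ i) ^ 4) * t)
  exact ⟨j'.comp j, hj'.comp hj⟩

end Pool.Agent.Lib.MP_788af2_nt.AS
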