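import Pool.Agent.Lib.MP_788af2_nt.AS.Loc1
import Pool.Agent.Lib.MP_788af2_nt.AS.Glob

/-!
The lattice of global points near infinity.
-/

set_option linter.unusedSectionVars false

namespace Pool.Agent.Lib.MP_788af2_nt.AS

open Polynomial WeierstrassCurve Pool.Agent.Lib.MP_a3f657_nt.Two

namespace Tw

variable {k : Type} [Field k] [Finite k] [CharP k 2] {I : Type} [Fintype I] [DecidableEq I]
  {β : I → k[X]} {L : Type} [Field L] [CharP L 2] (T : Tw β L)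

variable [DecidableEq L] {a b s : k[X]} {e : ℕ}

/-- The global points near infinity. -/
def Mg (hP : Par β b s e) (ha : a.natDegree = e) : AddSubgroup (T.Cv a s).Point where
  carrier := {Q | T.InM a s Q ∧ T.InG Q}
  zero_mem' := ⟨Or.inl rfl, zero_mem T.Lg, zero_mem T.Lg⟩
  add_mem' hx hy := ⟨T.InM_add hP ha hx.1 hy.1,
    sub_add T.Lg (T.e_mem_Lg _) (T.e_mem_Lg _) hx.2.1 hx.2.2 hy.2.1 hy.2.2⟩
  neg_mem' hx := ⟨T.InM_neg hx.1, by rw [xc_neg]; exact hx.2.1, by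
    rw [yc_neg]; exact add_mem hx.2.2 hx.2.1⟩

/-- The Galois action on the lattice. -/
noncomputable def sM (hP : Par β b s e) (ha : a.natDegree = e) (g : G I) :
    T.Mg hP ha →+ T.Mg hP ha :=
  ((T.sP a s g).comp (T.Mg hP ha).subtype).codRestrict _ fun Q =>
    ⟨T.InM_sP g Q.2.1, by
      change xc (T.sP a s g Q) ∈ _
      rw [xc_sP]; exact T.σ_Lg g Q.2.2.1, by
      change yc (T.sP a s g Q) ∈ _
      rw [yc_sP]; exact T.σ_Lg g Q.2.2.2⟩

lemma coe_sM (hP : Par β b s e) (ha : a.natDegree = e) (g : G I) (Q : T.Mg hP ha) :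
    (T.sM hP ha g Q).1 = T.sP a s g Q.1 := rfl

/-- The descent data of a global point near infinity. -/
lemma glob_pt (hP : Par β b s e) {bs : k[X]} (hA : Adm b bs a) {Q : (T.Cv a s).Point}
    (h1 : T.InM a s Q) (h2 : T.InG Q) : T.ff Q ∈ T.Wl bs ∧
      ∃ ζ ∈ T.Lg, ∃ o ∈ T.O, T.p s ^ 2 / xc Q + wp ζ = T.p bs * o := by
  rcases h1 with h1 | h1
  · have hx : xc Q = 0 := by rw [h1]; rfl
    refine ⟨?_, 0, zero_mem _, 0, zero_mem _, by simp [hx]⟩
    have : T.ff Q = 0 := by simp [ff, hx]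
    rw [this]
    exact T.Wl_zero bs
  · have h0 : xc Q ≠ 0 := (DF.not_mem_Le.1 h1).1
    exact T.glob hP.dvd hP.b_ne hP.pow hA h2.1 (div_mem h2.2 h2.1) h0 (wp_pt Q h0)

lemma ps_ne (hP : Par β b s e) : T.p s ≠ 0 := by
  obtain ⟨j, hj⟩ := hP.pow
  exact T.p_ne (by rw [hj]; exact pow_ne_zero _ hP.b_ne)

/-- A global point near infinity with trivial logarithmic derivative is a double. -/
lemma half_Mg (hP : Par β b s e) (ha : a.natDegree = e) {bs : k[X]} (hA : Adm b bs a)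
    (m : T.Mg hP ha) (hf : T.ff m.1 = 0) : ∃ m', m = m' + m' := by
  by_cases h0 : m.1 = 0
  · exact ⟨0, Subtype.ext (by simpa using h0)⟩
  obtain ⟨w, hw, hw1, hh⟩ := T.sq_of_ff_zero hP ha m.2.1 h0 hf
  have hγ := gam_nonneg β (Finset.univ : Finset I)
  obtain ⟨u, hu, hu1⟩ := T.hensel _ _ (by linarith) hh
  obtain ⟨-, ζ, hζ, o, ho, hζo⟩ := T.glob_pt hP hA m.2.1 m.2.2
  have hO : u + ζ ∈ T.O := T.of_wp_O (by
    rw [wp_add, hu1, hζo]
    exact mul_mem (T.p_mem_O bs) ho)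
  have huL : u ∈ T.Lg := by
    have := sub_mem (T.O_le_Lg hO) hζ
    rwa [add_sub_cancel_right] at this
  have hwL : w ∈ T.Lg := by
    have := T.c0_Lg m.2.2.1
    rwa [hw, PB.c0_sq] at this
  obtain ⟨hw0, hwd⟩ := DF.not_mem_Le.1 hw1
  obtain ⟨Q, hQ, hx, hy⟩ := half (T.ps_ne hP) hw0 hw hu1.symm
  have h1 := DF.deg_add_lt (d := T.d) (one_ne_zero (α := L)) hu (by rw [DF.deg_one]; linarith)
  rw [add_comm, DF.deg_one] at h1
  have hxL : xc Q ∈ T.Lg := by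
    rw [hx]
    exact mul_mem hwL (add_mem huL (one_mem _))
  have hz : yc m.1 / xc m.1 + w + u ∈ T.Lg :=
    add_mem (add_mem (div_mem m.2.2.2 m.2.2.1) hwL) huL
  have hM : T.InM a s Q := by
    refine Or.inr (DF.not_mem_Le.2 ?_)
    rw [hx, T.d.deg_mul hw0 h1.1, h1.2, add_zero]
    exact ⟨mul_ne_zero hw0 h1.1, hwd⟩
  have hG : T.InG Q := by
    refine ⟨hxL, ?_⟩
    rcases hy with hy | hy
    · rw [hy]; exact mul_mem hxL hz
    · rw [hy]; exact mul_mem hxL (add_mem hz (one_mem _))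
  exact ⟨⟨Q, hM, hG⟩, Subtype.ext hQ.symm⟩

/-- Global points are orthogonal to the logarithmic forms. -/
lemma B_glob (hP : Par β b s e) (ha : a.natDegree = e) {bs : k[X]} (hA : Adm b bs a)
    {Q : (T.Cv a s).Point} (h1 : T.InM a s Q) (h2 : T.InG Q) {f' : L} (hf' : f' ∈ T.Wl bs) :
    T.B a s (T.ff Q) f' = 0 := by
  obtain ⟨hf, ζ, -, o, ho, hζo⟩ := T.glob_pt hP hA h1 h2
  rw [T.B_eq hP ha hA h1 hf hf']
  have e1 : T.p s ^ 2 / xc Q * f' = wp ζ * f' + o * (T.p bs * f') := by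
    have : T.p s ^ 2 / xc Q = wp ζ + T.p bs * o := by
      rw [← hζo]
      generalize T.p s ^ 2 / xc Q = h
      grind
    rw [this]; ring
  rw [e1, T.R_add, T.R_wp_mul hf'.1, T.R_O (mul_mem ho hf'.2), add_zero]

theorem exists_lat (hP : Par β b s e) (ha : a.natDegree = e) {S : Finset k[X]}
    (hA : Adm b (∏ q ∈ S, q) a) {ft : S → L} {ν : L → S → ZMod 2} (hL : T.LogB S ft ν) :
    ∃ νM : T.Mg hP ha →+ (S → ZMod 2), Lat (T.sM hP ha) νM (T.Bm a s ft) := by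
  have hW : ∀ m : T.Mg hP ha, T.ff m.1 ∈ T.Wl (∏ q ∈ S, q) := fun m =>
    (T.glob_pt hP hA m.2.1 m.2.2).1
  let νM : T.Mg hP ha →+ (S → ZMod 2) := AddMonoidHom.mk' (fun m => ν (T.ff m.1)) fun m m' => by
    rw [← hL.ν_add _ (hW m) _ (hW m')]
    exact congrArg ν (ff_add T.P (T.ps_ne hP) m.1 m'.1)
  have hν : ∀ (g : G I) (m : T.Mg hP ha), νM (T.sM hP ha g m) = ν (T.σ g (T.ff m.1)) :=
    fun g m => by rw [← T.ff_sP g m.1]; rfl
  refine ⟨νM, fun m => Subtype.ext (T.sP_zero m.1), fun g h m => Subtype.ext (T.sP_add g h m.1),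
    fun n m hn h => Subtype.ext (T.InM_tf hP ha m.2.1 hn (congrArg Subtype.val h)),
    fun m h => T.half_Mg hP ha hA m ?_, fun m j => ?_⟩
  · rw [hL.dec _ (hW m)]
    refine Finset.sum_eq_zero fun g _ => Finset.sum_eq_zero fun q _ => ?_
    rw [← hν, h g, Pi.zero_apply, map_zero, zero_mul]
  · have h1 := T.B_glob hP ha hA m.2.1 m.2.2 (hL.mem j)
    have h2 := T.B_sum_left hP ha hA (Finset.univ : Finset (G I × S))
      (fun i => ν (T.σ i.1 (T.ff m.1)) i.2) (F := fun i => T.σ i.1 (ft i.2))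
      (fun i _ => T.Wl_σ i.1 (hL.mem i.2)) (hL.mem j)
    rw [Fintype.sum_prod_type, Fintype.sum_prod_type, ← hL.dec _ (hW m), h1] at h2
    rw [h2]
    refine Finset.sum_congr rfl fun g _ => Finset.sum_congr rfl fun q _ => ?_
    rw [hν]
    rfl

end Tw

end Pool.Agent.Lib.MP_788af2_nt.AS
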